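import Mathlib

/-!
# MP_ccb602_co: box graphs, pairs of boxes, chains

`Ch r j u v`: there is an `r`-chain with `j` steps from `u` to `v`.
Main results: `colour_of_outdeg` (degenerate digraphs), `colour_of_chain` (height colouring),
`base_colouring` (after polynomially many parts only bad pairs remain).
-/

set_option autoImplicit false

namespace Box85

open Finset

section Chains

variable {V : Type*}

/-- an `r`-chain with `j` steps from `u` to `v` -/
def Ch (r : V → V → Prop) : ℕ → V → V → Prop
  | 0, u, v => u = v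
  | j + 1, u, v => ∃ x, r u x ∧ Ch r j x v

theorem ch_one {r : V → V → Prop} {u v : V} (h : r u v) : Ch r 1 u v := ⟨v, h, rfl⟩

theorem ch_add {r : V → V → Prop} : ∀ (i j : ℕ) (u v w : V), Ch r i u v → Ch r j v w →
    Ch r (i + j) u w
  | 0, j, u, v, w, h1, h2 => by
    have h : u = v := h1
    rw [h, Nat.zero_add]; exact h2
  | i + 1, j, u, v, w, h1, h2 => by
    obtain ⟨x, hx, h3⟩ := h1
    have h4 := ch_add i j x v w h3 h2
    have h5 : i + 1 + j = (i + j) + 1 := by omega
    rw [h5]
    exact ⟨x, hx, h4⟩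

theorem ch_mono {r s : V → V → Prop} (hrs : ∀ x y, r x y → s x y) :
    ∀ (j : ℕ) (u v : V), Ch r j u v → Ch s j u v
  | 0, _, _, h => h
  | j + 1, _, v, ⟨x, hx, h⟩ => ⟨x, hrs _ _ hx, ch_mono hrs j x v h⟩

theorem ch_rev {r : V → V → Prop} :
    ∀ (j : ℕ) (u v : V), Ch r j u v → Ch (fun x y => r y x) j v u
  | 0, _, _, h => Eq.symm h
  | j + 1, u, v, ⟨x, hx, h⟩ => by
    have h1 := ch_rev j x v h
    exact ch_add j 1 v x u h1 (ch_one (r := fun x y => r y x) hx)

theorem ch_rel {r : V → V → Prop} (ht : ∀ x y z, r x y → r y z → r x z) :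
    ∀ (j : ℕ) (u v : V), Ch r (j + 1) u v → r u v
  | 0, _, _, ⟨x, hx, h⟩ => by
    have h' : x = _ := h
    rw [← h']; exact hx
  | j + 1, u, v, ⟨x, hx, h⟩ => ht u x v hx (ch_rel ht j x v h)

theorem ch_drop {r : V → V → Prop} (ht : ∀ x y z, r x y → r y z → r x z) (j : ℕ) (u v : V)
    (h : Ch r (j + 2) u v) : Ch r (j + 1) u v := by
  obtain ⟨x, hx, y, hy, h⟩ := h
  exact ⟨y, ht _ _ _ hx hy, h⟩

theorem ch_le {r : V → V → Prop} (ht : ∀ x y z, r x y → r y z → r x z) (u v : V) (i : ℕ)
    (hi : 1 ≤ i) : ∀ t : ℕ, Ch r (i + t) u v → Ch r i u v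
  | 0, h => h
  | t + 1, h => by
    refine ch_le ht u v i hi t ?_
    obtain ⟨i', rfl⟩ : ∃ i', i = i' + 1 := ⟨i - 1, by omega⟩
    have h1 : i' + 1 + (t + 1) = (i' + t) + 2 := by omega
    have h2 : i' + 1 + t = (i' + t) + 1 := by omega
    rw [h1] at h
    rw [h2]
    exact ch_drop ht _ u v h

theorem ch_seq {r : V → V → Prop} : ∀ (j : ℕ) (u v : V), Ch r j u v →
    ∃ w : ℕ → V, w 0 = u ∧ w j = v ∧ ∀ i < j, r (w i) (w (i + 1))
  | 0, u, v, h => ⟨fun _ => u, rfl, h, fun i hi => absurd hi (Nat.not_lt_zero i)⟩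
  | j + 1, u, v, ⟨x, hx, h⟩ => by
    obtain ⟨w, h0, h1, h2⟩ := ch_seq j x v h
    refine ⟨fun i => Nat.casesOn i u w, rfl, h1, ?_⟩
    intro i hi
    cases i with
    | zero => simp only [h0]; exact hx
    | succ i => exact h2 i (by omega)

theorem ch_of_seq {r : V → V → Prop} (w : ℕ → V) : ∀ (j s : ℕ),
    (∀ i, s ≤ i → i < s + j → r (w i) (w (i + 1))) → Ch r j (w s) (w (s + j))
  | 0, _, _ => rfl
  | j + 1, s, h => by
    refine ⟨w (s + 1), h s le_rfl (by omega), ?_⟩
    have h1 := ch_of_seq w j (s + 1) (fun i h1 h2 => h i (by omega) (by omega))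
    have h2 : s + 1 + j = s + (j + 1) := by omega
    rw [h2] at h1
    exact h1

open Classical in
/-- Height colouring. -/
theorem colour_of_chain (r : V → V → Prop) (K : ℕ) (hK : ∀ u v, ¬ Ch r (K + 1) u v) :
    ∃ c : V → Fin (K + 1), ∀ u v, r u v → c u ≠ c v := by
  have hlt : ∀ v, Nat.findGreatest (fun j => ∃ u, Ch r j u v) K < K + 1 := fun v =>
    Nat.lt_succ_of_le (Nat.findGreatest_le K)
  refine ⟨fun v => ⟨Nat.findGreatest (fun j => ∃ u, Ch r j u v) K, hlt v⟩, ?_⟩
  intro u v huv h
  have h1 : Nat.findGreatest (fun j => ∃ x, Ch r j x u) K =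
      Nat.findGreatest (fun j => ∃ x, Ch r j x v) K := congrArg Fin.val h
  set g := Nat.findGreatest (fun j => ∃ x, Ch r j x u) K with hg
  have h2 : ∃ x, Ch r g x u := by
    have := Nat.findGreatest_spec (P := fun j => ∃ x, Ch r j x u) (m := 0) (n := K) (Nat.zero_le _)
      ⟨u, rfl⟩
    exact this
  obtain ⟨x, hx⟩ := h2
  have h3 : Ch r (g + 1) x v := ch_add g 1 x u v hx (ch_one huv)
  have h4 : g ≤ K := Nat.findGreatest_le K
  rcases Nat.lt_or_ge K (g + 1) with h5 | h5
  · have : g = K := by omega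
    rw [this] at h3
    exact hK _ _ h3
  · have h6 : g + 1 ≤ Nat.findGreatest (fun j => ∃ x, Ch r j x v) K :=
      Nat.le_findGreatest h5 ⟨x, h3⟩
    omega

/-- Chains whose ends are adjacent are cliques. -/
theorem clique_of_ch [DecidableEq V] (G : SimpleGraph V) (r : V → V → Prop)
    (ht : ∀ x y z, r x y → r y z → r x z)
    (hb : ∀ x y z, r x y → r y z → G.Adj x z → G.Adj x y ∧ G.Adj y z) :
    ∀ (j : ℕ) (u v : V), Ch r (j + 1) u v → G.Adj u v →
      ∃ s : Finset V, G.IsNClique (j + 2) s ∧ v ∈ s ∧ ∀ x ∈ s, x ≠ v → (x = u ∨ r u x) ∧ r x v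
  | 0, u, v, h, ha => by
    refine ⟨{u, v}, ?_, by simp, ?_⟩
    · rw [SimpleGraph.isNClique_iff]
      refine ⟨?_, Finset.card_pair (G.ne_of_adj ha)⟩
      intro x hx y hy hxy
      simp only [Finset.coe_insert, Finset.coe_singleton, Set.mem_insert_iff,
        Set.mem_singleton_iff] at hx hy
      rcases hx with rfl | rfl <;> rcases hy with rfl | rfl
      · exact absurd rfl hxy
      · exact ha
      · exact ha.symm
      · exact absurd rfl hxy
    · intro x hx hxv
      simp only [Finset.mem_insert, Finset.mem_singleton] at hx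
      rcases hx with rfl | rfl
      · exact ⟨Or.inl rfl, ch_rel ht 0 _ _ h⟩
      · exact absurd rfl hxv
  | j + 1, u, v, ⟨y, hy, h⟩, ha => by
    have hyv : r y v := ch_rel ht j y v h
    have hadj := hb u y v hy hyv ha
    obtain ⟨s, hs, hvs, hall⟩ := clique_of_ch G r ht hb j y v h hadj.2
    have key : ∀ x ∈ s, G.Adj u x ∧ r u x := by
      intro x hx
      by_cases hxv : x = v
      · rw [hxv]; exact ⟨ha, ht _ _ _ hy hyv⟩
      · obtain ⟨h1, h2⟩ := hall x hx hxv
        have h3 : r u x := by
          rcases h1 with rfl | h1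
          · exact hy
          · exact ht _ _ _ hy h1
        exact ⟨(hb u x v h3 h2 ha).1, h3⟩
    refine ⟨insert u s, hs.insert (fun x hx => (key x hx).1), Finset.mem_insert_of_mem hvs, ?_⟩
    intro x hx hxv
    rcases Finset.mem_insert.1 hx with rfl | hx
    · exact ⟨Or.inl rfl, ht _ _ _ hy hyv⟩
    · exact ⟨Or.inr (key x hx).2, (hall x hx hxv).2⟩

end Chains

section Degenerate

/-- A finite digraph with all out-degrees at most `D` has a proper colouring with `2 D + 1` colours. -/
theorem colour_of_outdeg {V : Type*} [DecidableEq V] (E : V → V → Prop) [DecidableRel E] (D : ℕ)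
    (S : Finset V) (hE : ∀ u ∈ S, (S.filter (fun v => E u v)).card ≤ D) :
    ∃ c : V → Fin (2 * D + 1), ∀ u ∈ S, ∀ v ∈ S, u ≠ v → (E u v ∨ E v u) → c u ≠ c v := by
  induction S using Finset.strongInduction with
  | H S ih =>
    rcases S.eq_empty_or_nonempty with rfl | hS
    · exact ⟨fun _ => 0, by simp⟩
    · have hsum : ∑ v ∈ S, (S.filter (fun u => E u v)).card =
          ∑ u ∈ S, (S.filter (fun v => E u v)).card := by
        have := Finset.sum_card_bipartiteAbove_eq_sum_card_bipartiteBelow (s := S) (t := S)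
          (r := fun u v => E u v)
        simp only [Finset.bipartiteAbove, Finset.bipartiteBelow] at this
        exact this.symm
      obtain ⟨v, hv, hdeg⟩ : ∃ v ∈ S, (S.filter (fun u => E u v)).card ≤ D := by
        by_contra hcon
        push_neg at hcon
        have h1 : ∑ u ∈ S, (S.filter (fun v => E u v)).card ≤ ∑ _u ∈ S, D :=
          Finset.sum_le_sum hE
        have h2 : ∑ _u ∈ S, D < ∑ v ∈ S, (S.filter (fun u => E u v)).card :=
          Finset.sum_lt_sum_of_nonempty hS hcon
        omega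
      have hss : S.erase v ⊂ S := Finset.erase_ssubset hv
      obtain ⟨c, hc⟩ := ih (S.erase v) hss (fun u hu => le_trans (Finset.card_le_card
        (Finset.filter_subset_filter _ (Finset.erase_subset _ _))) (hE u (Finset.mem_of_mem_erase hu)))
      -- forbidden colours
      have hcard : (((S.filter (fun u => E u v)) ∪ (S.filter (fun w => E v w))).image c).card <
          (Finset.univ : Finset (Fin (2 * D + 1))).card := by
        refine lt_of_le_of_lt (Finset.card_image_le) ?_
        refine lt_of_le_of_lt (Finset.card_union_le _ _) ?_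
        rw [Finset.card_univ, Fintype.card_fin]
        have := hE v hv
        omega
      obtain ⟨x, -, hx⟩ := Finset.exists_mem_notMem_of_card_lt_card hcard
      refine ⟨Function.update c v x, ?_⟩
      have key : ∀ u ∈ S, u ≠ v → (E u v ∨ E v u) → c u ≠ x := by
        intro u hu huv hE' hcx
        apply hx
        rw [Finset.mem_image]
        refine ⟨u, ?_, hcx⟩
        rw [Finset.mem_union, Finset.mem_filter, Finset.mem_filter]
        rcases hE' with h | h
        · exact Or.inl ⟨hu, h⟩
        · exact Or.inr ⟨hu, h⟩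
      intro u hu w hw huw hEuw
      by_cases h1 : u = v
      · have h2 : w ≠ v := fun h => huw (h1.trans h.symm)
        rw [h1, Function.update_self, Function.update_of_ne h2]
        rw [h1] at hEuw
        exact fun h => key w hw h2 (Or.symm hEuw) h.symm
      · rw [Function.update_of_ne h1]
        by_cases h2 : w = v
        · rw [h2, Function.update_self]
          rw [h2] at hEuw
          exact key u hu h1 hEuw
        · rw [Function.update_of_ne h2]
          exact hc u (Finset.mem_erase.2 ⟨h1, hu⟩) w (Finset.mem_erase.2 ⟨h2, hw⟩) huw hEuw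

end Degenerate

end Box85
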