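import Pool.Agent.W_ccb602.Base

/-!
# MP_ccb602_co: types of pairs of boxes; BASE lemma

`base`: the vertex set of a box graph with clique number `k` splits into at most
`(2 * (2 ^ d * k) + 1) * (k + 1) ^ (2 ^ d)` parts in which every intersecting pair is bad.
-/

set_option autoImplicit false

namespace Box85

open Finset

variable {V : Type*} {d : ℕ}

/-- the boxes `u` and `v` intersect -/
def Hit (a b : V → Fin d → ℝ) (u v : V) : Prop := ∀ t, a u t ≤ b v t ∧ a v t ≤ b u t

/-- `u` and `v` intersect, in some coordinate the interval of `u` is inside the interior of the interval of `v`,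
in some coordinate it is the other way round, and in some coordinate the two intervals overlap properly -/
def Bad (a b : V → Fin d → ℝ) (u v : V) : Prop :=
  Hit a b u v ∧ (∃ t, a v t < a u t ∧ b u t < b v t) ∧ (∃ t, a u t < a v t ∧ b v t < b u t) ∧
    ∃ t, (a u t < a v t ∧ b u t < b v t) ∨ (a v t < a u t ∧ b v t < b u t)

theorem hit_symm {a b : V → Fin d → ℝ} {u v : V} (h : Hit a b u v) : Hit a b v u :=
  fun t => ⟨(h t).2, (h t).1⟩

theorem bad_symm {a b : V → Fin d → ℝ} {u v : V} (h : Bad a b u v) : Bad a b v u := by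
  obtain ⟨h1, h2, h3, t, h4⟩ := h
  exact ⟨hit_symm h1, h3, h2, t, Or.symm h4⟩

theorem hit_iff {a b : V → Fin d → ℝ} (hab : ∀ i, a i ≤ b i) (u v : V) :
    (Set.Icc (a u) (b u) ∩ Set.Icc (a v) (b v)).Nonempty ↔ Hit a b u v := by
  rw [Set.Icc_inter_Icc, Set.nonempty_Icc]
  constructor
  · intro h t
    have h1 := h t
    simp only [Pi.sup_apply, Pi.inf_apply, sup_le_iff, le_inf_iff] at h1
    refine ⟨?_, ?_⟩ <;> tauto
  · intro h t
    simp only [Pi.sup_apply, Pi.inf_apply, sup_le_iff, le_inf_iff]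
    have h1 := hab u t
    have h2 := hab v t
    have h3 := h t
    tauto

/-- the pattern `τ`: in every coordinate the order of the left ends and of the right ends -/
def Rel (a b : V → Fin d → ℝ) (τ : Fin d → Bool × Bool) (u v : V) : Prop :=
  ∀ t, ((τ t).1 = true → a u t ≤ a v t) ∧ ((τ t).1 = false → a v t ≤ a u t) ∧
    ((τ t).2 = true → b u t ≤ b v t) ∧ ((τ t).2 = false → b v t ≤ b u t)

theorem rel_refl (a b : V → Fin d → ℝ) (τ : Fin d → Bool × Bool) (u : V) : Rel a b τ u u :=
  fun _ => ⟨fun _ => le_rfl, fun _ => le_rfl, fun _ => le_rfl, fun _ => le_rfl⟩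

theorem rel_trans {a b : V → Fin d → ℝ} {τ : Fin d → Bool × Bool} {u v w : V}
    (h1 : Rel a b τ u v) (h2 : Rel a b τ v w) : Rel a b τ u w := fun t =>
  ⟨fun h => ((h1 t).1 h).trans ((h2 t).1 h), fun h => ((h2 t).2.1 h).trans ((h1 t).2.1 h),
    fun h => ((h1 t).2.2.1 h).trans ((h2 t).2.2.1 h), fun h => ((h2 t).2.2.2 h).trans ((h1 t).2.2.2 h)⟩

theorem rel_between {a b : V → Fin d → ℝ} (hab : ∀ i, a i ≤ b i) {τ : Fin d → Bool × Bool}
    {u v w : V} (h1 : Rel a b τ u v) (h2 : Rel a b τ v w) (h : Hit a b u w) :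
    Hit a b u v ∧ Hit a b v w := by
  have key : ∀ t, (a u t ≤ b v t ∧ a v t ≤ b u t) ∧ (a v t ≤ b w t ∧ a w t ≤ b v t) := by
    intro t
    obtain ⟨p1, p2, p3, p4⟩ := h1 t
    obtain ⟨q1, q2, q3, q4⟩ := h2 t
    have hu := hab u t
    have hv := hab v t
    have hw := hab w t
    obtain ⟨h3, h4⟩ := h t
    rcases hτ1 : (τ t).1 with _ | _ <;> rcases hτ2 : (τ t).2 with _ | _
    · have := p2 hτ1; have := q2 hτ1; have := p4 hτ2; have := q4 hτ2
      refine ⟨⟨?_, ?_⟩, ?_, ?_⟩ <;> linarith
    · have := p2 hτ1; have := q2 hτ1; have := p3 hτ2; have := q3 hτ2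
      refine ⟨⟨?_, ?_⟩, ?_, ?_⟩ <;> linarith
    · have := p1 hτ1; have := q1 hτ1; have := p4 hτ2; have := q4 hτ2
      refine ⟨⟨?_, ?_⟩, ?_, ?_⟩ <;> linarith
    · have := p1 hτ1; have := q1 hτ1; have := p3 hτ2; have := q3 hτ2
      refine ⟨⟨?_, ?_⟩, ?_, ?_⟩ <;> linarith
  exact ⟨fun t => (key t).1, fun t => (key t).2⟩

/-- strict pattern -/
def TS (a b : V → Fin d → ℝ) (τ : Fin d → Bool × Bool) (u v : V) : Prop :=
  Rel a b τ u v ∧ ¬ Rel a b τ v u

theorem ts_trans {a b : V → Fin d → ℝ} {τ : Fin d → Bool × Bool} (u v w : V)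
    (h1 : TS a b τ u v) (h2 : TS a b τ v w) : TS a b τ u w :=
  ⟨rel_trans h1.1 h2.1, fun h => h2.2 (rel_trans h h1.1)⟩

theorem ts_ne {a b : V → Fin d → ℝ} {τ : Fin d → Bool × Bool} {u v : V}
    (h : TS a b τ u v) : u ≠ v := by
  rintro rfl
  exact h.2 (rel_refl a b τ u)

open Classical in
/-- Every bad pair has a strict pattern. -/
theorem exists_type {a b : V → Fin d → ℝ} {u v : V} (h : Bad a b u v) : ∃ τ, TS a b τ u v := by
  obtain ⟨-, ⟨t, ht, -⟩, -, -⟩ := h
  refine ⟨fun t => (decide (a u t ≤ a v t), decide (b u t ≤ b v t)), ?_, ?_⟩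
  · intro s
    refine ⟨?_, ?_, ?_, ?_⟩ <;> intro hs <;> simp only [decide_eq_true_eq, decide_eq_false_iff_not,
      not_le] at hs
    · exact hs
    · exact hs.le
    · exact hs
    · exact hs.le
  · intro h
    have h1 : decide (a u t ≤ a v t) = false := by
      rw [decide_eq_false_iff_not, not_le]; exact ht
    have h2 := (h t).2.1 h1
    exact absurd h2 (not_le.2 ht)

/-! ### nested pairs -/

/-- in every coordinate the intervals are nested, in the direction given by `σ` -/
def Nst (a b : V → Fin d → ℝ) (σ : Fin d → Bool) (u v : V) : Prop :=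
  Rel a b (fun t => (σ t, !σ t)) u v

theorem nst_hit {a b : V → Fin d → ℝ} (hab : ∀ i, a i ≤ b i) {σ : Fin d → Bool} {u v : V}
    (h : Nst a b σ u v) : Hit a b u v := by
  intro t
  obtain ⟨p1, p2, p3, p4⟩ := h t
  have hu := hab u t
  have hv := hab v t
  rcases hσ : σ t with _ | _
  · have h1 := p2 hσ
    have h2 := p3 (by simp [hσ])
    constructor <;> linarith
  · have h1 := p1 hσ
    have h2 := p4 (by simp [hσ])
    constructor <;> linarith

/-- strict version, ties are broken by the index -/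
def NS {n : ℕ} (a b : Fin n → Fin d → ℝ) (σ : Fin d → Bool) (u v : Fin n) : Prop :=
  Nst a b σ u v ∧ (¬ Nst a b σ v u ∨ u < v)

theorem ns_trans {n : ℕ} {a b : Fin n → Fin d → ℝ} {σ : Fin d → Bool} (u v w : Fin n)
    (h1 : NS a b σ u v) (h2 : NS a b σ v w) : NS a b σ u w := by
  refine ⟨rel_trans h1.1 h2.1, ?_⟩
  by_cases h : Nst a b σ w u
  · right
    have h3 : Nst a b σ v u := rel_trans h2.1 h
    have h4 : Nst a b σ w v := rel_trans h h1.1
    rcases h1.2 with h5 | h5
    · exact absurd h3 h5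
    · rcases h2.2 with h6 | h6
      · exact absurd h4 h6
      · exact h5.trans h6
  · left; exact h

theorem ns_ne {n : ℕ} {a b : Fin n → Fin d → ℝ} {σ : Fin d → Bool} {u v : Fin n}
    (h : NS a b σ u v) : u ≠ v := by
  rintro rfl
  rcases h.2 with h | h
  · exact h (rel_refl a b _ u)
  · exact lt_irrefl _ h

/-! ### corner pairs -/

/-- the box `v` contains the corner `ε` of the box `u` -/
def Cor (a b : V → Fin d → ℝ) (ε : Fin d → Bool) (u v : V) : Prop :=
  ∀ t, (ε t = true → a v t ≤ b u t ∧ b u t ≤ b v t) ∧ (ε t = false → a v t ≤ a u t ∧ a u t ≤ b v t)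

theorem cor_hit {a b : V → Fin d → ℝ} {ε : Fin d → Bool} {u v w : V}
    (h1 : Cor a b ε u v) (h2 : Cor a b ε u w) : Hit a b v w := by
  intro t
  rcases hε : ε t with _ | _
  · have p := (h1 t).2 hε
    have q := (h2 t).2 hε
    exact ⟨p.1.trans q.2, q.1.trans p.2⟩
  · have p := (h1 t).1 hε
    have q := (h2 t).1 hε
    exact ⟨p.1.trans q.2, q.1.trans p.2⟩

open Classical in
theorem not_cor {a b : V → Fin d → ℝ} {u v : V} (h : Hit a b u v)
    (hn : ¬ ∃ ε, Cor a b ε u v) : ∃ t, a u t < a v t ∧ b v t < b u t := by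
  by_contra hcon
  push_neg at hcon
  apply hn
  refine ⟨fun t => decide (b u t ≤ b v t), ?_⟩
  intro t
  constructor
  · intro ht
    rw [decide_eq_true_eq] at ht
    exact ⟨(h t).2, ht⟩
  · intro ht
    rw [decide_eq_false_iff_not, not_le] at ht
    refine ⟨?_, (h t).1⟩
    by_contra h3
    rw [not_le] at h3
    exact absurd (hcon t h3) (not_le.2 ht)

/-- The three kinds of pairs. -/
theorem kinds {n : ℕ} {a b : Fin n → Fin d → ℝ} {u v : Fin n} (h : Hit a b u v) (huv : u ≠ v) :
    (∃ ε, Cor a b ε u v) ∨ (∃ ε, Cor a b ε v u) ∨ (∃ σ, NS a b σ u v ∨ NS a b σ v u) ∨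
      Bad a b u v := by
  classical
  by_cases h1 : ∃ ε, Cor a b ε u v
  · exact Or.inl h1
  by_cases h2 : ∃ ε, Cor a b ε v u
  · exact Or.inr (Or.inl h2)
  have h3 := not_cor h h1
  have h4 := not_cor (hit_symm h) h2
  by_cases h5 : ∃ t, (a u t < a v t ∧ b u t < b v t) ∨ (a v t < a u t ∧ b v t < b u t)
  · exact Or.inr (Or.inr (Or.inr ⟨h, h4, h3, h5⟩))
  · refine Or.inr (Or.inr (Or.inl ?_))
    push_neg at h5
    refine ⟨fun t => decide (a u t ≤ a v t ∧ b v t ≤ b u t), ?_⟩
    have h6 : Nst a b (fun t => decide (a u t ≤ a v t ∧ b v t ≤ b u t)) u v := by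
      intro t
      by_cases h7 : a u t ≤ a v t ∧ b v t ≤ b u t
      · have h8 : decide (a u t ≤ a v t ∧ b v t ≤ b u t) = true := by simpa using h7
        exact ⟨fun _ => h7.1, fun h => by simp only [h8] at h; exact absurd h (by simp),
          fun h => by simp only [h8] at h; exact absurd h (by simp), fun _ => h7.2⟩
      · have h8 : decide (a u t ≤ a v t ∧ b v t ≤ b u t) = false := by simpa using h7
        have h9 : a v t ≤ a u t ∧ b u t ≤ b v t := by
          have h10 := h5 t
          constructor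
          · by_contra hc
            rw [not_le] at hc
            have := h10.1 hc
            exact h7 ⟨hc.le, this⟩
          · by_contra hc
            rw [not_le] at hc
            by_cases h11 : a u t ≤ a v t
            · exact h7 ⟨h11, hc.le⟩
            · rw [not_le] at h11
              exact absurd (h10.2 h11) (not_le.2 hc)
        exact ⟨fun h => by simp only [h8] at h; exact absurd h (by simp), fun _ => h9.1,
          fun _ => h9.2, fun h => by simp only [h8] at h; exact absurd h (by simp)⟩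
    by_cases h7 : Nst a b (fun t => decide (a u t ≤ a v t ∧ b v t ≤ b u t)) v u
    · rcases lt_or_gt_of_ne huv with h8 | h8
      · exact Or.inl ⟨h6, Or.inr h8⟩
      · exact Or.inr ⟨h7, Or.inr h8⟩
    · exact Or.inl ⟨h6, Or.inl h7⟩

/-- BASE LEMMA: a colouring with `(2 (2 ^ d k) + 1) (k + 1) ^ (2 ^ d)` colours such that every monochromatic
intersecting pair is bad. -/
theorem base {n d k : ℕ} (G : SimpleGraph (Fin n)) (a b : Fin n → Fin d → ℝ)
    (hab : ∀ i, a i ≤ b i) (hG : ∀ i j, G.Adj i j ↔ i ≠ j ∧ Hit a b i j)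
    (hk : ∀ s : Finset (Fin n), G.IsClique s → s.card ≤ k) :
    ∃ c : Fin n → Fin (2 * (2 ^ d * k) + 1) × ((Fin d → Bool) → Fin (k + 1)),
      ∀ u v, G.Adj u v → c u = c v → Bad a b u v := by
  classical
  -- the corner graph
  obtain ⟨c1, hc1⟩ := colour_of_outdeg (V := Fin n) (fun u v => ∃ ε, Cor a b ε u v) (2 ^ d * k)
    Finset.univ (by
      intro u _
      have hsub : (Finset.univ.filter (fun v : Fin n => ∃ ε, Cor a b ε u v)) ⊆
          (Finset.univ : Finset (Fin d → Bool)).biUnion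
            (fun ε => Finset.univ.filter (fun v => Cor a b ε u v)) := by
        intro v hv
        obtain ⟨ε, hε⟩ := (Finset.mem_filter.1 hv).2
        exact Finset.mem_biUnion.2 ⟨ε, Finset.mem_univ _, Finset.mem_filter.2 ⟨Finset.mem_univ _, hε⟩⟩
      refine le_trans (Finset.card_le_card hsub) ?_
      have hcard : (Finset.univ : Finset (Fin d → Bool)).card = 2 ^ d := by simp
      rw [← hcard]
      refine Finset.card_biUnion_le_card_mul _ _ _ ?_
      intro ε _
      apply hk
      intro x hx y hy hxy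
      rw [hG]
      refine ⟨hxy, ?_⟩
      have h1 := (Finset.mem_filter.1 (Finset.mem_coe.1 hx)).2
      have h2 := (Finset.mem_filter.1 (Finset.mem_coe.1 hy)).2
      exact cor_hit h1 h2)
  -- nested pairs
  have hns : ∀ σ : Fin d → Bool, ∃ c : Fin n → Fin (k + 1), ∀ u v, NS a b σ u v → c u ≠ c v := by
    intro σ
    apply colour_of_chain (NS a b σ) k
    intro u v hch
    have hadj : ∀ x y, NS a b σ x y → G.Adj x y := by
      intro x y hxy
      rw [hG]
      exact ⟨ns_ne hxy, nst_hit hab hxy.1⟩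
    have huv : G.Adj u v := hadj u v (ch_rel ns_trans k u v hch)
    obtain ⟨s, hs, -, -⟩ := clique_of_ch G (NS a b σ) ns_trans
      (fun x y z h1 h2 _ => ⟨hadj x y h1, hadj y z h2⟩) k u v hch huv
    have h1 := hk s hs.isClique
    rw [hs.card_eq] at h1
    omega
  choose c2 hc2 using hns
  refine ⟨fun u => (c1 u, fun σ => c2 σ u), ?_⟩
  intro u v huv hc
  have hc1' : c1 u = c1 v := congrArg Prod.fst hc
  have hc2' : (fun σ => c2 σ u) = (fun σ => c2 σ v) := congrArg Prod.snd hc
  have hne := (hG u v).1 huv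
  rcases kinds hne.2 hne.1 with h | h | ⟨σ, h⟩ | h
  · exact absurd hc1' (hc1 u (Finset.mem_univ _) v (Finset.mem_univ _) hne.1 (Or.inl h))
  · exact absurd hc1' (hc1 u (Finset.mem_univ _) v (Finset.mem_univ _) hne.1 (Or.inr h))
  · have h1 : c2 σ u = c2 σ v := congrFun hc2' σ
    rcases h with h | h
    · exact absurd h1 (hc2 σ u v h)
    · exact absurd h1.symm (hc2 σ v u h)
  · exact h

end Box85
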