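import Pool.Agent.W_ccb602.Boxes

/-!
# MP_ccb602_co: the halving argument

`H` is a set of boxes in which every intersecting pair is bad and whose chains of type `τ` between intersecting
boxes have less than `2 ^ J` steps.  If the bad pairs are covered by `m` sets of ordered pairs without induced
directed paths with `p` arcs, then `H` has a proper colouring with `((p + 1) ^ (4 ^ d m 2)) ^ J` colours.
-/

set_option autoImplicit false

namespace Box85

open Finset

variable {n d m : ℕ}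

/-- strict pattern inside the set `H` -/
def RH (a b : Fin n → Fin d → ℝ) (H : Fin n → Prop) (τ : Fin d → Bool × Bool) (u v : Fin n) : Prop :=
  H u ∧ H v ∧ TS a b τ u v

theorem rh_trans {a b : Fin n → Fin d → ℝ} {H : Fin n → Prop} {τ : Fin d → Bool × Bool}
    (u v w : Fin n) (h1 : RH a b H τ u v) (h2 : RH a b H τ v w) : RH a b H τ u w :=
  ⟨h1.1, h2.2.1, ts_trans u v w h1.2.2 h2.2.2⟩

/-- in every coordinate the left ends of the boxes `w 0, ..., w p` form a weakly increasing or a weakly decreasing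
sequence, and so do the right ends -/
def Mono (a b : Fin n → Fin d → ℝ) (p : ℕ) (w : ℕ → Fin n) : Prop :=
  ∀ t, ((∀ i < p, a (w i) t ≤ a (w (i + 1)) t) ∨ (∀ i < p, a (w (i + 1)) t ≤ a (w i) t)) ∧
    ((∀ i < p, b (w i) t ≤ b (w (i + 1)) t) ∨ (∀ i < p, b (w (i + 1)) t ≤ b (w i) t))

/-- the set `B` of ordered pairs has no induced monotone directed path with `p` arcs: whenever
`w 0, ..., w p` are different boxes, monotone in every coordinate, all the pairs `(w i, w (i + 1))` are bad and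
belong to `B`, then some `w i` and `w j` with `j ≥ i + 2` are adjacent -/
def NoPath (G : SimpleGraph (Fin n)) (a b : Fin n → Fin d → ℝ) (p : ℕ)
    (B : Fin n → Fin n → Prop) : Prop :=
  ∀ w : ℕ → Fin n, (∀ i < p, Bad a b (w i) (w (i + 1)) ∧ B (w i) (w (i + 1))) →
    Mono a b p w → (∀ i j, i < j → j ≤ p → w i ≠ w j) →
      ∃ i j, i + 2 ≤ j ∧ j ≤ p ∧ G.Adj (w i) (w j)

theorem noPath_rev {G : SimpleGraph (Fin n)} {a b : Fin n → Fin d → ℝ} {p : ℕ}
    {B : Fin n → Fin n → Prop} (h : NoPath G a b p B) : NoPath G a b p (fun x y => B y x) := by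
  intro w hw hmono hinj
  obtain ⟨i, j, hij, hj, hadj⟩ := h (fun i => w (p - i)) (by
    intro i hi
    have h1 := hw (p - (i + 1)) (by omega)
    have h2 : p - (i + 1) + 1 = p - i := by omega
    rw [h2] at h1
    exact ⟨bad_symm h1.1, h1.2⟩) (by
    intro t
    obtain ⟨h1, h2⟩ := hmono t
    have h3 : ∀ i < p, p - (i + 1) + 1 = p - i ∧ p - (i + 1) < p := fun i hi =>
      ⟨by omega, by omega⟩
    refine ⟨?_, ?_⟩
    · rcases h1 with h1 | h1
      · right; intro i hi
        have h4 := h1 (p - (i + 1)) (h3 i hi).2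
        rw [(h3 i hi).1] at h4; exact h4
      · left; intro i hi
        have h4 := h1 (p - (i + 1)) (h3 i hi).2
        rw [(h3 i hi).1] at h4; exact h4
    · rcases h2 with h1 | h1
      · right; intro i hi
        have h4 := h1 (p - (i + 1)) (h3 i hi).2
        rw [(h3 i hi).1] at h4; exact h4
      · left; intro i hi
        have h4 := h1 (p - (i + 1)) (h3 i hi).2
        rw [(h3 i hi).1] at h4; exact h4) (by
    intro i j hij hj h1
    exact hinj (p - j) (p - i) (by omega) (by omega) h1.symm)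
  refine ⟨p - j, p - i, by omega, by omega, hadj.symm⟩

/-- A class of long arcs of one type has no directed path with `p` arcs. -/
theorem no_long {G : SimpleGraph (Fin n)} {a b : Fin n → Fin d → ℝ} {p : ℕ}
    {B : Fin n → Fin n → Prop} (hB : NoPath G a b p B) (H : Fin n → Prop) (τ : Fin d → Bool × Bool)
    (L : ℕ) (hL : 1 ≤ L)
    (hbad : ∀ u v, H u → H v → G.Adj u v → Bad a b u v)
    (hlen : ∀ u v, H u → H v → G.Adj u v → ¬ Ch (RH a b H τ) (L + L) u v) (u v : Fin n) :
    ¬ Ch (fun x y => H x ∧ H y ∧ G.Adj x y ∧ TS a b τ x y ∧ B x y ∧ Ch (RH a b H τ) L x y)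
      (p + 1) u v := by
  intro hch
  obtain ⟨w, -, -, hw⟩ := ch_seq (p + 1) u v hch
  have hstep : ∀ i, i < p + 1 → RH a b H τ (w i) (w (i + 1)) := fun i hi =>
    ⟨(hw i hi).1, (hw i hi).2.1, (hw i hi).2.2.2.1⟩
  have hrel : ∀ i j, i < j → j ≤ p + 1 → RH a b H τ (w i) (w j) := by
    intro i j hij hj
    obtain ⟨t, rfl⟩ : ∃ t, j = i + (t + 1) := ⟨j - i - 1, by omega⟩
    exact ch_rel rh_trans t _ _ (ch_of_seq w (t + 1) i (fun s _ hs => hstep s (by omega)))
  obtain ⟨i, j, hij, hj, hadj⟩ := hB w (fun i hi => by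
    have h1 := hw i (by omega)
    exact ⟨hbad _ _ h1.1 h1.2.1 h1.2.2.1, h1.2.2.2.2.1⟩) (by
      intro t
      refine ⟨?_, ?_⟩
      · rcases hτ : (τ t).1 with _ | _
        · right; intro i hi; exact ((hstep i (by omega)).2.2.1 t).2.1 hτ
        · left; intro i hi; exact ((hstep i (by omega)).2.2.1 t).1 hτ
      · rcases hτ : (τ t).2 with _ | _
        · right; intro i hi; exact ((hstep i (by omega)).2.2.1 t).2.2.2 hτ
        · left; intro i hi; exact ((hstep i (by omega)).2.2.1 t).2.2.1 hτ) (fun i j hij hj =>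
      ts_ne (hrel i j hij (by omega)).2.2)
  have hHi : H (w i) := (hrel i j (by omega) (by omega)).1
  have hHj : H (w j) := (hrel i j (by omega) (by omega)).2.1
  apply hlen (w i) (w j) hHi hHj hadj
  have c1 := (hw i (by omega)).2.2.2.2.2
  have c2 := (hw (i + 1) (by omega)).2.2.2.2.2
  have c3 : Ch (RH a b H τ) (j - (i + 2)) (w (i + 2)) (w (i + 2 + (j - (i + 2)))) :=
    ch_of_seq w (j - (i + 2)) (i + 2) (fun s _ hs => hstep s (by omega))
  have h4 : i + 2 + (j - (i + 2)) = j := by omega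
  rw [h4] at c3
  have c4 := ch_add L L _ _ _ c1 c2
  have c5 := ch_add (L + L) (j - (i + 2)) _ _ _ c4 c3
  exact ch_le rh_trans _ _ (L + L) (by omega) _ c5

/-- THE HALVING LEMMA. -/
theorem halving {G : SimpleGraph (Fin n)} {a b : Fin n → Fin d → ℝ} {p : ℕ}
    (A : Fin m → Fin n → Fin n → Prop)
    (hA : ∀ u v, Bad a b u v → ∃ q, A q u v ∨ A q v u)
    (hP : ∀ q, NoPath G a b p (A q)) :
    ∀ (J : ℕ) (H : Fin n → Prop), (∀ u v, H u → H v → G.Adj u v → Bad a b u v) →
      (∀ τ u v, H u → H v → G.Adj u v → ¬ Ch (RH a b H τ) (2 ^ J) u v) →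
      ∃ c : Fin n → (Fin J → ((Fin d → Bool × Bool) × Fin m × Bool → Fin (p + 2))),
        ∀ u v, H u → H v → G.Adj u v → c u ≠ c v
  | 0, H, hbad, hlen => by
    refine ⟨fun _ => Fin.elim0, ?_⟩
    intro u v hu hv huv
    exfalso
    obtain ⟨τ, hτ⟩ := exists_type (hbad u v hu hv huv)
    exact hlen τ u v hu hv huv (ch_one ⟨hu, hv, hτ⟩)
  | J + 1, H, hbad, hlen => by
    classical
    have hpow : 2 ^ (J + 1) = 2 ^ J + 2 ^ J := by ring
    have hlab : ∀ x : (Fin d → Bool × Bool) × Fin m × Bool, ∃ c : Fin n → Fin (p + 2),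
        ∀ u v, (H u ∧ H v ∧ G.Adj u v ∧ TS a b x.1 u v ∧
          (if x.2.2 = true then A x.2.1 u v else A x.2.1 v u) ∧
            Ch (RH a b H x.1) (2 ^ J) u v) → c u ≠ c v := by
      intro x
      obtain ⟨τ, q, s⟩ := x
      have hB : NoPath G a b p (fun u v => if s = true then A q u v else A q v u) := by
        cases s with
        | true => simpa using hP q
        | false => simpa using noPath_rev (hP q)
      have h1 := no_long hB H τ (2 ^ J) Nat.one_le_two_pow hbad (by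
        intro u v hu hv huv
        rw [← hpow]
        exact hlen τ u v hu hv huv)
      exact colour_of_chain _ (p + 1) (fun u v hc => by
        obtain ⟨x, -, hc'⟩ := hc
        exact h1 x v hc')
    choose l hl using hlab
    have hrec : ∀ φ : (Fin d → Bool × Bool) × Fin m × Bool → Fin (p + 2),
        ∃ c : Fin n → (Fin J → ((Fin d → Bool × Bool) × Fin m × Bool → Fin (p + 2))),
          ∀ u v, (H u ∧ (fun x => l x u) = φ) → (H v ∧ (fun x => l x v) = φ) → G.Adj u v →
            c u ≠ c v := by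
      intro φ
      apply halving A hA hP J (fun u => H u ∧ (fun x => l x u) = φ)
      · intro u v hu hv huv
        exact hbad u v hu.1 hv.1 huv
      · intro τ u v hu hv huv hch
        have hne : 1 ≤ 2 ^ J := Nat.one_le_two_pow
        have hts : TS a b τ u v := by
          obtain ⟨t, ht⟩ : ∃ t, 2 ^ J = t + 1 := ⟨2 ^ J - 1, by omega⟩
          rw [ht] at hch
          exact (ch_rel rh_trans t u v hch).2.2
        have hch' : Ch (RH a b H τ) (2 ^ J) u v :=
          ch_mono (fun x y h => ⟨h.1.1, h.2.1.1, h.2.2⟩) _ _ _ hch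
        obtain ⟨q, hq⟩ := hA u v (hbad u v hu.1 hv.1 huv)
        have hll : ∀ x, l x u = l x v := fun x => congrFun (hu.2.trans hv.2.symm) x
        rcases hq with hq | hq
        · exact hl (τ, q, true) u v ⟨hu.1, hv.1, huv, hts, by simpa using hq, hch'⟩
            (hll (τ, q, true))
        · exact hl (τ, q, false) u v ⟨hu.1, hv.1, huv, hts, by simpa using hq, hch'⟩
            (hll (τ, q, false))
    choose cr hcr using hrec
    refine ⟨fun u => Fin.cons (fun x => l x u) (cr (fun x => l x u) u), ?_⟩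
    intro u v hu hv huv hc
    have h1 : (fun x => l x u) = (fun x => l x v) := by
      have := congrFun hc 0
      simpa only [Fin.cons_zero] using this
    have h2 : cr (fun x => l x u) u = cr (fun x => l x v) v := by
      have h3 : Fin.tail (Fin.cons (α := fun _ => ((Fin d → Bool × Bool) × Fin m × Bool → Fin (p + 2)))
          (fun x => l x u) (cr (fun x => l x u) u)) =
          Fin.tail (Fin.cons (α := fun _ => ((Fin d → Bool × Bool) × Fin m × Bool → Fin (p + 2)))
          (fun x => l x v) (cr (fun x => l x v) v)) := congrArg _ hc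
      rw [Fin.tail_cons, Fin.tail_cons] at h3
      exact h3
    rw [h1] at h2
    exact hcr (fun x => l x v) u v ⟨hu, h1⟩ ⟨hv, rfl⟩ huv h2

/-- THE BOUND: all constants explicit. -/
theorem bound (d m p : ℕ) {n : ℕ} (G : SimpleGraph (Fin n)) (a b : Fin n → Fin d → ℝ)
    (hab : ∀ i, a i ≤ b i) (hG : ∀ i j, G.Adj i j ↔ i ≠ j ∧ Hit a b i j)
    (A : Fin m → Fin n → Fin n → Prop)
    (hA : ∀ u v, Bad a b u v → ∃ q, A q u v ∨ A q v u)
    (hP : ∀ q, NoPath G a b p (A q)) (k J : ℕ)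
    (hk : ∀ s : Finset (Fin n), G.IsClique s → s.card ≤ k) (hkJ : k ≤ 2 ^ J) :
    G.Colorable ((2 * (2 ^ d * k) + 1) * (k + 1) ^ (2 ^ d) *
      ((p + 2) ^ (4 ^ d * (m * 2))) ^ J) := by
  classical
  obtain ⟨c0, hc0⟩ := base G a b hab hG hk
  have hparts : ∀ φ : Fin (2 * (2 ^ d * k) + 1) × ((Fin d → Bool) → Fin (k + 1)),
      ∃ c : Fin n → (Fin J → ((Fin d → Bool × Bool) × Fin m × Bool → Fin (p + 2))),
        ∀ u v, c0 u = φ → c0 v = φ → G.Adj u v → c u ≠ c v := by
    intro φ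
    apply halving A hA hP J (fun u => c0 u = φ)
    · intro u v hu hv huv
      exact hc0 u v huv (hu.trans hv.symm)
    · intro τ u v hu hv huv hch
      have hne : 1 ≤ 2 ^ J := Nat.one_le_two_pow
      obtain ⟨t, ht⟩ : ∃ t, 2 ^ J = t + 1 := ⟨2 ^ J - 1, by omega⟩
      have hch1 : Ch (TS a b τ) (t + 1) u v := by
        rw [← ht]
        exact ch_mono (fun x y h => h.2.2) _ _ _ hch
      obtain ⟨s, hs, -, -⟩ := clique_of_ch G (TS a b τ) ts_trans (by
        intro x y z h1 h2 h3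
        have h4 := rel_between hab h1.1 h2.1 ((hG x z).1 h3).2
        exact ⟨(hG x y).2 ⟨ts_ne h1, h4.1⟩, (hG y z).2 ⟨ts_ne h2, h4.2⟩⟩) t u v hch1 huv
      have h5 := hk s hs.isClique
      rw [hs.card_eq] at h5
      omega
  choose c hc using hparts
  have hcol : G.Coloring ((Fin (2 * (2 ^ d * k) + 1) × ((Fin d → Bool) → Fin (k + 1))) ×
      (Fin J → ((Fin d → Bool × Bool) × Fin m × Bool → Fin (p + 2)))) :=
    SimpleGraph.Coloring.mk (fun u => (c0 u, c (c0 u) u)) (by
      intro u v huv h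
      have h1 : c0 u = c0 v := congrArg Prod.fst h
      have h2 : c (c0 u) u = c (c0 v) v := congrArg Prod.snd h
      rw [h1] at h2
      exact hc (c0 v) u v h1 rfl huv h2)
  have hcard := hcol.colorable
  have hcard2 : Fintype.card ((Fin (2 * (2 ^ d * k) + 1) × ((Fin d → Bool) → Fin (k + 1))) ×
      (Fin J → ((Fin d → Bool × Bool) × Fin m × Bool → Fin (p + 2)))) =
      (2 * (2 ^ d * k) + 1) * (k + 1) ^ (2 ^ d) * ((p + 2) ^ (4 ^ d * (m * 2))) ^ J := by
    simp only [Fintype.card_prod, Fintype.card_fun, Fintype.card_fin, Fintype.card_bool]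
  rw [hcard2] at hcard
  exact hcard

/-- THE POLYNOMIAL BOUND. -/
theorem poly (d m p : ℕ) : ∃ c e : ℕ, ∀ (n : ℕ) (G : SimpleGraph (Fin n)) (a b : Fin n → Fin d → ℝ),
    (∀ i, a i ≤ b i) → (∀ i j, G.Adj i j ↔ i ≠ j ∧ Hit a b i j) →
    ∀ A : Fin m → Fin n → Fin n → Prop,
    (∀ u v, Bad a b u v → ∃ q, A q u v ∨ A q v u) → (∀ q, NoPath G a b p (A q)) →
      G.chromaticNumber ≤ ((c * (G.cliqueNum + 1) ^ e : ℕ) : ℕ∞) := by
  obtain ⟨P, hP⟩ : ∃ P, p + 2 ≤ 2 ^ P := ⟨p + 2, Nat.lt_two_pow_self.le⟩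
  set T := 4 ^ d * (m * 2) with hT
  refine ⟨2 ^ (d + 2) * 2 ^ (P * T), 1 + 2 ^ d + P * T, ?_⟩
  intro n G a b hab hG A hA hPath
  set k := G.cliqueNum with hk
  have hclique : ∀ s : Finset (Fin n), G.IsClique s → s.card ≤ k := fun s hs =>
    hs.card_le_cliqueNum
  -- choose `J` with `k ≤ 2 ^ J ≤ 2 (k + 1)`
  have hJ1 : k ≤ 2 ^ (Nat.log 2 (k + 1) + 1) := by
    have := Nat.lt_pow_succ_log_self (b := 2) (by norm_num) (k + 1)
    rw [Nat.succ_eq_add_one] at this
    omega
  have hJ2 : 2 ^ (Nat.log 2 (k + 1) + 1) ≤ 2 * (k + 1) := by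
    have := Nat.pow_log_le_self 2 (x := k + 1) (by omega)
    rw [pow_succ]
    omega
  set J := Nat.log 2 (k + 1) + 1 with hJ
  have hcol := bound d m p G a b hab hG A hA hPath k J hclique hJ1
  refine le_trans hcol.chromaticNumber_le ?_
  rw [Nat.cast_le]
  have e1 : ((p + 2) ^ T) ^ J ≤ 2 ^ (P * T) * (k + 1) ^ (P * T) := by
    calc ((p + 2) ^ T) ^ J ≤ ((2 ^ P) ^ T) ^ J :=
          Nat.pow_le_pow_left (Nat.pow_le_pow_left hP T) J
      _ = (2 ^ J) ^ (P * T) := by rw [← pow_mul, ← pow_mul, ← pow_mul]; congr 1; ring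
      _ ≤ (2 * (k + 1)) ^ (P * T) := Nat.pow_le_pow_left hJ2 _
      _ = 2 ^ (P * T) * (k + 1) ^ (P * T) := mul_pow _ _ _
  have e2 : 2 * (2 ^ d * k) + 1 ≤ 2 ^ (d + 2) * (k + 1) := by
    have h1 : 1 ≤ 2 ^ d := Nat.one_le_two_pow
    have h2 : 2 ^ (d + 2) = 4 * 2 ^ d := by ring
    rw [h2]
    nlinarith
  calc (2 * (2 ^ d * k) + 1) * (k + 1) ^ (2 ^ d) * ((p + 2) ^ T) ^ J
      ≤ (2 ^ (d + 2) * (k + 1)) * (k + 1) ^ (2 ^ d) * (2 ^ (P * T) * (k + 1) ^ (P * T)) :=
        Nat.mul_le_mul (Nat.mul_le_mul_right _ e2) e1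
    _ = 2 ^ (d + 2) * 2 ^ (P * T) * (k + 1) ^ (1 + 2 ^ d + P * T) := by
        rw [pow_add (k + 1) (1 + 2 ^ d) (P * T), pow_add (k + 1) 1 (2 ^ d), pow_one]; ring

end Box85
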