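import Mathlib

/-!
Common definitions for the theorem that odd-hole-free box graphs are polynomially chi-bounded
(MP_ccb602_co, part P3).
-/

set_option autoImplicit false

namespace BoxSS

variable {V : Type*}

/-- `G` has no odd hole: no induced cycle of odd length at least five. -/
def NoOddHole (G : SimpleGraph V) : Prop :=
  ∀ m : ℕ, IsEmpty (SimpleGraph.cycleGraph (2 * m + 5) ↪g G)

/-- the subgraph of `G` induced on `S` can be properly coloured with `n` colours. -/
def ColOn (G : SimpleGraph V) (S : Set V) (n : ℕ) : Prop :=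
  ∃ c : V → ℕ, (∀ v ∈ S, c v < n) ∧ ∀ u ∈ S, ∀ v ∈ S, G.Adj u v → c u ≠ c v

/-- the parents of `x` in `A`. -/
def NA (G : SimpleGraph V) (A : Set V) (x : V) : Set V := {a | a ∈ A ∧ G.Adj a x}

/-- `(A, B)` is a nested pair: `A` stable, `B` disjoint from `A`, every vertex of `B` has a
neighbour in `A`, and adjacent vertices of `B` have nested neighbourhoods in `A`. -/
def NestedPair (G : SimpleGraph V) (A B : Set V) : Prop :=
  (∀ a ∈ A, ∀ a' ∈ A, ¬ G.Adj a a') ∧ Disjoint A B ∧ (∀ b ∈ B, ∃ a ∈ A, G.Adj a b) ∧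
    ∀ x ∈ B, ∀ y ∈ B, G.Adj x y → NA G A x ⊆ NA G A y ∨ NA G A y ⊆ NA G A x

theorem ColOn.mono {G : SimpleGraph V} {S T : Set V} {n m : ℕ} (h : ColOn G S n) (hT : T ⊆ S)
    (hn : n ≤ m) : ColOn G T m := by
  obtain ⟨c, h1, h2⟩ := h
  exact ⟨c, fun v hv => lt_of_lt_of_le (h1 v (hT hv)) hn,
    fun u hu v hv => h2 u (hT hu) v (hT hv)⟩

/-- product colouring: if `f` takes less than `m` values on `S` and every class of `f` can be
coloured with `n` colours then `S` can be coloured with `m * n` colours. -/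
theorem ColOn.of_classes {G : SimpleGraph V} {S : Set V} {n m : ℕ} (f : V → ℕ)
    (hf : ∀ v ∈ S, f v < m) (h : ∀ i < m, ColOn G {v | v ∈ S ∧ f v = i} n) :
    ColOn G S (m * n) := by
  classical
  choose! c hc using h
  refine ⟨fun v => f v * n + c (f v) v, ?_, ?_⟩
  · intro v hv
    have h1 := hf v hv
    have h2 := (hc (f v) h1).1 v ⟨hv, rfl⟩
    calc f v * n + c (f v) v < f v * n + n := by omega
      _ = (f v + 1) * n := by ring
      _ ≤ m * n := Nat.mul_le_mul_right n h1
  · intro u hu v hv huv heq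
    have h1 := hf u hu
    have h2 := (hc (f u) h1).1 u ⟨hu, rfl⟩
    have h3 := hf v hv
    have h4 := (hc (f v) h3).1 v ⟨hv, rfl⟩
    have hn : 0 < n := by omega
    simp only at heq
    have h5 : f u = f v := by
      have e1 : (f u * n + c (f u) u) / n = f u := by
        rw [mul_comm, Nat.mul_add_div hn, Nat.div_eq_of_lt h2, add_zero]
      have e2 : (f v * n + c (f v) v) / n = f v := by
        rw [mul_comm, Nat.mul_add_div hn, Nat.div_eq_of_lt h4, add_zero]
      rw [← e1, ← e2, heq]
    have h6 : c (f u) u = c (f u) v := by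
      rw [← h5] at heq
      omega
    exact (hc (f u) h1).2 u ⟨hu, rfl⟩ v ⟨hv, h5.symm⟩ huv h6

end BoxSS
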