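import Pool.Agent.W_ccb602.Trees
import Pool.Agent.W_ccb602.SSDefs

/-!
# MP_ccb602_co: nested pairs kill classes of arcs in box graphs

A class is a relation `R` inside one pattern `τ`, together with a set `O` of pairs (coordinate, direction) which need
not be closed.  `R` is closed in `(c, true)` if two vertices `x`, `y` with `x R u R v`, `y R v` always meet
in coordinate `c`; in `(c, false)`: the same for the reversed relation.
-/

set_option autoImplicit false

namespace BoxSS

open Box85 Tree57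

variable {V : Type*} {d : ℕ}

theorem ColOn.of_fin {G : SimpleGraph V} {S : Set V} {ι : Type*} [Fintype ι] (f : V → ι) {X : ℕ}
    (h : ∀ i, ColOn G {v | v ∈ S ∧ f v = i} X) : ColOn G S (Fintype.card ι * X) := by
  classical
  let e := Fintype.equivFin ι
  apply ColOn.of_classes (fun v => (e (f v) : ℕ))
  · intro v _
    exact (e (f v)).2
  · intro i hi
    refine (h (e.symm ⟨i, hi⟩)).mono ?_ le_rfl
    rintro v ⟨hv, hfv⟩
    refine ⟨hv, ?_⟩
    rw [Equiv.eq_symm_apply]
    exact Fin.ext hfv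

/-- `x` and `y` meet in coordinate `c` -/
def MeetC (a b : V → Fin d → ℝ) (c : Fin d) (x y : V) : Prop := a x c ≤ b y c ∧ a y c ≤ b x c

/-- any two vertices `x`, `y` with `x R u R v` and `y R v` meet in coordinate `c` -/
def Clo (a b : V → Fin d → ℝ) (R : V → V → Prop) (c : Fin d) : Prop :=
  ∀ x u v y, R x u → R u v → R y v → MeetC a b c x y

/-- a class of arcs -/
structure Cls (V : Type*) (d : ℕ) where
  R : V → V → Prop
  τ : Fin d → Bool × Bool
  O : Finset (Fin d × Bool)

structure OKC (G : SimpleGraph V) (a b : V → Fin d → ℝ) (C : Cls V d) : Prop where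
  adj : ∀ u v, C.R u v → G.Adj u v
  ts : ∀ u v, C.R u v → TS a b C.τ u v
  down : ∀ c, (c, true) ∉ C.O → Clo a b C.R c
  up : ∀ c, (c, false) ∉ C.O → Clo a b (fun u v => C.R v u) c

/-- the reversed class -/
def Cls.op (C : Cls V d) : Cls V d where
  R := fun u v => C.R v u
  τ := fun t => (!(C.τ t).1, !(C.τ t).2)
  O := C.O.image (fun p => (p.1, !p.2))

theorem ts_op (a b : V → Fin d → ℝ) (τ : Fin d → Bool × Bool) (u v : V) (h : TS a b τ v u) :
    TS a b (fun t => (!(τ t).1, !(τ t).2)) u v := by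
  have key : ∀ x y : V, Rel a b (fun t => (!(τ t).1, !(τ t).2)) x y ↔ Rel a b τ y x := by
    intro x y
    constructor
    · intro h t
      obtain ⟨h1, h2, h3, h4⟩ := h t
      refine ⟨fun p => h2 ?_, fun p => h1 ?_, fun p => h4 ?_, fun p => h3 ?_⟩ <;> simp [p]
    · intro h t
      obtain ⟨h1, h2, h3, h4⟩ := h t
      refine ⟨fun p => h2 ?_, fun p => h1 ?_, fun p => h4 ?_, fun p => h3 ?_⟩ <;>
        simpa using p
  exact ⟨(key u v).2 h.1, fun h' => h.2 ((key v u).1 h')⟩

theorem OKC.op {G : SimpleGraph V} {a b : V → Fin d → ℝ} {C : Cls V d} (h : OKC G a b C) :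
    OKC G a b C.op where
  adj := fun u v huv => (h.adj v u huv).symm
  ts := fun u v huv => ts_op a b C.τ u v (h.ts v u huv)
  down := by
    intro c hc
    apply h.up
    intro hmem
    exact hc (Finset.mem_image.2 ⟨(c, false), hmem, rfl⟩)
  up := by
    intro c hc
    apply h.down
    intro hmem
    exact hc (Finset.mem_image.2 ⟨(c, true), hmem, rfl⟩)

/-- the weight of a class -/
def Cls.w (C : Cls V d) : ℕ := (2 * d + 1) ^ C.O.card

theorem Cls.w_op (C : Cls V d) : C.op.w = C.w := by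
  unfold Cls.w Cls.op
  congr 1
  apply Finset.card_image_of_injective
  rintro ⟨p, q⟩ ⟨p', q'⟩ h
  simp only [Prod.mk.injEq, Bool.not_inj_iff] at h
  exact Prod.ext h.1 h.2

/-- the potential of a list of classes -/
def pot (l : List (Cls V d)) : ℕ := (l.map Cls.w).sum

theorem pot_append (l l' : List (Cls V d)) : pot (l ++ l') = pot l + pot l' := by
  unfold pot
  rw [List.map_append, List.sum_append]

theorem pot_cons (C : Cls V d) (l : List (Cls V d)) : pot (C :: l) = C.w + pot l := by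
  unfold pot
  rw [List.map_cons, List.sum_cons]

theorem w_pos (C : Cls V d) : 0 < C.w := pow_pos (by omega) _

theorem length_le_pot : ∀ l : List (Cls V d), l.length ≤ pot l
  | [] => Nat.zero_le _
  | C :: l => by
    have h1 := length_le_pot l
    have h2 := w_pos C
    rw [pot_cons, List.length_cons]
    omega

/-- every adjacent pair in `Q` belongs to a class of the list, in some direction -/
def Cov (G : SimpleGraph V) (Q : Set V) (l : List (Cls V d)) : Prop :=
  ∀ u ∈ Q, ∀ v ∈ Q, G.Adj u v → ∃ C ∈ l, C.R u v ∨ C.R v u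

/-- directed paths of arcs `u R v` with `S(u) ⊆ S(v)` are cliques -/
theorem alpha {G : SimpleGraph V} {a b : V → Fin d → ℝ} (hab : ∀ i, a i ≤ b i)
    (hG : ∀ i j, G.Adj i j ↔ i ≠ j ∧ Hit a b i j) {k : ℕ}
    (hk : ∀ s : Finset V, G.IsClique s → s.card ≤ k) {C : Cls V d} (hC : OKC G a b C)
    {A B : Set V} (p : V → V) (hp : ∀ v ∈ B, p v ∈ A ∧ C.R (p v) v) :
    ∃ c : V → Fin (k + 1), ∀ u v, u ∈ B → v ∈ B → C.R u v → NA G A u ⊆ NA G A v → c u ≠ c v := by
  classical
  obtain ⟨c, hc⟩ := colour_of_chain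
    (fun u v => u ∈ B ∧ v ∈ B ∧ C.R u v ∧ NA G A u ⊆ NA G A v) k (by
      intro u v hch
      obtain ⟨w, -, -, hw⟩ := ch_seq (k + 1) u v hch
      have key : ∀ s i, i + (s + 1) ≤ k + 1 → TS a b C.τ (w i) (w (i + (s + 1))) ∧
          NA G A (w i) ⊆ NA G A (w (i + (s + 1))) := by
        intro s
        induction s with
        | zero =>
          intro i hi
          obtain ⟨h1, h2, h3, h4⟩ := hw i (by omega)
          exact ⟨hC.ts _ _ h3, h4⟩
        | succ s ih =>
          intro i hi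
          obtain ⟨h1, h2⟩ := ih i (by omega)
          obtain ⟨h3, h4, h5, h6⟩ := hw (i + (s + 1)) (by omega)
          exact ⟨ts_trans _ _ _ h1 (hC.ts _ _ h5), h2.trans h6⟩
      have hadj : ∀ i j, i < j → j ≤ k + 1 → G.Adj (w i) (w j) := by
        intro i j hij hj
        obtain ⟨s, rfl⟩ : ∃ s, j = i + (s + 1) := ⟨j - i - 1, by omega⟩
        obtain ⟨h1, h2⟩ := key s i hj
        have hwi : w i ∈ B := (hw i (by omega)).1
        obtain ⟨h3, h4⟩ := hp (w i) hwi
        have h5 : p (w i) ∈ NA G A (w (i + (s + 1))) := h2 ⟨h3, hC.adj _ _ h4⟩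
        have h6 := rel_between hab (hC.ts _ _ h4).1 h1.1 ((hG _ _).1 h5.2).2
        exact (hG _ _).2 ⟨ts_ne h1, h6.2⟩
      have hinj : Set.InjOn w (Finset.range (k + 2) : Finset ℕ) := by
        intro i hi j hj hij
        rw [Finset.mem_coe, Finset.mem_range] at hi hj
        rcases lt_trichotomy i j with h | h | h
        · exact absurd hij (G.ne_of_adj (hadj i j h (by omega)))
        · exact h
        · exact absurd hij.symm (G.ne_of_adj (hadj j i h (by omega)))
      have h1 := hk ((Finset.range (k + 2)).image w) (by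
        intro x hx y hy hxy
        rw [Finset.mem_coe, Finset.mem_image] at hx hy
        obtain ⟨i, hi, rfl⟩ := hx
        obtain ⟨j, hj, rfl⟩ := hy
        rw [Finset.mem_range] at hi hj
        rcases lt_trichotomy i j with h | h | h
        · exact hadj i j h (by omega)
        · exact absurd (congrArg w h) hxy
        · exact (hadj j i h (by omega)).symm)
      rw [Finset.card_image_of_injOn hinj, Finset.card_range] at h1
      omega)
  exact ⟨c, fun u v hu hv huv h => hc u v ⟨hu, hv, huv, h⟩⟩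

/-- the arcs with label `q = (coordinate, side)` -/
def Lab (G : SimpleGraph V) (a b : V → Fin d → ℝ) (R : V → V → Prop) (A B : Set V) (p : V → V)
    (q : Fin d × Bool) (u v : V) : Prop :=
  u ∈ B ∧ v ∈ B ∧ R u v ∧ NA G A v ⊆ NA G A u ∧
    ((q.2 = true ∧ b (p u) q.1 < a (p v) q.1) ∨ (q.2 = false ∧ b (p v) q.1 < a (p u) q.1))

/-- The label class is closed, if its vertices have out-neighbours. -/
theorem lab_clo {G : SimpleGraph V} {a b : V → Fin d → ℝ} (hab : ∀ i, a i ≤ b i)
    (hG : ∀ i j, G.Adj i j ↔ i ≠ j ∧ Hit a b i j) {R : V → V → Prop} {A B : Set V} (p : V → V)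
    (hp : ∀ v ∈ B, p v ∈ A ∧ G.Adj (p v) v) (q : Fin d × Bool) {x u v y w : V}
    (h1 : Lab G a b R A B p q x u) (h2 : Lab G a b R A B p q u v) (h3 : Lab G a b R A B p q y v)
    (h4 : Lab G a b R A B p q v w) : MeetC a b q.1 x y := by
  obtain ⟨x1, u1, -, xu, hxu⟩ := h1
  obtain ⟨-, v1, -, uv, huv⟩ := h2
  obtain ⟨y1, -, -, yv, hyv⟩ := h3
  obtain ⟨-, w1, -, vw, hvw⟩ := h4
  have hw : p w ∈ NA G A v := vw ⟨(hp w w1).1, (hp w w1).2⟩
  have e1 : G.Adj (p w) x := (xu (uv hw)).2
  have e2 : G.Adj (p w) y := (yv hw).2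
  have f1 := ((hG _ _).1 e1).2 q.1
  have f2 := ((hG _ _).1 e2).2 q.1
  have f3 := ((hG _ _).1 (hp x x1).2).2 q.1
  have f4 := ((hG _ _).1 (hp y y1).2).2 q.1
  have g1 := hab (p x) q.1
  have g2 := hab (p u) q.1
  have g3 := hab (p v) q.1
  have g4 := hab (p w) q.1
  have g5 := hab (p y) q.1
  unfold MeetC
  rcases hxu with ⟨s1, hxu⟩ | ⟨s1, hxu⟩
  · rcases huv with ⟨-, huv⟩ | ⟨s2, -⟩
    · rcases hyv with ⟨-, hyv⟩ | ⟨s2, -⟩
      · rcases hvw with ⟨-, hvw⟩ | ⟨s2, -⟩
        · constructor <;> linarith [f1.1, f1.2, f2.1, f2.2, f3.1, f3.2, f4.1, f4.2]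
        · rw [s1] at s2; exact absurd s2 (by decide)
      · rw [s1] at s2; exact absurd s2 (by decide)
    · rw [s1] at s2; exact absurd s2 (by decide)
  · rcases huv with ⟨s2, -⟩ | ⟨-, huv⟩
    · rw [s1] at s2; exact absurd s2 (by decide)
    · rcases hyv with ⟨s2, -⟩ | ⟨-, hyv⟩
      · rw [s1] at s2; exact absurd s2 (by decide)
      · rcases hvw with ⟨s2, -⟩ | ⟨-, hvw⟩
        · rw [s1] at s2; exact absurd s2 (by decide)
        · constructor <;> linarith [f1.1, f1.2, f2.1, f2.2, f3.1, f3.2, f4.1, f4.2]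

/-- the label class `q` inside the part `P` -/
def child (G : SimpleGraph V) (a b : V → Fin d → ℝ) (C : Cls V d) (A B : Set V)
    (p : V → V) (P : V → Prop) (q : Fin d × Bool) : Cls V d where
  R := fun u v => Lab G a b C.R A B p q u v ∧ P u ∧ P v
  τ := C.τ
  O := C.O.erase (q.1, true)

open Classical in
/-- the classes which replace `C` -/
noncomputable def children (G : SimpleGraph V) (a b : V → Fin d → ℝ) (C : Cls V d) (A B : Set V)
    (p : V → V) (P : V → Prop) : List (Cls V d) :=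
  ((Finset.univ : Finset (Fin d × Bool)).filter (fun q => (q.1, true) ∈ C.O)).toList.map
    (child G a b C A B p P)

theorem pot_children (G : SimpleGraph V) (a b : V → Fin d → ℝ) (C : Cls V d) (A B : Set V)
    (p : V → V) (P : V → Prop) : pot (children G a b C A B p P) < C.w := by
  classical
  unfold pot children
  rw [List.map_map]
  rcases Finset.eq_empty_or_nonempty
    ((Finset.univ : Finset (Fin d × Bool)).filter (fun q => (q.1, true) ∈ C.O)) with h | h
  · rw [h]
    simpa using w_pos C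
  · obtain ⟨q0, hq0⟩ := h
    have h0 : (q0.1, true) ∈ C.O := (Finset.mem_filter.1 hq0).2
    have hpos : 0 < C.O.card := Finset.card_pos.2 ⟨_, h0⟩
    have h1 := List.sum_le_card_nsmul
      (((Finset.univ : Finset (Fin d × Bool)).filter (fun q => (q.1, true) ∈ C.O)).toList.map
        (Cls.w ∘ child G a b C A B p P)) ((2 * d + 1) ^ (C.O.card - 1)) (by
        intro x hx
        obtain ⟨q, hq, rfl⟩ := List.mem_map.1 hx
        rw [Finset.mem_toList] at hq
        have h2 : (q.1, true) ∈ C.O := (Finset.mem_filter.1 hq).2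
        show (2 * d + 1) ^ (C.O.erase (q.1, true)).card ≤ _
        rw [Finset.card_erase_of_mem h2])
    refine lt_of_le_of_lt h1 ?_
    rw [List.length_map, Finset.length_toList, smul_eq_mul]
    have h3 : ((Finset.univ : Finset (Fin d × Bool)).filter (fun q => (q.1, true) ∈ C.O)).card ≤
        2 * d := by
      refine le_trans (Finset.card_filter_le _ _) ?_
      rw [Finset.card_univ, Fintype.card_prod, Fintype.card_fin, Fintype.card_bool]
      omega
    have h4 : C.w = (2 * d + 1) * (2 * d + 1) ^ (C.O.card - 1) := by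
      unfold Cls.w
      rw [← pow_succ']
      congr 1
      omega
    rw [h4]
    have h5 : 0 < (2 * d + 1) ^ (C.O.card - 1) := pow_pos (by omega) _
    calc ((Finset.univ : Finset (Fin d × Bool)).filter (fun q => (q.1, true) ∈ C.O)).card *
          (2 * d + 1) ^ (C.O.card - 1) ≤ (2 * d) * (2 * d + 1) ^ (C.O.card - 1) :=
          Nat.mul_le_mul_right _ h3
      _ < (2 * d + 1) * (2 * d + 1) ^ (C.O.card - 1) := Nat.mul_lt_mul_of_pos_right (by omega) h5

/-- THE KILLING STEP, downward covers. -/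
theorem kill_down {G : SimpleGraph V} {a b : V → Fin d → ℝ} (hab : ∀ i, a i ≤ b i)
    (hG : ∀ i j, G.Adj i j ↔ i ≠ j ∧ Hit a b i j) {k n : ℕ} (hn0 : 0 < n)
    (hn : ∀ x, ColOn G {v | G.Adj x v} n)
    (hk : ∀ s : Finset V, G.IsClique s → s.card ≤ k) {C : Cls V d} (hC : OKC G a b C)
    (l1 l2 : List (Cls V d)) (hl1 : ∀ C ∈ l1, OKC G a b C) (hl2 : ∀ C ∈ l2, OKC G a b C)
    {A B Q : Set V} (hBQ : B ⊆ Q) (hcov : Cov G Q (l1 ++ C :: l2))
    (hst : ∀ x ∈ A, ∀ y ∈ A, ¬ G.Adj x y)
    (hnest : ∀ x ∈ B, ∀ y ∈ B, G.Adj x y → NA G A x ⊆ NA G A y ∨ NA G A y ⊆ NA G A x)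
    (hcv : ∀ v ∈ B, ∃ x ∈ A, C.R x v) {X : ℕ}
    (hX : ∀ l : List (Cls V d), (∀ C ∈ l, OKC G a b C) → pot l < pot (l1 ++ C :: l2) →
      ∀ Q : Set V, Cov G Q l → ColOn G Q X) :
    ColOn G B ((k + 1) * (n * 2 ^ (d * 2)) * X) := by
  classical
  choose! p hp using hcv
  obtain ⟨cα, hcα⟩ := alpha hab hG hk hC (A := A) (B := B) p hp
  choose cn hcn1 hcn2 using hn
  let bit : V → Fin d × Bool → Bool := fun v q => decide (∃ w, Lab G a b C.R A B p q v w)
  let f : V → Fin (k + 1) × (Fin n × (Fin d × Bool → Bool)) :=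
    fun v => (cα v, ⟨cn (p v) v % n, Nat.mod_lt _ hn0⟩, bit v)
  have hcard : Fintype.card (Fin (k + 1) × (Fin n × (Fin d × Bool → Bool))) =
      (k + 1) * (n * 2 ^ (d * 2)) := by
    simp only [Fintype.card_prod, Fintype.card_fun, Fintype.card_fin, Fintype.card_bool]
  rw [← hcard]
  apply ColOn.of_fin f
  intro φ
  apply hX (l1 ++ (l2 ++ children G a b C A B p (fun v => f v = φ)))
  · intro C' hC'
    rw [List.mem_append, List.mem_append] at hC'
    rcases hC' with h | h | h
    · exact hl1 _ h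
    · exact hl2 _ h
    · unfold children at h
      obtain ⟨q, hq, rfl⟩ := List.mem_map.1 h
      rw [Finset.mem_toList] at hq
      refine ⟨fun u v huv => hC.adj u v huv.1.2.2.1, fun u v huv => hC.ts u v huv.1.2.2.1, ?_, ?_⟩
      · intro c hc x u v y hxu huv hyv
        by_cases hcq : c = q.1
        · subst hcq
          have hbx : bit x q = true := decide_eq_true ⟨u, hxu.1⟩
          have hfx : f x = f v := hxu.2.1.trans huv.2.2.symm
          have hbv : bit v q = true := by
            have h1 : bit x = bit v := congrArg (fun z => z.2.2) hfx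
            rw [← h1]; exact hbx
          obtain ⟨w, hw⟩ := of_decide_eq_true hbv
          exact lab_clo hab hG p (fun v hv => ⟨(hp v hv).1, hC.adj _ _ (hp v hv).2⟩) q
            hxu.1 huv.1 hyv.1 hw
        · refine hC.down c ?_ x u v y hxu.1.2.2.1 huv.1.2.2.1 hyv.1.2.2.1
          intro hmem
          exact hc (Finset.mem_erase.2 ⟨fun h => hcq (congrArg Prod.fst h), hmem⟩)
      · intro c hc x u v y hxu huv hyv
        refine hC.up c ?_ x u v y hxu.1.2.2.1 huv.1.2.2.1 hyv.1.2.2.1
        intro hmem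
        exact hc (Finset.mem_erase.2 ⟨fun h => absurd (congrArg Prod.snd h) Bool.false_ne_true, hmem⟩)
  · have h1 := pot_children G a b C A B p (fun v => f v = φ)
    rw [pot_append, pot_append, pot_append, pot_cons]
    omega
  · rintro u ⟨hu, hfu⟩ v ⟨hv, hfv⟩ huv
    obtain ⟨C', hC', hR⟩ := hcov u (hBQ hu) v (hBQ hv) huv
    rw [List.mem_append, List.mem_cons] at hC'
    have hrest : (C' ∈ l1 ∨ C' ∈ l2) → ∃ C'' ∈ l1 ++ (l2 ++ children G a b C A B p (fun v => f v = φ)),
        C''.R u v ∨ C''.R v u := by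
      intro h
      refine ⟨C', ?_, hR⟩
      rw [List.mem_append, List.mem_append]
      tauto
    have key : ∀ x y, x ∈ B → y ∈ B → f x = φ → f y = φ → C.R x y →
        ∃ q : Fin d × Bool, (q.1, true) ∈ C.O ∧ Lab G a b C.R A B p q x y := by
      intro x y hx hy hfx hfy hxy
      have hadj : G.Adj x y := hC.adj _ _ hxy
      have hfxy : f x = f y := hfx.trans hfy.symm
      have hα : ¬ NA G A x ⊆ NA G A y := fun hsub =>
        hcα x y hx hy hxy hsub (congrArg Prod.fst hfxy)
      have hβ : NA G A y ⊆ NA G A x := by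
        rcases hnest x hx y hy hadj with h | h
        · exact absurd h hα
        · exact h
      have hne : p x ≠ p y := by
        intro hpxy
        have h1 : cn (p x) x % n = cn (p y) y % n :=
          congrArg (fun z => (z.2.1 : ℕ)) hfxy
        have h2 := hcn1 (p x) x (hC.adj _ _ (hp x hx).2)
        have h3 := hcn1 (p y) y (hC.adj _ _ (hp y hy).2)
        rw [Nat.mod_eq_of_lt h2, Nat.mod_eq_of_lt h3, ← hpxy] at h1
        refine hcn2 (p x) x (hC.adj _ _ (hp x hx).2) y ?_ hadj h1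
        show G.Adj (p x) y
        rw [hpxy]
        exact hC.adj _ _ (hp y hy).2
      have hnohit : ¬ Hit a b (p x) (p y) := fun hh =>
        hst _ (hp x hx).1 _ (hp y hy).1 ((hG _ _).2 ⟨hne, hh⟩)
      obtain ⟨c, hc⟩ := not_forall.1 hnohit
      have hopen : (c, true) ∈ C.O := by
        by_contra hcl
        exact hc (hC.down c hcl (p x) x y (p y) (hp x hx).2 hxy (hp y hy).2)
      by_cases h1 : a (p x) c ≤ b (p y) c
      · have h2 : b (p x) c < a (p y) c := by
          by_contra h3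
          exact hc ⟨h1, not_lt.1 h3⟩
        exact ⟨(c, true), hopen, hx, hy, hxy, hβ, Or.inl ⟨rfl, h2⟩⟩
      · exact ⟨(c, false), hopen, hx, hy, hxy, hβ, Or.inr ⟨rfl, not_le.1 h1⟩⟩
    have fin : ∀ x y, x ∈ B → y ∈ B → f x = φ → f y = φ → C.R x y →
        ∃ C'' ∈ l1 ++ (l2 ++ children G a b C A B p (fun v => f v = φ)), C''.R x y := by
      intro x y hx hy hfx hfy hxy
      obtain ⟨q, hq, hlab⟩ := key x y hx hy hfx hfy hxy
      refine ⟨child G a b C A B p (fun v => f v = φ) q, ?_, ⟨hlab, hfx, hfy⟩⟩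
      rw [List.mem_append, List.mem_append]
      right; right
      unfold children
      exact List.mem_map.2 ⟨q, Finset.mem_toList.2 (Finset.mem_filter.2
        ⟨Finset.mem_univ _, hq⟩), rfl⟩
    rcases hC' with h | h | h
    · exact hrest (Or.inl h)
    · rw [h] at hR
      rcases hR with h | h
      · obtain ⟨C'', h1, h2⟩ := fin u v hu hv hfu hfv h
        exact ⟨C'', h1, Or.inl h2⟩
      · obtain ⟨C'', h1, h2⟩ := fin v u hv hu hfv hfu h
        exact ⟨C'', h1, Or.inr h2⟩
    · exact hrest (Or.inr h)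

/-- THE KILLING STEP. -/
theorem kill {G : SimpleGraph V} {a b : V → Fin d → ℝ} (hab : ∀ i, a i ≤ b i)
    (hG : ∀ i j, G.Adj i j ↔ i ≠ j ∧ Hit a b i j) {k n : ℕ} (hn0 : 0 < n)
    (hn : ∀ x, ColOn G {v | G.Adj x v} n)
    (hk : ∀ s : Finset V, G.IsClique s → s.card ≤ k)
    (l : List (Cls V d)) (hl : ∀ C ∈ l, OKC G a b C)
    {A B Q : Set V} (hAQ : A ⊆ Q) (hBQ : B ⊆ Q) (hcov : Cov G Q l)
    (hnp : NestedPair G A B) {X : ℕ}
    (hX : ∀ l' : List (Cls V d), (∀ C ∈ l', OKC G a b C) → pot l' < pot l →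
      ∀ Q : Set V, Cov G Q l' → ColOn G Q X) :
    ColOn G B ((l.length * 2) * ((k + 1) * (n * 2 ^ (d * 2)) * X)) := by
  classical
  obtain ⟨hst, -, hcv, hnest⟩ := hnp
  have hex : ∀ v ∈ B, ∃ q : Fin l.length × Bool, ∃ x ∈ A,
      (q.2 = true ∧ (l.get q.1).R x v) ∨ (q.2 = false ∧ (l.get q.1).R v x) := by
    intro v hv
    obtain ⟨x, hx, hadj⟩ := hcv v hv
    obtain ⟨C, hC, hR⟩ := hcov x (hAQ hx) v (hBQ hv) hadj
    obtain ⟨i, rfl⟩ := List.get_of_mem hC
    rcases hR with h | h
    · exact ⟨(i, true), x, hx, Or.inl ⟨rfl, h⟩⟩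
    · exact ⟨(i, false), x, hx, Or.inr ⟨rfl, h⟩⟩
  rcases B.eq_empty_or_nonempty with hB | ⟨v0, hv0⟩
  · rw [hB]
    exact ⟨fun _ => 0, fun v hv => absurd hv (Set.notMem_empty v),
      fun u hu => absurd hu (Set.notMem_empty u)⟩
  obtain ⟨q0, -⟩ := hex v0 hv0
  have : Nonempty (Fin l.length × Bool) := ⟨q0⟩
  choose! f hf using hex
  have hcard : Fintype.card (Fin l.length × Bool) = l.length * 2 := by
    rw [Fintype.card_prod, Fintype.card_fin, Fintype.card_bool]
  rw [← hcard]
  apply ColOn.of_fin f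
  rintro ⟨i, s⟩
  have hsplit : l.take i ++ l.get i :: l.drop (i + 1) = l := by
    rw [List.get_eq_getElem, List.cons_getElem_drop_succ, List.take_append_drop]
  have hCi : OKC G a b (l.get i) := hl _ (List.get_mem l i)
  have hl1 : ∀ C ∈ l.take i, OKC G a b C := fun C hC => hl C (List.mem_of_mem_take hC)
  have hl2 : ∀ C ∈ l.drop (i + 1), OKC G a b C := fun C hC => hl C (List.mem_of_mem_drop hC)
  have hnest' : ∀ x ∈ {v | v ∈ B ∧ f v = (i, s)}, ∀ y ∈ {v | v ∈ B ∧ f v = (i, s)}, G.Adj x y →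
      NA G A x ⊆ NA G A y ∨ NA G A y ⊆ NA G A x := fun x hx y hy => hnest x hx.1 y hy.1
  cases s with
  | true =>
    refine kill_down hab hG hn0 hn hk hCi (l.take i) (l.drop (i + 1)) hl1 hl2 (Q := Q)
      (fun v hv => hBQ hv.1) (by rw [hsplit]; exact hcov) hst hnest' ?_ ?_
    · rintro v ⟨hv, hfv⟩
      obtain ⟨x, hx, h | h⟩ := hf v hv
      · rw [hfv] at h
        exact ⟨x, hx, h.2⟩
      · rw [hfv] at h
        exact absurd h.1 (by simp)
    · rw [hsplit]
      exact hX
  | false =>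
    refine kill_down hab hG hn0 hn hk hCi.op (l.take i) (l.drop (i + 1)) hl1 hl2 (Q := Q)
      (fun v hv => hBQ hv.1) ?_ hst hnest' ?_ ?_
    · intro u hu v hv huv
      obtain ⟨C, hC, hR⟩ := hcov u hu v hv huv
      rw [← hsplit, List.mem_append, List.mem_cons] at hC
      rcases hC with h | h | h
      · exact ⟨C, List.mem_append.2 (Or.inl h), hR⟩
      · rw [h] at hR
        exact ⟨(l.get i).op, List.mem_append.2 (Or.inr (List.mem_cons.2 (Or.inl rfl))), hR.symm⟩
      · exact ⟨C, List.mem_append.2 (Or.inr (List.mem_cons.2 (Or.inr h))), hR⟩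
    · rintro v ⟨hv, hfv⟩
      obtain ⟨x, hx, h | h⟩ := hf v hv
      · rw [hfv] at h
        exact absurd h.1 (by simp)
      · rw [hfv] at h
        exact ⟨x, hx, h.2⟩
    · have h1 : pot (l.take i ++ (l.get i).op :: l.drop (i + 1)) = pot l := by
        conv_rhs => rw [← hsplit]
        rw [pot_append, pot_append, pot_cons, pot_cons, Cls.w_op]
      rw [h1]
      exact hX

end BoxSS
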