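import Pool.Agent.W_ccb602.SSDefs

/-!
# MP_ccb602_co: odd-hole-free graphs, interface of the Scott-Seymour step with polynomial loss

See table proofs, id 412 (helper43).  All sets are sets of vertices of one graph `G`.
-/

set_option autoImplicit false

namespace BoxSS

variable {V : Type*}

/-- `r` is a linear order of `A` along which `J` and its complement are transitive -/
structure Ord (A : Set V) (J : V → V → Prop) (r : V → ℕ) : Prop where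
  inj : ∀ a ∈ A, ∀ b ∈ A, r a = r b → a = b
  one : ∀ a ∈ A, ∀ b ∈ A, ∀ c ∈ A, r a < r b → r b < r c → J a b → J b c → J a c
  zero : ∀ a ∈ A, ∀ b ∈ A, ∀ c ∈ A, r a < r b → r b < r c → ¬ J a b → ¬ J b c → ¬ J a c

/-- `A` stable, covers `B`; `J` is the parity of the induced paths with interior in `B` (lengths 2, 3, 4) -/
structure ParOK (G : SimpleGraph V) (A B : Set V) (J : V → V → Prop) : Prop where
  stable : ∀ a ∈ A, ∀ a' ∈ A, ¬ G.Adj a a'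
  cover : ∀ b ∈ B, ∃ a ∈ A, G.Adj a b
  symm : ∀ a ∈ A, ∀ a' ∈ A, J a a' → J a' a
  p2 : ∀ b ∈ B, ∀ a ∈ A, ∀ a' ∈ A, a ≠ a' → G.Adj a b → G.Adj a' b → ¬ J a a'
  p3 : ∀ x ∈ B, ∀ y ∈ B, G.Adj x y → ∀ a ∈ A, ∀ a' ∈ A, G.Adj a x → ¬ G.Adj a y →
    G.Adj a' y → ¬ G.Adj a' x → J a a'
  p4 : ∀ x ∈ B, ∀ y ∈ B, ∀ z ∈ B, G.Adj x y → G.Adj y z → x ≠ z → ¬ G.Adj x z →
    ∀ a ∈ A, ∀ a' ∈ A, G.Adj a x → ¬ G.Adj a y → ¬ G.Adj a z →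
      G.Adj a' z → ¬ G.Adj a' x → ¬ G.Adj a' y → ¬ J a a'

/-- how the parity `J'` on a stable set `B` of children is determined by the parity `J` on `A` -/
structure LowOK (G : SimpleGraph V) (A B : Set V) (J J' : V → V → Prop) : Prop where
  stableB : ∀ b ∈ B, ∀ b' ∈ B, ¬ G.Adj b b'
  common : ∀ b ∈ B, ∀ b' ∈ B, b ≠ b' → ∀ a ∈ A, G.Adj a b → G.Adj a b' → ¬ J' b b'
  low : ∀ b ∈ B, ∀ b' ∈ B, b ≠ b' → ∀ a ∈ A, ∀ a' ∈ A, G.Adj a b → ¬ G.Adj a b' →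
    G.Adj a' b' → ¬ G.Adj a' b → (J' b b' ↔ J a a')

/-- Two consecutive low levels: `X` above, `Y` below; `JX x y`: `x ~ y` or the induced paths between
`x` and `y` with interior below are odd. -/
structure Step (G : SimpleGraph V) (X Y : Set V) (JX JY : V → V → Prop) : Prop where
  disj : ∀ x ∈ X, x ∉ Y
  par : ∀ x ∈ X, ∃ p ∈ Y, G.Adj p x
  symX : ∀ x ∈ X, ∀ y ∈ X, JX x y → JX y x
  symY : ∀ x ∈ Y, ∀ y ∈ Y, JY x y → JY y x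
  adjX : ∀ x ∈ X, ∀ y ∈ X, G.Adj x y → JX x y
  adjY : ∀ x ∈ Y, ∀ y ∈ Y, G.Adj x y → JY x y
  f1 : ∀ x ∈ X, ∀ y ∈ X, x ≠ y → ∀ p ∈ Y, G.Adj p x → G.Adj p y → JX x y → G.Adj x y
  f2 : ∀ x ∈ X, ∀ y ∈ X, x ≠ y → ∀ p ∈ Y, ∀ r ∈ Y, G.Adj p x → ¬ G.Adj p y →
    G.Adj r y → ¬ G.Adj r x → (JY p r ↔ JX x y)
  f3 : ∀ x ∈ X, ∀ p ∈ Y, ∀ r ∈ Y, p ≠ r → G.Adj p x → G.Adj r x → JY p r → G.Adj p r
  f4 : ∀ x ∈ X, ∀ y ∈ X, ∀ u ∈ X, G.Adj x y → u ≠ x → u ≠ y → ¬ G.Adj u x → ¬ G.Adj u y →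
    (JX u x ↔ JX u y) → (∀ p ∈ Y, (G.Adj p x ↔ G.Adj p y)) ∨
      (∀ p ∈ Y, G.Adj p u → G.Adj p x ∧ G.Adj p y)
  /-- induced path with 2 arcs in `X` -/
  q2 : ∀ x ∈ X, ∀ y ∈ X, ∀ z ∈ X, G.Adj x y → G.Adj y z → x ≠ z → ¬ G.Adj x z → ¬ JX x z
  /-- induced path with 3 arcs in `X` -/
  q3 : ∀ a ∈ X, ∀ b ∈ X, ∀ c ∈ X, ∀ d ∈ X, G.Adj a b → G.Adj b c → G.Adj c d →
    a ≠ c → ¬ G.Adj a c → b ≠ d → ¬ G.Adj b d → a ≠ d → ¬ G.Adj a d → JX a d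
  /-- induced path with 3 arcs in `Y` -/
  q3Y : ∀ a ∈ Y, ∀ b ∈ Y, ∀ c ∈ Y, ∀ d ∈ Y, G.Adj a b → G.Adj b c → G.Adj c d →
    a ≠ c → ¬ G.Adj a c → b ≠ d → ¬ G.Adj b d → a ≠ d → ¬ G.Adj a d → JY a d
  /-- induced path `y - s - w - r - z` with `r` in `Y` and the other vertices in `X` -/
  q4 : ∀ y ∈ X, ∀ s ∈ X, ∀ w ∈ X, ∀ r ∈ Y, ∀ z ∈ X, G.Adj y s → G.Adj s w → G.Adj w r →
    G.Adj r z → y ≠ w → ¬ G.Adj y w → ¬ G.Adj y r → y ≠ z → ¬ G.Adj y z → ¬ G.Adj s r →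
    s ≠ z → ¬ G.Adj s z → w ≠ z → ¬ G.Adj w z → ¬ JX y z

/-- pruned levels `L 0, ..., L k`: every vertex of a level below `k` has a private child -/
structure Lev (G : SimpleGraph V) (k : ℕ) (L : ℕ → Set V) : Prop where
  root : ∃ z, L 0 = {z}
  far : ∀ i j u v, u ∈ L i → v ∈ L j → G.Adj u v → j ≤ i + 1
  disj : ∀ i j v, v ∈ L i → v ∈ L j → i = j
  par : ∀ i, i < k → ∀ v ∈ L (i + 1), ∃ u ∈ L i, G.Adj u v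
  priv : ∀ i, i < k → ∀ u ∈ L i, ∃ c ∈ L (i + 1), G.Adj u c ∧ ∀ w ∈ L i, G.Adj w c → w = u
  conn : ∀ u ∈ L k, ∀ v ∈ L k, Relation.ReflTransGen (fun x y => y ∈ L k ∧ G.Adj x y) u v

/-- what Part (I) provides: `J i` is the parity on level `i` (`J i u v`: adjacent, or the lower induced
paths are odd) -/
structure JFacts (G : SimpleGraph V) (n k : ℕ) (L : ℕ → Set V) (J : ℕ → V → V → Prop) : Prop where
  step : ∀ i, i + 3 ≤ k → Step G (L (i + 1)) (L i) (J (i + 1)) (J i)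
  cls : ∀ i, i + 2 ≤ k → ∀ s ∈ L i, ∃ c : V → ℕ, (∀ v ∈ L i, c v < 4 * n) ∧
    ∀ u ∈ L i, ∀ v ∈ L i, u ≠ s → v ≠ s → c u = c v → ¬ G.Adj u v ∧ (J i s u ↔ J i s v)
  symm : ∀ i, i < k → ∀ u ∈ L i, ∀ v ∈ L i, J i u v → J i v u
  up : ∀ i, i < k → ∀ A B, A ⊆ L i → B ⊆ L (i + 1) → (∀ a ∈ A, ∀ a' ∈ A, ¬ G.Adj a a') →
    (∀ b ∈ B, ∃ a ∈ A, G.Adj a b) → ParOK G A B (J i)
  low : ∀ i, i + 1 < k → ∀ A B, A ⊆ L i → B ⊆ L (i + 1) → (∀ a ∈ A, ∀ a' ∈ A, ¬ G.Adj a a') →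
    (∀ b ∈ B, ∀ b' ∈ B, ¬ G.Adj b b') → LowOK G A B (J i) (J (i + 1))

end BoxSS
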