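import Pool.Agent.W_ccb602.SSLevel
import Pool.Agent.W_ccb602.SSIface

/-!
# MP_ccb602_co: facts on the parity `J` of a pruned levelling

Main result `BoxSS.exists_J`: a pruned levelling of a graph without odd holes has parities satisfying `JFacts`.
-/

set_option autoImplicit false

namespace SS80

variable {V : Type*}

namespace Lev

variable {G : SimpleGraph V} {L : ℕ → Set V} {k : ℕ}

theorem js_path (hL : Lev G L k) (hG : NoOddHole G) {i : ℕ} (hi : 1 ≤ i) (hik : i < k) {p q : V}
    (hp : p ∈ L i) (hq : q ∈ L i) (hne : p ≠ q) :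
    ∃ m, IPin G (Lt L i) p q m ∧ (Js G L i p q ↔ Odd m) := by
  by_cases h : G.Adj p q
  · exact ⟨1, ipin_one h, ⟨fun _ => by decide, fun _ => Or.inl h⟩⟩
  · obtain ⟨m, hm⟩ := hL.lower_exists hi hik.le hp hq
    refine ⟨m, hm, ?_⟩
    rw [← hL.par_low hG hik hp hq hne h hm]
    exact ⟨fun h' => h'.resolve_left h, Or.inr⟩

theorem js_iff {i : ℕ} {u v : V} (h : ¬ G.Adj u v) : Js G L i u v ↔ J G L i u v :=
  ⟨fun h' => h'.resolve_left h, Or.inr⟩

theorem f4a (hL : Lev G L k) (hG : NoOddHole G) {i : ℕ} (hik : i + 2 < k) {x y u q : V}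
    (hx : x ∈ L (i + 1)) (hy : y ∈ L (i + 1)) (hu : u ∈ L (i + 1)) (hq : q ∈ L i)
    (hxy : G.Adj x y) (hux : ¬ G.Adj u x) (huy : ¬ G.Adj u y) (hux' : u ≠ x)
    (h1 : G.Adj q u) (h2 : G.Adj q x) (h3 : ¬ G.Adj q y) :
    ¬ (Js G L (i + 1) u x ↔ Js G L (i + 1) u y) := by
  have e1 : ¬ J G L (i + 1) u x := hL.r1 hG (by omega) hu hx hux' hux hq h1 h2
  have e2 : J G L (i + 1) y u :=
    hL.r5 hG hik hx hy hu hq h2 h3 h1 hxy (fun h => hux h.symm) (fun h => huy h.symm) hux'.symm
  rw [js_iff hux, js_iff huy]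
  intro h
  exact e1 (h.2 e2.symm)

theorem f4b (hL : Lev G L k) (hG : NoOddHole G) {i : ℕ} (hik : i + 2 < k) {x y u q p : V}
    (hx : x ∈ L (i + 1)) (hy : y ∈ L (i + 1)) (hu : u ∈ L (i + 1)) (hq : q ∈ L i) (hp : p ∈ L i)
    (hxy : G.Adj x y) (hux : ¬ G.Adj u x) (huy : ¬ G.Adj u y) (huy' : u ≠ y)
    (h1 : G.Adj q u) (h2 : ¬ G.Adj q x) (h3 : ¬ G.Adj q y) (h4 : G.Adj p x) (h5 : ¬ G.Adj p y)
    (h6 : ¬ G.Adj p u) :
    ¬ (Js G L (i + 1) u x ↔ Js G L (i + 1) u y) := by
  have hqp : q ≠ p := by rintro rfl; exact h2 h4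
  have hi : 1 ≤ i := by
    rcases Nat.eq_zero_or_pos i with h | h
    · subst h
      exact absurd (hL.root q hq p hp) hqp
    · exact h
  obtain ⟨m, hm, hodd⟩ := hL.js_path hG hi (by omega) hq hp hqp
  have e1 := hL.r2 hG (by omega) hu hx hq hp h1 h2 h4 h6
  have e2 := hL.lower_up' hu hx hq hp h1 h2 h4 h6 hux hm
  have hanti : ∀ z ∈ Lt L i, ∀ w ∈ L (i + 1), z ≠ w ∧ ¬ G.Adj z w := by
    rintro z ⟨j, hj, hz⟩ w hw
    exact hL.anti (i := j) (j := i + 1) (by omega) (mem_le hz) (mem_ge hw)
  have e3 : IPin G (insert x (insert p (insert q (Lt L i)))) x u (m + 2) :=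
    e2.symm.mono (Set.subset_insert _ _)
  have e4 : IPin G (insert x (insert p (insert q (Lt L i)))) y u (m + 2 + 1) := by
    refine e3.cons hxy.symm huy'.symm (Set.mem_insert _ _) ?_ (fun _ h => huy h.symm)
    rintro z (rfl | rfl | rfl | hz) hz'
    · exact absurd rfl hz'
    · exact ⟨hL.ne_succ hp hy, fun h => h5 h.symm⟩
    · exact ⟨hL.ne_succ hq hy, fun h => h3 h.symm⟩
    · obtain ⟨h7, h8⟩ := hanti z hz y hy
      exact ⟨h7, fun h => h8 h.symm⟩
  have e5 : IPin G (Le L (i + 1)) u y (m + 2 + 1) := by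
    refine e4.symm.mono ?_
    rintro z (rfl | rfl | rfl | hz)
    · exact mem_le hx
    · exact ⟨i, by omega, hp⟩
    · exact ⟨i, by omega, hq⟩
    · obtain ⟨j, hj, hz⟩ := hz
      exact ⟨j, by omega, hz⟩
  have e6 := hL.star hG (by omega) (by omega) hu hy huy' huy e5
  rw [← e1, hodd, js_iff huy, e6, Nat.odd_iff, Nat.odd_iff]
  omega

/-- (F4) -/
theorem f4 (hL : Lev G L k) (hG : NoOddHole G) {i : ℕ} (hik : i + 2 < k) {x y u : V}
    (hx : x ∈ L (i + 1)) (hy : y ∈ L (i + 1)) (hu : u ∈ L (i + 1))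
    (hxy : G.Adj x y) (hux' : u ≠ x) (huy' : u ≠ y) (hux : ¬ G.Adj u x) (huy : ¬ G.Adj u y)
    (h : Js G L (i + 1) u x ↔ Js G L (i + 1) u y) :
    (∀ p ∈ L i, (G.Adj p x ↔ G.Adj p y)) ∨ (∀ p ∈ L i, G.Adj p u → G.Adj p x ∧ G.Adj p y) := by
  by_contra hcon
  rw [not_or] at hcon
  obtain ⟨hc1, hc2⟩ := hcon
  push Not at hc1 hc2
  obtain ⟨q, hq, hqu, hq'⟩ := hc2
  have key : ∀ a ∈ L i, G.Adj a u → (G.Adj a x ↔ G.Adj a y) := by
    intro a ha hau
    by_cases h1 : G.Adj a x
    · by_cases h2 : G.Adj a y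
      · exact ⟨fun _ => h2, fun _ => h1⟩
      · exact absurd h (hL.f4a hG hik hx hy hu ha hxy hux huy hux' hau h1 h2)
    · by_cases h2 : G.Adj a y
      · exact absurd h.symm (hL.f4a hG hik hy hx hu ha hxy.symm huy hux huy' hau h2 h1)
      · exact ⟨fun h' => absurd h' h1, fun h' => absurd h' h2⟩
  have hqx : ¬ G.Adj q x := fun h1 => hq' h1 ((key q hq hqu).1 h1)
  have hqy : ¬ G.Adj q y := fun h1 => hqx ((key q hq hqu).2 h1)
  obtain ⟨p, hp, hp'⟩ := hc1
  have hpu : ¬ G.Adj p u := by
    intro h1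
    have := key p hp h1
    rcases hp' with ⟨h2, h3⟩ | ⟨h2, h3⟩
    · exact h3 (this.1 h2)
    · exact h2 (this.2 h3)
  rcases hp' with ⟨h2, h3⟩ | ⟨h2, h3⟩
  · exact hL.f4b hG hik hx hy hu hq hp hxy hux huy huy' hqu hqx hqy h2 h3 hpu h
  · exact hL.f4b hG hik hy hx hu hq hp hxy.symm huy hux hux' hqu hqy hqx h3 h2 hpu h.symm

open Classical in
/-- step 3 -/
theorem cls (hL : Lev G L k) (hG : NoOddHole G) {n : ℕ}
    (hn : ∀ a, ColOn G {v | G.Adj a v} n) {i : ℕ} (hik : i + 2 ≤ k) {s : V} (hs : s ∈ L i) :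
    ∃ c : V → ℕ, (∀ v ∈ L i, c v < 4 * n) ∧
      ∀ u ∈ L i, ∀ v ∈ L i, u ≠ s → v ≠ s → c u = c v →
        ¬ G.Adj u v ∧ (Js G L i s u ↔ Js G L i s v) := by
  have hn0 : 0 < n := by
    obtain ⟨c, hc, h1, _⟩ := hL.priv i (by omega) s hs
    obtain ⟨f, hf, _⟩ := hn s
    exact lt_of_le_of_lt (Nat.zero_le _) (hf c h1)
  cases i with
  | zero =>
    refine ⟨fun _ => 0, fun _ _ => Nat.mul_pos (by decide) hn0, ?_⟩
    intro u hu v hv hus _ _
    exact absurd (hL.root u hu s hs) hus
  | succ i =>
    obtain ⟨s', hs', hss⟩ := hL.par i (by omega) s hs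
    choose col hcol1 hcol2 using hn
    let pick : Set V → V := fun S => if h : S.Nonempty then h.some else s
    let par : V → V := fun v => pick {p | p ∈ L i ∧ G.Adj p v}
    have hpar : ∀ v ∈ L (i + 1), par v ∈ L i ∧ G.Adj (par v) v := by
      intro v hv
      obtain ⟨p, hp, hpv⟩ := hL.par i (by omega) v hv
      have hne : ({p | p ∈ L i ∧ G.Adj p v} : Set V).Nonempty := ⟨p, hp, hpv⟩
      have h1 : par v = hne.some := dif_pos hne
      rw [h1]
      exact hne.some_mem
    have hb : ∀ v ∈ L (i + 1), col (par v) v < n := fun v hv => hcol1 _ v (hpar v hv).2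
    let c : V → ℕ := fun v => if G.Adj s v then col s v else
      if G.Adj s' v then n + col s' v else
      if Js G L (i + 1) s v then 2 * n + col (par v) v else 3 * n + col (par v) v
    have c1 : ∀ v, G.Adj s v → c v = col s v := fun v h => if_pos h
    have c2 : ∀ v, ¬ G.Adj s v → G.Adj s' v → c v = n + col s' v := by
      intro v h h'
      simp only [c, if_neg h, if_pos h']
    have c3 : ∀ v, ¬ G.Adj s v → ¬ G.Adj s' v → Js G L (i + 1) s v →
        c v = 2 * n + col (par v) v := by
      intro v h h' h''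
      simp only [c, if_neg h, if_neg h', if_pos h'']
    have c4 : ∀ v, ¬ G.Adj s v → ¬ G.Adj s' v → ¬ Js G L (i + 1) s v →
        c v = 3 * n + col (par v) v := by
      intro v h h' h''
      simp only [c, if_neg h, if_neg h', if_neg h'']
    have hsame : ∀ u ∈ L (i + 1), ∀ v ∈ L (i + 1), u ≠ s → v ≠ s → ¬ G.Adj s u → ¬ G.Adj s v →
        ¬ G.Adj s' u → (Js G L (i + 1) s u ↔ Js G L (i + 1) s v) →
        col (par u) u = col (par v) v → ¬ G.Adj u v := by
      intro u hu v hv hus hvs hsu hsv hsu' hJ heq huv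
      have hparuv : par u = par v := by
        rcases hL.f4 hG (by omega) hu hv hs huv (Ne.symm hus) (Ne.symm hvs) hsu hsv hJ with
          h | h
        · have : ({p | p ∈ L i ∧ G.Adj p u} : Set V) = {p | p ∈ L i ∧ G.Adj p v} := by
            ext p
            constructor
            · rintro ⟨h1, h2⟩
              exact ⟨h1, (h p h1).1 h2⟩
            · rintro ⟨h1, h2⟩
              exact ⟨h1, (h p h1).2 h2⟩
          change pick _ = pick _
          rw [this]
        · exact absurd (h s' hs' hss).1 hsu'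
      have h1 := (hpar u hu).2
      have h2 := (hpar v hv).2
      rw [hparuv] at h1 heq
      exact hcol2 (par v) u h1 v h2 huv heq
    refine ⟨c, ?_, ?_⟩
    · intro v hv
      by_cases h1 : G.Adj s v
      · rw [c1 v h1]
        have := hcol1 s v h1
        omega
      · by_cases h2 : G.Adj s' v
        · rw [c2 v h1 h2]
          have := hcol1 s' v h2
          omega
        · have := hb v hv
          by_cases h3 : Js G L (i + 1) s v
          · rw [c3 v h1 h2 h3]; omega
          · rw [c4 v h1 h2 h3]; omega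
    · intro u hu v hv hus hvs heq
      have hbu := hb u hu
      have hbv := hb v hv
      have h2false : ∀ w ∈ L (i + 1), w ≠ s → ¬ G.Adj s w → G.Adj s' w →
          ¬ Js G L (i + 1) s w := by
        intro w hw hws h1 h2
        rw [js_iff h1]
        exact hL.r1 hG (by omega) hs hw (Ne.symm hws) h1 hs' hss h2
      by_cases hu1 : G.Adj s u
      · rw [c1 u hu1] at heq
        have h5 := hcol1 s u hu1
        by_cases hv1 : G.Adj s v
        · rw [c1 v hv1] at heq
          exact ⟨fun huv => hcol2 s u hu1 v hv1 huv heq, ⟨fun _ => Or.inl hv1, fun _ => Or.inl hu1⟩⟩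
        · exfalso
          by_cases hv2 : G.Adj s' v
          · rw [c2 v hv1 hv2] at heq; omega
          · by_cases hv3 : Js G L (i + 1) s v
            · rw [c3 v hv1 hv2 hv3] at heq; omega
            · rw [c4 v hv1 hv2 hv3] at heq; omega
      · by_cases hu2 : G.Adj s' u
        · rw [c2 u hu1 hu2] at heq
          have h5 := hcol1 s' u hu2
          by_cases hv1 : G.Adj s v
          · rw [c1 v hv1] at heq
            have h6 := hcol1 s v hv1
            omega
          · by_cases hv2 : G.Adj s' v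
            · rw [c2 v hv1 hv2] at heq
              refine ⟨fun huv => hcol2 s' u hu2 v hv2 huv (by omega), ?_⟩
              exact ⟨fun h => absurd h (h2false u hu hus hu1 hu2),
                fun h => absurd h (h2false v hv hvs hv1 hv2)⟩
            · exfalso
              by_cases hv3 : Js G L (i + 1) s v
              · rw [c3 v hv1 hv2 hv3] at heq; omega
              · rw [c4 v hv1 hv2 hv3] at heq; omega
        · by_cases hv1 : G.Adj s v
          · exfalso
            rw [c1 v hv1] at heq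
            have h6 := hcol1 s v hv1
            by_cases hu3 : Js G L (i + 1) s u
            · rw [c3 u hu1 hu2 hu3] at heq; omega
            · rw [c4 u hu1 hu2 hu3] at heq; omega
          · by_cases hv2 : G.Adj s' v
            · exfalso
              rw [c2 v hv1 hv2] at heq
              have h6 := hcol1 s' v hv2
              by_cases hu3 : Js G L (i + 1) s u
              · rw [c3 u hu1 hu2 hu3] at heq; omega
              · rw [c4 u hu1 hu2 hu3] at heq; omega
            · by_cases hu3 : Js G L (i + 1) s u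
              · rw [c3 u hu1 hu2 hu3] at heq
                by_cases hv3 : Js G L (i + 1) s v
                · rw [c3 v hv1 hv2 hv3] at heq
                  have hiff : Js G L (i + 1) s u ↔ Js G L (i + 1) s v :=
                    ⟨fun _ => hv3, fun _ => hu3⟩
                  exact ⟨hsame u hu v hv hus hvs hu1 hv1 hu2 hiff (by omega), hiff⟩
                · rw [c4 v hv1 hv2 hv3] at heq; omega
              · rw [c4 u hu1 hu2 hu3] at heq
                by_cases hv3 : Js G L (i + 1) s v
                · rw [c3 v hv1 hv2 hv3] at heq; omega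
                · rw [c4 v hv1 hv2 hv3] at heq
                  have hiff : Js G L (i + 1) s u ↔ Js G L (i + 1) s v :=
                    ⟨fun h => absurd h hu3, fun h => absurd h hv3⟩
                  exact ⟨hsame u hu v hv hus hvs hu1 hv1 hu2 hiff (by omega), hiff⟩

end Lev

end SS80

namespace BoxSS

open SS80

variable {V : Type*}

theorem Lev.to80 {G : SimpleGraph V} {k : ℕ} {L : ℕ → Set V} (hL : Lev G k L) :
    SS80.Lev G L k where
  far := by
    intro i j hij u hu v hv huv
    have := hL.far i j u v hu hv huv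
    omega
  disj := fun i j hij u hu hu' => hij (hL.disj i j u hu hu')
  par := hL.par
  root := by
    obtain ⟨z, hz⟩ := hL.root
    intro u hu v hv
    rw [hz] at hu hv
    rw [Set.mem_singleton_iff] at hu hv
    rw [hu, hv]
  priv := hL.priv
  conn := by
    intro u hu v hv
    have key : ∀ w, Relation.ReflTransGen (fun x y => y ∈ L k ∧ G.Adj x y) u w →
        w ∈ L k ∧ Cn G (L k) u w := by
      intro w h
      induction h with
      | refl => exact ⟨hu, Relation.ReflTransGen.refl⟩
      | tail _ hbc ih =>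
        obtain ⟨h1, h2⟩ := hbc
        exact ⟨h1, Relation.ReflTransGen.tail ih.2 ⟨h2, ih.1, h1⟩⟩
    exact (key v (hL.conn u hu v hv)).2

/-- Part (I): parities of a pruned levelling -/
theorem exists_J {G : SimpleGraph V} (hG : NoOddHole G) {n : ℕ}
    (hn : ∀ a, ColOn G {v | G.Adj a v} n) {k : ℕ} {L : ℕ → Set V} (hL : Lev G k L) :
    ∃ J, JFacts G n k L J := by
  have hG' : SS80.NoOddHole G := hG
  have hn' : ∀ a, SS80.ColOn G {v | G.Adj a v} n := hn
  have h := hL.to80
  refine ⟨fun i => Js G L i, ?_⟩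
  constructor
  · -- step
    intro i hi
    have hroot : ∀ {p q : V}, p ∈ L i → q ∈ L i → p ≠ q → 1 ≤ i := by
      intro p q hp hq hne
      rcases Nat.eq_zero_or_pos i with h0 | h0
      · subst h0
        exact absurd (h.root p hp q hq) hne
      · exact h0
    constructor
    · intro x hx hx'
      exact h.disj (i + 1) i (by omega) x hx hx'
    · intro x hx
      exact h.par i (by omega) x hx
    · intro x _ y _ hxy
      exact hxy.symm
    · intro x _ y _ hxy
      exact hxy.symm
    · intro x _ y _ hxy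
      exact Or.inl hxy
    · intro x _ y _ hxy
      exact Or.inl hxy
    · intro x hx y hy hne p hp hpx hpy hJ
      by_contra hna
      exact h.r1 hG' (by omega) hx hy hne hna hp hpx hpy ((SS80.Lev.js_iff hna).1 hJ)
    · intro x hx y hy _ p hp r hr h1 h2 h3 h4
      exact h.r2 hG' (by omega) hx hy hp hr h1 h2 h3 h4
    · intro x hx p hp r hr hne h1 h2 hJ
      by_contra hna
      exact h.r3 hG' (hroot hp hr hne) (by omega) hp hr hne hna hx h1 h2
        ((SS80.Lev.js_iff hna).1 hJ)
    · intro x hx y hy u hu hxy hux huy hux' huy' hJ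
      exact h.f4 hG' (by omega) hx hy hu hxy hux huy hux' huy' hJ
    · intro x hx y hy z hz hxy hyz hne hna hJ
      have e := h.star hG' (by omega) (by omega) hx hz hne hna
        (ipin_two hxy hyz hne hna (mem_le hy))
      rw [SS80.Lev.js_iff hna, e] at hJ
      exact absurd hJ (by decide)
    · intro a ha b hb c hc d hd hab hbc hcd hac' hac hbd' hbd had' had
      have e := h.star hG' (by omega) (by omega) ha hd had' had
        (ipin_three hab hbc hcd hac hbd had had' hac' hbd' (mem_le hb) (mem_le hc))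
      exact Or.inr (e.2 (by decide))
    · intro a ha b hb c hc d hd hab hbc hcd hac' hac hbd' hbd had' had
      have e := h.star hG' (hroot ha hc hac') (by omega) ha hd had' had
        (ipin_three hab hbc hcd hac hbd had had' hac' hbd' (mem_le hb) (mem_le hc))
      exact Or.inr (e.2 (by decide))
    · intro y hy s hs w hw r hr z hz h1 h2 h3 h4 hyw' hyw hyr hyz' hyz hsr hsz' hsz hwz' hwz hJ
      have e := h.star hG' (by omega) (by omega) hy hz hyz' hyz
        (ipin_four h1 h2 h3 h4 hyw hyr hyz hsr hsz hwz hyw' (h.ne_succ hr hy).symm hyz'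
          (h.ne_succ hr hs).symm hsz' hwz' (mem_le hs) (mem_le hw)
          (show r ∈ Le L (i + 1) from ⟨i, by omega, hr⟩))
      rw [SS80.Lev.js_iff hyz, e] at hJ
      exact absurd hJ (by decide)
  · intro i hi s hs
    exact h.cls hG' hn' hi hs
  · intro i _ u _ v _ hJ
    exact hJ.symm
  · -- up
    intro i hi A B hA hB hst hcov
    have hroot : ∀ {p q : V}, p ∈ L i → q ∈ L i → p ≠ q → 1 ≤ i := by
      intro p q hp hq hne
      rcases Nat.eq_zero_or_pos i with h0 | h0
      · subst h0
        exact absurd (h.root p hp q hq) hne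
      · exact h0
    constructor
    · exact hst
    · exact hcov
    · intro a _ a' _ hJ
      exact hJ.symm
    · intro b hb a ha a' ha' hne h1 h2 hJ
      have hna := hst a ha a' ha'
      exact h.r3 hG' (hroot (hA ha) (hA ha') hne) hi (hA ha) (hA ha') hne hna (hB hb) h1 h2
        ((SS80.Lev.js_iff hna).1 hJ)
    · intro x hx y hy hxy a ha a' ha' h1 h2 h3 h4
      have hne : a ≠ a' := by rintro rfl; exact h4 h1
      exact h.p3 hG' (hroot (hA ha) (hA ha') hne) hi (hB hx) (hB hy) (hA ha) (hA ha') h1 h2 h3 h4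
        hxy
    · intro x hx y hy z hz hxy hyz _ hxz a ha a' ha' h1 h2 h3 h4 h5 h6 hJ
      have hne : a ≠ a' := by rintro rfl; exact h5 h1
      have hna := hst a ha a' ha'
      exact h.p4 hG' (hroot (hA ha) (hA ha') hne) hi (hB hx) (hB hy) (hB hz) (hA ha) (hA ha')
        hxy hyz hxz h1 h2 h3 h5 h6 h4 hna ((SS80.Lev.js_iff hna).1 hJ)
  · -- low
    intro i hi A B hA hB hst hstB
    constructor
    · exact hstB
    · intro b hb b' hb' hne a ha h1 h2 hJ
      have hna := hstB b hb b' hb'
      exact h.r1 hG' hi (hB hb) (hB hb') hne hna (hA ha) h1 h2 ((SS80.Lev.js_iff hna).1 hJ)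
    · intro b hb b' hb' _ a ha a' ha' h1 h2 h3 h4
      exact (h.r2 hG' hi (hB hb) (hB hb') (hA ha) (hA ha') h1 h2 h3 h4).symm

end BoxSS
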