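import Pool.Agent.W_ccb602.LOGlue
import Pool.Agent.W_ccb602.SSFacts

/-!
# MP_ccb602_co: balls and low levels in a graph without long odd holes

`LO.ball : BallStmt`, `LO.low : LowStmt`.
-/

set_option autoImplicit false

namespace LO

open BoxSS
open SS80 (IP IPin Wk Cn)

variable {V : Type*}

/-! ### colouring lemmas -/

theorem ColOn.union' {G : SimpleGraph V} {S T : Set V} {n m : ℕ} (hS : ColOn G S n)
    (hT : ColOn G T m) : ColOn G (S ∪ T) (n + m) := by
  classical
  obtain ⟨c, hc1, hc2⟩ := hS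
  obtain ⟨d, hd1, hd2⟩ := hT
  refine ⟨fun v => if v ∈ S then c v else n + d v, ?_, ?_⟩
  · intro v hv
    by_cases h : v ∈ S
    · simp only [h, if_true]
      have := hc1 v h
      omega
    · simp only [h, if_false]
      have := hd1 v (hv.resolve_left h)
      omega
  · intro u hu v hv huv
    by_cases h : u ∈ S
    · by_cases h' : v ∈ S
      · simp only [h, h', if_true]
        exact hc2 u h v h' huv
      · simp only [h, h', if_true, if_false]
        have := hc1 u h
        omega
    · by_cases h' : v ∈ S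
      · simp only [h, h', if_true, if_false]
        have := hc1 v h'
        omega
      · simp only [h, h', if_false]
        have := hd2 u (hu.resolve_left h) v (hv.resolve_left h') huv
        omega

/-- coding of vectors of colours -/
theorem vec_code (X : ℕ) (g : V → ℕ → ℕ) (S : Set V) : ∀ r : ℕ,
    (∀ v ∈ S, ∀ i < r, g v i < X) →
    ∃ e : V → ℕ, (∀ v ∈ S, e v < X ^ r) ∧
      ∀ u ∈ S, ∀ v ∈ S, e u = e v → ∀ i < r, g u i = g v i := by
  intro r
  induction r with
  | zero =>
    intro _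
    exact ⟨fun _ => 0, fun _ _ => by simp, fun _ _ _ _ _ i hi => absurd hi (by omega)⟩
  | succ r ih =>
    intro hg
    obtain ⟨e, he1, he2⟩ := ih (fun v hv i hi => hg v hv i (by omega))
    refine ⟨fun v => e v * X + g v r, ?_, ?_⟩
    · intro v hv
      have h1 := he1 v hv
      have h2 := hg v hv r (by omega)
      calc e v * X + g v r < e v * X + X := by omega
        _ = (e v + 1) * X := by ring
        _ ≤ X ^ r * X := Nat.mul_le_mul_right X h1
        _ = X ^ (r + 1) := (pow_succ X r).symm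
    · intro u hu v hv heq i hi
      have h1 := hg u hu r (by omega)
      have h2 := hg v hv r (by omega)
      have hX : 0 < X := by omega
      simp only at heq
      have h3 : e u = e v := by
        have e1 : (e u * X + g u r) / X = e u := by
          rw [mul_comm, Nat.mul_add_div hX, Nat.div_eq_of_lt h1, add_zero]
        have e2 : (e v * X + g v r) / X = e v := by
          rw [mul_comm, Nat.mul_add_div hX, Nat.div_eq_of_lt h2, add_zero]
        rw [← e1, ← e2, heq]
      have h4 : g u r = g v r := by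
        rw [h3] at heq
        omega
      rcases Nat.lt_or_ge i r with h5 | h5
      · exact he2 u hu v hv h3 i h5
      · have : i = r := by omega
        rw [this]; exact h4

/-! ### distance levels -/

/-- vertices at distance exactly `r` -/
def Lv (G : SimpleGraph V) (W : Set V) (z : V) (r : ℕ) : Set V :=
  {v | v ∈ Ball G W r z ∧ ∀ s, s < r → v ∉ Ball G W s z}

theorem ball_mono {G : SimpleGraph V} {W : Set V} {z : V} {r s : ℕ} (h : r ≤ s) :
    Ball G W r z ⊆ Ball G W s z := by
  rintro v ⟨n, hn, P, hP⟩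
  exact ⟨n, hn.trans h, P, hP⟩

theorem ball_sub {G : SimpleGraph V} {W : Set V} {z : V} {r : ℕ} : Ball G W r z ⊆ W := by
  rintro v ⟨n, hn, P, _, h1, _, h2⟩
  rw [← h1]
  exact h2 n le_rfl

theorem ball_zero {G : SimpleGraph V} {W : Set V} {z v : V} (h : v ∈ Ball G W 0 z) : v = z := by
  obtain ⟨n, hn, P, h0, h1, _, _⟩ := h
  have : n = 0 := by omega
  subst this
  rw [← h0, ← h1]

theorem mem_ball_self {G : SimpleGraph V} {W : Set V} {z : V} (hz : z ∈ W) (r : ℕ) :
    z ∈ Ball G W r z :=
  ⟨0, by omega, fun _ => z, rfl, rfl, fun i hi => absurd hi (by omega), fun _ _ => hz⟩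

theorem ball_step {G : SimpleGraph V} {W : Set V} {z u v : V} {r : ℕ} (h : u ∈ Ball G W r z)
    (huv : G.Adj u v) (hv : v ∈ W) : v ∈ Ball G W (r + 1) z := by
  obtain ⟨n, hn, P, h0, h1, h2, h3⟩ := h
  refine ⟨n + 1, by omega, fun i => if i ≤ n then P i else v, by simp [h0], by simp, ?_, ?_⟩
  · intro i hi
    by_cases h4 : i + 1 ≤ n
    · have h5 : i ≤ n := by omega
      simp only [h4, h5, if_true]
      exact h2 i (by omega)
    · have h5 : i = n := by omega
      subst h5
      simp only [h4, le_refl, if_true, if_false]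
      rw [h1]
      exact huv
  · intro i hi
    by_cases h4 : i ≤ n
    · simp only [h4, if_true]
      exact h3 i h4
    · simp only [h4, if_false]
      exact hv

theorem lv_pred {G : SimpleGraph V} {W : Set V} {z v : V} {r : ℕ} (h : v ∈ Lv G W z (r + 1)) :
    ∃ u ∈ Lv G W z r, G.Adj u v := by
  obtain ⟨⟨n, hn, P, h0, h1, h2, h3⟩, h4⟩ := h
  have hn' : n = r + 1 := by
    by_contra hne
    exact h4 n (by omega) ⟨n, le_rfl, P, h0, h1, h2, h3⟩
  subst hn'
  have hPr : P r ∈ Ball G W r z :=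
    ⟨r, le_rfl, P, h0, rfl, fun i hi => h2 i (by omega), fun i hi => h3 i (by omega)⟩
  have hadj : G.Adj (P r) v := by
    rw [← h1]; exact h2 r (by omega)
  refine ⟨P r, ⟨hPr, ?_⟩, hadj⟩
  intro s hs hmem
  have hvW : v ∈ W := by rw [← h1]; exact h3 (r + 1) le_rfl
  exact h4 (s + 1) (by omega) (ball_step hmem hadj hvW)

theorem lv_adj {G : SimpleGraph V} {W : Set V} {z u v : V} {i j : ℕ} (hu : u ∈ Lv G W z i)
    (hv : v ∈ Lv G W z j) (huv : G.Adj u v) : j ≤ i + 1 := by
  by_contra h
  exact hv.2 (i + 1) (by omega) (ball_step hu.1 huv (ball_sub hv.1))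

theorem lv_unique {G : SimpleGraph V} {W : Set V} {z v : V} {i j : ℕ} (hu : v ∈ Lv G W z i)
    (hv : v ∈ Lv G W z j) : i = j := by
  by_contra h
  rcases Nat.lt_or_ge i j with h1 | h1
  · exact hv.2 i h1 hu.1
  · exact hu.2 j (by omega) hv.1

theorem ball_succ {G : SimpleGraph V} {W : Set V} {z : V} {r : ℕ} :
    Ball G W (r + 1) z ⊆ Ball G W r z ∪ Lv G W z (r + 1) := by
  intro v hv
  by_cases h : v ∈ Ball G W r z
  · exact Or.inl h
  · right
    refine ⟨hv, fun s hs hs' => h (ball_mono (by omega) hs')⟩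

theorem exists_chain {G : SimpleGraph V} {W : Set V} {z : V} : ∀ r : ℕ, ∀ v ∈ Lv G W z r,
    ∃ f : ℕ → V, f r = v ∧ (∀ i ≤ r, f i ∈ Lv G W z i) ∧ ∀ i < r, G.Adj (f i) (f (i + 1)) := by
  intro r
  induction r with
  | zero =>
    intro v hv
    refine ⟨fun _ => v, rfl, ?_, fun i hi => absurd hi (by omega)⟩
    intro i hi
    have : i = 0 := by omega
    subst this; exact hv
  | succ r ih =>
    intro v hv
    obtain ⟨u, hu, huv⟩ := lv_pred hv
    obtain ⟨f, hf1, hf2, hf3⟩ := ih u hu
    refine ⟨fun i => if i ≤ r then f i else v, by simp, ?_, ?_⟩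
    · intro i hi
      by_cases h : i ≤ r
      · simp only [h, if_true]; exact hf2 i h
      · have : i = r + 1 := by omega
        subst this
        simp only [h, if_false]; exact hv
    · intro i hi
      by_cases h : i + 1 ≤ r
      · have h' : i ≤ r := by omega
        simp only [h, h', if_true]; exact hf3 i (by omega)
      · have h' : i = r := by omega
        subst h'
        simp only [h, le_refl, if_true, if_false]
        rw [hf1]; exact huv

/-- a path in a graded set has the parity of the difference of the grades -/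
theorem graded_parity {G : SimpleGraph V} (lev : V → ℕ) (P : ℕ → V) :
    ∀ n : ℕ, (∀ i < n, G.Adj (P i) (P (i + 1))) →
    (∀ i < n, lev (P (i + 1)) = lev (P i) + 1 ∨ lev (P i) = lev (P (i + 1)) + 1) →
    (lev (P n) + n) % 2 = lev (P 0) % 2 := by
  intro n
  induction n with
  | zero => intro _ _; rfl
  | succ n ih =>
    intro h1 h2
    have h3 := ih (fun i hi => h1 i (by omega)) (fun i hi => h2 i (by omega))
    have h4 := h2 n (by omega)
    omega

/-- two walks down to a common vertex give an induced path -/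
theorem cn_chain {G : SimpleGraph V} {S : Set V} (f : ℕ → V) : ∀ r : ℕ,
    (∀ i ≤ r, f i ∈ S) → (∀ i < r, G.Adj (f i) (f (i + 1))) → Cn G S (f 0) (f r) := by
  intro r
  induction r with
  | zero => intro _ _; exact Relation.ReflTransGen.refl
  | succ r ih =>
    intro h1 h2
    exact (ih (fun i hi => h1 i (by omega)) (fun i hi => h2 i (by omega))).trans
      (Cn.single (h2 r (by omega)) (h1 r (by omega)) (h1 (r + 1) le_rfl))

theorem ball_step_col {G : SimpleGraph V} {ℓ Y : ℕ} (hl : 5 ≤ ℓ) (hG : NoLOH G ℓ) (W : Set V)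
    (hY : ∀ A B, A ⊆ W → B ⊆ W → Nice G ℓ A B → ColOn G B Y) (z : V) (r X : ℕ)
    (hX : ColOn G (Ball G W r z) X) : ColOn G (Lv G W z (r + 1)) (X ^ r * Y) := by
  classical
  obtain ⟨c, hc1, hc2⟩ := hX
  have hch : ∀ v : V, ∃ f : ℕ → V, v ∈ Lv G W z (r + 1) → (f (r + 1) = v ∧
      (∀ i ≤ r + 1, f i ∈ Lv G W z i) ∧ ∀ i < r + 1, G.Adj (f i) (f (i + 1))) := by
    intro v
    by_cases hv : v ∈ Lv G W z (r + 1)
    · obtain ⟨f, hf⟩ := exists_chain (r + 1) v hv
      exact ⟨f, fun _ => hf⟩
    · exact ⟨fun _ => v, fun h => absurd h hv⟩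
  choose f hf using hch
  have hfb : ∀ v ∈ Lv G W z (r + 1), ∀ i ≤ r, f v i ∈ Ball G W r z :=
    fun v hv i hi => ball_mono hi ((hf v hv).2.1 i (by omega)).1
  obtain ⟨e, he1, he2⟩ := vec_code X (fun v i => c (f v (i + 1))) (Lv G W z (r + 1)) r
    (fun v hv i hi => hc1 _ (hfb v hv (i + 1) (by omega)))
  refine ColOn.of_classes e he1 ?_
  intro m _
  set B : Set V := {v | v ∈ Lv G W z (r + 1) ∧ e v = m} with hB
  refine hY {a | ∃ v ∈ B, f v r = a} B ?_ ?_ ?_
  · rintro a ⟨v, hv, rfl⟩
    exact ball_sub (hfb v hv.1 r le_rfl)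
  · intro v hv
    exact ball_sub hv.1.1
  -- chain vertices
  have hcol : ∀ u ∈ B, ∀ v ∈ B, ∀ i ≤ r, f u i ≠ f v i → ¬ G.Adj (f u i) (f v i) := by
    intro u hu v hv i hi hne hadj
    rcases Nat.eq_zero_or_pos i with h0 | h0
    · subst h0
      have h1 := ball_zero ((hf u hu.1).2.1 0 (by omega)).1
      have h2 := ball_zero ((hf v hv.1).2.1 0 (by omega)).1
      exact hne (h1.trans h2.symm)
    · have h1 := he2 u hu.1 v hv.1 (hu.2.trans hv.2.symm) (i - 1) (by omega)
      have h2 : i - 1 + 1 = i := by omega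
      simp only [h2] at h1
      exact hc2 _ (hfb u hu.1 i hi) _ (hfb v hv.1 i hi) hadj h1
  have hna : ∀ u ∈ B, ∀ v ∈ B, ∀ i ≤ r, ¬ G.Adj (f u i) (f v i) := by
    intro u hu v hv i hi hadj
    exact hcol u hu v hv i hi (G.ne_of_adj hadj) hadj
  refine ⟨?_, ?_, fun _ => ∅, fun _ _ _ _ _ => Or.inl subset_rfl, ?_⟩
  · rintro a ⟨u, hu, rfl⟩ a' ⟨v, hv, rfl⟩
    exact hna u hu v hv r le_rfl
  · intro b hb
    refine ⟨f b r, ⟨b, hb, rfl⟩, ?_⟩
    have h1 := (hf b hb.1).2.2 r (by omega)
    rwa [(hf b hb.1).1] at h1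
  · rintro x hx y hy _ a ⟨u, hu, rfl⟩ a' ⟨v, hv, rfl⟩ hne _ _ n hn hodd hpath
    have hr : 1 ≤ r := by
      rcases Nat.eq_zero_or_pos r with h0 | h0
      · subst h0
        have h1 := ball_zero ((hf u hu.1).2.1 0 (by omega)).1
        have h2 := ball_zero ((hf v hv.1).2.1 0 (by omega)).1
        exact absurd (h1.trans h2.symm) hne
      · exact h0
    -- the chain vertices below level `r`
    let S : Set V := {w | ∃ v ∈ B, ∃ i < r, f v i = w}
    have hroot : ∀ v ∈ B, f v 0 = z := fun v hv => ball_zero ((hf v hv.1).2.1 0 (by omega)).1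
    have hcn : ∀ v ∈ B, Cn G S z (f v (r - 1)) := by
      intro v hv
      have h1 := cn_chain (G := G) (S := S) (f v) (r - 1) (fun i hi => ⟨v, hv, i, by omega, rfl⟩)
        (fun i hi => (hf v hv.1).2.2 i (by omega))
      rwa [hroot v hv] at h1
    have h1 : Cn G S (f u (r - 1)) (f v (r - 1)) := (hcn u hu).symm.trans (hcn v hv)
    have hadj : ∀ v ∈ B, G.Adj (f v (r - 1)) (f v r) := by
      intro v hv
      have h2 := (hf v hv.1).2.2 (r - 1) (by omega)
      have h3 : r - 1 + 1 = r := by omega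
      rwa [h3] at h2
    obtain ⟨m', hm'⟩ := h1.ipin ⟨u, hu, r - 1, by omega, rfl⟩ (hadj u hu).symm (hadj v hv)
    have hm2 : 2 ≤ m' := hm'.two_le hne (hna u hu v hv r le_rfl)
    have hn2 : 2 ≤ n := by omega
    have hST : ∀ x ∈ S, ∀ y ∈ B, x ≠ y ∧ ¬ G.Adj x y := by
      rintro w ⟨v', hv', i, hi, rfl⟩ y hy
      have h2 := (hf v' hv'.1).2.1 i (by omega)
      constructor
      · intro heq
        rw [heq] at h2
        have := lv_unique h2 hy.1
        omega
      · intro hadj'
        have := lv_adj h2 hy.1 hadj'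
        omega
    have heven := evenL hG hm' hpath hm2 hn2 hST (by omega)
    -- the lower path is even
    have hm'even : Even m' := by
      obtain ⟨P, hP, hP0, hP1, hPS⟩ := hm'
      -- levels
      let CV : Set V := {w | ∃ v ∈ B, ∃ i ≤ r, f v i = w}
      have hCV : ∀ w ∈ CV, ∃ i, i ≤ r ∧ w ∈ Lv G W z i ∧ ∃ v ∈ B, f v i = w := by
        rintro w ⟨v', hv', i, hi, rfl⟩
        exact ⟨i, hi, (hf v' hv'.1).2.1 i (by omega), v', hv', rfl⟩
      choose! lev hlev using hCV
      have hPCV : ∀ i ≤ m', P i ∈ CV := by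
        intro i hi
        rcases Nat.eq_zero_or_pos i with h0 | h0
        · subst h0
          exact ⟨u, hu, r, le_rfl, hP0.symm⟩
        · rcases Nat.eq_or_lt_of_le hi with h2 | h2
          · subst h2
            exact ⟨v, hv, r, le_rfl, hP1.symm⟩
          · obtain ⟨v', hv', j, hj, hj'⟩ := hPS i h0 h2
            exact ⟨v', hv', j, by omega, hj'⟩
      have hstep : ∀ i < m', lev (P (i + 1)) = lev (P i) + 1 ∨ lev (P i) = lev (P (i + 1)) + 1 := by
        intro i hi
        obtain ⟨a1, a2, v1, hv1, a3⟩ := hlev _ (hPCV i (by omega))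
        obtain ⟨b1, b2, v2, hv2, b3⟩ := hlev _ (hPCV (i + 1) (by omega))
        have hadj' : G.Adj (P i) (P (i + 1)) := ((hP i (i + 1) (by omega) (by omega)).2).2 rfl
        have c1 := lv_adj a2 b2 hadj'
        have c2 := lv_adj b2 a2 hadj'.symm
        have c3 : lev (P i) ≠ lev (P (i + 1)) := by
          intro heq
          have h5 := hna v1 hv1 v2 hv2 (lev (P i)) a1
          rw [a3] at h5
          rw [heq, b3] at h5
          exact h5 hadj'
        omega
      have h6 := graded_parity lev P m'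
        (fun i hi => ((hP i (i + 1) (by omega) (by omega)).2).2 rfl) hstep
      have h7 : lev (P 0) = r := by
        obtain ⟨_, a2, _⟩ := hlev _ (hPCV 0 (by omega))
        refine lv_unique a2 ?_
        rw [hP0]; exact (hf u hu.1).2.1 r (by omega)
      have h8 : lev (P m') = r := by
        obtain ⟨_, a2, _⟩ := hlev _ (hPCV m' le_rfl)
        refine lv_unique a2 ?_
        rw [hP1]; exact (hf v hv.1).2.1 r (by omega)
      rw [h7, h8] at h6
      rw [Nat.even_iff]
      omega
    rw [Nat.even_iff] at heven hm'even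
    rw [Nat.odd_iff] at hodd
    omega

/-- (1.1) balls -/
theorem ball : BallStmt := by
  intro V _ G ℓ Y hl hG W hY r
  induction r with
  | zero =>
    intro z hz
    refine ⟨fun _ => 0, fun _ _ => by simp [XB], ?_⟩
    intro u hu v hv huv
    exfalso
    rw [ball_zero hu, ball_zero hv] at huv
    exact G.loopless.irrefl _ huv
  | succ r ih =>
    intro z hz
    have h1 := ball_step_col hl hG W hY z r (XB Y r) (ih z hz)
    exact (ColOn.union' (ih z hz) h1).mono ball_succ le_rfl

/-! ### low levels -/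

theorem ipin_ball {G : SimpleGraph V} {W S : Set V} {s v : V} {m : ℕ} (h : IPin G S s v m)
    (hS : S ⊆ W) (hs : s ∈ W) (hv : v ∈ W) : v ∈ Ball G W m s := by
  obtain ⟨P, hP, hP0, hP1, hPS⟩ := h
  refine ⟨m, le_rfl, P, hP0, hP1, fun i hi => ((hP i (i + 1) (by omega) (by omega)).2).2 rfl, ?_⟩
  intro i hi
  rcases Nat.eq_zero_or_pos i with h0 | h0
  · subst h0; rw [hP0]; exact hs
  · rcases Nat.eq_or_lt_of_le hi with h1 | h1
    · subst h1; rw [hP1]; exact hv
    · exact hS (hPS i h0 h1)

open SS80 in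
theorem star_out {G : SimpleGraph V} {ℓ : ℕ} (hl0 : ℓ ≠ 0) (hG : NoLOH G ℓ) {W : Set V} {k : ℕ} {L : ℕ → Set V}
    (h : SS80.Lev G L k) (hLW : ∀ i, L i ⊆ W) {i : ℕ} (hik : i + 2 ≤ k) {s v : V} (hs : s ∈ L i)
    (hv : v ∈ L i) (hvU : v ∉ Ball G W ℓ s) {m : ℕ} (hm : IPin G (Le L i) s v m) :
    J G L i s v ↔ Odd m := by
  have hLe : Le L i ⊆ W := by
    rintro x ⟨j, _, hx⟩
    exact hLW j hx
  have hsv : s ≠ v := by
    rintro rfl
    exact hvU (mem_ball_self (hLW i hs) ℓ)
  have hlong : ∀ m', IPin G (Le L i) s v m' → ℓ < m' := by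
    intro m' hm'
    by_contra hle
    exact hvU (ball_mono (by omega) (ipin_ball hm' hLe (hLW i hs) (hLW i hv)))
  have hna : ¬ G.Adj s v := by
    intro hadj
    have h5 := hlong 1 (ipin_one hadj)
    have h6 : ℓ = 0 := by omega
    exact hl0 h6
  obtain ⟨mT, T, h1, h2, h3⟩ := h.special (by omega) hs hv hsv hna
  have hev : ∀ m', IPin G (Le L i) s v m' → Even (m' + mT) := by
    intro m' hm'
    have := hlong m' hm'
    exact evenL hG hm'.diff h1 (hm'.two_le hsv hna) (h1.two_le hsv hna) h3 (by omega)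
  have hi : 1 ≤ i := by
    rcases Nat.eq_zero_or_pos i with h0 | h0
    · subst h0
      exact absurd (h.root s hs v hv) hsv
    · exact h0
  have hmev := hev m hm
  constructor
  · rintro ⟨n, hn, hn'⟩
    have h4 := hev n (hn'.mono lt_le)
    rw [Nat.odd_iff] at hn ⊢
    rw [Nat.even_iff] at h4 hmev
    omega
  · intro hodd
    obtain ⟨n, hn⟩ := h.lower_exists hi (by omega) hs hv
    have h4 := hev n (hn.mono lt_le)
    refine ⟨n, ?_, hn⟩
    rw [Nat.odd_iff] at hodd ⊢
    rw [Nat.even_iff] at h4 hmev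
    omega

open SS80 in
theorem par_eq_out {G : SimpleGraph V} {ℓ : ℕ} (hl : 5 ≤ ℓ) (hG : NoLOH G ℓ) {W : Set V} {k : ℕ}
    {L : ℕ → Set V} (h : SS80.Lev G L k) (hLW : ∀ i, L i ⊆ W) {j : ℕ} (hik : j + 1 + 2 ≤ k)
    {s u v p : V} (hs : s ∈ L (j + 1)) (hu : u ∈ L (j + 1)) (hv : v ∈ L (j + 1))
    (huU : u ∉ Ball G W ℓ s) (hvU : v ∉ Ball G W ℓ s) (huv : G.Adj u v)
    (hJ : J G L (j + 1) s u ↔ J G L (j + 1) s v) (hp : p ∈ L j) (hpu : G.Adj p u) :
    G.Adj p v := by
  by_contra hpv
  have hW := fun i x (hx : x ∈ L i) => hLW i hx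
  have ball2 : ∀ x y, G.Adj s x → x ∈ W → G.Adj x y → y ∈ W → y ∈ Ball G W ℓ s := by
    intro x y hsx hx hxy hy
    exact ball_mono (show 2 ≤ ℓ by omega)
      (ball_step (ball_step (mem_ball_self (hW _ _ hs) 0) hsx hx) hxy hy)
  have ball1 : ∀ x, G.Adj s x → x ∈ W → x ∈ Ball G W ℓ s := by
    intro x hsx hx
    exact ball_mono (show 1 ≤ ℓ by omega) (ball_step (mem_ball_self (hW _ _ hs) 0) hsx hx)
  have hsu : s ≠ u := by rintro rfl; exact huU (mem_ball_self (hW _ _ hs) ℓ)
  have hsv : s ≠ v := by rintro rfl; exact hvU (mem_ball_self (hW _ _ hs) ℓ)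
  have hsu' : ¬ G.Adj s u := fun h => huU (ball1 u h (hW _ _ hu))
  have hsv' : ¬ G.Adj s v := fun h => hvU (ball1 v h (hW _ _ hv))
  obtain ⟨s', hs', hss⟩ := h.par j (by omega) s hs
  have hsp : ¬ G.Adj s p := fun h' => huU (ball2 p u h' (hW _ _ hp) hpu (hW _ _ hu))
  have hs'u : ¬ G.Adj s' u := fun h' => huU (ball2 s' u hss.symm (hW _ _ hs') h' (hW _ _ hu))
  have hs'v : ¬ G.Adj s' v := fun h' => hvU (ball2 s' v hss.symm (hW _ _ hs') h' (hW _ _ hv))
  have hps' : p ≠ s' := by rintro rfl; exact hsp hss.symm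
  have hj : 1 ≤ j := by
    rcases Nat.eq_zero_or_pos j with h0 | h0
    · subst h0
      exact absurd (h.root p hp s' hs') hps'
    · exact h0
  obtain ⟨m, hm⟩ := h.lower_exists hj (by omega) hp hs'
  have hanti : ∀ z ∈ Lt L j, ∀ w ∈ L (j + 1), z ≠ w ∧ ¬ G.Adj z w := by
    rintro z ⟨a, ha, hz⟩ w hw
    exact h.anti (i := a) (j := j + 1) (by omega) (mem_le hz) (mem_ge hw)
  have e1 : IPin G (insert s' (Lt L j)) s' p m := hm.symm.mono (Set.subset_insert _ _)
  have e2 : IPin G (insert s' (Lt L j)) s p (m + 1) := by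
    refine e1.cons hss.symm (h.ne_succ hp hs).symm (Set.mem_insert _ _) ?_ (fun _ => hsp)
    rintro x (rfl | hx) hx'
    · exact absurd rfl hx'
    · obtain ⟨h6, h7⟩ := hanti x hx s hs
      exact ⟨h6, fun h => h7 h.symm⟩
  have e3 : IPin G (insert p (insert s' (Lt L j))) p s (m + 1) :=
    e2.symm.mono (Set.subset_insert _ _)
  have e4 : IPin G (insert p (insert s' (Lt L j))) u s (m + 1 + 1) := by
    refine e3.cons hpu.symm hsu.symm (Set.mem_insert _ _) ?_ (fun _ h => hsu' h.symm)
    rintro x (rfl | rfl | hx) hx'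
    · exact absurd rfl hx'
    · exact ⟨h.ne_succ hs' hu, fun h => hs'u h.symm⟩
    · obtain ⟨h6, h7⟩ := hanti x hx u hu
      exact ⟨h6, fun h => h7 h.symm⟩
  have e5 : IPin G (insert u (insert p (insert s' (Lt L j)))) u s (m + 1 + 1) :=
    e4.mono (Set.subset_insert _ _)
  have e6 : IPin G (insert u (insert p (insert s' (Lt L j)))) v s (m + 1 + 1 + 1) := by
    refine e5.cons huv.symm hsv.symm (Set.mem_insert _ _) ?_ (fun _ h => hsv' h.symm)
    rintro x (rfl | rfl | rfl | hx) hx'
    · exact absurd rfl hx'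
    · exact ⟨h.ne_succ hp hv, fun h => hpv h.symm⟩
    · exact ⟨h.ne_succ hs' hv, fun h => hs'v h.symm⟩
    · obtain ⟨h6, h7⟩ := hanti x hx v hv
      exact ⟨h6, fun h => h7 h.symm⟩
  have hsub : insert p (insert s' (Lt L j)) ⊆ Le L (j + 1) := by
    rintro x (rfl | rfl | hx)
    · exact ⟨j, by omega, hp⟩
    · exact ⟨j, by omega, hs'⟩
    · obtain ⟨a, ha, hx⟩ := hx
      exact ⟨a, by omega, hx⟩
  have hsub2 : insert u (insert p (insert s' (Lt L j))) ⊆ Le L (j + 1) := by
    rintro x (rfl | hx)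
    · exact mem_le hu
    · exact hsub hx
  have f1 := star_out (by omega) hG h hLW hik hs hu huU (e4.symm.mono hsub)
  have f2 := star_out (by omega) hG h hLW hik hs hv hvU (e6.symm.mono hsub2)
  rw [f1, f2, Nat.odd_iff, Nat.odd_iff] at hJ
  omega

open Classical in
/-- (1.2) low levels -/
theorem low : LowStmt := by
  intro V _ G ℓ n X hl hG hn W hX k L hL hLW i hik
  have h := hL.to80
  rcases Set.eq_empty_or_nonempty (L i) with he | ⟨s, hs⟩
  · rw [he]
    exact ⟨fun _ => 0, fun v hv => absurd hv (Set.notMem_empty v),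
      fun u hu => absurd hu (Set.notMem_empty u)⟩
  have hU := hX s (hLW i hs)
  suffices hout : ColOn G (L i \ Ball G W ℓ s) (2 * n) by
    refine (ColOn.union' hU hout).mono ?_ le_rfl
    intro v hv
    by_cases hvU : v ∈ Ball G W ℓ s
    · exact Or.inl hvU
    · exact Or.inr ⟨hv, hvU⟩
  cases i with
  | zero =>
    refine ⟨fun _ => 0, ?_, ?_⟩
    · rintro v ⟨hv, hvU⟩
      exact absurd (by rw [h.root v hv s hs]; exact mem_ball_self (hLW 0 hs) ℓ) hvU
    · rintro v ⟨hv, hvU⟩
      exact absurd (by rw [h.root v hv s hs]; exact mem_ball_self (hLW 0 hs) ℓ) hvU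
  | succ j =>
    choose col hcol1 hcol2 using hn
    let pick : Set V → V := fun S => if h : S.Nonempty then h.some else s
    let par : V → V := fun v => pick {p | p ∈ L j ∧ G.Adj p v}
    have hpar : ∀ v ∈ L (j + 1), par v ∈ L j ∧ G.Adj (par v) v := by
      intro v hv
      obtain ⟨p, hp, hpv⟩ := h.par j (by omega) v hv
      have hne : ({p | p ∈ L j ∧ G.Adj p v} : Set V).Nonempty := ⟨p, hp, hpv⟩
      have h1 : par v = hne.some := dif_pos hne
      rw [h1]
      exact hne.some_mem
    have hb : ∀ v ∈ L (j + 1), col (par v) v < n := fun v hv => hcol1 _ v (hpar v hv).2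
    refine ⟨fun v => if SS80.J G L (j + 1) s v then col (par v) v else n + col (par v) v, ?_, ?_⟩
    · rintro v ⟨hv, _⟩
      have := hb v hv
      by_cases hJ : SS80.J G L (j + 1) s v
      · simp only [hJ, if_true]; omega
      · simp only [hJ, if_false]; omega
    · rintro u ⟨hu, huU⟩ v ⟨hv, hvU⟩ huv heq
      have hbu := hb u hu
      have hbv := hb v hv
      have hJ : SS80.J G L (j + 1) s u ↔ SS80.J G L (j + 1) s v := by
        by_cases h1 : SS80.J G L (j + 1) s u
        · by_cases h2 : SS80.J G L (j + 1) s v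
          · exact ⟨fun _ => h2, fun _ => h1⟩
          · simp only [h1, h2, if_true, if_false] at heq
            omega
        · by_cases h2 : SS80.J G L (j + 1) s v
          · simp only [h1, h2, if_true, if_false] at heq
            omega
          · exact ⟨fun h' => absurd h' h1, fun h' => absurd h' h2⟩
      have hcoleq : col (par u) u = col (par v) v := by
        by_cases h1 : SS80.J G L (j + 1) s u
        · have h2 := hJ.1 h1
          simp only [h1, h2, if_true] at heq
          exact heq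
        · have h2 : ¬ SS80.J G L (j + 1) s v := fun h' => h1 (hJ.2 h')
          simp only [h1, h2, if_false] at heq
          omega
      have hset : ({p | p ∈ L j ∧ G.Adj p u} : Set V) = {p | p ∈ L j ∧ G.Adj p v} := by
        ext p
        constructor
        · rintro ⟨h1, h2⟩
          exact ⟨h1, par_eq_out hl hG h hLW (by omega) hs hu hv huU hvU huv hJ h1 h2⟩
        · rintro ⟨h1, h2⟩
          exact ⟨h1, par_eq_out hl hG h hLW (by omega) hs hv hu hvU huU huv.symm hJ.symm h1 h2⟩
      have hpareq : par u = par v := by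
        change pick _ = pick _
        rw [hset]
      have h1 := (hpar u hu).2
      have h2 := (hpar v hv).2
      rw [hpareq] at h1 hcoleq
      exact hcol2 (par v) u h1 v h2 huv hcoleq

end LO
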