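import Pool.Agent.W_ccb602.SSDefs
import Pool.Agent.W_ccb602.SSIface

/-!
Lemma K of the proof that odd-hole-free box graphs are polynomially chi-bounded
(MP_ccb602_co, part P3): pure combinatorics of a `P_4`-free relation `J` on the parents.
-/

set_option autoImplicit false

namespace BoxSS

variable {V : Type*}

/-- the relation `J` has no induced path on four vertices inside `A`. -/
def P4Free (J : V → V → Prop) (A : Set V) : Prop :=
  ∀ a ∈ A, ∀ b ∈ A, ∀ c ∈ A, ∀ d ∈ A, a ≠ b → a ≠ c → a ≠ d → b ≠ c → b ≠ d → c ≠ d →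
    J a b → J b c → J c d → ¬ J a c → ¬ J a d → ¬ J b d → False

theorem P4Free.mono {J : V → V → Prop} {A A' : Set V} (h : P4Free J A) (hA : A' ⊆ A) :
    P4Free J A' := fun a ha b hb c hc d hd =>
  h a (hA ha) b (hA hb) c (hA hc) d (hA hd)

theorem P4Free.compl {J : V → V → Prop} {A : Set V} (hs : ∀ a b, J a b → J b a)
    (h : P4Free J A) : P4Free (fun a b => ¬ J a b) A := by
  intro a ha b hb c hc d hd hab hac had hbc hbd hcd h1 h2 h3 h4 h5 h6
  simp only [not_not] at h4 h5 h6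
  -- complement of the path a b c d is the path b d a c
  exact h b hb d hd a ha c hc hbd hab.symm hbc had.symm hcd.symm hac h6 (hs _ _ h5) h4
    (fun h => h1 (hs _ _ h)) h2 (fun h => h3 (hs _ _ h))

/-- one step of the cograph decomposition, with a non-neighbour of `v` on the first side. -/
theorem ext_aux [DecidableEq V] (J : V → V → Prop) (hs : ∀ a b, J a b → J b a)
    (A₁ A₂ : Finset V) (v : V) (hv1 : v ∉ A₁) (hv2 : v ∉ A₂) (hd : Disjoint A₁ A₂)
    (h0 : ∀ a ∈ A₁, ∀ b ∈ A₂, ¬ J a b) (h4 : P4Free J (↑(insert v (A₁ ∪ A₂)) : Set V))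
    (hw : ∃ w ∈ A₂, J v w) (y : V) (hy : y ∈ A₁) (hyv : ¬ J v y) :
    ∃ C D : Finset V, C.Nonempty ∧ D.Nonempty ∧ Disjoint C D ∧ C ∪ D = insert v (A₁ ∪ A₂) ∧
      (∀ a ∈ C, ∀ b ∈ D, ¬ J a b) := by
  classical
  set R : V → V → Prop := fun a b => a ∈ A₁ ∧ b ∈ A₁ ∧ J a b with hR
  set C : Finset V := A₁.filter (fun x => Relation.ReflTransGen R y x) with hC
  by_cases hcase : ∃ x ∈ C, J v x
  · exfalso
    obtain ⟨x, hx, hvx⟩ := hcase
    obtain ⟨w, hw, hvw⟩ := hw
    obtain ⟨hx1, hx2⟩ := Finset.mem_filter.1 hx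
    -- first neighbour of v on the way
    have key : ∀ x, Relation.ReflTransGen R y x → J v x →
        ∃ p q, p ∈ A₁ ∧ q ∈ A₁ ∧ J p q ∧ ¬ J v p ∧ J v q := by
      intro x hx
      induction hx with
      | refl => intro h; exact absurd h hyv
      | tail hab hbc ih =>
        rename_i b c
        intro hc
        by_cases hb : J v b
        · exact ih hb
        · exact ⟨b, c, hbc.1, hbc.2.1, hbc.2.2, hb, hc⟩
    obtain ⟨p, q, hp, hq, hpq, hvp, hvq⟩ := key x hx2 hvx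
    have hwp : w ≠ p := fun h => (Finset.disjoint_left.1 hd) (h ▸ hp) hw
    have hwq : w ≠ q := fun h => (Finset.disjoint_left.1 hd) (h ▸ hq) hw
    have hwv : w ≠ v := fun h => hv2 (h ▸ hw)
    have hvp' : v ≠ p := fun h => hv1 (h ▸ hp)
    have hvq' : v ≠ q := fun h => hv1 (h ▸ hq)
    have hpq' : p ≠ q := fun h => hvp (h ▸ hvq)
    refine h4 w (by simp [hw]) v (by simp) q (by simp [hq]) p (by simp [hp]) hwv hwq hwp hvq'
      hvp' hpq'.symm (hs _ _ hvw) hvq (hs _ _ hpq) (fun h => h0 q hq w hw (hs _ _ h))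
      (fun h => h0 p hp w hw (hs _ _ h)) hvp
  · push Not at hcase
    refine ⟨C, insert v (A₁ ∪ A₂) \ C, ⟨y, ?_⟩, ⟨v, ?_⟩, Finset.disjoint_sdiff, ?_, ?_⟩
    · exact Finset.mem_filter.2 ⟨hy, Relation.ReflTransGen.refl⟩
    · refine Finset.mem_sdiff.2 ⟨by simp, fun h => hv1 (Finset.mem_filter.1 h).1⟩
    · refine Finset.union_sdiff_of_subset ?_
      intro x hx
      have := (Finset.mem_filter.1 hx).1
      simp [this]
    · intro a ha b hb hab
      obtain ⟨ha1, ha2⟩ := Finset.mem_filter.1 ha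
      obtain ⟨hb1, hb2⟩ := Finset.mem_sdiff.1 hb
      rcases Finset.mem_insert.1 hb1 with rfl | hb1
      · exact hcase a ha (hs _ _ hab)
      · rcases Finset.mem_union.1 hb1 with hb1 | hb1
        · exact hb2 (Finset.mem_filter.2 ⟨hb1, ha2.tail ⟨ha1, hb1, hab⟩⟩)
        · exact h0 a ha1 b hb1 hab

/-- one step of the cograph decomposition when the rest splits without edges. -/
theorem ext0 [DecidableEq V] (J : V → V → Prop) (hs : ∀ a b, J a b → J b a)
    (A₁ A₂ : Finset V) (v : V) (hn1 : A₁.Nonempty) (hn2 : A₂.Nonempty)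
    (hv1 : v ∉ A₁) (hv2 : v ∉ A₂) (hd : Disjoint A₁ A₂)
    (h0 : ∀ a ∈ A₁, ∀ b ∈ A₂, ¬ J a b) (h4 : P4Free J (↑(insert v (A₁ ∪ A₂)) : Set V)) :
    ∃ C D : Finset V, C.Nonempty ∧ D.Nonempty ∧ Disjoint C D ∧ C ∪ D = insert v (A₁ ∪ A₂) ∧
      ((∀ a ∈ C, ∀ b ∈ D, ¬ J a b) ∨ (∀ a ∈ C, ∀ b ∈ D, J a b)) := by
  classical
  by_cases hw1 : ∃ w ∈ A₁, J v w
  swap
  · push Not at hw1
    refine ⟨A₁, insert v A₂, hn1, ⟨v, by simp⟩, ?_, ?_, Or.inl ?_⟩
    · rw [Finset.disjoint_insert_right]; exact ⟨hv1, hd⟩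
    · ext x; simp only [Finset.mem_union, Finset.mem_insert]; tauto
    · intro a ha b hb hab
      rcases Finset.mem_insert.1 hb with rfl | hb
      · exact hw1 a ha (hs _ _ hab)
      · exact h0 a ha b hb hab
  by_cases hw2 : ∃ w ∈ A₂, J v w
  swap
  · push Not at hw2
    refine ⟨A₂, insert v A₁, hn2, ⟨v, by simp⟩, ?_, ?_, Or.inl ?_⟩
    · rw [Finset.disjoint_insert_right]; exact ⟨hv2, hd.symm⟩
    · ext x; simp only [Finset.mem_union, Finset.mem_insert]; tauto
    · intro a ha b hb hab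
      rcases Finset.mem_insert.1 hb with rfl | hb
      · exact hw2 a ha (hs _ _ hab)
      · exact h0 b hb a ha (hs _ _ hab)
  by_cases hy1 : ∃ y ∈ A₁, ¬ J v y
  · obtain ⟨y, hy, hyv⟩ := hy1
    obtain ⟨C, D, h1, h2, h3, h5, h6⟩ := ext_aux J hs A₁ A₂ v hv1 hv2 hd h0 h4 hw2 y hy hyv
    exact ⟨C, D, h1, h2, h3, h5, Or.inl h6⟩
  by_cases hy2 : ∃ y ∈ A₂, ¬ J v y
  · obtain ⟨y, hy, hyv⟩ := hy2
    have hcomm : insert v (A₂ ∪ A₁) = insert v (A₁ ∪ A₂) := by rw [Finset.union_comm]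
    obtain ⟨C, D, h1, h2, h3, h5, h6⟩ := ext_aux J hs A₂ A₁ v hv2 hv1 hd.symm
      (fun a ha b hb h => h0 b hb a ha (hs _ _ h)) (hcomm ▸ h4) hw1 y hy hyv
    exact ⟨C, D, h1, h2, h3, h5.trans hcomm, Or.inl h6⟩
  push Not at hy1 hy2
  refine ⟨{v}, A₁ ∪ A₂, ⟨v, by simp⟩, hn1.mono Finset.subset_union_left, ?_, ?_, Or.inr ?_⟩
  · rw [Finset.disjoint_singleton_left]; simp [hv1, hv2]
  · rw [← Finset.insert_eq]
  · intro a ha b hb
    rw [Finset.mem_singleton] at ha
    subst ha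
    rcases Finset.mem_union.1 hb with hb | hb
    · exact hy1 b hb
    · exact hy2 b hb

/-- cograph decomposition: a `P_4`-free relation on at least two points splits. -/
theorem cograph_split [DecidableEq V] (J : V → V → Prop) (hs : ∀ a b, J a b → J b a) :
    ∀ (n : ℕ) (A : Finset V), A.card = n → 2 ≤ A.card → P4Free J (A : Set V) →
    ∃ C D : Finset V, C.Nonempty ∧ D.Nonempty ∧ Disjoint C D ∧ C ∪ D = A ∧
      ((∀ a ∈ C, ∀ b ∈ D, ¬ J a b) ∨ (∀ a ∈ C, ∀ b ∈ D, J a b)) := by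
  intro n
  induction n with
  | zero => intro A h1 h2; omega
  | succ n ih =>
    intro A h1 h2 h4
    obtain ⟨v, hv⟩ : A.Nonempty := Finset.card_pos.1 (by omega)
    have hcard : (A.erase v).card = n := by rw [Finset.card_erase_of_mem hv]; omega
    have hins : insert v (A.erase v) = A := Finset.insert_erase hv
    by_cases hn : 2 ≤ n
    · obtain ⟨C, D, hC, hD, hCD, hU, hJ⟩ := ih (A.erase v) hcard (by omega)
        (h4.mono (by exact_mod_cast Finset.erase_subset v A))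
      have hvC : v ∉ C := fun h => by
        have : v ∈ A.erase v := hU ▸ Finset.mem_union_left _ h
        simp at this
      have hvD : v ∉ D := fun h => by
        have : v ∈ A.erase v := hU ▸ Finset.mem_union_right _ h
        simp at this
      have hA : insert v (C ∪ D) = A := by rw [hU, hins]
      rcases hJ with hJ | hJ
      · obtain ⟨C', D', a1, a2, a3, a4, a5⟩ := ext0 J hs C D v hC hD hvC hvD hCD hJ (hA ▸ h4)
        exact ⟨C', D', a1, a2, a3, a4.trans hA, a5⟩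
      · obtain ⟨C', D', a1, a2, a3, a4, a5⟩ := ext0 (fun a b => ¬ J a b)
          (fun a b h h' => h (hs _ _ h')) C D v hC hD hvC hvD hCD
          (fun a ha b hb h => h (hJ a ha b hb)) ((hA ▸ h4 : P4Free J _).compl hs)
        refine ⟨C', D', a1, a2, a3, a4.trans hA, ?_⟩
        rcases a5 with a5 | a5
        · right; intro a ha b hb; exact not_not.1 (a5 a ha b hb)
        · left; exact a5
    · have hn1 : n = 1 := by omega
      obtain ⟨x, hx⟩ := Finset.card_eq_one.1 (hcard.trans hn1)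
      have hxA : x ∈ A.erase v := by rw [hx]; simp
      have hxv : x ≠ v := (Finset.mem_erase.1 hxA).1
      refine ⟨{v}, {x}, by simp, by simp, by simpa using hxv.symm, ?_, ?_⟩
      · rw [← hins, hx, ← Finset.insert_eq]
      · by_cases hJ : J v x
        · right; intro a ha b hb
          rw [Finset.mem_singleton] at ha hb; subst ha; subst hb; exact hJ
        · left; intro a ha b hb
          rw [Finset.mem_singleton] at ha hb; subst ha; subst hb; exact hJ

/-! ### K1 -/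

/-- adjacent vertices with disjoint parent sets. -/
def DA (G : SimpleGraph V) (N : V → Finset V) (x y : V) : Prop := G.Adj x y ∧ Disjoint (N x) (N y)

/-- the same relation inside `B`. -/
def DB (G : SimpleGraph V) (N : V → Finset V) (B : Finset V) (x y : V) : Prop :=
  x ∈ B ∧ y ∈ B ∧ DA G N x y

theorem DA.symm {G : SimpleGraph V} {N : V → Finset V} {x y : V} (h : DA G N x y) :
    DA G N y x := ⟨h.1.symm, h.2.symm⟩

theorem DB.symm {G : SimpleGraph V} {N : V → Finset V} {B : Finset V} {x y : V}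
    (h : DB G N B x y) : DB G N B y x := ⟨h.2.1, h.1, h.2.2.symm⟩

/-- the parity hypotheses (P2), (P3), (P4) of the children level `B`. -/
structure KH (G : SimpleGraph V) (N : V → Finset V) (J : V → V → Prop) (B : Set V) : Prop where
  symm : ∀ a b, J a b → J b a
  ne : ∀ b ∈ B, (N b).Nonempty
  P2 : ∀ b ∈ B, ∀ a ∈ N b, ∀ a' ∈ N b, a ≠ a' → ¬ J a a'
  P3 : ∀ x ∈ B, ∀ y ∈ B, G.Adj x y → ∀ a ∈ N x, a ∉ N y → ∀ a' ∈ N y, a' ∉ N x → J a a'
  P4 : ∀ x ∈ B, ∀ y ∈ B, ∀ z ∈ B, G.Adj x y → G.Adj y z → x ≠ z → ¬ G.Adj x z →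
    ∀ a ∈ N x, a ∉ N y → a ∉ N z → ∀ a' ∈ N z, a' ∉ N x → a' ∉ N y → ¬ J a a'

/-- `Q` is a clique of the disjoint-parent graph inside `B` reachable from `b`. -/
def RQ (G : SimpleGraph V) (N : V → Finset V) (B : Finset V) (b : V) (Q : Finset V) : Prop :=
  Q ⊆ B ∧ (∀ x ∈ Q, ∀ y ∈ Q, x ≠ y → DA G N x y) ∧
    ∀ q ∈ Q, Relation.ReflTransGen (DB G N B) b q

theorem rtg_symm {G : SimpleGraph V} {N : V → Finset V} {B : Finset V} {x y : V}
    (h : Relation.ReflTransGen (DB G N B) x y) : Relation.ReflTransGen (DB G N B) y x := by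
  induction h with
  | refl => exact Relation.ReflTransGen.refl
  | tail _ hbc ih => exact Relation.ReflTransGen.head hbc.symm ih

theorem rtg_mono {G : SimpleGraph V} {N : V → Finset V} {B B' : Finset V} (hB : B' ⊆ B) {x y : V}
    (h : Relation.ReflTransGen (DB G N B') x y) : Relation.ReflTransGen (DB G N B) x y := by
  induction h with
  | refl => exact Relation.ReflTransGen.refl
  | tail _ hbc ih => exact ih.tail ⟨hB hbc.1, hB hbc.2.1, hbc.2.2⟩

theorem K1 [DecidableEq V] {G : SimpleGraph V} {N : V → Finset V} {J : V → V → Prop} {B0 : Set V}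
    (h : KH G N J B0) :
    ∀ (n : ℕ) (A : Finset V), A.card ≤ n → P4Free J (A : Set V) →
      ∀ B : Finset V, (∀ b ∈ B, b ∈ B0) → (∀ b ∈ B, N b ⊆ A) →
      ∃ c : V → ℕ, (∀ x ∈ B, ∀ y ∈ B, DA G N x y → c x ≠ c y) ∧
        ∀ b ∈ B, ∃ Q : Finset V, RQ G N B b Q ∧ c b + 1 ≤ Q.card := by
  classical
  intro n
  induction n with
  | zero =>
    intro A hA _ B hB0 hBA
    have hA' : A = ∅ := Finset.card_eq_zero.1 (by omega)
    have hBe : ∀ b ∈ B, False := by
      intro b hb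
      obtain ⟨a, ha⟩ := h.ne b (hB0 b hb)
      have := hBA b hb ha
      simp [hA'] at this
    exact ⟨fun _ => 0, fun x hx => (hBe x hx).elim, fun b hb => (hBe b hb).elim⟩
  | succ n ih =>
    intro A hA h4 B hB0 hBA
    by_cases hcard : 2 ≤ A.card
    swap
    · -- at most one parent: no edge with disjoint parent sets
      refine ⟨fun _ => 0, ?_, ?_⟩
      · intro x hx y hy hxy
        exfalso
        obtain ⟨a, ha⟩ := h.ne x (hB0 x hx)
        obtain ⟨a', ha'⟩ := h.ne y (hB0 y hy)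
        have : a = a' := Finset.card_le_one.1 (by omega) a (hBA x hx ha) a' (hBA y hy ha')
        subst this
        exact Finset.disjoint_left.1 hxy.2 ha ha'
      · intro b hb
        refine ⟨{b}, ⟨by simpa using hb, ?_, ?_⟩, by simp⟩
        · intro x hx y hy hxy
          rw [Finset.mem_singleton] at hx hy
          exact absurd (hx.trans hy.symm) hxy
        · intro q hq
          rw [Finset.mem_singleton] at hq
          subst hq
          exact Relation.ReflTransGen.refl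
    obtain ⟨A₁, A₂, hn1, hn2, hd, hU, hJ⟩ := cograph_split J h.symm _ A rfl hcard h4
    have hA1 : A₁ ⊆ A := hU ▸ Finset.subset_union_left
    have hA2 : A₂ ⊆ A := hU ▸ Finset.subset_union_right
    have hc : A₁.card + A₂.card = A.card := by rw [← hU, Finset.card_union_of_disjoint hd]
    have hp1 := Finset.card_pos.2 hn1
    have hp2 := Finset.card_pos.2 hn2
    set B₁ : Finset V := B.filter (fun b => N b ⊆ A₁) with hB₁
    set B₂ : Finset V := B.filter (fun b => N b ⊆ A₂) with hB₂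
    have hs1 : B₁ ⊆ B := Finset.filter_subset _ _
    have hs2 : B₂ ⊆ B := Finset.filter_subset _ _
    have hm1 : ∀ b ∈ B₁, N b ⊆ A₁ := fun b hb => (Finset.mem_filter.1 hb).2
    have hm2 : ∀ b ∈ B₂, N b ⊆ A₂ := fun b hb => (Finset.mem_filter.1 hb).2
    obtain ⟨c₁, hc1, hQ1⟩ := ih A₁ (by omega) (h4.mono (by exact_mod_cast hA1)) B₁
      (fun b hb => hB0 b (hs1 hb)) hm1
    obtain ⟨c₂, hc2, hQ2⟩ := ih A₂ (by omega) (h4.mono (by exact_mod_cast hA2)) B₂
      (fun b hb => hB0 b (hs2 hb)) hm2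
    have hnot12 : ∀ b ∈ B₁, b ∈ B₂ → False := by
      intro b hb1 hb2
      obtain ⟨a, ha⟩ := h.ne b (hB0 b (hs1 hb1))
      exact Finset.disjoint_left.1 hd (hm1 b hb1 ha) (hm2 b hb2 ha)
    rcases hJ with hJ | hJ
    · -- no `J` between the parts
      have hedge : ∀ x ∈ B, ∀ y ∈ B, DA G N x y → (x ∈ B₁ ∧ y ∈ B₁) ∨ (x ∈ B₂ ∧ y ∈ B₂) := by
        intro x hx y hy hxy
        have hJall : ∀ a ∈ N x, ∀ a' ∈ N y, J a a' := fun a ha a' ha' =>
          h.P3 x (hB0 x hx) y (hB0 y hy) hxy.1 a ha (Finset.disjoint_left.1 hxy.2 ha) a' ha'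
            (Finset.disjoint_right.1 hxy.2 ha')
        obtain ⟨a, ha⟩ := h.ne x (hB0 x hx)
        obtain ⟨a', ha'⟩ := h.ne y (hB0 y hy)
        have hmem : ∀ z, z ∈ A → z ∈ A₁ ∨ z ∈ A₂ := fun z hz => by
          rw [← hU] at hz; exact Finset.mem_union.1 hz
        rcases hmem a (hBA x hx ha) with h1 | h1
        · left
          have hy1 : N y ⊆ A₁ := by
            intro z hz
            rcases hmem z (hBA y hy hz) with h2 | h2
            · exact h2
            · exact absurd (hJall a ha z hz) (hJ a h1 z h2)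
          have hx1 : N x ⊆ A₁ := by
            intro z hz
            rcases hmem z (hBA x hx hz) with h2 | h2
            · exact h2
            · exact absurd (h.symm _ _ (hJall z hz a' ha')) (hJ a' (hy1 ha') z h2)
          exact ⟨Finset.mem_filter.2 ⟨hx, hx1⟩, Finset.mem_filter.2 ⟨hy, hy1⟩⟩
        · right
          have hy2 : N y ⊆ A₂ := by
            intro z hz
            rcases hmem z (hBA y hy hz) with h2 | h2
            · exact absurd (h.symm _ _ (hJall a ha z hz)) (hJ z h2 a h1)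
            · exact h2
          have hx2 : N x ⊆ A₂ := by
            intro z hz
            rcases hmem z (hBA x hx hz) with h2 | h2
            · exact absurd (hJall z hz a' ha') (hJ z h2 a' (hy2 ha'))
            · exact h2
          exact ⟨Finset.mem_filter.2 ⟨hx, hx2⟩, Finset.mem_filter.2 ⟨hy, hy2⟩⟩
      refine ⟨fun b => if b ∈ B₁ then c₁ b else if b ∈ B₂ then c₂ b else 0, ?_, ?_⟩
      · intro x hx y hy hxy
        rcases hedge x hx y hy hxy with ⟨h1, h2⟩ | ⟨h1, h2⟩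
        · simp only [h1, h2, if_true]
          exact hc1 x h1 y h2 hxy
        · have h1' : x ∉ B₁ := fun h => hnot12 x h h1
          have h2' : y ∉ B₁ := fun h => hnot12 y h h2
          simp only [h1, h2, h1', h2', if_true, if_false]
          exact hc2 x h1 y h2 hxy
      · intro b hb
        by_cases h1 : b ∈ B₁
        · obtain ⟨Q, ⟨q1, q2, q3⟩, q4⟩ := hQ1 b h1
          simp only [h1, if_true]
          exact ⟨Q, ⟨q1.trans hs1, q2, fun q hq => rtg_mono hs1 (q3 q hq)⟩, q4⟩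
        · by_cases h2 : b ∈ B₂
          · obtain ⟨Q, ⟨q1, q2, q3⟩, q4⟩ := hQ2 b h2
            simp only [h1, h2, if_true, if_false]
            exact ⟨Q, ⟨q1.trans hs2, q2, fun q hq => rtg_mono hs2 (q3 q hq)⟩, q4⟩
          · simp only [h1, h2, if_false]
            refine ⟨{b}, ⟨by simpa using hb, ?_, ?_⟩, by simp⟩
            · intro x hx y hy hxy
              rw [Finset.mem_singleton] at hx hy
              exact absurd (hx.trans hy.symm) hxy
            · intro q hq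
              rw [Finset.mem_singleton] at hq
              subst hq
              exact Relation.ReflTransGen.refl
    · -- all `J` between the parts
      have hcov : ∀ b ∈ B, b ∈ B₁ ∨ b ∈ B₂ := by
        intro b hb
        have hmem : ∀ z, z ∈ A → z ∈ A₁ ∨ z ∈ A₂ := fun z hz => by
          rw [← hU] at hz; exact Finset.mem_union.1 hz
        obtain ⟨a, ha⟩ := h.ne b (hB0 b hb)
        rcases hmem a (hBA b hb ha) with h1 | h1
        · left
          refine Finset.mem_filter.2 ⟨hb, fun z hz => ?_⟩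
          rcases hmem z (hBA b hb hz) with h2 | h2
          · exact h2
          · have hne : a ≠ z := fun e => Finset.disjoint_left.1 hd h1 (e ▸ h2)
            exact absurd (hJ a h1 z h2) (h.P2 b (hB0 b hb) a ha z hz hne)
        · right
          refine Finset.mem_filter.2 ⟨hb, fun z hz => ?_⟩
          rcases hmem z (hBA b hb hz) with h2 | h2
          · have hne : z ≠ a := fun e => Finset.disjoint_left.1 hd h2 (e ▸ h1)
            exact absurd (hJ z h2 a h1) (h.P2 b (hB0 b hb) z hz a ha hne)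
          · exact h2
      have hne12 : ∀ x ∈ B₁, ∀ z ∈ B₂, x ≠ z := fun x hx z hz e => hnot12 x hx (e ▸ hz)
      have hdisj : ∀ x ∈ B₁, ∀ z ∈ B₂, Disjoint (N x) (N z) := fun x hx z hz =>
        Finset.disjoint_of_subset_left (hm1 x hx) (Finset.disjoint_of_subset_right (hm2 z hz) hd)
      have step1 : ∀ x y z, DB G N B₁ x y → z ∈ B₂ → G.Adj x z → G.Adj y z := by
        intro x y z hxy hz hxz
        by_contra hyz
        obtain ⟨hx, hy, hxy⟩ := hxy
        obtain ⟨a, ha⟩ := h.ne y (hB0 y (hs1 hy))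
        obtain ⟨a', ha'⟩ := h.ne z (hB0 z (hs2 hz))
        refine h.P4 y (hB0 y (hs1 hy)) x (hB0 x (hs1 hx)) z (hB0 z (hs2 hz)) hxy.1.symm hxz
          (hne12 y hy z hz) hyz a ha (Finset.disjoint_right.1 hxy.2 ha)
          (Finset.disjoint_left.1 (hdisj y hy z hz) ha) a' ha'
          (Finset.disjoint_right.1 (hdisj y hy z hz) ha')
          (Finset.disjoint_right.1 (hdisj x hx z hz) ha')
          (hJ a (hm1 y hy ha) a' (hm2 z hz ha'))
      have step2 : ∀ x z z', x ∈ B₁ → DB G N B₂ z z' → G.Adj x z → G.Adj x z' := by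
        intro x z z' hx hzz hxz
        by_contra hyz
        obtain ⟨hz, hz', hzz⟩ := hzz
        obtain ⟨a, ha⟩ := h.ne z' (hB0 z' (hs2 hz'))
        obtain ⟨a', ha'⟩ := h.ne x (hB0 x (hs1 hx))
        refine h.P4 z' (hB0 z' (hs2 hz')) z (hB0 z (hs2 hz)) x (hB0 x (hs1 hx)) hzz.1.symm
          hxz.symm (hne12 x hx z' hz').symm (fun e => hyz e.symm) a ha
          (Finset.disjoint_right.1 hzz.2 ha)
          (Finset.disjoint_right.1 (hdisj x hx z' hz') ha) a' ha'
          (Finset.disjoint_left.1 (hdisj x hx z' hz') ha')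
          (Finset.disjoint_left.1 (hdisj x hx z hz) ha')
          (h.symm _ _ (hJ a' (hm1 x hx ha') a (hm2 z' hz' ha)))
      have join1 : ∀ x x' z, Relation.ReflTransGen (DB G N B₁) x x' → z ∈ B₂ → G.Adj x z →
          G.Adj x' z := by
        intro x x' z hx hz hxz
        induction hx with
        | refl => exact hxz
        | tail _ hbc ih => exact step1 _ _ z hbc hz ih
      have join2 : ∀ x z z', x ∈ B₁ → Relation.ReflTransGen (DB G N B₂) z z' → G.Adj x z →
          G.Adj x z' := by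
        intro x z z' hx hz hxz
        induction hz with
        | refl => exact hxz
        | tail _ hbc ih => exact step2 x _ _ hx hbc ih
      -- clique number of the component
      set W : V → ℕ := fun b => (B.powerset.filter (fun Q => RQ G N B b Q)).sup Finset.card with hW
      have hWle : ∀ b Q, RQ G N B b Q → Q.card ≤ W b := by
        intro b Q hQ
        exact Finset.le_sup (f := Finset.card)
          (Finset.mem_filter.2 ⟨Finset.mem_powerset.2 hQ.1, hQ⟩)
      have hWex : ∀ b, ∃ Q, RQ G N B b Q ∧ Q.card = W b := by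
        intro b
        have hne : (B.powerset.filter (fun Q => RQ G N B b Q)).Nonempty :=
          ⟨∅, Finset.mem_filter.2 ⟨by simp, by simp, by simp, by simp⟩⟩
        obtain ⟨Q, hQ, hQc⟩ := Finset.exists_mem_eq_sup _ hne Finset.card
        exact ⟨Q, (Finset.mem_filter.1 hQ).2, hQc.symm⟩
      have hWeq : ∀ b b', DB G N B b b' → W b = W b' := by
        intro b b' hbb
        have : ∀ Q, RQ G N B b Q ↔ RQ G N B b' Q := fun Q =>
          ⟨fun hQ => ⟨hQ.1, hQ.2.1, fun q hq => Relation.ReflTransGen.head hbb.symm (hQ.2.2 q hq)⟩,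
           fun hQ => ⟨hQ.1, hQ.2.1, fun q hq => Relation.ReflTransGen.head hbb (hQ.2.2 q hq)⟩⟩
        simp only [hW, this]
      have hQ1' : ∀ b ∈ B₁, ∃ Q, RQ G N B₁ b Q ∧ c₁ b + 1 ≤ Q.card := hQ1
      have lift1 : ∀ b Q, RQ G N B₁ b Q → RQ G N B b Q := fun b Q hQ =>
        ⟨hQ.1.trans hs1, hQ.2.1, fun q hq => rtg_mono hs1 (hQ.2.2 q hq)⟩
      have lift2 : ∀ b Q, RQ G N B₂ b Q → RQ G N B b Q := fun b Q hQ =>
        ⟨hQ.1.trans hs2, hQ.2.1, fun q hq => rtg_mono hs2 (hQ.2.2 q hq)⟩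
      have hw2 : ∀ b ∈ B₂, c₂ b + 1 ≤ W b := by
        intro b hb
        obtain ⟨Q, hQ, hQc⟩ := hQ2 b hb
        exact hQc.trans (hWle b Q (lift2 b Q hQ))
      have cross : ∀ x ∈ B₁, ∀ z ∈ B₂, DA G N x z → c₁ x + 1 + (c₂ z + 1) ≤ W z := by
        intro x hx z hz hxz
        obtain ⟨Q, hQ, hQc⟩ := hQ1 x hx
        obtain ⟨Q', hQ', hQc'⟩ := hQ2 z hz
        have hdQ : Disjoint Q Q' := Finset.disjoint_left.2 fun q hq hq' =>
          hnot12 q (hQ.1 hq) (hQ'.1 hq')
        have hadj : ∀ q ∈ Q, ∀ q' ∈ Q', DA G N q q' := fun q hq q' hq' =>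
          ⟨join2 q z q' (hQ.1 hq) (hQ'.2.2 q' hq') (join1 x q z (hQ.2.2 q hq) hz hxz.1),
            hdisj q (hQ.1 hq) q' (hQ'.1 hq')⟩
        have hR : RQ G N B z (Q ∪ Q') := by
          refine ⟨Finset.union_subset (hQ.1.trans hs1) (hQ'.1.trans hs2), ?_, ?_⟩
          · intro u hu v hv huv
            rcases Finset.mem_union.1 hu with hu | hu <;> rcases Finset.mem_union.1 hv with hv | hv
            · exact hQ.2.1 u hu v hv huv
            · exact hadj u hu v hv
            · exact (hadj v hv u hu).symm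
            · exact hQ'.2.1 u hu v hv huv
          · intro q hq
            rcases Finset.mem_union.1 hq with hq | hq
            · refine Relation.ReflTransGen.head (b := x) ⟨hs2 hz, hs1 hx, hxz.symm⟩ ?_
              exact rtg_mono hs1 (hQ.2.2 q hq)
            · exact rtg_mono hs2 (hQ'.2.2 q hq)
        have := hWle z _ hR
        rw [Finset.card_union_of_disjoint hdQ] at this
        omega
      refine ⟨fun b => if b ∈ B₁ then c₁ b else W b - 1 - c₂ b, ?_, ?_⟩
      · intro x hx y hy hxy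
        have hWxy : W x = W y := hWeq x y ⟨hx, hy, hxy⟩
        rcases hcov x hx with hx1 | hx2 <;> rcases hcov y hy with hy1 | hy2
        · simp only [hx1, hy1, if_true]
          exact hc1 x hx1 y hy1 hxy
        · have hy1 : y ∉ B₁ := fun h => hnot12 y h hy2
          simp only [hx1, hy1, if_true, if_false]
          have := cross x hx1 y hy2 hxy
          omega
        · have hx1 : x ∉ B₁ := fun h => hnot12 x h hx2
          simp only [hx1, hy1, if_true, if_false]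
          have := cross y hy1 x hx2 hxy.symm
          omega
        · have hy1 : y ∉ B₁ := fun h => hnot12 y h hy2
          have hx1 : x ∉ B₁ := fun h => hnot12 x h hx2
          simp only [hx1, hy1, if_false]
          have h1 := hw2 x hx2
          have h2 := hw2 y hy2
          have h3 := hc2 x hx2 y hy2 hxy
          omega
      · intro b hb
        by_cases h1 : b ∈ B₁
        · obtain ⟨Q, hQ, hQc⟩ := hQ1 b h1
          simp only [h1, if_true]
          exact ⟨Q, lift1 b Q hQ, hQc⟩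
        · have h2 : b ∈ B₂ := (hcov b hb).resolve_left h1
          obtain ⟨Q, hQ, hQc⟩ := hWex b
          simp only [h1, if_false]
          have := hw2 b h2
          exact ⟨Q, hQ, by omega⟩

/-! ### K2 -/

/-- a `P_4`-free relation has a linear order along which it and its complement are transitive. -/
theorem exists_ord_fin [DecidableEq V] (J : V → V → Prop) (hs : ∀ a b, J a b → J b a) :
    ∀ (n : ℕ) (A : Finset V), A.card ≤ n → P4Free J (A : Set V) →
      ∃ r : V → ℕ, Ord (A : Set V) J r := by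
  intro n
  induction n with
  | zero =>
    intro A hA _
    have hA' : A = ∅ := Finset.card_eq_zero.1 (by omega)
    subst hA'
    exact ⟨fun _ => 0, ⟨by simp, by simp, by simp⟩⟩
  | succ n ih =>
    intro A hA h4
    by_cases hcard : 2 ≤ A.card
    swap
    · refine ⟨fun _ => 0, ⟨?_, ?_, ?_⟩⟩
      · intro a ha b hb _
        have h1 : A.card ≤ 1 := by omega
        exact Finset.card_le_one.1 h1 a (by exact_mod_cast ha) b (by exact_mod_cast hb)
      · intro a _ b _ c _ h; exact absurd h (lt_irrefl _)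
      · intro a _ b _ c _ h; exact absurd h (lt_irrefl _)
    obtain ⟨A₁, A₂, hn1, hn2, hd, hU, hJ⟩ := cograph_split J hs _ A rfl hcard h4
    have hA1 : A₁ ⊆ A := hU ▸ Finset.subset_union_left
    have hA2 : A₂ ⊆ A := hU ▸ Finset.subset_union_right
    have hc : A₁.card + A₂.card = A.card := by rw [← hU, Finset.card_union_of_disjoint hd]
    have hp1 := Finset.card_pos.2 hn1
    have hp2 := Finset.card_pos.2 hn2
    obtain ⟨r₁, hr1⟩ := ih A₁ (by omega) (h4.mono (by exact_mod_cast hA1))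
    obtain ⟨r₂, hr2⟩ := ih A₂ (by omega) (h4.mono (by exact_mod_cast hA2))
    set M : ℕ := A₁.sup r₁ with hM
    have hMle : ∀ a ∈ A₁, r₁ a ≤ M := fun a ha => Finset.le_sup (f := r₁) ha
    have hsplit : ∀ a ∈ (A : Set V), (a ∈ A₁ ∧ a ∉ A₂) ∨ (a ∉ A₁ ∧ a ∈ A₂) := by
      intro a ha
      have ha' : a ∈ A := by exact_mod_cast ha
      rw [← hU] at ha'
      rcases Finset.mem_union.1 ha' with h | h
      · exact Or.inl ⟨h, fun h' => Finset.disjoint_left.1 hd h h'⟩
      · exact Or.inr ⟨fun h' => Finset.disjoint_left.1 hd h' h, h⟩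
    have c1 : ∀ a, a ∈ A₁ → a ∈ (A₁ : Set V) := fun a h => by exact_mod_cast h
    have c2 : ∀ a, a ∈ A₂ → a ∈ (A₂ : Set V) := fun a h => by exact_mod_cast h
    refine ⟨fun a => if a ∈ A₁ then r₁ a else r₂ a + M + 1, ⟨?_, ?_, ?_⟩⟩
    · intro a ha b hb hab
      rcases hsplit a ha with ⟨a1, a2⟩ | ⟨a1, a2⟩ <;> rcases hsplit b hb with ⟨b1, b2⟩ | ⟨b1, b2⟩ <;>
        simp only [a1, b1, if_true, if_false] at hab
      · exact hr1.inj a (c1 a a1) b (c1 b b1) hab
      · have := hMle a a1; omega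
      · have := hMle b b1; omega
      · exact hr2.inj a (c2 a a2) b (c2 b b2) (by omega)
    · intro a ha b hb c hcc hab hbc h1 h2
      rcases hsplit a ha with ⟨a1, a2⟩ | ⟨a1, a2⟩ <;> rcases hsplit b hb with ⟨b1, b2⟩ | ⟨b1, b2⟩ <;>
        rcases hsplit c hcc with ⟨d1, d2⟩ | ⟨d1, d2⟩ <;>
        simp only [a1, b1, d1, if_true, if_false] at hab hbc
      · exact hr1.one a (c1 a a1) b (c1 b b1) c (c1 c d1) hab hbc h1 h2
      · rcases hJ with hJ | hJ
        · exact absurd h2 (hJ b b1 c d2)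
        · exact hJ a a1 c d2
      · have := hMle c d1; omega
      · rcases hJ with hJ | hJ
        · exact absurd h1 (hJ a a1 b b2)
        · exact hJ a a1 c d2
      · have := hMle b b1; omega
      · have := hMle b b1; omega
      · have := hMle c d1; omega
      · exact hr2.one a (c2 a a2) b (c2 b b2) c (c2 c d2) (by omega) (by omega) h1 h2
    · intro a ha b hb c hcc hab hbc h1 h2
      rcases hsplit a ha with ⟨a1, a2⟩ | ⟨a1, a2⟩ <;> rcases hsplit b hb with ⟨b1, b2⟩ | ⟨b1, b2⟩ <;>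
        rcases hsplit c hcc with ⟨d1, d2⟩ | ⟨d1, d2⟩ <;>
        simp only [a1, b1, d1, if_true, if_false] at hab hbc
      · exact hr1.zero a (c1 a a1) b (c1 b b1) c (c1 c d1) hab hbc h1 h2
      · rcases hJ with hJ | hJ
        · exact hJ a a1 c d2
        · exact absurd (hJ b b1 c d2) h2
      · have := hMle c d1; omega
      · rcases hJ with hJ | hJ
        · exact hJ a a1 c d2
        · exact absurd (hJ a a1 b b2) h1
      · have := hMle b b1; omega
      · have := hMle b b1; omega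
      · have := hMle c d1; omega
      · exact hr2.zero a (c2 a a2) b (c2 b b2) c (c2 c d2) (by omega) (by omega) h1 h2

/-- two overlapping stable sets with complete differences agree in the first or in the last point -/
theorem K2_aux [DecidableEq V] {A : Set V} {J : V → V → Prop} {r : V → ℕ} (hr : Ord A J r)
    (hs : ∀ a b, J a b → J b a)
    (S S' : Finset V) (hS : ∀ a ∈ S, a ∈ A) (hS' : ∀ a ∈ S', a ∈ A)
    (h1 : ∀ a ∈ S, ∀ a' ∈ S, a ≠ a' → ¬ J a a') (h2 : ∀ a ∈ S', ∀ a' ∈ S', a ≠ a' → ¬ J a a')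
    (z : V) (hz : z ∈ S) (hz' : z ∈ S') (y : V) (hy : y ∈ S') (hyS : y ∉ S)
    (hJ : ∀ a ∈ S, a ∉ S' → ∀ a' ∈ S', a' ∉ S → J a a')
    (m m' M M' : V) (hm : m ∈ S)
    (hmm' : ∀ a ∈ S', r m' ≤ r a) (hM : M ∈ S) (hMM : ∀ a ∈ S, r a ≤ r M) (hM' : M' ∈ S')
    (hMM' : ∀ a ∈ S', r a ≤ r M') (hlt : r m < r m') (hne : M ≠ M') : False := by
  have hmS' : m ∉ S' := fun h => by have := hmm' m h; omega
  have hneM : r M ≠ r M' := fun h => hne (hr.inj M (hS M hM) M' (hS' M' hM') h)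
  rcases lt_or_gt_of_ne hneM with hlt' | hlt'
  · have hMS : M' ∉ S := fun h => by have := hMM M' h; omega
    have hmz : m ≠ z := fun h => hmS' (h ▸ hz')
    have hMz : z ≠ M' := fun h => hMS (h ▸ hz)
    have e1 : r m < r z := by have := hmm' z hz'; omega
    have e2 : r z < r M' := lt_of_le_of_ne (hMM' z hz')
      (fun h => hMz (hr.inj z (hS z hz) M' (hS' M' hM') h))
    exact hr.zero m (hS m hm) z (hS z hz) M' (hS' M' hM') e1 e2 (h1 m hm z hz hmz)
      (h2 z hz' M' hM' hMz) (hJ m hm hmS' M' hM' hMS)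
  · have hMS : M ∉ S' := fun h => by have := hMM' M h; omega
    have e1 : r m < r y := by have := hmm' y hy; omega
    have e2 : r y < r M := by have := hMM' y hy; omega
    have hmM : m ≠ M := fun h => by rw [h] at e1; omega
    exact h1 m hm M hM hmM (hr.one m (hS m hm) y (hS' y hy) M (hS M hM) e1 e2
      (hJ m hm hmS' y hy hyS) (hs _ _ (hJ M hM hMS y hy hyS)))

/-- K2: two overlapping stable sets with complete differences agree in the first or in the last
point. -/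
theorem K2 [DecidableEq V] {A : Set V} {J : V → V → Prop} {r : V → ℕ} (hr : Ord A J r)
    (hs : ∀ a b, J a b → J b a)
    (S S' : Finset V) (hS : ∀ a ∈ S, a ∈ A) (hS' : ∀ a ∈ S', a ∈ A)
    (h1 : ∀ a ∈ S, ∀ a' ∈ S, a ≠ a' → ¬ J a a') (h2 : ∀ a ∈ S', ∀ a' ∈ S', a ≠ a' → ¬ J a a')
    (z : V) (hz : z ∈ S) (hz' : z ∈ S') (x : V) (hx : x ∈ S) (hxS : x ∉ S')
    (y : V) (hy : y ∈ S') (hyS : y ∉ S)
    (hJ : ∀ a ∈ S, a ∉ S' → ∀ a' ∈ S', a' ∉ S → J a a')
    (m m' M M' : V) (hm : m ∈ S) (hmm : ∀ a ∈ S, r m ≤ r a) (hm' : m' ∈ S')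
    (hmm' : ∀ a ∈ S', r m' ≤ r a) (hM : M ∈ S) (hMM : ∀ a ∈ S, r a ≤ r M) (hM' : M' ∈ S')
    (hMM' : ∀ a ∈ S', r a ≤ r M') : m = m' ∨ M = M' := by
  by_contra hcon
  push Not at hcon
  have hnem : r m ≠ r m' := fun h => hcon.1 (hr.inj m (hS m hm) m' (hS' m' hm') h)
  rcases lt_or_gt_of_ne hnem with hlt | hlt
  · exact K2_aux hr hs S S' hS hS' h1 h2 z hz hz' y hy hyS hJ m m' M M' hm hmm' hM hMM
      hM' hMM' hlt hcon.2
  · exact K2_aux hr hs S' S hS' hS h2 h1 z hz' hz x hx hxS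
      (fun a ha ha' a' hb hb' => hs _ _ (hJ a' hb hb' a ha ha')) m' m M' M hm' hmm hM' hMM'
      hM hMM hlt hcon.2.symm

theorem pair_inj {n a b a' b' : ℕ} (hb : b < n) (hb' : b' < n) (h : a * n + b = a' * n + b') :
    a = a' ∧ b = b' := by
  have hn : 0 < n := by omega
  have e1 : (a * n + b) / n = a := by
    rw [mul_comm, Nat.mul_add_div hn, Nat.div_eq_of_lt hb, add_zero]
  have e2 : (a' * n + b') / n = a' := by
    rw [mul_comm, Nat.mul_add_div hn, Nat.div_eq_of_lt hb', add_zero]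
  have e3 : a = a' := by rw [← e1, ← e2, h]
  subst e3
  exact ⟨rfl, by omega⟩

theorem pair_lt {n m a b : ℕ} (ha : a < m) (hb : b < n) : a * n + b < m * n := by
  calc a * n + b < a * n + n := by omega
    _ = (a + 1) * n := by ring
    _ ≤ m * n := Nat.mul_le_mul_right n ha

/-- **Lemma K**: the children level is a union of `w * n * n` classes in which every edge is
nested, so it has small chromatic number. -/
theorem lemmaK [Finite V] (G : SimpleGraph V) (A B : Set V) (J : V → V → Prop) (n w Y : ℕ)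
    (hP : ParOK G A B J) (h4 : P4Free J A) (hdis : Disjoint A B)
    (hn : ∀ a, ColOn G {v | G.Adj a v} n) (hw : G.CliqueFree (w + 1))
    (hY : ∀ B', B' ⊆ B → NestedPair G A B' → ColOn G B' Y) :
    ColOn G B (w * (n * n) * Y) := by
  classical
  have : Fintype V := Fintype.ofFinite V
  set N : V → Finset V := fun b => Finset.univ.filter (fun a => a ∈ A ∧ G.Adj a b) with hNdef
  have hN : ∀ a b, a ∈ N b ↔ a ∈ A ∧ G.Adj a b := fun a b => by simp [hNdef]
  set J₁ : V → V → Prop := fun a b => a ∈ A ∧ b ∈ A ∧ J a b with hJ₁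
  have hs : ∀ a b, J₁ a b → J₁ b a := fun a b h => ⟨h.2.1, h.1, hP.symm a h.1 b h.2.1 h.2.2⟩
  have hKH : KH G N J₁ B := by
    refine ⟨hs, ?_, ?_, ?_, ?_⟩
    · intro b hb
      obtain ⟨a, ha, hab⟩ := hP.cover b hb
      exact ⟨a, (hN a b).2 ⟨ha, hab⟩⟩
    · intro b hb a ha a' ha' hne hJ
      obtain ⟨h1, h2⟩ := (hN a b).1 ha
      obtain ⟨h3, h4⟩ := (hN a' b).1 ha'
      exact hP.p2 b hb a h1 a' h3 hne h2 h4 hJ.2.2
    · intro x hx y hy hxy a ha ha' a' hb hb'
      obtain ⟨h1, h2⟩ := (hN a x).1 ha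
      obtain ⟨h3, h4⟩ := (hN a' y).1 hb
      exact ⟨h1, h3, hP.p3 x hx y hy hxy a h1 a' h3 h2 (fun h => ha' ((hN a y).2 ⟨h1, h⟩)) h4
        (fun h => hb' ((hN a' x).2 ⟨h3, h⟩))⟩
    · intro x hx y hy z hz hxy hyz hne hxz a ha hay haz a' ha' hax' hay' hJ
      obtain ⟨h1, h2⟩ := (hN a x).1 ha
      obtain ⟨h3, h4⟩ := (hN a' z).1 ha'
      exact hP.p4 x hx y hy z hz hxy hyz hne hxz a h1 a' h3 h2
        (fun h => hay ((hN a y).2 ⟨h1, h⟩)) (fun h => haz ((hN a z).2 ⟨h1, h⟩)) h4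
        (fun h => hax' ((hN a' x).2 ⟨h3, h⟩)) (fun h => hay' ((hN a' y).2 ⟨h3, h⟩)) hJ.2.2
  set AF : Finset V := Finset.univ.filter (fun a => a ∈ A) with hAF
  have hAF' : ∀ a, a ∈ AF ↔ a ∈ A := fun a => by simp [hAF]
  have h4' : P4Free J₁ (AF : Set V) := by
    intro a ha b hb c hc d hd hab hac had hbc hbd hcd h1 h2 h3 h5 h6 h7
    have ha' : a ∈ A := (hAF' a).1 (by exact_mod_cast ha)
    have hb' : b ∈ A := (hAF' b).1 (by exact_mod_cast hb)
    have hc' : c ∈ A := (hAF' c).1 (by exact_mod_cast hc)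
    have hd' : d ∈ A := (hAF' d).1 (by exact_mod_cast hd)
    exact h4 a ha' b hb' c hc' d hd' hab hac had hbc hbd hcd h1.2.2 h2.2.2 h3.2.2
      (fun h => h5 ⟨ha', hc', h⟩) (fun h => h6 ⟨ha', hd', h⟩) (fun h => h7 ⟨hb', hd', h⟩)
  set BF : Finset V := Finset.univ.filter (fun b => b ∈ B) with hBF
  have hBF' : ∀ b, b ∈ BF ↔ b ∈ B := fun b => by simp [hBF]
  obtain ⟨c₁, hc1, hc2⟩ := K1 hKH _ AF le_rfl h4' BF (fun b hb => (hBF' b).1 hb)
    (fun b _ a ha => (hAF' a).2 ((hN a b).1 ha).1)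
  obtain ⟨r, hr⟩ := exists_ord_fin J₁ hs _ AF le_rfl h4'
  have hc1lt : ∀ b ∈ B, c₁ b < w := by
    intro b hb
    obtain ⟨Q, ⟨hQ1, hQ2, hQ3⟩, hQc⟩ := hc2 b ((hBF' b).2 hb)
    by_contra hcon
    have hge : w + 1 ≤ Q.card := by omega
    obtain ⟨Q', hQ'Q, hQ'c⟩ := Finset.exists_subset_card_eq hge
    refine hw Q' ⟨?_, hQ'c⟩
    intro x hx y hy hxy
    exact (hQ2 x (hQ'Q (by exact_mod_cast hx)) y (hQ'Q (by exact_mod_cast hy)) hxy).1
  choose cn hcn1 hcn2 using hn
  have hmin : ∀ b, ∃ m, b ∈ B → m ∈ N b ∧ ∀ a ∈ N b, r m ≤ r a := by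
    intro b
    by_cases hb : b ∈ B
    · obtain ⟨m, hm, hmm⟩ := Finset.exists_min_image (N b) r (hKH.ne b hb)
      exact ⟨m, fun _ => ⟨hm, hmm⟩⟩
    · exact ⟨b, fun h => absurd h hb⟩
  have hmax : ∀ b, ∃ m, b ∈ B → m ∈ N b ∧ ∀ a ∈ N b, r a ≤ r m := by
    intro b
    by_cases hb : b ∈ B
    · obtain ⟨m, hm, hmm⟩ := Finset.exists_max_image (N b) r (hKH.ne b hb)
      exact ⟨m, fun _ => ⟨hm, hmm⟩⟩
    · exact ⟨b, fun h => absurd h hb⟩
  choose mn hmn using hmin
  choose mx hmx using hmax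
  have hlt1 : ∀ b ∈ B, cn (mn b) b < n := fun b hb => hcn1 (mn b) b ((hN _ b).1 (hmn b hb).1).2
  have hlt2 : ∀ b ∈ B, cn (mx b) b < n := fun b hb => hcn1 (mx b) b ((hN _ b).1 (hmx b hb).1).2
  refine ColOn.of_classes (fun b => c₁ b * (n * n) + (cn (mn b) b * n + cn (mx b) b)) ?_ ?_
  · intro b hb
    exact pair_lt (hc1lt b hb) (pair_lt (hlt1 b hb) (hlt2 b hb))
  · intro i _
    refine hY _ (fun v hv => hv.1) ⟨hP.stable, hdis.mono_right (fun v hv => hv.1), ?_, ?_⟩
    · intro b hb; exact hP.cover b hb.1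
    · rintro x ⟨hx, hxi⟩ y ⟨hy, hyi⟩ hxy
      by_contra hcon
      push Not at hcon
      obtain ⟨hn1, hn2⟩ := hcon
      obtain ⟨a, ha, hay⟩ := Set.not_subset.1 hn1
      obtain ⟨a', ha', hax'⟩ := Set.not_subset.1 hn2
      have hfe := hxi.trans hyi.symm
      obtain ⟨e1, e2⟩ := pair_inj (pair_lt (hlt1 x hx) (hlt2 x hx))
        (pair_lt (hlt1 y hy) (hlt2 y hy)) hfe
      obtain ⟨e3, e4⟩ := pair_inj (hlt2 x hx) (hlt2 y hy) e2
      have haN : a ∈ N x := (hN a x).2 ha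
      have haNy : a ∉ N y := fun h => hay ((hN a y).1 h)
      have haN' : a' ∈ N y := (hN a' y).2 ha'
      have haNx' : a' ∉ N x := fun h => hax' ((hN a' x).1 h)
      by_cases hdj : Disjoint (N x) (N y)
      · exact hc1 x ((hBF' x).2 hx) y ((hBF' y).2 hy) ⟨hxy, hdj⟩ e1
      · obtain ⟨z, hz, hz'⟩ := Finset.not_disjoint_iff.1 hdj
        have hmem : ∀ b, ∀ a ∈ N b, a ∈ (AF : Set V) := fun b a ha =>
          Finset.mem_coe.2 ((hAF' a).2 ((hN a b).1 ha).1)
        rcases K2 hr hs (N x) (N y) (hmem x) (hmem y) (hKH.P2 x hx) (hKH.P2 y hy) z hz hz' a haN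
          haNy a' haN' haNx' (hKH.P3 x hx y hy hxy) (mn x) (mn y) (mx x) (mx y) (hmn x hx).1
          (hmn x hx).2 (hmn y hy).1 (hmn y hy).2 (hmx x hx).1 (hmx x hx).2 (hmx y hy).1
          (hmx y hy).2 with hm | hm
        · refine hcn2 (mn x) x ((hN _ x).1 (hmn x hx).1).2 y ?_ hxy ?_
          · show G.Adj (mn x) y
            rw [hm]; exact ((hN _ y).1 (hmn y hy).1).2
          · rw [e3, hm]
        · refine hcn2 (mx x) x ((hN _ x).1 (hmx x hx).1).2 y ?_ hxy ?_
          · show G.Adj (mx x) y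
            rw [hm]; exact ((hN _ y).1 (hmx y hy).1).2
          · rw [e4, hm]

/-- `P_4`-freeness goes up to a stable set of children. -/
theorem p4free_lift {G : SimpleGraph V} {A B : Set V} {J J' : V → V → Prop}
    (hP : ParOK G A B J) (hL : LowOK G A B J J') (h4 : P4Free J A) : P4Free J' B := by
  have T1 : ∀ b ∈ B, ∀ b' ∈ B, b ≠ b' → J' b b' → ∀ a ∈ A, ∀ a' ∈ A, G.Adj a b → G.Adj a' b' →
      a ≠ a' ∧ J a a' := by
    intro b hb b' hb' hne hJ a ha a' ha' hab hab'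
    have h1 : ¬ G.Adj a b' := fun h => hL.common b hb b' hb' hne a ha hab h hJ
    have h2 : ¬ G.Adj a' b := fun h => hL.common b hb b' hb' hne a' ha' h hab' hJ
    exact ⟨fun h => h1 (h ▸ hab'), (hL.low b hb b' hb' hne a ha a' ha' hab h1 hab' h2).1 hJ⟩
  have T0 : ∀ b ∈ B, ∀ b' ∈ B, b ≠ b' → ¬ J' b b' → ∀ a ∈ A, ∀ a' ∈ A, G.Adj a b →
      G.Adj a' b' → a ≠ a' → ¬ J a a' := by
    intro b hb b' hb' hne hJ a ha a' ha' hab hab' haa hJa
    by_cases h1 : G.Adj a b'
    · exact hP.p2 b' hb' a ha a' ha' haa h1 hab' hJa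
    · by_cases h2 : G.Adj a' b
      · exact hP.p2 b hb a ha a' ha' haa hab h2 hJa
      · exact hJ ((hL.low b hb b' hb' hne a ha a' ha' hab h1 hab' h2).2 hJa)
  intro b₁ hb1 b₂ hb2 b₃ hb3 b₄ hb4 n12 n13 n14 n23 n24 n34 j12 j23 j34 j13 j14 j24
  obtain ⟨a₁, ha1, hab1⟩ := hP.cover b₁ hb1
  obtain ⟨a₂, ha2, hab2⟩ := hP.cover b₂ hb2
  obtain ⟨a₃, ha3, hab3⟩ := hP.cover b₃ hb3
  obtain ⟨a₄, ha4, hab4⟩ := hP.cover b₄ hb4
  obtain ⟨m12, k12⟩ := T1 b₁ hb1 b₂ hb2 n12 j12 a₁ ha1 a₂ ha2 hab1 hab2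
  obtain ⟨m23, k23⟩ := T1 b₂ hb2 b₃ hb3 n23 j23 a₂ ha2 a₃ ha3 hab2 hab3
  obtain ⟨m34, k34⟩ := T1 b₃ hb3 b₄ hb4 n34 j34 a₃ ha3 a₄ ha4 hab3 hab4
  have k14 : a₁ ≠ a₄ → ¬ J a₁ a₄ := T0 b₁ hb1 b₄ hb4 n14 j14 a₁ ha1 a₄ ha4 hab1 hab4
  have k13 : a₁ ≠ a₃ → ¬ J a₁ a₃ := T0 b₁ hb1 b₃ hb3 n13 j13 a₁ ha1 a₃ ha3 hab1 hab3
  have k24 : a₂ ≠ a₄ → ¬ J a₂ a₄ := T0 b₂ hb2 b₄ hb4 n24 j24 a₂ ha2 a₄ ha4 hab2 hab4
  have m14 : a₁ ≠ a₄ := by
    intro h
    subst h
    exact k13 m34.symm (hP.symm a₃ ha3 a₁ ha1 k34)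
  have m13 : a₁ ≠ a₃ := by
    intro h
    subst h
    exact k14 m14 k34
  have m24 : a₂ ≠ a₄ := by
    intro h
    subst h
    exact k14 m14 k12
  exact h4 a₁ ha1 a₂ ha2 a₃ ha3 a₄ ha4 m12 m13 m14 m23 m24 m34 k12 k23 k34 (k13 m13) (k14 m14)
    (k24 m24)

/-- **two levels**: Lemma K on `(A, B)`, then on `(B'', C'')` for every colour class `B''` of `B`. -/
theorem two_step [Finite V] (G : SimpleGraph V) (A B C : Set V) (J J' : V → V → Prop)
    (n w Y : ℕ) (hP : ParOK G A B J) (h4 : P4Free J A)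
    (hC : ∀ c ∈ C, ∃ b ∈ B, G.Adj b c)
    (hlow : ∀ B', B' ⊆ B → (∀ b ∈ B', ∀ b' ∈ B', ¬ G.Adj b b') → LowOK G A B' J J')
    (hup : ∀ B' C', B' ⊆ B → C' ⊆ C → (∀ b ∈ B', ∀ b' ∈ B', ¬ G.Adj b b') →
      (∀ c ∈ C', ∃ b ∈ B', G.Adj b c) → ParOK G B' C' J')
    (hAB : Disjoint A B) (hBC : Disjoint B C)
    (hn : ∀ a, ColOn G {v | G.Adj a v} n) (hw : G.CliqueFree (w + 1))
    (hY₁ : ∀ B', B' ⊆ B → NestedPair G A B' → ColOn G B' Y)
    (hY₂ : ∀ B' C', B' ⊆ B → C' ⊆ C → NestedPair G B' C' → ColOn G C' Y) :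
    ColOn G C ((w * (n * n) * Y) * (w * (n * n) * Y)) := by
  classical
  obtain ⟨c, hc1, hc2⟩ := lemmaK G A B J n w Y hP h4 hAB hn hw hY₁
  have hpar : ∀ x, ∃ b, x ∈ C → b ∈ B ∧ G.Adj b x := by
    intro x
    by_cases hx : x ∈ C
    · obtain ⟨b, hb, hbx⟩ := hC x hx
      exact ⟨b, fun _ => ⟨hb, hbx⟩⟩
    · exact ⟨x, fun h => absurd h hx⟩
  choose p hp using hpar
  refine ColOn.of_classes (fun x => c (p x)) (fun x hx => hc1 (p x) (hp x hx).1) ?_
  intro i _
  set B' : Set V := {b | b ∈ B ∧ c b = i} with hB'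
  set C' : Set V := {x | x ∈ C ∧ c (p x) = i} with hC'
  have hst : ∀ b ∈ B', ∀ b' ∈ B', ¬ G.Adj b b' := by
    rintro b ⟨hb, hbi⟩ b' ⟨hb', hbi'⟩ hbb
    exact hc2 b hb b' hb' hbb (hbi.trans hbi'.symm)
  have hcov : ∀ x ∈ C', ∃ b ∈ B', G.Adj b x := by
    rintro x ⟨hx, hxi⟩
    exact ⟨p x, ⟨(hp x hx).1, hxi⟩, (hp x hx).2⟩
  have hBs : B' ⊆ B := fun b hb => hb.1
  have hCs : C' ⊆ C := fun b hb => hb.1
  have hP' : ParOK G A B' J := ⟨hP.stable, fun b hb => hP.cover b (hBs hb), hP.symm,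
    fun b hb => hP.p2 b (hBs hb), fun x hx y hy => hP.p3 x (hBs hx) y (hBs hy),
    fun x hx y hy z hz => hP.p4 x (hBs hx) y (hBs hy) z (hBs hz)⟩
  exact lemmaK G B' C' J' n w Y (hup B' C' hBs hCs hst hcov)
    (p4free_lift hP' (hlow B' hBs hst) h4) (hBC.mono hBs hCs) hn hw
    (fun C'' hC'' hnp => hY₂ B' C'' hBs (hC''.trans hCs) hnp)

end BoxSS
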