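import Pool.Agent.W_ccb602.SSPath
import Pool.Agent.W_ccb602.SSIface
import Pool.Agent.W_ccb602.LemmaK

/-!
# MP_ccb602_co: long odd holes in box graphs, definitions and interface

See table proofs, id 417 (helper43).  `Lev` is `BoxSS.Lev` (pruned levelling with private children), `IPin` and `Cn` are
those of `SSPath` (namespace `SS80`).
-/

set_option autoImplicit false

namespace LO

open BoxSS
open SS80 (IP IPin Wk Cn)

variable {V : Type*}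

/-- no induced cycle of odd length at least `ℓ` -/
def NoLOH (G : SimpleGraph V) (ℓ : ℕ) : Prop :=
  ∀ m : ℕ, ℓ ≤ m → Odd m → IsEmpty (SimpleGraph.cycleGraph m ↪g G)

/-- the vertices which are joined to `z` by a walk of length at most `r` inside `W` -/
def Ball (G : SimpleGraph V) (W : Set V) (r : ℕ) (z : V) : Set V :=
  {v | ∃ n ≤ r, ∃ P : ℕ → V, P 0 = z ∧ P n = v ∧ (∀ i < n, G.Adj (P i) (P (i + 1))) ∧
    ∀ i ≤ n, P i ∈ W}

/-- nice pairs: `A` is stable and covers `B`, and there are sets `S x`, nested along the edges of `B`, such that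
parents of two vertices with comparable sets are not joined through `B` by induced paths of odd length `≥ ℓ` -/
structure Nice (G : SimpleGraph V) (ℓ : ℕ) (A B : Set V) : Prop where
  stable : ∀ a ∈ A, ∀ a' ∈ A, ¬ G.Adj a a'
  cover : ∀ b ∈ B, ∃ a ∈ A, G.Adj a b
  ex : ∃ S : V → Set V, (∀ x ∈ B, ∀ y ∈ B, G.Adj x y → S x ⊆ S y ∨ S y ⊆ S x) ∧
    ∀ x ∈ B, ∀ y ∈ B, (S x ⊆ S y ∨ S y ⊆ S x) → ∀ a ∈ A, ∀ a' ∈ A, a ≠ a' →
      G.Adj a x → G.Adj a' y → ∀ n, ℓ ≤ n → Odd n → ¬ IPin G B a a' n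

/-- bound for balls of radius `r` (`Y`: bound for nice pairs) -/
def XB (Y : ℕ) : ℕ → ℕ
  | 0 => 1
  | r + 1 => XB Y r + XB Y r ^ r * Y

/-- bound for the last level if the `2 ℓ` levels below are stable -/
def T2B (ℓ w Y : ℕ) : ℕ := 3 * (w * (XB Y ℓ * XB Y ℓ) * Y)

/-- bound for the last level if all lower levels have the bound `Θ` -/
def F1B (ℓ w Y Θ : ℕ) : ℕ := XB Y (2 * ℓ) + Θ ^ (2 * ℓ) * T2B ℓ w Y

/-- bound for low levels -/
def T0B (ℓ n Y : ℕ) : ℕ := XB Y ℓ + 2 * n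

/-- the bound of the step -/
def loF (ℓ n w Y : ℕ) : ℕ := 2 * F1B ℓ w Y (T0B ℓ n Y + F1B ℓ w Y (T0B ℓ n Y))

/-- the 5-cycle -/
def c5 (i j : Fin 5) : ℕ := if j = i + 1 ∨ i = j + 1 then 1 else 0

/-! The statements of the parts (as definitions of propositions, so that everybody can start at once). -/

/-- (F') the pentagon lemma -/
def PentStmt : Prop := ∀ (V : Type) [Finite V] (G : SimpleGraph V) (H : Set V),
  (∀ x ∈ H, ∀ y ∈ H, Cn G H x y) → ∀ t : Fin 5 → V, Function.Injective t → (∀ i, t i ∈ H) →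
  ∀ x : Fin 5 → ℕ, (∀ i j, i ≠ j → ∀ n, IPin G H (t i) (t j) n → n % 2 = (c5 i j + x i + x j) % 2) →
    False

/-- (T2) the last level over `2 ℓ` stable levels -/
def T2Stmt : Prop := ∀ (V : Type) [Finite V] (G : SimpleGraph V) (ℓ w Y : ℕ), 5 ≤ ℓ → NoLOH G ℓ →
  G.CliqueFree (w + 1) → ∀ W : Set V,
  (∀ A B, A ⊆ W → B ⊆ W → Nice G ℓ A B → ColOn G B Y) →
  (∀ z ∈ W, ColOn G (Ball G W ℓ z) (XB Y ℓ)) →
  ∀ (p : ℕ) (L : ℕ → Set V), Lev G (p + 2 * ℓ) L → (∀ i, L i ⊆ W) →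
  (∀ i, p ≤ i → i < p + 2 * ℓ → ∀ u ∈ L i, ∀ v ∈ L i, ¬ G.Adj u v) →
    ColOn G (L (p + 2 * ℓ)) (T2B ℓ w Y)

/-- (1.1) balls -/
def BallStmt : Prop := ∀ (V : Type) [Finite V] (G : SimpleGraph V) (ℓ Y : ℕ), 5 ≤ ℓ → NoLOH G ℓ →
  ∀ W : Set V, (∀ A B, A ⊆ W → B ⊆ W → Nice G ℓ A B → ColOn G B Y) →
  ∀ (r : ℕ), ∀ z ∈ W, ColOn G (Ball G W r z) (XB Y r)

/-- (1.2) low levels -/
def LowStmt : Prop := ∀ (V : Type) [Finite V] (G : SimpleGraph V) (ℓ n X : ℕ), 5 ≤ ℓ → NoLOH G ℓ →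
  (∀ a, ColOn G {v | G.Adj a v} n) → ∀ W : Set V, (∀ z ∈ W, ColOn G (Ball G W ℓ z) X) →
  ∀ (k : ℕ) (L : ℕ → Set V), Lev G k L → (∀ i, L i ⊆ W) → ∀ i, i + 2 ≤ k →
    ColOn G (L i) (X + 2 * n)

/-- (Part 1) the step -/
def StepStmt : Prop := ∀ (V : Type) [Finite V] (G : SimpleGraph V) (ℓ n w Y : ℕ), 5 ≤ ℓ →
  NoLOH G ℓ → (∀ a, ColOn G {v | G.Adj a v} n) → G.CliqueFree (w + 1) → ∀ W : Set V,
  (∀ A B, A ⊆ W → B ⊆ W → Nice G ℓ A B → ColOn G B Y) → ColOn G W (loF ℓ n w Y)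

end LO
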