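import Pool.Agent.W_ccb602.OddBoxes
import Pool.Agent.W_ccb602.LOIface

/-!
# MP_ccb602_co: box graphs without long odd holes are polynomially chi-bounded (relative to the step and the
killing of nice pairs)
-/

set_option autoImplicit false

namespace LO

open BoxSS Box85 Tree57

/-- the potential of a list of classes, `wt` is the weight of a class with a given number of open pairs -/
def pt {V : Type*} {d : ℕ} (wt : ℕ → ℕ) (l : List (Cls V d)) : ℕ :=
  (l.map (fun C => wt C.O.card)).sum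

/-- nice pairs kill classes -/
def KillHyp (d ℓ : ℕ) (wt : ℕ → ℕ) (KK : ℕ → ℕ → ℕ) : Prop :=
  ∀ (V : Type) [Finite V] (G : SimpleGraph V) (a b : V → Fin d → ℝ), (∀ i, a i ≤ b i) →
    (∀ i j, G.Adj i j ↔ i ≠ j ∧ Hit a b i j) → NoLOH G ℓ → ∀ k n : ℕ, 0 < n →
    (∀ x, ColOn G {v | G.Adj x v} n) → (∀ s : Finset V, G.IsClique s → s.card ≤ k) →
    ∀ l : List (Cls V d), (∀ C ∈ l, OKC G a b C) → ∀ A B Q : Set V, A ⊆ Q → B ⊆ Q → Cov G Q l →
    Nice G ℓ A B → ∀ X : ℕ, (∀ l' : List (Cls V d), (∀ C ∈ l', OKC G a b C) →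
      pt wt l' < pt wt l → ∀ Q : Set V, Cov G Q l' → ColOn G Q X) →
    ColOn G B ((l.length * 2) * (KK n k * X))

theorem length_le_pt {V : Type*} {d : ℕ} {wt : ℕ → ℕ} (hwt : ∀ m, 0 < wt m) :
    ∀ l : List (Cls V d), l.length ≤ pt wt l
  | [] => Nat.zero_le _
  | C :: l => by
    have h1 := length_le_pt hwt l
    have h2 := hwt C.O.card
    unfold pt at h1 ⊢
    rw [List.map_cons, List.sum_cons, List.length_cons]
    omega

/-- the iterated bound -/
def XL (ℓ : ℕ) (KK : ℕ → ℕ → ℕ) (k n : ℕ) : ℕ → ℕ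
  | 0 => 1
  | m + 1 => loF ℓ n k (((m + 1) * 2) * (KK n k * XL ℓ KK k n m)) + 1

theorem sysL (hStep : StepStmt) {d ℓ : ℕ} (hl : 5 ≤ ℓ) {wt : ℕ → ℕ} (hwt : ∀ m, 0 < wt m)
    {KK : ℕ → ℕ → ℕ} (hKill : KillHyp d ℓ wt KK) {V : Type} [Finite V] {G : SimpleGraph V}
    {a b : V → Fin d → ℝ} (hab : ∀ i, a i ≤ b i)
    (hG : ∀ i j, G.Adj i j ↔ i ≠ j ∧ Hit a b i j) (hodd : NoLOH G ℓ) {k n : ℕ} (hn0 : 0 < n)
    (hn : ∀ x, ColOn G {v | G.Adj x v} n)
    (hk : ∀ s : Finset V, G.IsClique s → s.card ≤ k) :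
    ∀ (m : ℕ) (l : List (Cls V d)), (∀ C ∈ l, OKC G a b C) → pt wt l ≤ m →
      ∀ Q : Set V, Cov G Q l → ColOn G Q (XL ℓ KK k n m)
  | 0, l, _, hm, Q, hQ => by
    have h1 := length_le_pt hwt l
    have h2 : l = [] := List.length_eq_zero_iff.1 (by omega)
    subst h2
    refine ⟨fun _ => 0, fun _ _ => Nat.one_pos, ?_⟩
    intro u hu v hv huv
    obtain ⟨C, hC, -⟩ := hQ u hu v hv huv
    exact absurd hC List.not_mem_nil
  | m + 1, l, hl', hm, Q, hQ => by
    have ih := sysL hStep hl hwt hKill hab hG hodd hn0 hn hk m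
    have hcf : G.CliqueFree (k + 1) := by
      intro s hs
      have h1 := hk s hs.isClique
      rw [hs.card_eq] at h1
      omega
    have h1 := hStep V G ℓ n k (((m + 1) * 2) * (KK n k * XL ℓ KK k n m)) hl hodd hn hcf
      Q (by
        intro A B hA hB hnp
        refine (hKill V G a b hab hG hodd k n hn0 hn hk l hl' A B Q hA hB hQ hnp
          (XL ℓ KK k n m) ?_).mono (Set.Subset.refl _) ?_
        · intro l' hl'' hpot Q' hQ'
          exact ih l' hl'' (by omega) Q' hQ'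
        · exact Nat.mul_le_mul_right _ (Nat.mul_le_mul_right _ ((length_le_pt hwt l).trans hm)))
    exact h1.mono (Set.Subset.refl _) (Nat.le_succ _)

theorem NoLOH.ind {V : Type*} {G : SimpleGraph V} {ℓ : ℕ} (h : NoLOH G ℓ) (S : Set V) :
    NoLOH (G.induce S) ℓ := by
  intro m hm hodd
  refine ⟨fun f => (h m hm hodd).false ?_⟩
  exact (SimpleGraph.Embedding.induce (G := G) S).comp f

/-- the bound `f` for graphs without long odd holes of boxes with at most `s` non-trivial coordinates -/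
def BndL (d ℓ s : ℕ) (f : ℕ → ℕ) : Prop :=
  ∀ (V : Type) [Finite V] (G : SimpleGraph V) (a b : V → Fin d → ℝ) (T : Finset (Fin d)),
    T.card ≤ s → (∀ i, a i ≤ b i) → (∀ i j, G.Adj i j ↔ i ≠ j ∧ Hit a b i j) →
    (∀ i t, t ∉ T → a i t = 0 ∧ b i t = 0) → NoLOH G ℓ → ∀ k : ℕ,
    (∀ s : Finset V, G.IsClique s → s.card ≤ k) → ColOn G Set.univ (f k)

theorem bndL_zero (d ℓ : ℕ) : BndL d ℓ 0 (P0 d) := by
  intro V _ G a b T hT hab hG htriv _ k hk
  obtain ⟨c, hc⟩ := base_gen G a b hab hG hk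
  rw [← card_P0 d k, ← mul_one (Fintype.card _)]
  apply ColOn.of_fin c
  intro φ
  refine ⟨fun _ => 0, fun _ _ => Nat.one_pos, ?_⟩
  rintro u ⟨-, hu⟩ v ⟨-, hv⟩ huv
  obtain ⟨-, ⟨t, ht, -⟩, -, -⟩ := hc u v huv (hu.trans hv.symm)
  have hTe : T = ∅ := Finset.card_eq_zero.1 (Nat.le_zero.1 hT)
  have h1 := htriv u t (by rw [hTe]; exact Finset.notMem_empty t)
  have h2 := htriv v t (by rw [hTe]; exact Finset.notMem_empty t)
  rw [h1.1, h2.1] at ht
  exact absurd ht (lt_irrefl _)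

/-- THE LOCAL BOUND. -/
theorem local_boundL {d ℓ s : ℕ} {f : ℕ → ℕ} (hf : BndL d ℓ s f) {V : Type} [Finite V]
    {G : SimpleGraph V} {a b : V → Fin d → ℝ} {T : Finset (Fin d)} (hT : T.card ≤ s + 1)
    (hab : ∀ i, a i ≤ b i)
    (hG : ∀ i j, G.Adj i j ↔ i ≠ j ∧ Hit a b i j) (hbad : ∀ i j, G.Adj i j → Bad a b i j)
    (htriv : ∀ i t, t ∉ T → a i t = 0 ∧ b i t = 0) (hodd : NoLOH G ℓ) {k : ℕ}
    (hk : ∀ s : Finset V, G.IsClique s → s.card ≤ k) (x : V) :
    ColOn G {v | G.Adj x v} ((2 * 2) ^ d * f k) := by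
  classical
  have hex : ∀ v, G.Adj x v → ∃ τ, TS a b τ v x := fun v hv => exists_type (hbad v x hv.symm)
  choose! τ hτ using hex
  have hcard : Fintype.card (Fin d → Bool × Bool) = (2 * 2) ^ d := by
    simp only [Fintype.card_prod, Fintype.card_fun, Fintype.card_fin, Fintype.card_bool]
  rw [← hcard]
  apply ColOn.of_fin τ
  intro τ0
  rcases Set.eq_empty_or_nonempty {v | v ∈ {v | G.Adj x v} ∧ τ v = τ0} with hS | ⟨v0, hv0, hτ0⟩
  · rw [hS]
    exact ⟨fun _ => 0, fun v hv => absurd hv (Set.notMem_empty v),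
      fun u hu => absurd hu (Set.notMem_empty u)⟩
  have hsub : (T.filter (fun t => τ0 t = (false, true))).card ≤ s := by
    have hlt : (T.filter (fun t => τ0 t = (false, true))).card < T.card := by
      apply Finset.card_lt_card
      rw [Finset.filter_ssubset]
      obtain ⟨-, -, ⟨t, ht1, ht2⟩, -⟩ := hbad v0 x (SimpleGraph.Adj.symm hv0)
      refine ⟨t, ?_, ?_⟩
      · by_contra htT
        have h1 := htriv v0 t htT
        have h2 := htriv x t htT
        rw [h1.1, h2.1] at ht1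
        exact absurd ht1 (lt_irrefl _)
      · intro htt
        have h3 := hτ v0 hv0
        rw [hτ0] at h3
        have h4 := (h3.1 t).2.1 (by rw [htt])
        exact absurd ht1 (not_lt.2 h4)
    omega
  apply ColOn.of_ind
  have hmem : ∀ u : {v | v ∈ {v | G.Adj x v} ∧ τ v = τ0}, TS a b τ0 u x ∧ Hit a b u x := by
    rintro ⟨u, hu, hu2⟩
    refine ⟨?_, ((hG _ _).1 (SimpleGraph.Adj.symm hu)).2⟩
    have h3 := hτ u hu
    rw [hu2] at h3
    exact h3
  refine hf _ (G.induce {v | v ∈ {v | G.Adj x v} ∧ τ v = τ0})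
    (fun u t => if τ0 t = (false, true) then a u t else 0)
    (fun u t => if τ0 t = (false, true) then b u t else 0)
    (T.filter (fun t => τ0 t = (false, true))) hsub ?_ ?_ ?_ (hodd.ind _) k (clique_ind hk _)
  · intro u t
    show (if τ0 t = (false, true) then a u t else 0) ≤ (if τ0 t = (false, true) then b u t else 0)
    split_ifs
    · exact hab _ t
    · exact le_rfl
  · intro u v
    rw [SimpleGraph.comap_adj]
    show G.Adj (u : V) (v : V) ↔ _
    rw [hG]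
    constructor
    · rintro ⟨h1, h2⟩
      refine ⟨fun h => h1 (congrArg _ h), ?_⟩
      intro t
      show (if τ0 t = (false, true) then a u t else 0) ≤ (if τ0 t = (false, true) then b v t else 0)
        ∧ (if τ0 t = (false, true) then a v t else 0) ≤ (if τ0 t = (false, true) then b u t else 0)
      split_ifs
      · exact h2 t
      · exact ⟨le_rfl, le_rfl⟩
    · rintro ⟨h1, h2⟩
      refine ⟨fun h => h1 (Subtype.ext h), ?_⟩
      intro t
      have h3 : (if τ0 t = (false, true) then a u t else 0) ≤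
          (if τ0 t = (false, true) then b v t else 0)
          ∧ (if τ0 t = (false, true) then a v t else 0) ≤
          (if τ0 t = (false, true) then b u t else 0) := h2 t
      obtain ⟨⟨r1, -⟩, q1⟩ := hmem u
      obtain ⟨⟨r2, -⟩, q2⟩ := hmem v
      obtain ⟨p1, p2, p3, p4⟩ := r1 t
      obtain ⟨o1, o2, o3, o4⟩ := r2 t
      have g1 := hab u t
      have g2 := hab v t
      have g3 := hab x t
      have g4 := q1 t
      have g5 := q2 t
      rcases h8 : τ0 t with ⟨_ | _, _ | _⟩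
      · have := p2 (by rw [h8]); have := p4 (by rw [h8])
        have := o2 (by rw [h8]); have := o4 (by rw [h8])
        constructor <;> linarith [g4.1, g4.2, g5.1, g5.2]
      · rw [if_pos h8, if_pos h8, if_pos h8, if_pos h8] at h3
        exact h3
      · have := p1 (by rw [h8]); have := p4 (by rw [h8])
        have := o1 (by rw [h8]); have := o4 (by rw [h8])
        constructor <;> linarith [g4.1, g4.2, g5.1, g5.2]
      · have := p1 (by rw [h8]); have := p3 (by rw [h8])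
        have := o1 (by rw [h8]); have := o3 (by rw [h8])
        constructor <;> linarith [g4.1, g4.2, g5.1, g5.2]
  · intro u t ht
    show (if τ0 t = (false, true) then a u t else 0) = 0 ∧
      (if τ0 t = (false, true) then b u t else 0) = 0
    split_ifs with h
    · have htT : t ∉ T := fun h9 => ht (Finset.mem_filter.2 ⟨h9, h⟩)
      exact htriv u t htT
    · exact ⟨rfl, rfl⟩

/-- the total potential -/
def LamL (d : ℕ) (wt : ℕ → ℕ) : ℕ := (2 * 2) ^ d * wt (d * 2)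

theorem bndL_succ (hStep : StepStmt) {d ℓ : ℕ} (hl : 5 ≤ ℓ) {wt : ℕ → ℕ} (hwt : ∀ m, 0 < wt m)
    {KK : ℕ → ℕ → ℕ} (hKill : KillHyp d ℓ wt KK) {s : ℕ} {f : ℕ → ℕ} (hf : BndL d ℓ s f) :
    BndL d ℓ (s + 1) (fun k => P0 d k * XL ℓ KK k ((2 * 2) ^ d * f k + 1) (LamL d wt)) := by
  classical
  intro V _ G a b T hT hab hG htriv hodd k hk
  obtain ⟨c, hc⟩ := base_gen G a b hab hG hk
  show ColOn G Set.univ (P0 d k * XL ℓ KK k ((2 * 2) ^ d * f k + 1) (LamL d wt))
  rw [← card_P0 d k]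
  apply ColOn.of_fin c
  intro φ
  apply ColOn.of_ind
  have hG' : ∀ i j : {v | v ∈ Set.univ ∧ c v = φ},
      (G.induce {v | v ∈ Set.univ ∧ c v = φ}).Adj i j ↔
        i ≠ j ∧ Hit (fun i : {v | v ∈ Set.univ ∧ c v = φ} => a i)
          (fun i : {v | v ∈ Set.univ ∧ c v = φ} => b i) i j := by
    intro i j
    rw [SimpleGraph.comap_adj]
    show G.Adj (i : V) (j : V) ↔ _
    rw [hG]
    constructor
    · rintro ⟨h1, h2⟩
      exact ⟨fun h => h1 (congrArg _ h), h2⟩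
    · rintro ⟨h1, h2⟩
      exact ⟨fun h => h1 (Subtype.ext h), h2⟩
  have hbad : ∀ i j : {v | v ∈ Set.univ ∧ c v = φ},
      (G.induce {v | v ∈ Set.univ ∧ c v = φ}).Adj i j →
        Bad (fun i : {v | v ∈ Set.univ ∧ c v = φ} => a i)
          (fun i : {v | v ∈ Set.univ ∧ c v = φ} => b i) i j :=
    fun i j hij => hc i j hij (i.2.2.trans j.2.2.symm)
  have hn : ∀ x, ColOn (G.induce {v | v ∈ Set.univ ∧ c v = φ})
      {v | (G.induce {v | v ∈ Set.univ ∧ c v = φ}).Adj x v} ((2 * 2) ^ d * f k + 1) :=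
    fun x => (local_boundL hf (a := fun i : {v | v ∈ Set.univ ∧ c v = φ} => a i)
      (b := fun i : {v | v ∈ Set.univ ∧ c v = φ} => b i) hT (fun i => hab i) hG' hbad
      (fun i t ht => htriv i t ht) (hodd.ind _) (clique_ind hk _) x).mono
      (Set.Subset.refl _) (Nat.le_succ _)
  refine sysL hStep hl hwt hKill (a := fun i : {v | v ∈ Set.univ ∧ c v = φ} => a i)
    (b := fun i : {v | v ∈ Set.univ ∧ c v = φ} => b i) (fun i => hab i) hG' (hodd.ind _)
    (Nat.succ_pos _) hn (clique_ind hk _) (LamL d wt)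
    ((Finset.univ : Finset (Fin d → Bool × Bool)).toList.map
      (full (G.induce {v | v ∈ Set.univ ∧ c v = φ})
        (fun i : {v | v ∈ Set.univ ∧ c v = φ} => a i)
        (fun i : {v | v ∈ Set.univ ∧ c v = φ} => b i))) ?_ ?_ Set.univ ?_
  · intro C hC
    obtain ⟨τ, -, rfl⟩ := List.mem_map.1 hC
    exact full_ok _ _ _ τ
  · unfold pt LamL
    rw [List.map_map]
    have h1 := List.sum_le_card_nsmul
      ((Finset.univ : Finset (Fin d → Bool × Bool)).toList.map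
        ((fun C : Cls {v | v ∈ Set.univ ∧ c v = φ} d => wt C.O.card) ∘
          full (G.induce {v | v ∈ Set.univ ∧ c v = φ})
        (fun i : {v | v ∈ Set.univ ∧ c v = φ} => a i)
        (fun i : {v | v ∈ Set.univ ∧ c v = φ} => b i))) (wt (d * 2)) (by
        intro x hx
        obtain ⟨τ, -, rfl⟩ := List.mem_map.1 hx
        show wt (Finset.univ : Finset (Fin d × Bool)).card ≤ _
        rw [Finset.card_univ, Fintype.card_prod, Fintype.card_fin, Fintype.card_bool])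
    rw [List.length_map, Finset.length_toList, Finset.card_univ, Fintype.card_fun,
      Fintype.card_prod, Fintype.card_bool, Fintype.card_fin, smul_eq_mul] at h1
    exact h1
  · intro u _ v _ huv
    obtain ⟨τ, hτ⟩ := exists_type (hbad u v huv)
    exact ⟨full _ _ _ τ, List.mem_map.2 ⟨τ, Finset.mem_toList.2 (Finset.mem_univ _), rfl⟩,
      Or.inl ⟨huv, hτ⟩⟩

/-! ### polynomial bounds -/

theorem poly_XB {Y : ℕ → ℕ} (hY : BoxSS.Poly Y) : ∀ r, BoxSS.Poly (fun k => XB (Y k) r)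
  | 0 => by
    show BoxSS.Poly (fun _ => 1)
    exact BoxSS.Poly.const 1
  | r + 1 => by
    have ih := poly_XB hY r
    show BoxSS.Poly (fun k => XB (Y k) r + XB (Y k) r ^ r * Y k)
    exact ih.add ((ih.pow r).mul hY)

theorem poly_T2B (ℓ : ℕ) {Y : ℕ → ℕ} (hY : BoxSS.Poly Y) : BoxSS.Poly (fun k => T2B ℓ k (Y k)) := by
  show BoxSS.Poly (fun k => 3 * (k * (XB (Y k) ℓ * XB (Y k) ℓ) * Y k))
  exact (BoxSS.Poly.const 3).mul ((BoxSS.Poly.id.mul ((poly_XB hY ℓ).mul (poly_XB hY ℓ))).mul hY)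

theorem poly_F1B (ℓ : ℕ) {Y Θ : ℕ → ℕ} (hY : BoxSS.Poly Y) (hΘ : BoxSS.Poly Θ) :
    BoxSS.Poly (fun k => F1B ℓ k (Y k) (Θ k)) := by
  show BoxSS.Poly (fun k => XB (Y k) (2 * ℓ) + Θ k ^ (2 * ℓ) * T2B ℓ k (Y k))
  exact (poly_XB hY _).add ((hΘ.pow _).mul (poly_T2B ℓ hY))

theorem poly_loF (ℓ : ℕ) {n Y : ℕ → ℕ} (hn : BoxSS.Poly n) (hY : BoxSS.Poly Y) :
    BoxSS.Poly (fun k => loF ℓ (n k) k (Y k)) := by
  have h0 : BoxSS.Poly (fun k => T0B ℓ (n k) (Y k)) := by
    show BoxSS.Poly (fun k => XB (Y k) ℓ + 2 * n k)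
    exact (poly_XB hY _).add ((BoxSS.Poly.const 2).mul hn)
  show BoxSS.Poly (fun k => 2 * F1B ℓ k (Y k) (T0B ℓ (n k) (Y k) + F1B ℓ k (Y k) (T0B ℓ (n k) (Y k))))
  exact (BoxSS.Poly.const 2).mul (poly_F1B ℓ hY (h0.add (poly_F1B ℓ hY h0)))

theorem poly_XL (ℓ : ℕ) {KK : ℕ → ℕ → ℕ} (hKK : ∀ n : ℕ → ℕ, BoxSS.Poly n → BoxSS.Poly (fun k => KK (n k) k))
    {n : ℕ → ℕ} (hn : BoxSS.Poly n) : ∀ m, BoxSS.Poly (fun k => XL ℓ KK k (n k) m)
  | 0 => by
    show BoxSS.Poly (fun _ => 1)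
    exact BoxSS.Poly.const 1
  | m + 1 => by
    have ih := poly_XL ℓ hKK hn m
    show BoxSS.Poly (fun k => loF ℓ (n k) k (((m + 1) * 2) * (KK (n k) k * XL ℓ KK k (n k) m)) + 1)
    exact (poly_loF ℓ hn ((BoxSS.Poly.const _).mul ((hKK n hn).mul ih))).add (BoxSS.Poly.const 1)

theorem exists_bndL (hStep : StepStmt) {d ℓ : ℕ} (hl : 5 ≤ ℓ) {wt : ℕ → ℕ} (hwt : ∀ m, 0 < wt m)
    {KK : ℕ → ℕ → ℕ} (hKill : KillHyp d ℓ wt KK)
    (hKK : ∀ n : ℕ → ℕ, BoxSS.Poly n → BoxSS.Poly (fun k => KK (n k) k)) :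
    ∀ s, ∃ f, BoxSS.Poly f ∧ BndL d ℓ s f := by
  have hP0 : BoxSS.Poly (P0 d) := by
    unfold P0
    exact (((BoxSS.Poly.const 2).mul ((BoxSS.Poly.const _).mul BoxSS.Poly.id)).add (BoxSS.Poly.const 1)).mul
      ((BoxSS.Poly.id.add (BoxSS.Poly.const 1)).pow _)
  intro s
  induction s with
  | zero => exact ⟨P0 d, hP0, bndL_zero d ℓ⟩
  | succ s ih =>
    obtain ⟨f, hf1, hf2⟩ := ih
    refine ⟨_, ?_, bndL_succ hStep hl hwt hKill hf2⟩
    exact hP0.mul (poly_XL ℓ hKK (((BoxSS.Poly.const _).mul hf1).add (BoxSS.Poly.const 1)) _)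

/-- THE THEOREM, relative to the step and the killing of nice pairs. -/
theorem long_boxes (hStep : StepStmt) {d ℓ : ℕ} (hl : 5 ≤ ℓ) {wt : ℕ → ℕ} (hwt : ∀ m, 0 < wt m)
    {KK : ℕ → ℕ → ℕ} (hKill : KillHyp d ℓ wt KK)
    (hKK : ∀ n : ℕ → ℕ, BoxSS.Poly n → BoxSS.Poly (fun k => KK (n k) k)) :
    ∃ c e : ℕ, ∀ (n : ℕ) (G : SimpleGraph (Fin n)) (a b : Fin n → Fin d → ℝ),
      (∀ i, a i ≤ b i) → (∀ i j, G.Adj i j ↔ i ≠ j ∧ Hit a b i j) → NoLOH G ℓ →
        G.chromaticNumber ≤ ((c * (G.cliqueNum + 1) ^ e : ℕ) : ℕ∞) := by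
  obtain ⟨f, ⟨c, e, hce⟩, hf⟩ := exists_bndL hStep hl hwt hKill hKK d
  refine ⟨c, e, fun n G a b hab hG hodd => ?_⟩
  obtain ⟨col, h1, h2⟩ := hf (Fin n) G a b Finset.univ (by simp) hab hG
    (fun i t ht => absurd (Finset.mem_univ t) ht) hodd G.cliqueNum
    (fun s hs => hs.card_le_cliqueNum)
  have hcol : G.Colorable (f G.cliqueNum) := by
    refine ⟨SimpleGraph.Coloring.mk (fun v => ⟨col v, h1 v (Set.mem_univ _)⟩) ?_⟩
    intro u v huv heq
    exact h2 u (Set.mem_univ _) v (Set.mem_univ _) huv (congrArg Fin.val heq)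
  refine le_trans hcol.chromaticNumber_le ?_
  rw [Nat.cast_le]
  exact hce _

end LO
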