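import Pool.Agent.W_ccb602.SSPath

/-!
# MP_ccb602_co: pruned levellings of graphs without odd holes

`Lev G L k`: a levelling `L 0, ..., L k` in which every vertex of a level `i < k` has a private child.
`J G L i u v`: there is an odd induced path from `u` to `v` with interior in the levels below `i`.  In a graph
without odd holes all induced paths between two non-adjacent vertices of the level `i` through the lower levels and
through the upper levels have the same parity (`Lev.par_low`, `Lev.par_up`), and for `i + 1 < k` also all induced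
paths through the levels `≤ i` (`Lev.star`).
-/

set_option autoImplicit false

namespace SS80

variable {V : Type*}

structure Lev (G : SimpleGraph V) (L : ℕ → Set V) (k : ℕ) : Prop where
  far : ∀ i j, i + 2 ≤ j → ∀ u ∈ L i, ∀ v ∈ L j, ¬ G.Adj u v
  disj : ∀ i j, i ≠ j → ∀ u ∈ L i, u ∉ L j
  par : ∀ i, i < k → ∀ v ∈ L (i + 1), ∃ u ∈ L i, G.Adj u v
  root : ∀ u ∈ L 0, ∀ v ∈ L 0, u = v
  priv : ∀ i, i < k → ∀ u ∈ L i, ∃ v ∈ L (i + 1), G.Adj u v ∧ ∀ u' ∈ L i, G.Adj u' v → u' = u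
  conn : ∀ u ∈ L k, ∀ v ∈ L k, Cn G (L k) u v

/-- vertices of level at most `i` -/
def Le (L : ℕ → Set V) (i : ℕ) : Set V := {x | ∃ j, j ≤ i ∧ x ∈ L j}

/-- vertices of level less than `i` -/
def Lt (L : ℕ → Set V) (i : ℕ) : Set V := {x | ∃ j, j < i ∧ x ∈ L j}

/-- vertices of level at least `i` -/
def Ge (L : ℕ → Set V) (i : ℕ) : Set V := {x | ∃ j, i ≤ j ∧ x ∈ L j}

/-- an odd induced path through the lower levels -/
def J (G : SimpleGraph V) (L : ℕ → Set V) (i : ℕ) (u v : V) : Prop :=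
  ∃ n, Odd n ∧ IPin G (Lt L i) u v n

/-- adjacent or joined by an odd induced path through the lower levels -/
def Js (G : SimpleGraph V) (L : ℕ → Set V) (i : ℕ) (u v : V) : Prop :=
  G.Adj u v ∨ J G L i u v

theorem J.symm {G : SimpleGraph V} {L : ℕ → Set V} {i : ℕ} {u v : V} (h : J G L i u v) :
    J G L i v u := by
  obtain ⟨n, h1, h2⟩ := h
  exact ⟨n, h1, h2.symm⟩

theorem Js.symm {G : SimpleGraph V} {L : ℕ → Set V} {i : ℕ} {u v : V} (h : Js G L i u v) :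
    Js G L i v u := by
  rcases h with h | h
  · exact Or.inl h.symm
  · exact Or.inr h.symm

theorem le_mono {L : ℕ → Set V} {i j : ℕ} (h : i ≤ j) : Le L i ⊆ Le L j := by
  rintro x ⟨l, h1, h2⟩
  exact ⟨l, h1.trans h, h2⟩

theorem lt_le {L : ℕ → Set V} {i : ℕ} : Lt L i ⊆ Le L i := by
  rintro x ⟨l, h1, h2⟩
  exact ⟨l, h1.le, h2⟩

theorem le_lt {L : ℕ → Set V} {i : ℕ} : Le L i ⊆ Lt L (i + 1) := by
  rintro x ⟨l, h1, h2⟩
  exact ⟨l, by omega, h2⟩

theorem ge_mono {L : ℕ → Set V} {i j : ℕ} (h : i ≤ j) : Ge L j ⊆ Ge L i := by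
  rintro x ⟨l, h1, h2⟩
  exact ⟨l, h.trans h1, h2⟩

theorem mem_le {L : ℕ → Set V} {i : ℕ} {x : V} (h : x ∈ L i) : x ∈ Le L i := ⟨i, le_rfl, h⟩

theorem mem_ge {L : ℕ → Set V} {i : ℕ} {x : V} (h : x ∈ L i) : x ∈ Ge L i := ⟨i, le_rfl, h⟩

namespace Lev

variable {G : SimpleGraph V} {L : ℕ → Set V} {k : ℕ}

theorem anti (hL : Lev G L k) {i j : ℕ} (hij : i + 2 ≤ j) {x y : V} (hx : x ∈ Le L i)
    (hy : y ∈ Ge L j) : x ≠ y ∧ ¬ G.Adj x y := by
  obtain ⟨a, ha, hx⟩ := hx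
  obtain ⟨b, hb, hy⟩ := hy
  refine ⟨?_, hL.far a b (by omega) x hx y hy⟩
  rintro rfl
  exact hL.disj a b (by omega) x hx hy

theorem ne_of_lt (hL : Lev G L k) {i j : ℕ} (hij : i + 1 ≤ j) {x y : V} (hx : x ∈ Le L i)
    (hy : y ∈ Ge L j) : x ≠ y := by
  obtain ⟨a, ha, hx⟩ := hx
  obtain ⟨b, hb, hy⟩ := hy
  rintro rfl
  exact hL.disj a b (by omega) x hx hy

theorem low_conn (hL : Lev G L k) : ∀ i, i ≤ k → ∀ x ∈ L i, ∀ y ∈ L i, Cn G (Le L i) x y := by
  intro i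
  induction i with
  | zero =>
    intro _ x hx y hy
    rw [hL.root x hx y hy]
    exact Relation.ReflTransGen.refl
  | succ i ih =>
    intro hi x hx y hy
    obtain ⟨x', hx', h1⟩ := hL.par i (by omega) x hx
    obtain ⟨y', hy', h2⟩ := hL.par i (by omega) y hy
    have h3 := ih (by omega) x' hx' y' hy'
    have h4 : Cn G (Le L (i + 1)) x' y' := h3.mono (le_mono (Nat.le_succ i))
    have hx'' : x' ∈ Le L (i + 1) := ⟨i, by omega, hx'⟩
    have hy'' : y' ∈ Le L (i + 1) := ⟨i, by omega, hy'⟩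
    exact ((Cn.single h1.symm (mem_le hx) hx'').trans h4).trans
      (Cn.single h2 hy'' (mem_le hy))

theorem up_conn (hL : Lev G L k) : ∀ m i, i + m = k → ∀ x ∈ L i, ∀ y ∈ L i,
    Cn G (Ge L i) x y := by
  intro m
  induction m with
  | zero =>
    intro i hi x hx y hy
    have : i = k := by omega
    subst this
    exact (hL.conn x hx y hy).mono (fun z hz => mem_ge hz)
  | succ m ih =>
    intro i hi x hx y hy
    obtain ⟨x', hx', h1, _⟩ := hL.priv i (by omega) x hx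
    obtain ⟨y', hy', h2, _⟩ := hL.priv i (by omega) y hy
    have h3 := ih (i + 1) (by omega) x' hx' y' hy'
    have h4 : Cn G (Ge L i) x' y' := h3.mono (ge_mono (Nat.le_succ i))
    have hx'' : x' ∈ Ge L i := ⟨i + 1, by omega, hx'⟩
    have hy'' : y' ∈ Ge L i := ⟨i + 1, by omega, hy'⟩
    exact ((Cn.single h1 (mem_ge hx) hx'').trans h4).trans
      (Cn.single h2.symm hy'' (mem_ge hy))

theorem lower_exists (hL : Lev G L k) {i : ℕ} (hi : 1 ≤ i) (hik : i ≤ k) {u v : V}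
    (hu : u ∈ L i) (hv : v ∈ L i) : ∃ n, IPin G (Lt L i) u v n := by
  obtain ⟨i, rfl⟩ : ∃ i', i = i' + 1 := ⟨i - 1, by omega⟩
  obtain ⟨x, hx, h1⟩ := hL.par i (by omega) u hu
  obtain ⟨y, hy, h2⟩ := hL.par i (by omega) v hv
  have h3 : Cn G (Lt L (i + 1)) x y := (hL.low_conn i (by omega) x hx y hy).mono le_lt
  exact h3.ipin ⟨i, by omega, hx⟩ h1.symm h2

theorem upper_exists (hL : Lev G L k) {i : ℕ} (hik : i < k) {u v : V}
    (hu : u ∈ L i) (hv : v ∈ L i) : ∃ n, IPin G (Ge L (i + 1)) u v n := by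
  obtain ⟨x, hx, h1, _⟩ := hL.priv i hik u hu
  obtain ⟨y, hy, h2, _⟩ := hL.priv i hik v hv
  have h3 := hL.up_conn (k - (i + 1)) (i + 1) (by omega) x hx y hy
  exact h3.ipin (mem_ge hx) h1 h2.symm

theorem low_up_even (hL : Lev G L k) (hG : NoOddHole G) {i : ℕ} {u v : V} (hne : u ≠ v)
    (hna : ¬ G.Adj u v) {n m : ℕ}
    (hn : IPin G (Lt L i) u v n) (hm : IPin G (Ge L (i + 1)) u v m) : Even (n + m) := by
  refine hn.even hG hm (hn.two_le hne hna) (hm.two_le hne hna) ?_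
  rintro x ⟨a, ha, hx⟩ y hy
  exact hL.anti (i := a) (j := i + 1) (by omega) (mem_le hx) hy

theorem par_low (hL : Lev G L k) (hG : NoOddHole G) {i : ℕ} (hik : i < k) {u v : V}
    (hu : u ∈ L i) (hv : v ∈ L i) (hne : u ≠ v) (hna : ¬ G.Adj u v) {n : ℕ}
    (hn : IPin G (Lt L i) u v n) : J G L i u v ↔ Odd n := by
  constructor
  · rintro ⟨n', h1, h2⟩
    obtain ⟨m, hm⟩ := hL.upper_exists hik hu hv
    have h3 := hL.low_up_even hG hne hna hn hm
    have h4 := hL.low_up_even hG hne hna h2 hm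
    rw [Nat.odd_iff] at h1 ⊢
    rw [Nat.even_iff] at h3 h4
    omega
  · intro h
    exact ⟨n, h, hn⟩

theorem par_up (hL : Lev G L k) (hG : NoOddHole G) {i : ℕ} (hi : 1 ≤ i) (hik : i < k) {u v : V}
    (hu : u ∈ L i) (hv : v ∈ L i) (hne : u ≠ v) (hna : ¬ G.Adj u v) {m : ℕ}
    (hm : IPin G (Ge L (i + 1)) u v m) : J G L i u v ↔ Odd m := by
  obtain ⟨n, hn⟩ := hL.lower_exists hi hik.le hu hv
  rw [hL.par_low hG hik hu hv hne hna hn]
  have h3 := hL.low_up_even hG hne hna hn hm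
  rw [Nat.odd_iff, Nat.odd_iff]
  rw [Nat.even_iff] at h3
  omega

/-- an upper path which sees nothing of the levels `≤ i` except its ends -/
theorem special (hL : Lev G L k) {i : ℕ} (hik : i + 1 < k) {u v : V}
    (hu : u ∈ L i) (hv : v ∈ L i) (hne : u ≠ v) (hna : ¬ G.Adj u v) :
    ∃ (m : ℕ) (T : Set V), IPin G T u v m ∧ T ⊆ Ge L (i + 1) ∧
      ∀ x ∈ Le L i \ {u, v}, ∀ y ∈ T, x ≠ y ∧ ¬ G.Adj x y := by
  obtain ⟨u₁, hu₁, h1, h1'⟩ := hL.priv i (by omega) u hu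
  obtain ⟨v₁, hv₁, h2, h2'⟩ := hL.priv i (by omega) v hv
  obtain ⟨x, hx, h3, _⟩ := hL.priv (i + 1) hik u₁ hu₁
  obtain ⟨y, hy, h4, _⟩ := hL.priv (i + 1) hik v₁ hv₁
  have h5 := hL.up_conn (k - (i + 2)) (i + 2) (by omega) x hx y hy
  obtain ⟨m, hm⟩ := h5.ipin (mem_ge hx) h3 h4.symm
  have huv₁ : ¬ G.Adj u v₁ := fun h => hne (h2' u hu h)
  have hvu₁ : ¬ G.Adj v u₁ := fun h => hne (h1' v hv h).symm
  have hne₁ : u₁ ≠ v₁ := by
    rintro rfl
    exact huv₁ h1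
  have hlu : ∀ z ∈ Le L i, z ≠ u₁ := fun z hz => hL.ne_of_lt (le_refl (i + 1)) hz (mem_ge hu₁)
  have hlv : ∀ z ∈ Le L i, z ≠ v₁ := fun z hz => hL.ne_of_lt (le_refl (i + 1)) hz (mem_ge hv₁)
  have hlg : ∀ z ∈ Le L i, ∀ w ∈ Ge L (i + 2), z ≠ w ∧ ¬ G.Adj z w :=
    fun z hz w hw => hL.anti (le_refl (i + 2)) hz hw
  have hm1 : IPin G (insert u₁ (Ge L (i + 2))) u₁ v₁ m := hm.mono (Set.subset_insert _ _)
  have hm2 : IPin G (insert u₁ (Ge L (i + 2))) u v₁ (m + 1) := by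
    refine hm1.cons h1 (hlv u (mem_le hu)) (Set.mem_insert _ _) ?_ (fun _ => huv₁)
    rintro z (rfl | hz) hz'
    · exact absurd rfl hz'
    · obtain ⟨h6, h7⟩ := hlg u (mem_le hu) z hz
      exact ⟨h6.symm, h7⟩
  have hm3 : IPin G (insert v₁ (insert u₁ (Ge L (i + 2)))) v₁ u (m + 1) :=
    hm2.symm.mono (Set.subset_insert _ _)
  have hm4 : IPin G (insert v₁ (insert u₁ (Ge L (i + 2)))) v u (m + 1 + 1) := by
    refine hm3.cons h2 hne.symm (Set.mem_insert _ _) ?_ (fun _ h => hna h.symm)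
    rintro z (rfl | rfl | hz) hz'
    · exact absurd rfl hz'
    · exact ⟨(hlu v (mem_le hv)).symm, hvu₁⟩
    · obtain ⟨h6, h7⟩ := hlg v (mem_le hv) z hz
      exact ⟨h6.symm, h7⟩
  refine ⟨m + 1 + 1, insert v₁ (insert u₁ (Ge L (i + 2))), hm4.symm, ?_, ?_⟩
  · rintro z (rfl | rfl | hz)
    · exact mem_ge hv₁
    · exact mem_ge hu₁
    · exact ge_mono (by omega) hz
  · rintro z ⟨hz, hz'⟩ w (rfl | rfl | hw)
    · refine ⟨hlv z hz, ?_⟩
      obtain ⟨j, hj, hzj⟩ := hz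
      rcases Nat.eq_or_lt_of_le hj with h | h
      · subst h
        intro hadj
        exact hz' (Or.inr (h2' z hzj hadj))
      · exact hL.far j (i + 1) (by omega) z hzj w hv₁
    · refine ⟨hlu z hz, ?_⟩
      obtain ⟨j, hj, hzj⟩ := hz
      rcases Nat.eq_or_lt_of_le hj with h | h
      · subst h
        intro hadj
        exact hz' (Or.inl (h1' z hzj hadj))
      · exact hL.far j (i + 1) (by omega) z hzj w hu₁
    · exact hlg z hz w hw

/-- (*) every induced path through the levels `≤ i` has parity `J` -/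
theorem star (hL : Lev G L k) (hG : NoOddHole G) {i : ℕ} (hi : 1 ≤ i) (hik : i + 1 < k) {u v : V}
    (hu : u ∈ L i) (hv : v ∈ L i) (hne : u ≠ v) (hna : ¬ G.Adj u v) {n : ℕ}
    (hn : IPin G (Le L i) u v n) : J G L i u v ↔ Odd n := by
  obtain ⟨m, T, h1, h2, h3⟩ := hL.special hik hu hv hne hna
  rw [hL.par_up hG hi (by omega) hu hv hne hna (h1.mono h2)]
  have h4 : Even (n + m) :=
    hn.diff.even hG h1 (hn.two_le hne hna) (h1.two_le hne hna) h3
  rw [Nat.odd_iff, Nat.odd_iff]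
  rw [Nat.even_iff] at h4
  omega

end Lev

/-- an induced path with three edges and given interior -/
theorem ipin_two {G : SimpleGraph V} {S : Set V} {u p v : V} (hup : G.Adj u p) (hpv : G.Adj p v)
    (hne : u ≠ v) (hna : ¬ G.Adj u v) (hp : p ∈ S) : IPin G S u v 2 := by
  have h1 : IPin G {p} p v 1 := ipin_one hpv
  have h2 : IPin G {p} u v 2 := by
    refine h1.cons hup hne rfl ?_ (fun _ => hna)
    intro x hx hx'
    exact absurd hx hx'
  refine h2.mono ?_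
  rintro x rfl
  exact hp

theorem ipin_three {G : SimpleGraph V} {S : Set V} {u p q v : V} (hup : G.Adj u p)
    (hpq : G.Adj p q) (hqv : G.Adj q v) (huq : ¬ G.Adj u q) (hpv : ¬ G.Adj p v) (hna : ¬ G.Adj u v)
    (hne : u ≠ v) (huq' : u ≠ q) (hpv' : p ≠ v) (hp : p ∈ S) (hq : q ∈ S) : IPin G S u v 3 := by
  have h1 : IPin G {p, q} p v 2 := ipin_two hpq hqv hpv' hpv (by simp)
  have h2 : IPin G {p, q} u v 3 := by
    refine h1.cons hup hne (by simp) ?_ (fun _ => hna)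
    rintro x (rfl | rfl) hx'
    · exact absurd rfl hx'
    · exact ⟨huq'.symm, huq⟩
  refine h2.mono ?_
  rintro x (rfl | rfl)
  · exact hp
  · exact hq

theorem ipin_four {G : SimpleGraph V} {S : Set V} {u p q r v : V} (hup : G.Adj u p)
    (hpq : G.Adj p q) (hqr : G.Adj q r) (hrv : G.Adj r v)
    (huq : ¬ G.Adj u q) (hur : ¬ G.Adj u r) (huv : ¬ G.Adj u v) (hpr : ¬ G.Adj p r)
    (hpv : ¬ G.Adj p v) (hqv : ¬ G.Adj q v)
    (huq' : u ≠ q) (hur' : u ≠ r) (huv' : u ≠ v) (hpr' : p ≠ r) (hpv' : p ≠ v) (hqv' : q ≠ v)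
    (hp : p ∈ S) (hq : q ∈ S) (hr : r ∈ S) : IPin G S u v 4 := by
  have h1 : IPin G {p, q, r} p v 3 :=
    ipin_three hpq hqr hrv hpr hqv hpv hpv' hpr' hqv' (by simp) (by simp)
  have h2 : IPin G {p, q, r} u v 4 := by
    refine h1.cons hup huv' (by simp) ?_ (fun _ => huv)
    rintro x (rfl | rfl | rfl) hx'
    · exact absurd rfl hx'
    · exact ⟨huq'.symm, huq⟩
    · exact ⟨hur'.symm, hur⟩
  refine h2.mono ?_
  rintro x (rfl | rfl | rfl)
  · exact hp
  · exact hq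
  · exact hr

namespace Lev

variable {G : SimpleGraph V} {L : ℕ → Set V} {k : ℕ}

/-- vertices of consecutive levels are distinct -/
theorem ne_succ (hL : Lev G L k) {i : ℕ} {x y : V} (hx : x ∈ L i) (hy : y ∈ L (i + 1)) :
    x ≠ y := by
  rintro rfl
  exact hL.disj i (i + 1) (by omega) x hx hy

/-- (R1) non-adjacent vertices with a common parent -/
theorem r1 (hL : Lev G L k) (hG : NoOddHole G) {i : ℕ} (hik : i + 1 < k) {u v p : V}
    (hu : u ∈ L (i + 1)) (hv : v ∈ L (i + 1)) (hne : u ≠ v) (hna : ¬ G.Adj u v)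
    (hp : p ∈ L i) (hpu : G.Adj p u) (hpv : G.Adj p v) : ¬ J G L (i + 1) u v := by
  have h : IPin G (Lt L (i + 1)) u v 2 :=
    ipin_two hpu.symm hpv hne hna ⟨i, by omega, hp⟩
  rw [hL.par_low hG hik hu hv hne hna h]
  decide

/-- (R3) non-adjacent vertices with a common child -/
theorem r3 (hL : Lev G L k) (hG : NoOddHole G) {i : ℕ} (hi : 1 ≤ i) (hik : i < k) {u v c : V}
    (hu : u ∈ L i) (hv : v ∈ L i) (hne : u ≠ v) (hna : ¬ G.Adj u v)
    (hc : c ∈ L (i + 1)) (hcu : G.Adj u c) (hcv : G.Adj v c) : ¬ J G L i u v := by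
  have h : IPin G (Ge L (i + 1)) u v 2 :=
    ipin_two hcu hcv.symm hne hna (mem_ge hc)
  rw [hL.par_up hG hi hik hu hv hne hna h]
  decide

/-- prolongation of a lower path by one level at both ends, with exact interior -/
theorem lower_up' (hL : Lev G L k) {i : ℕ} {t t' p p' : V}
    (ht : t ∈ L (i + 1)) (ht' : t' ∈ L (i + 1)) (hp : p ∈ L i) (hp' : p' ∈ L i)
    (h1 : G.Adj p t) (h2 : ¬ G.Adj p t') (h3 : G.Adj p' t') (h4 : ¬ G.Adj p' t)
    (hna : ¬ G.Adj t t') {n : ℕ} (hn : IPin G (Lt L i) p p' n) :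
    IPin G (insert p' (insert p (Lt L i))) t t' (n + 2) := by
  have hne : t ≠ t' := by rintro rfl; exact h2 h1
  have hpp : p ≠ p' := by rintro rfl; exact h4 h1
  have hanti : ∀ z ∈ Lt L i, ∀ w ∈ L (i + 1), z ≠ w ∧ ¬ G.Adj z w := by
    rintro z ⟨j, hj, hz⟩ w hw
    exact hL.anti (i := j) (j := i + 1) (by omega) (mem_le hz) (mem_ge hw)
  have e1 : IPin G (insert p (Lt L i)) p p' n := hn.mono (Set.subset_insert _ _)
  have e2 : IPin G (insert p (Lt L i)) t p' (n + 1) := by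
    refine e1.cons h1.symm (hL.ne_succ hp' ht).symm (Set.mem_insert _ _) ?_
      (fun _ h => h4 h.symm)
    rintro x (rfl | hx) hx'
    · exact absurd rfl hx'
    · obtain ⟨h6, h7⟩ := hanti x hx t ht
      exact ⟨h6, fun h => h7 h.symm⟩
  have e3 : IPin G (insert p' (insert p (Lt L i))) p' t (n + 1) :=
    e2.symm.mono (Set.subset_insert _ _)
  have e4 : IPin G (insert p' (insert p (Lt L i))) t' t (n + 1 + 1) := by
    refine e3.cons h3.symm hne.symm (Set.mem_insert _ _) ?_ (fun _ h => hna h.symm)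
    rintro x (rfl | rfl | hx) hx'
    · exact absurd rfl hx'
    · exact ⟨hL.ne_succ hp ht', fun h => h2 h.symm⟩
    · obtain ⟨h6, h7⟩ := hanti x hx t' ht'
      exact ⟨h6, fun h => h7 h.symm⟩
  exact e4.symm

/-- prolongation of a lower path by one level at both ends -/
theorem lower_up (hL : Lev G L k) {i : ℕ} {t t' p p' : V}
    (ht : t ∈ L (i + 1)) (ht' : t' ∈ L (i + 1)) (hp : p ∈ L i) (hp' : p' ∈ L i)
    (h1 : G.Adj p t) (h2 : ¬ G.Adj p t') (h3 : G.Adj p' t') (h4 : ¬ G.Adj p' t)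
    (hna : ¬ G.Adj t t') {n : ℕ} (hn : IPin G (Lt L i) p p' n) :
    IPin G (Lt L (i + 1)) t t' (n + 2) := by
  refine (hL.lower_up' ht ht' hp hp' h1 h2 h3 h4 hna hn).mono ?_
  rintro x (rfl | rfl | hx)
  · exact ⟨i, by omega, hp'⟩
  · exact ⟨i, by omega, hp⟩
  · obtain ⟨j, hj, hx⟩ := hx
    exact ⟨j, by omega, hx⟩

/-- (R2) incomparable parents -/
theorem r2 (hL : Lev G L k) (hG : NoOddHole G) {i : ℕ} (hik : i + 1 < k) {t t' p p' : V}
    (ht : t ∈ L (i + 1)) (ht' : t' ∈ L (i + 1)) (hp : p ∈ L i) (hp' : p' ∈ L i)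
    (h1 : G.Adj p t) (h2 : ¬ G.Adj p t') (h3 : G.Adj p' t') (h4 : ¬ G.Adj p' t) :
    Js G L i p p' ↔ Js G L (i + 1) t t' := by
  have hne : t ≠ t' := by rintro rfl; exact h2 h1
  have hpp : p ≠ p' := by rintro rfl; exact h4 h1
  have hi : 1 ≤ i := by
    rcases Nat.eq_zero_or_pos i with h | h
    · subst h
      exact absurd (hL.root p hp p' hp') hpp
    · exact h
  by_cases hpa : G.Adj p p'
  · refine ⟨fun _ => ?_, fun _ => Or.inl hpa⟩
    by_cases hta : G.Adj t t'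
    · exact Or.inl hta
    · right
      have h : IPin G (Lt L (i + 1)) t t' 3 :=
        ipin_three h1.symm hpa h3 (fun h => h4 h.symm) h2 hta hne (hL.ne_succ hp' ht).symm
          (hL.ne_succ hp ht') ⟨i, by omega, hp⟩ ⟨i, by omega, hp'⟩
      exact ⟨3, by decide, h⟩
  · by_cases hta : G.Adj t t'
    · refine ⟨fun _ => Or.inl hta, fun _ => Or.inr ?_⟩
      have h : IPin G (Ge L (i + 1)) p p' 3 :=
        ipin_three h1 hta h3.symm h2 (fun h => h4 h.symm) hpa hpp (hL.ne_succ hp ht')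
          (hL.ne_succ hp' ht).symm (mem_ge ht) (mem_ge ht')
      rw [hL.par_up hG hi (by omega) hp hp' hpp hpa h]
      decide
    · obtain ⟨n, hn⟩ := hL.lower_exists hi (by omega) hp hp'
      have h := hL.lower_up ht ht' hp hp' h1 h2 h3 h4 hta hn
      have e1 := hL.par_low hG (by omega) hp hp' hpp hpa hn
      have e2 := hL.par_low hG hik ht ht' hne hta h
      have e3 : Js G L i p p' ↔ J G L i p p' := ⟨fun h => h.resolve_left hpa, Or.inr⟩
      have e4 : Js G L (i + 1) t t' ↔ J G L (i + 1) t t' :=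
        ⟨fun h => h.resolve_left hta, Or.inr⟩
      rw [e3, e4, e1, e2, Nat.odd_iff, Nat.odd_iff]
      omega

/-- (R5) -/
theorem r5 (hL : Lev G L k) (hG : NoOddHole G) {i : ℕ} (hik : i + 2 < k) {t t' t'' p : V}
    (ht : t ∈ L (i + 1)) (ht' : t' ∈ L (i + 1)) (ht'' : t'' ∈ L (i + 1)) (hp : p ∈ L i)
    (h1 : G.Adj p t) (h2 : ¬ G.Adj p t') (h3 : G.Adj p t'') (htt : G.Adj t t')
    (h4 : ¬ G.Adj t t'') (h5 : ¬ G.Adj t' t'') (hne : t ≠ t'') : J G L (i + 1) t' t'' := by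
  have hne' : t' ≠ t'' := by rintro rfl; exact h2 h3
  have h : IPin G (Le L (i + 1)) t' t'' 3 :=
    ipin_three htt.symm h1.symm h3 (fun h => h2 h.symm) h4 h5 hne' (hL.ne_succ hp ht').symm
      hne (mem_le ht) ⟨i, by omega, hp⟩
  rw [hL.star hG (by omega) (by omega) ht' ht'' hne' h5 h]
  decide

/-- (P3) -/
theorem p3 (hL : Lev G L k) (hG : NoOddHole G) {i : ℕ} (hi : 1 ≤ i) (hik : i < k) {t t' p p' : V}
    (ht : t ∈ L (i + 1)) (ht' : t' ∈ L (i + 1)) (hp : p ∈ L i) (hp' : p' ∈ L i)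
    (h1 : G.Adj p t) (h2 : ¬ G.Adj p t') (h3 : G.Adj p' t') (h4 : ¬ G.Adj p' t)
    (hta : G.Adj t t') : Js G L i p p' := by
  by_cases hpa : G.Adj p p'
  · exact Or.inl hpa
  · have hpp : p ≠ p' := by rintro rfl; exact h4 h1
    right
    have h : IPin G (Ge L (i + 1)) p p' 3 :=
      ipin_three h1 hta h3.symm h2 (fun h => h4 h.symm) hpa hpp (hL.ne_succ hp ht')
        (hL.ne_succ hp' ht).symm (mem_ge ht) (mem_ge ht')
    rw [hL.par_up hG hi hik hp hp' hpp hpa h]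
    decide

/-- (P4) -/
theorem p4 (hL : Lev G L k) (hG : NoOddHole G) {i : ℕ} (hi : 1 ≤ i) (hik : i < k)
    {x y z a a' : V} (hx : x ∈ L (i + 1)) (hy : y ∈ L (i + 1)) (hz : z ∈ L (i + 1))
    (ha : a ∈ L i) (ha' : a' ∈ L i) (hxy : G.Adj x y) (hyz : G.Adj y z) (hxz : ¬ G.Adj x z)
    (h1 : G.Adj a x) (h2 : ¬ G.Adj a y) (h3 : ¬ G.Adj a z) (h4 : ¬ G.Adj a' x)
    (h5 : ¬ G.Adj a' y) (h6 : G.Adj a' z) (hna : ¬ G.Adj a a') : ¬ J G L i a a' := by
  have hpp : a ≠ a' := by rintro rfl; exact h4 h1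
  have hxz' : x ≠ z := by rintro rfl; exact h4 h6
  have h : IPin G (Ge L (i + 1)) a a' 4 :=
    ipin_four h1 hxy hyz h6.symm h2 h3 hna hxz (fun h => h4 h.symm) (fun h => h5 h.symm)
      (hL.ne_succ ha hy) (hL.ne_succ ha hz) hpp hxz' (hL.ne_succ ha' hx).symm
      (hL.ne_succ ha' hy).symm (mem_ge hx) (mem_ge hy) (mem_ge hz)
  rw [hL.par_up hG hi hik ha ha' hpp hna h]
  decide

end Lev

end SS80
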