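import Pool.Agent.W_ccb602.LOIface
import Pool.Agent.W_ccb602.SSLevel
import Pool.Agent.W_ccb602.SSFacts

/-!
# MP_ccb602_co: chains in a levelling, ladders, grading

Chains run through consecutive levels; two chains without contact prolong an induced path at both ends
(`ladder_up`, `ladder_down`); a path in stable levels is graded (`graded`).
-/

set_option autoImplicit false

namespace LO

open BoxSS
open SS80 (IP IPin Wk Cn Le Lt Ge)

variable {V : Type*}

/-- `f i, ..., f j` is a chain through the levels `i, ..., j` -/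
def Chain (G : SimpleGraph V) (L : ℕ → Set V) (i j : ℕ) (f : ℕ → V) : Prop :=
  (∀ t, i ≤ t → t ≤ j → f t ∈ L t) ∧ ∀ t, i ≤ t → t < j → G.Adj (f t) (f (t + 1))

/-- the chains `f` and `g` have no contact (inside one level only equality is forbidden) -/
def NC (G : SimpleGraph V) (i j : ℕ) (f g : ℕ → V) : Prop :=
  (∀ t, i ≤ t → t ≤ j → f t ≠ g t) ∧
    ∀ t, i ≤ t → t < j → ¬ G.Adj (f t) (g (t + 1)) ∧ ¬ G.Adj (g t) (f (t + 1))

/-- the vertices of two chains with numbers `i ≤ t < j` -/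
def Rg (f g : ℕ → V) (i j : ℕ) : Set V := {v | ∃ t, i ≤ t ∧ t < j ∧ (v = f t ∨ v = g t)}

/-- prolong an induced path at both ends -/
theorem ext2 {G : SimpleGraph V} {U : Set V} {u v u' v' : V} {n : ℕ} (hP : IPin G U u v n)
    (huv : u ≠ v) (h1 : G.Adj u' u) (h2 : G.Adj v' v) (h3 : ¬ G.Adj u' v) (h4 : ¬ G.Adj v' u)
    (h5 : ¬ G.Adj u' v') (h6 : u' ≠ v') (h7 : u' ≠ v) (h8 : v' ≠ u)
    (hU : ∀ x ∈ U, x ≠ u' ∧ x ≠ v' ∧ ¬ G.Adj u' x ∧ ¬ G.Adj v' x) :
    IPin G (insert v (insert u U)) u' v' (n + 2) := by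
  have e1 : IPin G (insert u U) u v n := hP.mono (Set.subset_insert _ _)
  have e2 : IPin G (insert u U) u' v (n + 1) := by
    refine e1.cons h1 h7 (Set.mem_insert _ _) ?_ (fun _ => h3)
    rintro x (rfl | hx) hx'
    · exact absurd rfl hx'
    · exact ⟨(hU x hx).1, (hU x hx).2.2.1⟩
  have e3 : IPin G (insert v (insert u U)) v u' (n + 1) := e2.symm.mono (Set.subset_insert _ _)
  have e4 : IPin G (insert v (insert u U)) v' u' (n + 1 + 1) := by
    refine e3.cons h2 h6.symm (Set.mem_insert _ _) ?_ (fun _ h => h5 h.symm)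
    rintro x (rfl | rfl | hx) hx'
    · exact absurd rfl hx'
    · exact ⟨h8.symm, h4⟩
    · exact ⟨(hU x hx).2.1, (hU x hx).2.2.2⟩
  exact e4.symm

section

variable {G : SimpleGraph V} {L : ℕ → Set V} {k : ℕ}

theorem far_ne (h : SS80.Lev G L k) {i j : ℕ} (hij : i ≠ j) {x y : V} (hx : x ∈ L i) (hy : y ∈ L j) :
    x ≠ y := by
  rintro rfl
  exact h.disj i j hij x hx hy

theorem far_na (h : SS80.Lev G L k) {i j : ℕ} (hij : i + 2 ≤ j) {x y : V} (hx : x ∈ L i)
    (hy : y ∈ L j) : x ≠ y ∧ ¬ G.Adj x y ∧ ¬ G.Adj y x := by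
  have h1 := h.far i j hij x hx y hy
  exact ⟨far_ne h (by omega) hx hy, h1, fun h2 => h1 h2.symm⟩

theorem ladder_up (h : SS80.Lev G L k) {i : ℕ} {f g : ℕ → V} {U : Set V} (hU : U ⊆ Lt L i) {n : ℕ} :
    ∀ d, Chain G L i (i + d) f → Chain G L i (i + d) g → NC G i (i + d) f g →
      (∀ t, i ≤ t → t ≤ i + d → ¬ G.Adj (f t) (g t)) → IPin G U (f i) (g i) n →
      IPin G (U ∪ Rg f g i (i + d)) (f (i + d)) (g (i + d)) (n + 2 * d) := by
  intro d
  induction d with
  | zero =>
    intro _ _ _ _ hP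
    exact hP.mono Set.subset_union_left
  | succ d ih =>
    intro hf hg hNC hst hP
    have e := ih ⟨fun t h1 h2 => hf.1 t h1 (by omega), fun t h1 h2 => hf.2 t h1 (by omega)⟩
      ⟨fun t h1 h2 => hg.1 t h1 (by omega), fun t h1 h2 => hg.2 t h1 (by omega)⟩
      ⟨fun t h1 h2 => hNC.1 t h1 (by omega), fun t h1 h2 => hNC.2 t h1 (by omega)⟩
      (fun t h1 h2 => hst t h1 (by omega)) hP
    have l1 := hf.1 (i + d) (by omega) (by omega)
    have l2 := hg.1 (i + d) (by omega) (by omega)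
    have l3 := hf.1 (i + (d + 1)) (by omega) (by omega)
    have l4 := hg.1 (i + (d + 1)) (by omega) (by omega)
    have a1 := hf.2 (i + d) (by omega) (by omega)
    have a2 := hg.2 (i + d) (by omega) (by omega)
    have n1 := hNC.2 (i + d) (by omega) (by omega)
    have e2 := ext2 e (hNC.1 (i + d) (by omega) (by omega)) a1.symm a2.symm
      (fun h => n1.2 h.symm) (fun h => n1.1 h.symm)
      (hst (i + (d + 1)) (by omega) (by omega)) (hNC.1 (i + (d + 1)) (by omega) (by omega))
      (far_ne h (by omega) l3 l2) (far_ne h (by omega) l4 l1) (by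
        intro x hx
        obtain ⟨t, ht, hxt⟩ : ∃ t, t < i + d ∧ x ∈ L t := by
          rcases hx with hx | ⟨t, h1, h2, rfl | rfl⟩
          · obtain ⟨t, h1, h2⟩ := hU hx
            exact ⟨t, by omega, h2⟩
          · exact ⟨t, h2, hf.1 t h1 (by omega)⟩
          · exact ⟨t, h2, hg.1 t h1 (by omega)⟩
        obtain ⟨p1, p2, p3⟩ := far_na h (show t + 2 ≤ i + (d + 1) by omega) hxt l3
        obtain ⟨q1, q2, q3⟩ := far_na h (show t + 2 ≤ i + (d + 1) by omega) hxt l4
        exact ⟨p1, q1, p3, q3⟩)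
    refine e2.mono ?_
    rintro x (rfl | rfl | hx | ⟨t, h1, h2, h3⟩)
    · exact Or.inr ⟨i + d, by omega, by omega, Or.inr rfl⟩
    · exact Or.inr ⟨i + d, by omega, by omega, Or.inl rfl⟩
    · exact Or.inl hx
    · exact Or.inr ⟨t, h1, by omega, h3⟩

theorem ladder_down (h : SS80.Lev G L k) {f g : ℕ → V} {U : Set V} {n j : ℕ} :
    ∀ d i, i + d = j → Chain G L i j f → Chain G L i j g → NC G i j f g →
      (∀ t, i ≤ t → t < j → ¬ G.Adj (f t) (g t)) →
      (∀ x ∈ U, ∀ t, i ≤ t → t < j → x ≠ f t ∧ x ≠ g t ∧ ¬ G.Adj (f t) x ∧ ¬ G.Adj (g t) x) →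
      IPin G U (f j) (g j) n →
      IPin G (U ∪ Rg f g (i + 1) (j + 1)) (f i) (g i) (n + 2 * d) := by
  intro d
  induction d with
  | zero =>
    intro i hi _ _ _ _ _ hP
    have : i = j := by omega
    subst this
    exact hP.mono Set.subset_union_left
  | succ d ih =>
    intro i hi hf hg hNC hst hU hP
    have e := ih (i + 1) (by omega)
      ⟨fun t h1 h2 => hf.1 t (by omega) h2, fun t h1 h2 => hf.2 t (by omega) h2⟩
      ⟨fun t h1 h2 => hg.1 t (by omega) h2, fun t h1 h2 => hg.2 t (by omega) h2⟩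
      ⟨fun t h1 h2 => hNC.1 t (by omega) h2, fun t h1 h2 => hNC.2 t (by omega) h2⟩
      (fun t h1 h2 => hst t (by omega) h2) (fun x hx t h1 h2 => hU x hx t (by omega) h2) hP
    have l1 := hf.1 i (by omega) (by omega)
    have l2 := hg.1 i (by omega) (by omega)
    have l3 := hf.1 (i + 1) (by omega) (by omega)
    have l4 := hg.1 (i + 1) (by omega) (by omega)
    have n1 := hNC.2 i (by omega) (by omega)
    have e2 := ext2 e (hNC.1 (i + 1) (by omega) (by omega)) (hf.2 i (by omega) (by omega))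
      (hg.2 i (by omega) (by omega)) n1.1 n1.2 (hst i (by omega) (by omega))
      (hNC.1 i (by omega) (by omega)) (far_ne h (by omega) l1 l4) (far_ne h (by omega) l2 l3) (by
        intro x hx
        rcases hx with hx | ⟨t, h1, h2, h3⟩
        · exact hU x hx i (by omega) (by omega)
        · have hxt : x ∈ L t := by
            rcases h3 with rfl | rfl
            · exact hf.1 t (by omega) (by omega)
            · exact hg.1 t (by omega) (by omega)
          obtain ⟨p1, p2, p3⟩ := far_na h (show i + 2 ≤ t by omega) l1 hxt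
          obtain ⟨q1, q2, q3⟩ := far_na h (show i + 2 ≤ t by omega) l2 hxt
          exact ⟨p1.symm, q1.symm, p2, q2⟩)
    have e3 : n + 2 * (d + 1) = n + 2 * d + 2 := by ring
    rw [e3]
    refine e2.mono ?_
    rintro x (rfl | rfl | hx | ⟨t, h1, h2, h3⟩)
    · exact Or.inr ⟨i + 1, by omega, by omega, Or.inr rfl⟩
    · exact Or.inr ⟨i + 1, by omega, by omega, Or.inl rfl⟩
    · exact Or.inl hx
    · exact Or.inr ⟨t, by omega, h2, h3⟩

/-- the level of a vertex -/
noncomputable def lv (L : ℕ → Set V) (v : V) : ℕ := by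
  classical
  exact if h : ∃ t, v ∈ L t then Nat.find h else 0

theorem lv_eq (h : SS80.Lev G L k) {t : ℕ} {v : V} (hv : v ∈ L t) : lv L v = t := by
  classical
  have hex : ∃ t, v ∈ L t := ⟨t, hv⟩
  have e : lv L v = Nat.find hex := by
    unfold lv
    rw [dif_pos hex]
  rw [e]
  by_contra hne
  exact h.disj (Nat.find hex) t hne v (Nat.find_spec hex) hv

/-- a path in a graded set -/
theorem graded {S T : Set V} (hS : S ⊆ T) {lev : V → ℕ}
    (hlev : ∀ x ∈ T, ∀ y ∈ T, G.Adj x y → (lev x + lev y) % 2 = 1) {u v : V} {n : ℕ} (hu : u ∈ T)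
    (hv : v ∈ T) (hP : IPin G S u v n) : (lev u + lev v + n) % 2 = 0 := by
  obtain ⟨P, hP, h0, h1, hPS⟩ := hP
  have hT : ∀ i, i ≤ n → P i ∈ T := by
    intro i hi
    rcases Nat.eq_zero_or_pos i with h2 | h2
    · subst h2; rw [h0]; exact hu
    · rcases Nat.eq_or_lt_of_le hi with h3 | h3
      · subst h3; rw [h1]; exact hv
      · exact hS (hPS i h2 h3)
  have key : ∀ i, i ≤ n → (lev u + lev (P i) + i) % 2 = 0 := by
    intro i
    induction i with
    | zero => intro _; rw [h0]; omega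
    | succ i ih =>
      intro hi
      have h2 := ih (by omega)
      have h3 := hlev (P i) (hT i (by omega)) (P (i + 1)) (hT (i + 1) hi)
        (((hP i (i + 1) (by omega) hi).2).2 rfl)
      omega
  have h2 := key n le_rfl
  rw [h1] at h2
  exact h2

/-- stable levels are graded -/
theorem graded_lev (h : SS80.Lev G L k) {T : Set V} (hT : ∀ x ∈ T, ∃ t, x ∈ L t)
    (hst : ∀ x ∈ T, ∀ y ∈ T, ∀ t, x ∈ L t → y ∈ L t → ¬ G.Adj x y) :
    ∀ x ∈ T, ∀ y ∈ T, G.Adj x y → (lv L x + lv L y) % 2 = 1 := by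
  intro x hx y hy hxy
  obtain ⟨t, ht⟩ := hT x hx
  obtain ⟨s, hs⟩ := hT y hy
  rw [lv_eq h ht, lv_eq h hs]
  rcases Nat.lt_trichotomy t s with h1 | h1 | h1
  · rcases Nat.lt_or_ge (t + 1) s with h2 | h2
    · exact absurd hxy (h.far t s (by omega) x ht y hs)
    · omega
  · subst h1
    exact absurd hxy (hst x hx y hy t ht hs)
  · rcases Nat.lt_or_ge (s + 1) t with h2 | h2
    · exact absurd hxy.symm (h.far s t (by omega) y hs x ht)
    · omega

theorem chain_cn {i j : ℕ} {f g : ℕ → V} (hf : Chain G L i j f) {s : ℕ} (hs : i ≤ s) :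
    ∀ d, s + d < j → Cn G (Rg f g i j) (f s) (f (s + d)) := by
  intro d
  induction d with
  | zero => intro _; exact Relation.ReflTransGen.refl
  | succ d ih =>
    intro hd
    refine (ih (by omega)).trans (Cn.single (hf.2 (s + d) (by omega) (by omega)) ?_ ?_)
    · exact ⟨s + d, by omega, by omega, Or.inl rfl⟩
    · exact ⟨s + d + 1, by omega, by omega, Or.inl rfl⟩

theorem rg_symm (f g : ℕ → V) (i j : ℕ) : Rg f g i j = Rg g f i j := by
  ext v
  constructor
  · rintro ⟨t, h1, h2, h3⟩; exact ⟨t, h1, h2, h3.symm⟩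
  · rintro ⟨t, h1, h2, h3⟩; exact ⟨t, h1, h2, h3.symm⟩

theorem chain_cn' {i j : ℕ} {f g : ℕ → V} (hg : Chain G L i j g) {s : ℕ} (hs : i ≤ s) (d : ℕ)
    (hd : s + d < j) : Cn G (Rg f g i j) (g s) (g (s + d)) := by
  rw [rg_symm]
  exact chain_cn hg hs d hd

/-- chains with a contact have an even connection below their ends -/
theorem contact_even (h : SS80.Lev G L k) {i j : ℕ} (hij : i < j) {f g : ℕ → V}
    (hf : Chain G L i j f) (hg : Chain G L i j g)
    (hst : ∀ t, i ≤ t → t ≤ j → ∀ x ∈ L t, ∀ y ∈ L t, ¬ G.Adj x y) (hne : f j ≠ g j)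
    (hNC : ¬ NC G i j f g) : ∃ n, Even n ∧ IPin G (Rg f g i j) (f j) (g j) n := by
  obtain ⟨j, rfl⟩ : ∃ j', j = j' + 1 := ⟨j - 1, by omega⟩
  have hsub : ∀ t, i ≤ t → t < j + 1 → f t ∈ Rg f g i (j + 1) ∧ g t ∈ Rg f g i (j + 1) :=
    fun t h1 h2 => ⟨⟨t, h1, h2, Or.inl rfl⟩, ⟨t, h1, h2, Or.inr rfl⟩⟩
  have hlast := hsub j (by omega) (by omega)
  have key : ∃ x y, x ∈ Rg f g i (j + 1) ∧ G.Adj (f (j + 1)) x ∧ G.Adj y (g (j + 1)) ∧
      Cn G (Rg f g i (j + 1)) x y := by
    by_cases hc1 : ∃ t, i ≤ t ∧ t ≤ j + 1 ∧ f t = g t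
    · obtain ⟨t, h1, h2, h3⟩ := hc1
      have h4 : t ≠ j + 1 := by rintro rfl; exact hne h3
      obtain ⟨d, hd⟩ : ∃ d, t + d = j := ⟨j - t, by omega⟩
      have c1 := chain_cn (g := g) hf h1 d (by omega)
      have c2 := chain_cn' (f := f) hg h1 d (by omega)
      rw [hd] at c1 c2
      refine ⟨f j, g j, hlast.1, (hf.2 j (by omega) (by omega)).symm, hg.2 j (by omega) (by omega),
        c1.symm.trans ?_⟩
      rw [h3]
      exact c2
    by_cases hc2 : ∃ t, i ≤ t ∧ t < j + 1 ∧ G.Adj (f t) (g (t + 1))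
    · obtain ⟨t, h1, h2, h3⟩ := hc2
      rcases Nat.eq_or_lt_of_le (show t ≤ j by omega) with h4 | h4
      · subst h4
        exact ⟨f t, f t, hlast.1, (hf.2 t (by omega) (by omega)).symm, h3,
          Relation.ReflTransGen.refl⟩
      · obtain ⟨d, hd⟩ : ∃ d, t + d = j := ⟨j - t, by omega⟩
        obtain ⟨d', hd'⟩ : ∃ d', t + 1 + d' = j := ⟨j - (t + 1), by omega⟩
        have c1 := chain_cn (g := g) hf h1 d (by omega)
        have c2 := chain_cn' (f := f) hg (show i ≤ t + 1 by omega) d' (by omega)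
        rw [hd] at c1
        rw [hd'] at c2
        refine ⟨f j, g j, hlast.1, (hf.2 j (by omega) (by omega)).symm,
          hg.2 j (by omega) (by omega), (c1.symm.trans (Cn.single h3 ?_ ?_)).trans c2⟩
        · exact (hsub t h1 (by omega)).1
        · exact (hsub (t + 1) (by omega) (by omega)).2
    by_cases hc3 : ∃ t, i ≤ t ∧ t < j + 1 ∧ G.Adj (g t) (f (t + 1))
    · obtain ⟨t, h1, h2, h3⟩ := hc3
      rcases Nat.eq_or_lt_of_le (show t ≤ j by omega) with h4 | h4
      · subst h4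
        exact ⟨g t, g t, hlast.2, h3.symm, hg.2 t (by omega) (by omega),
          Relation.ReflTransGen.refl⟩
      · obtain ⟨d, hd⟩ : ∃ d, t + d = j := ⟨j - t, by omega⟩
        obtain ⟨d', hd'⟩ : ∃ d', t + 1 + d' = j := ⟨j - (t + 1), by omega⟩
        have c1 := chain_cn (g := g) hf (show i ≤ t + 1 by omega) d' (by omega)
        have c2 := chain_cn' (f := f) hg h1 d (by omega)
        rw [hd'] at c1
        rw [hd] at c2
        refine ⟨f j, g j, hlast.1, (hf.2 j (by omega) (by omega)).symm,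
          hg.2 j (by omega) (by omega), (c1.symm.trans (Cn.single h3.symm ?_ ?_)).trans c2⟩
        · exact (hsub (t + 1) (by omega) (by omega)).1
        · exact (hsub t h1 (by omega)).2
    exfalso
    refine hNC ⟨fun t h1 h2 h3 => hc1 ⟨t, h1, h2, h3⟩, fun t h1 h2 => ⟨fun h3 => hc2 ⟨t, h1, h2, h3⟩,
      fun h3 => hc3 ⟨t, h1, h2, h3⟩⟩⟩
  obtain ⟨x, y, hx, h1, h2, h3⟩ := key
  obtain ⟨n, hn⟩ := h3.ipin hx h1 h2
  refine ⟨n, ?_, hn⟩
  have m1 : f (j + 1) ∈ ({v | ∃ t, i ≤ t ∧ t ≤ j + 1 ∧ v ∈ L t} : Set V) :=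
    ⟨j + 1, by omega, le_rfl, hf.1 (j + 1) (by omega) le_rfl⟩
  have m2 : g (j + 1) ∈ ({v | ∃ t, i ≤ t ∧ t ≤ j + 1 ∧ v ∈ L t} : Set V) :=
    ⟨j + 1, by omega, le_rfl, hg.1 (j + 1) (by omega) le_rfl⟩
  have m3 : Rg f g i (j + 1) ⊆ ({v | ∃ t, i ≤ t ∧ t ≤ j + 1 ∧ v ∈ L t} : Set V) := by
    rintro z ⟨t, h4, h5, rfl | rfl⟩
    · exact ⟨t, h4, by omega, hf.1 t h4 (by omega)⟩
    · exact ⟨t, h4, by omega, hg.1 t h4 (by omega)⟩
  have m4 := graded_lev h (T := ({v | ∃ t, i ≤ t ∧ t ≤ j + 1 ∧ v ∈ L t} : Set V))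
    (by
      intro z hz
      obtain ⟨t, _, _, ht⟩ := hz
      exact ⟨t, ht⟩) (by
      intro z hz0 z' _ s hz hz'
      obtain ⟨t, h4, h5, ht⟩ := hz0
      have : s = t := by
        by_contra hne'
        exact h.disj s t hne' z hz ht
      subst this
      exact hst s h4 h5 z hz z' hz')
  have hg1 := graded m3 m4 m1 m2 hn
  rw [lv_eq h (hf.1 (j + 1) (by omega) le_rfl), lv_eq h (hg.1 (j + 1) (by omega) le_rfl)] at hg1
  rw [Nat.even_iff]
  omega

/-- a chain downwards -/
theorem desc_chain (h : SS80.Lev G L k) {i : ℕ} :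
    ∀ d, i + d ≤ k → ∀ v ∈ L (i + d), ∃ f, Chain G L i (i + d) f ∧ f (i + d) = v := by
  intro d
  induction d with
  | zero =>
    intro _ v hv
    refine ⟨fun _ => v, ⟨?_, ?_⟩, rfl⟩
    · intro t h1 h2
      have : t = i := by omega
      subst this; exact hv
    · intro t h1 h2; omega
  | succ d ih =>
    intro hd v hv
    obtain ⟨u, hu, huv⟩ := h.par (i + d) (by omega) v hv
    obtain ⟨f, hf, hfu⟩ := ih (by omega) u hu
    refine ⟨fun t => if t ≤ i + d then f t else v, ⟨?_, ?_⟩, ?_⟩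
    · intro t h1 h2
      by_cases h3 : t ≤ i + d
      · simp only [h3, if_true]; exact hf.1 t h1 h3
      · have h4 : t = i + (d + 1) := by omega
        simp only [h3, if_false]
        rw [h4]; exact hv
    · intro t h1 h2
      have h3 : t ≤ i + d := by omega
      by_cases h4 : t + 1 ≤ i + d
      · simp only [h3, h4, if_true]; exact hf.2 t h1 (by omega)
      · have h5 : t = i + d := by omega
        simp only [h3, h4, if_true, if_false]
        rw [h5, hfu]; exact huv
    · have h3 : ¬ i + (d + 1) ≤ i + d := by omega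
      simp only [h3, if_false]

/-- a chain upwards through private children -/
theorem priv_chain (h : SS80.Lev G L k) {i : ℕ} {u : V} (hu : u ∈ L i) :
    ∀ d, i + d ≤ k → ∃ f, Chain G L i (i + d) f ∧ f i = u ∧
      ∀ t, i ≤ t → t < i + d → ∀ w ∈ L t, G.Adj w (f (t + 1)) → w = f t := by
  intro d
  induction d with
  | zero =>
    intro _
    refine ⟨fun _ => u, ⟨?_, ?_⟩, rfl, ?_⟩
    · intro t h1 h2
      have : t = i := by omega
      subst this; exact hu
    · intro t h1 h2; omega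
    · intro t h1 h2; omega
  | succ d ih =>
    intro hd
    obtain ⟨f, hf, hfu, hpr⟩ := ih (by omega)
    obtain ⟨c, hc, h1, h2⟩ := h.priv (i + d) (by omega) (f (i + d)) (hf.1 _ (by omega) le_rfl)
    refine ⟨fun t => if t ≤ i + d then f t else c, ⟨?_, ?_⟩, ?_, ?_⟩
    · intro t h3 h4
      by_cases h5 : t ≤ i + d
      · simp only [h5, if_true]; exact hf.1 t h3 h5
      · have h6 : t = i + (d + 1) := by omega
        simp only [h5, if_false]
        rw [h6]; exact hc
    · intro t h3 h4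
      have h5 : t ≤ i + d := by omega
      by_cases h6 : t + 1 ≤ i + d
      · simp only [h5, h6, if_true]; exact hf.2 t h3 (by omega)
      · have h7 : t = i + d := by omega
        simp only [h5, h6, if_true, if_false]
        rw [h7]; exact h1
    · have h3 : i ≤ i + d := by omega
      simp only [h3, if_true]; exact hfu
    · intro t h3 h4 w hw hadj
      have h5 : t ≤ i + d := by omega
      by_cases h6 : t + 1 ≤ i + d
      · simp only [h5, h6, if_true] at hadj ⊢
        exact hpr t h3 (by omega) w hw hadj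
      · have h7 : t = i + d := by omega
        simp only [h5, h6, if_true, if_false] at hadj ⊢
        rw [h7] at hw ⊢
        exact h2 w hw hadj

/-- all lower levels are connected -/
theorem le_conn (h : SS80.Lev G L k) {i : ℕ} (hi : i ≤ k) : ∀ x ∈ Le L i, ∀ y ∈ Le L i,
    Cn G (Le L i) x y := by
  obtain hne | hne : (L 0).Nonempty ∨ ¬ (L 0).Nonempty := em _
  swap
  · -- no vertices at all
    have hemp : ∀ j, j ≤ k → ∀ x, x ∉ L j := by
      intro j
      induction j with
      | zero => intro _ x hx; exact hne ⟨x, hx⟩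
      | succ j ih =>
        intro hj x hx
        obtain ⟨u, hu, _⟩ := h.par j (by omega) x hx
        exact ih (by omega) u hu
    rintro x ⟨j, hj, hx⟩
    exact absurd hx (hemp j (by omega) x)
  · obtain ⟨z, hz⟩ := hne
    have key : ∀ j, j ≤ i → ∀ x ∈ L j, Cn G (Le L i) x z := by
      intro j
      induction j with
      | zero =>
        intro _ x hx
        rw [h.root x hx z hz]
        exact Relation.ReflTransGen.refl
      | succ j ih =>
        intro hj x hx
        obtain ⟨u, hu, hux⟩ := h.par j (by omega) x hx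
        have m1 : x ∈ Le L i := ⟨j + 1, hj, hx⟩
        have m2 : u ∈ Le L i := ⟨j, by omega, hu⟩
        exact (Cn.single hux.symm m1 m2).trans (ih (by omega) u hu)
    rintro x ⟨j, hj, hx⟩ y ⟨j', hj', hy⟩
    exact (key j hj x hx).trans (key j' hj' y hy).symm

end

end LO
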