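import Pool.Agent.W_ccb602.LOIface

/-!
# MP_ccb602_co: gluing two induced paths in a graph without long odd holes
-/

set_option autoImplicit false

namespace LO

open BoxSS
open SS80 (IP IPin Wk Cn adj_cycle)

variable {V : Type*}

/-- Two induced paths with the same ends and anticomplete interiors. -/
theorem glueL {G : SimpleGraph V} {ℓ : ℕ} (hG : NoLOH G ℓ) {P Q : ℕ → V} {p q : ℕ}
    (hP : IP G P p) (hQ : IP G Q q) (h0 : P 0 = Q 0) (h1 : P p = Q q) (hp : 2 ≤ p) (hq : 2 ≤ q)
    (hpq : ∀ i j, 0 < i → i < p → 0 < j → j < q → P i ≠ Q j ∧ ¬ G.Adj (P i) (Q j))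
    (hl : ℓ ≤ p + q) : Even (p + q) := by
  by_contra hodd
  rw [Nat.not_even_iff_odd] at hodd
  obtain ⟨N, hm⟩ : ∃ N, p + q = N := ⟨p + q, rfl⟩
  have hN5 : 5 ≤ N := by
    obtain ⟨t, ht⟩ := hodd
    omega
  let f : Fin N → V := fun x => if x.val ≤ p then P x.val else Q (p + q - x.val)
  -- facts on pairs of indices
  have key : ∀ x y : Fin N, x.val < y.val →
      f x ≠ f y ∧ (G.Adj (f x) (f y) ↔ (y.val = x.val + 1 ∨ (x.val = 0 ∧ y.val + 1 = N))) := by
    intro x y hxy
    have hx := x.isLt
    have hy := y.isLt
    by_cases hyp : y.val ≤ p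
    · have hxp : x.val ≤ p := by omega
      have hfx : f x = P x.val := if_pos hxp
      have hfy : f y = P y.val := if_pos hyp
      rw [hfx, hfy]
      obtain ⟨h2, h3⟩ := hP x.val y.val hxy hyp
      refine ⟨h2, h3.trans ⟨fun h => Or.inl h, fun h => ?_⟩⟩
      rcases h with h | h
      · exact h
      · omega
    · have hfy : f y = Q (p + q - y.val) := if_neg hyp
      by_cases hxp : x.val ≤ p
      · have hfx : f x = P x.val := if_pos hxp
        rw [hfx, hfy]
        rcases Nat.eq_zero_or_pos x.val with h4 | h4
        · rw [h4, h0]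
          obtain ⟨h2, h3⟩ := hQ 0 (p + q - y.val) (by omega) (by omega)
          refine ⟨h2, h3.trans ⟨fun h => Or.inr ⟨rfl, by omega⟩, fun h => ?_⟩⟩
          rcases h with h | h
          · omega
          · omega
        · rcases Nat.eq_or_lt_of_le hxp with h5 | h5
          · rw [h5, h1]
            obtain ⟨h2, h3⟩ := hQ (p + q - y.val) q (by omega) (by omega)
            refine ⟨fun h => h2 h.symm, ?_⟩
            rw [G.adj_comm, h3]
            constructor
            · intro h; left; omega
            · rintro (h | h)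
              · omega
              · omega
          · obtain ⟨h2, h3⟩ := hpq x.val (p + q - y.val) h4 h5 (by omega) (by omega)
            refine ⟨h2, ⟨fun h => absurd h h3, fun h => ?_⟩⟩
            rcases h with h | h
            · omega
            · omega
      · have hfx : f x = Q (p + q - x.val) := if_neg hxp
        rw [hfx, hfy]
        obtain ⟨h2, h3⟩ := hQ (p + q - y.val) (p + q - x.val) (by omega) (by omega)
        refine ⟨fun h => h2 h.symm, ?_⟩
        rw [G.adj_comm, h3]
        constructor
        · intro h; left; omega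
        · rintro (h | h)
          · omega
          · omega
  have hinj : Function.Injective f := by
    intro x y hxy
    by_contra hne
    rcases Nat.lt_or_ge x.val y.val with h | h
    · exact (key x y h).1 hxy
    · have : y.val < x.val := by
        rcases Nat.eq_or_lt_of_le h with h' | h'
        · exact absurd (Fin.ext h'.symm) hne
        · exact h'
      exact (key y x this).1 hxy.symm
  refine (hG N (hm ▸ hl) (hm ▸ hodd)).false ⟨⟨f, hinj⟩, ?_⟩
  intro x y
  simp only [Function.Embedding.coeFn_mk]
  rw [adj_cycle (by omega)]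
  rcases Nat.lt_trichotomy x.val y.val with h | h | h
  · rw [(key x y h).2]
    omega
  · have : x = y := Fin.ext h
    subst this
    constructor
    · intro h'; exact absurd h' (G.loopless.irrefl _)
    · intro h'; omega
  · rw [G.adj_comm, (key y x h).2]
    omega

/-- Two induced paths with the same ends and anticomplete interiors have the same parity if the cycle is long. -/
theorem evenL {G : SimpleGraph V} {ℓ : ℕ} (hG : NoLOH G ℓ) {S T : Set V} {u v : V} {p q : ℕ}
    (hP : IPin G S u v p) (hQ : IPin G T u v q) (hp : 2 ≤ p) (hq : 2 ≤ q)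
    (hST : ∀ x ∈ S, ∀ y ∈ T, x ≠ y ∧ ¬ G.Adj x y) (hl : ℓ ≤ p + q) : Even (p + q) := by
  obtain ⟨P, hP, hP0, hP1, hPS⟩ := hP
  obtain ⟨Q, hQ, hQ0, hQ1, hQT⟩ := hQ
  refine glueL hG hP hQ (hP0.trans hQ0.symm) (hP1.trans hQ1.symm) hp hq ?_ hl
  intro i j hi hi' hj hj'
  exact hST _ (hPS i hi hi') _ (hQT j hj hj')

end LO
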