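import Pool.Agent.W_ccb602.LOLab
import Pool.Agent.W_ccb602.LOBoxes

/-!
# MP_ccb602_co: nice pairs kill classes of arcs in box graphs (relative to the path lemma)
-/

set_option autoImplicit false

namespace LO

open BoxSS Box85 Tree57
open SS80 (IP IPin Wk Cn)

section depth

variable {V : Type*}

/-- there is a directed path of length `m` which ends in `v` -/
def InD (r : V → V → Prop) (m : ℕ) (v : V) : Prop :=
  ∃ w : ℕ → V, w m = v ∧ ∀ i < m, r (w i) (w (i + 1))

theorem ext_path {r : V → V → Prop} {w : ℕ → V} {m : ℕ} (h : ∀ i < m, r (w i) (w (i + 1))) {u : V}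
    (hu : r (w m) u) : ∃ w' : ℕ → V, w' (m + 1) = u ∧ (∀ i ≤ m, w' i = w i) ∧
      ∀ i < m + 1, r (w' i) (w' (i + 1)) := by
  classical
  refine ⟨fun i => if i ≤ m then w i else u, ?_, ?_, ?_⟩
  · show (if m + 1 ≤ m then w (m + 1) else u) = u
    rw [if_neg (by omega)]
  · intro i hi
    show (if i ≤ m then w i else u) = w i
    rw [if_pos hi]
  · intro i hi
    show r (if i ≤ m then w i else u) (if i + 1 ≤ m then w (i + 1) else u)
    rw [if_pos (by omega)]
    by_cases him : i + 1 ≤ m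
    · rw [if_pos him]
      exact h i (by omega)
    · rw [if_neg him]
      have : i = m := by omega
      rw [this]
      exact hu

theorem InD.succ {r : V → V → Prop} {m : ℕ} {x u : V} (h : InD r m x) (hu : r x u) :
    InD r (m + 1) u := by
  obtain ⟨w, h1, h2⟩ := h
  obtain ⟨w', h3, -, h4⟩ := ext_path h2 (u := u) (by rw [h1]; exact hu)
  exact ⟨w', h3, h4⟩

open Classical in
/-- the length of the longest directed path which ends in `v`, truncated at `K` -/
noncomputable def dep (r : V → V → Prop) (K : ℕ) (v : V) : ℕ :=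
  Nat.findGreatest (fun m => InD r m v) K

theorem dep_le (r : V → V → Prop) (K : ℕ) (v : V) : dep r K v ≤ K := by
  classical
  exact Nat.findGreatest_le K

theorem inD_dep (r : V → V → Prop) (K : ℕ) (v : V) : InD r (dep r K v) v := by
  classical
  exact Nat.findGreatest_spec (P := fun m => InD r m v) (Nat.zero_le K)
    ⟨fun _ => v, rfl, fun i hi => absurd hi (Nat.not_lt_zero i)⟩

theorem dep_eq {r : V → V → Prop} {K : ℕ} {x u : V} (hxu : r x u) (h : dep r K x = dep r K u) :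
    InD r K x := by
  classical
  have h1 := inD_dep r K x
  by_cases hK : dep r K x = K
  · rw [hK] at h1; exact h1
  · exfalso
    have h2 := dep_le r K x
    have h3 : dep r K x + 1 ≤ dep r K u :=
      Nat.le_findGreatest (P := fun m => InD r m u) (by omega) (h1.succ hxu)
    omega

end depth

variable {V : Type} {d : ℕ}

/-- The closing argument. -/
theorem llab_clo {G : SimpleGraph V} {a b : V → Fin d → ℝ} (hab : ∀ i, a i ≤ b i)
    (hG : ∀ i j, G.Adj i j ↔ i ≠ j ∧ Hit a b i j) {R : V → V → Prop} {B : Set V} (p : V → V)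
    (hp : ∀ v ∈ B, G.Adj (p v) v) (S : V → Set V) (q : Lbl d) {x u v y w : V}
    (h1 : LLab G a b R B p S q x u) (h2 : LLab G a b R B p S q u v) (h3 : LLab G a b R B p S q y v)
    (h4 : LLab G a b R B p S q v w) (e1 : G.Adj (p w) x) (e2 : G.Adj (p w) y) :
    MeetC a b q.1.1 x y := by
  obtain ⟨x1, u1, -, hxu, -, -⟩ := h1
  obtain ⟨-, v1, -, huv, -, -⟩ := h2
  obtain ⟨y1, -, -, hyv, -, -⟩ := h3
  obtain ⟨-, w1, -, hvw, -, -⟩ := h4
  have f1 := ((hG _ _).1 e1).2 q.1.1
  have f2 := ((hG _ _).1 e2).2 q.1.1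
  have f3 := ((hG _ _).1 (hp x x1)).2 q.1.1
  have f4 := ((hG _ _).1 (hp y y1)).2 q.1.1
  have g1 := hab (p x) q.1.1
  have g2 := hab (p u) q.1.1
  have g3 := hab (p v) q.1.1
  have g4 := hab (p w) q.1.1
  have g5 := hab (p y) q.1.1
  unfold MeetC
  rcases hxu with ⟨s1, hxu⟩ | ⟨s1, hxu⟩
  · rcases huv with ⟨-, huv⟩ | ⟨s2, -⟩
    · rcases hyv with ⟨-, hyv⟩ | ⟨s2, -⟩
      · rcases hvw with ⟨-, hvw⟩ | ⟨s2, -⟩
        · constructor <;> linarith [f1.1, f1.2, f2.1, f2.2, f3.1, f3.2, f4.1, f4.2]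
        · rw [s1] at s2; exact absurd s2 (by decide)
      · rw [s1] at s2; exact absurd s2 (by decide)
    · rw [s1] at s2; exact absurd s2 (by decide)
  · rcases huv with ⟨s2, -⟩ | ⟨-, huv⟩
    · rw [s1] at s2; exact absurd s2 (by decide)
    · rcases hyv with ⟨s2, -⟩ | ⟨-, hyv⟩
      · rw [s1] at s2; exact absurd s2 (by decide)
      · rcases hvw with ⟨s2, -⟩ | ⟨-, hvw⟩
        · rw [s1] at s2; exact absurd s2 (by decide)
        · constructor <;> linarith [f1.1, f1.2, f2.1, f2.2, f3.1, f3.2, f4.1, f4.2]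

/-- the label class `q` inside the part `P` -/
def childL (G : SimpleGraph V) (a b : V → Fin d → ℝ) (C : Cls V d) (B : Set V)
    (p : V → V) (S : V → Set V) (P : V → Prop) (q : Lbl d) : Cls V d where
  R := fun u v => LLab G a b C.R B p S q u v ∧ P u ∧ P v
  τ := C.τ
  O := C.O.erase (q.1.1, true)

open Classical in
/-- the classes which replace `C` -/
noncomputable def childrenL (G : SimpleGraph V) (a b : V → Fin d → ℝ) (C : Cls V d) (B : Set V)
    (p : V → V) (S : V → Set V) (P : V → Prop) : List (Cls V d) :=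
  ((Finset.univ : Finset (Lbl d)).filter (fun q => (q.1.1, true) ∈ C.O)).toList.map
    (childL G a b C B p S P)

/-- the weight -/
def wtL (d m : ℕ) : ℕ := (8 * d + 1) ^ m

theorem wtL_pos (d m : ℕ) : 0 < wtL d m := pow_pos (by omega) _

theorem pt_append (wt : ℕ → ℕ) (l l' : List (Cls V d)) : pt wt (l ++ l') = pt wt l + pt wt l' := by
  unfold pt
  rw [List.map_append, List.sum_append]

theorem pt_cons (wt : ℕ → ℕ) (C : Cls V d) (l : List (Cls V d)) :
    pt wt (C :: l) = wt C.O.card + pt wt l := by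
  unfold pt
  rw [List.map_cons, List.sum_cons]

theorem card_op (C : Cls V d) : C.op.O.card = C.O.card := by
  unfold Cls.op
  apply Finset.card_image_of_injective
  rintro ⟨p, q⟩ ⟨p', q'⟩ h
  simp only [Prod.mk.injEq, Bool.not_inj_iff] at h
  exact Prod.ext h.1 h.2

theorem card_lbl (d : ℕ) : Fintype.card (Lbl d) = 8 * d := by
  simp only [Fintype.card_prod, Fintype.card_fin, Fintype.card_bool]
  omega

theorem pt_childrenL (G : SimpleGraph V) (a b : V → Fin d → ℝ) (C : Cls V d) (B : Set V)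
    (p : V → V) (S : V → Set V) (P : V → Prop) :
    pt (wtL d) (childrenL G a b C B p S P) < wtL d C.O.card := by
  classical
  unfold pt childrenL
  rw [List.map_map]
  rcases Finset.eq_empty_or_nonempty
    ((Finset.univ : Finset (Lbl d)).filter (fun q => (q.1.1, true) ∈ C.O)) with h | h
  · rw [h]
    simpa using wtL_pos d C.O.card
  · obtain ⟨q0, hq0⟩ := h
    have h0 : (q0.1.1, true) ∈ C.O := (Finset.mem_filter.1 hq0).2
    have hpos : 0 < C.O.card := Finset.card_pos.2 ⟨_, h0⟩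
    have h1 := List.sum_le_card_nsmul
      (((Finset.univ : Finset (Lbl d)).filter (fun q => (q.1.1, true) ∈ C.O)).toList.map
        ((fun C : Cls V d => wtL d C.O.card) ∘ childL G a b C B p S P)) (wtL d (C.O.card - 1)) (by
        intro x hx
        obtain ⟨q, hq, rfl⟩ := List.mem_map.1 hx
        rw [Finset.mem_toList] at hq
        have h2 : (q.1.1, true) ∈ C.O := (Finset.mem_filter.1 hq).2
        show wtL d (C.O.erase (q.1.1, true)).card ≤ _
        rw [Finset.card_erase_of_mem h2])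
    refine lt_of_le_of_lt h1 ?_
    rw [List.length_map, Finset.length_toList, smul_eq_mul]
    have h3 : ((Finset.univ : Finset (Lbl d)).filter (fun q => (q.1.1, true) ∈ C.O)).card ≤
        8 * d := by
      refine le_trans (Finset.card_filter_le _ _) ?_
      rw [Finset.card_univ, card_lbl]
    have h4 : wtL d C.O.card = (8 * d + 1) * wtL d (C.O.card - 1) := by
      unfold wtL
      rw [← pow_succ']
      congr 1
      omega
    rw [h4]
    have h5 : 0 < wtL d (C.O.card - 1) := wtL_pos _ _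
    calc ((Finset.univ : Finset (Lbl d)).filter (fun q => (q.1.1, true) ∈ C.O)).card *
          wtL d (C.O.card - 1) ≤ (8 * d) * wtL d (C.O.card - 1) := Nat.mul_le_mul_right _ h3
      _ < (8 * d + 1) * wtL d (C.O.card - 1) := Nat.mul_lt_mul_of_pos_right (by omega) h5

/-- the number of colours of the killing step -/
def KL (d ℓ n k : ℕ) : ℕ := ((ℓ + 2) * k + 1) ^ (8 * d) * (n * 2 ^ (8 * d))

/-- THE KILLING STEP, downward covers. -/
theorem kill_downL (hPath : PathStmt) [Finite V] {ℓ : ℕ} (hℓ : 5 ≤ ℓ) {G : SimpleGraph V}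
    {a b : V → Fin d → ℝ} (hab : ∀ i, a i ≤ b i)
    (hG : ∀ i j, G.Adj i j ↔ i ≠ j ∧ Hit a b i j) {k n : ℕ} (hn0 : 0 < n)
    (hn : ∀ x, ColOn G {v | G.Adj x v} n)
    (hk : ∀ s : Finset V, G.IsClique s → s.card ≤ k) {C : Cls V d} (hC : OKC G a b C)
    (l1 l2 : List (Cls V d)) (hl1 : ∀ C ∈ l1, OKC G a b C) (hl2 : ∀ C ∈ l2, OKC G a b C)
    {A B Q : Set V} (hBQ : B ⊆ Q) (hcov : Cov G Q (l1 ++ C :: l2))
    (hst : ∀ x ∈ A, ∀ y ∈ A, ¬ G.Adj x y) (S : V → Set V)
    (hnest : ∀ x ∈ B, ∀ y ∈ B, G.Adj x y → S x ⊆ S y ∨ S y ⊆ S x)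
    (hnice : ∀ x ∈ B, ∀ y ∈ B, (S x ⊆ S y ∨ S y ⊆ S x) → ∀ a ∈ A, ∀ a' ∈ A, a ≠ a' →
      G.Adj a x → G.Adj a' y → ∀ n, ℓ ≤ n → Odd n → ¬ IPin G B a a' n)
    (hcv : ∀ v ∈ B, ∃ x ∈ A, C.R x v) {X : ℕ}
    (hX : ∀ l : List (Cls V d), (∀ C ∈ l, OKC G a b C) →
      pt (wtL d) l < pt (wtL d) (l1 ++ C :: l2) → ∀ Q : Set V, Cov G Q l → ColOn G Q X) :
    ColOn G B (KL d ℓ n k * X) := by
  classical
  choose! p hp using hcv
  choose cn hcn1 hcn2 using hn
  let K : ℕ := (ℓ + 2) * k
  let LR : Lbl d → V → V → Prop := fun q => LLab G a b C.R B p S q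
  let bit : V → Lbl d → Bool := fun v q => decide (∃ w, LR q v w)
  let dp : V → Lbl d → Fin (K + 1) := fun v q => ⟨dep (LR q) K v, Nat.lt_succ_of_le (dep_le _ _ _)⟩
  let f : V → (Lbl d → Fin (K + 1)) × (Fin n × (Lbl d → Bool)) :=
    fun v => (dp v, ⟨cn (p v) v % n, Nat.mod_lt _ hn0⟩, bit v)
  have hcard : Fintype.card ((Lbl d → Fin (K + 1)) × (Fin n × (Lbl d → Bool))) = KL d ℓ n k := by
    have h1 : Fintype.card (Lbl d → Fin (K + 1)) = (K + 1) ^ (8 * d) := by
      rw [Fintype.card_fun, Fintype.card_fin, card_lbl]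
    have h2 : Fintype.card (Lbl d → Bool) = 2 ^ (8 * d) := by
      rw [Fintype.card_fun, Fintype.card_bool, card_lbl]
    rw [Fintype.card_prod, Fintype.card_prod, h1, h2, Fintype.card_fin]
    rfl
  rw [← hcard]
  apply ColOn.of_fin f
  intro φ
  have hpadj : ∀ v ∈ B, G.Adj (p v) v := fun v hv => hC.adj _ _ (hp v hv).2
  -- adjacency to the parent of the end
  have hend : ∀ (q : Lbl d) (x u v w : V), LR q x u → LR q u v → LR q v w →
      dp x = dp u → G.Adj (p w) x := by
    intro q x u v w h1 h2 h3 hdp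
    have hd : dep (LR q) K x = dep (LR q) K u := congrArg Fin.val (congrFun hdp q)
    obtain ⟨w0, hw0, hw1⟩ := dep_eq h1 hd
    obtain ⟨w1, g1, g2, g3⟩ := ext_path hw1 (u := u) (by rw [hw0]; exact h1)
    obtain ⟨w2, g4, g5, g6⟩ := ext_path g3 (u := v) (by rw [g1]; exact h2)
    obtain ⟨w3, g7, g8, g9⟩ := ext_path g6 (u := w) (by rw [g4]; exact h3)
    have h4 := hPath V d G a b hab hG k hk C.τ C.R hC.adj hC.ts ℓ hℓ A B hst p hp S hnice q w3
      (K + 1 + 1 + 1) g9 K le_rfl (by omega)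
    rw [g7, g8 K (by omega), g5 K (by omega), g2 K le_rfl, hw0] at h4
    exact h4
  have hend2 : ∀ (q : Lbl d) (y v w : V), LR q y v → LR q v w →
      dp y = dp v → G.Adj (p w) y := by
    intro q y v w h1 h2 hdp
    have hd : dep (LR q) K y = dep (LR q) K v := congrArg Fin.val (congrFun hdp q)
    obtain ⟨w0, hw0, hw1⟩ := dep_eq h1 hd
    obtain ⟨w1, g1, g2, g3⟩ := ext_path hw1 (u := v) (by rw [hw0]; exact h1)
    obtain ⟨w2, g4, g5, g6⟩ := ext_path g3 (u := w) (by rw [g1]; exact h2)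
    have h4 := hPath V d G a b hab hG k hk C.τ C.R hC.adj hC.ts ℓ hℓ A B hst p hp S hnice q w2
      (K + 1 + 1) g6 K le_rfl (by omega)
    rw [g4, g5 K (by omega), g2 K le_rfl, hw0] at h4
    exact h4
  apply hX (l1 ++ (l2 ++ childrenL G a b C B p S (fun v => f v = φ)))
  · intro C' hC'
    rw [List.mem_append, List.mem_append] at hC'
    rcases hC' with h | h | h
    · exact hl1 _ h
    · exact hl2 _ h
    · unfold childrenL at h
      obtain ⟨q, hq, rfl⟩ := List.mem_map.1 h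
      rw [Finset.mem_toList] at hq
      refine ⟨fun u v huv => hC.adj u v huv.1.2.2.1, fun u v huv => hC.ts u v huv.1.2.2.1, ?_, ?_⟩
      · intro c hc x u v y hxu huv hyv
        by_cases hcq : c = q.1.1
        · subst hcq
          have hbx : bit x q = true := decide_eq_true ⟨u, hxu.1⟩
          have hfx : f x = f v := hxu.2.1.trans huv.2.2.symm
          have hbv : bit v q = true := by
            have h1 : bit x = bit v := congrArg (fun z => z.2.2) hfx
            rw [← h1]; exact hbx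
          obtain ⟨w, hw⟩ := of_decide_eq_true hbv
          have hdxu : dp x = dp u := congrArg Prod.fst (hxu.2.1.trans hxu.2.2.symm)
          have hdyv : dp y = dp v := congrArg Prod.fst (hyv.2.1.trans hyv.2.2.symm)
          exact llab_clo hab hG p hpadj S q hxu.1 huv.1 hyv.1 hw
            (hend q x u v w hxu.1 huv.1 hw hdxu) (hend2 q y v w hyv.1 hw hdyv)
        · refine hC.down c ?_ x u v y hxu.1.2.2.1 huv.1.2.2.1 hyv.1.2.2.1
          intro hmem
          exact hc (Finset.mem_erase.2 ⟨fun h => hcq (congrArg Prod.fst h), hmem⟩)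
      · intro c hc x u v y hxu huv hyv
        refine hC.up c ?_ x u v y hxu.1.2.2.1 huv.1.2.2.1 hyv.1.2.2.1
        intro hmem
        exact hc (Finset.mem_erase.2 ⟨fun h => absurd (congrArg Prod.snd h) Bool.false_ne_true, hmem⟩)
  · have h1 := pt_childrenL G a b C B p S (fun v => f v = φ)
    rw [pt_append, pt_append, pt_append, pt_cons]
    omega
  · rintro u ⟨hu, hfu⟩ v ⟨hv, hfv⟩ huv
    obtain ⟨C', hC', hR⟩ := hcov u (hBQ hu) v (hBQ hv) huv
    rw [List.mem_append, List.mem_cons] at hC'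
    have hrest : (C' ∈ l1 ∨ C' ∈ l2) →
        ∃ C'' ∈ l1 ++ (l2 ++ childrenL G a b C B p S (fun v => f v = φ)),
        C''.R u v ∨ C''.R v u := by
      intro h
      refine ⟨C', ?_, hR⟩
      rw [List.mem_append, List.mem_append]
      tauto
    have key : ∀ x y, x ∈ B → y ∈ B → f x = φ → f y = φ → C.R x y →
        ∃ q : Lbl d, (q.1.1, true) ∈ C.O ∧ LLab G a b C.R B p S q x y := by
      intro x y hx hy hfx hfy hxy
      have hadj : G.Adj x y := hC.adj _ _ hxy
      have hfxy : f x = f y := hfx.trans hfy.symm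
      have hne : p x ≠ p y := by
        intro hpxy
        have h1 : cn (p x) x % n = cn (p y) y % n :=
          congrArg (fun z => (z.2.1 : ℕ)) hfxy
        have h2 := hcn1 (p x) x (hC.adj _ _ (hp x hx).2)
        have h3 := hcn1 (p y) y (hC.adj _ _ (hp y hy).2)
        rw [Nat.mod_eq_of_lt h2, Nat.mod_eq_of_lt h3, ← hpxy] at h1
        refine hcn2 (p x) x (hC.adj _ _ (hp x hx).2) y ?_ hadj h1
        show G.Adj (p x) y
        rw [hpxy]
        exact hC.adj _ _ (hp y hy).2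
      have hnohit : ¬ Hit a b (p x) (p y) := fun hh =>
        hst _ (hp x hx).1 _ (hp y hy).1 ((hG _ _).2 ⟨hne, hh⟩)
      obtain ⟨c, hc⟩ := not_forall.1 hnohit
      have hopen : (c, true) ∈ C.O := by
        by_contra hcl
        exact hc (hC.down c hcl (p x) x y (p y) (hp x hx).2 hxy (hp y hy).2)
      have hsep : ∃ s : Bool, (s = true ∧ b (p x) c < a (p y) c) ∨
          (s = false ∧ b (p y) c < a (p x) c) := by
        by_cases h1 : a (p x) c ≤ b (p y) c
        · have h2 : b (p x) c < a (p y) c := by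
            by_contra h3
            exact hc ⟨h1, not_lt.1 h3⟩
          exact ⟨true, Or.inl ⟨rfl, h2⟩⟩
        · exact ⟨false, Or.inr ⟨rfl, not_le.1 h1⟩⟩
      obtain ⟨s, hs⟩ := hsep
      have hinc : ∃ t : Bool, (t = true ∧ S x ⊆ S y) ∨ (t = false ∧ S y ⊆ S x) := by
        rcases hnest x hx y hy hadj with h | h
        · exact ⟨true, Or.inl ⟨rfl, h⟩⟩
        · exact ⟨false, Or.inr ⟨rfl, h⟩⟩
      obtain ⟨t, ht⟩ := hinc
      exact ⟨((c, s), (decide (G.Adj (p x) y), t)), hopen, hx, hy, hxy, hs, decide_eq_true_iff, ht⟩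
    have fin : ∀ x y, x ∈ B → y ∈ B → f x = φ → f y = φ → C.R x y →
        ∃ C'' ∈ l1 ++ (l2 ++ childrenL G a b C B p S (fun v => f v = φ)), C''.R x y := by
      intro x y hx hy hfx hfy hxy
      obtain ⟨q, hq, hlab⟩ := key x y hx hy hfx hfy hxy
      refine ⟨childL G a b C B p S (fun v => f v = φ) q, ?_, ⟨hlab, hfx, hfy⟩⟩
      rw [List.mem_append, List.mem_append]
      right; right
      unfold childrenL
      exact List.mem_map.2 ⟨q, Finset.mem_toList.2 (Finset.mem_filter.2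
        ⟨Finset.mem_univ _, hq⟩), rfl⟩
    rcases hC' with h | h | h
    · exact hrest (Or.inl h)
    · rw [h] at hR
      rcases hR with h | h
      · obtain ⟨C'', h1, h2⟩ := fin u v hu hv hfu hfv h
        exact ⟨C'', h1, Or.inl h2⟩
      · obtain ⟨C'', h1, h2⟩ := fin v u hv hu hfv hfu h
        exact ⟨C'', h1, Or.inr h2⟩
    · exact hrest (Or.inr h)

/-- THE KILLING STEP. -/
theorem killL (hPath : PathStmt) {ℓ : ℕ} (hℓ : 5 ≤ ℓ) : KillHyp d ℓ (wtL d) (KL d ℓ) := by
  classical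
  intro V _ G a b hab hG _ k n hn0 hn hk l hl A B Q hAQ hBQ hcov hnp X hX
  obtain ⟨hst, hcv, S, hnest, hnice⟩ := hnp
  have hex : ∀ v ∈ B, ∃ q : Fin l.length × Bool, ∃ x ∈ A,
      (q.2 = true ∧ (l.get q.1).R x v) ∨ (q.2 = false ∧ (l.get q.1).R v x) := by
    intro v hv
    obtain ⟨x, hx, hadj⟩ := hcv v hv
    obtain ⟨C, hC, hR⟩ := hcov x (hAQ hx) v (hBQ hv) hadj
    obtain ⟨i, rfl⟩ := List.get_of_mem hC
    rcases hR with h | h
    · exact ⟨(i, true), x, hx, Or.inl ⟨rfl, h⟩⟩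
    · exact ⟨(i, false), x, hx, Or.inr ⟨rfl, h⟩⟩
  rcases B.eq_empty_or_nonempty with hB | ⟨v0, hv0⟩
  · rw [hB]
    exact ⟨fun _ => 0, fun v hv => absurd hv (Set.notMem_empty v),
      fun u hu => absurd hu (Set.notMem_empty u)⟩
  obtain ⟨q0, -⟩ := hex v0 hv0
  have : Nonempty (Fin l.length × Bool) := ⟨q0⟩
  choose! f hf using hex
  have hcard : Fintype.card (Fin l.length × Bool) = l.length * 2 := by
    rw [Fintype.card_prod, Fintype.card_fin, Fintype.card_bool]
  rw [← hcard]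
  apply ColOn.of_fin f
  rintro ⟨i, s⟩
  have hsplit : l.take i ++ l.get i :: l.drop (i + 1) = l := by
    rw [List.get_eq_getElem, List.cons_getElem_drop_succ, List.take_append_drop]
  have hCi : OKC G a b (l.get i) := hl _ (List.get_mem l i)
  have hl1 : ∀ C ∈ l.take i, OKC G a b C := fun C hC => hl C (List.mem_of_mem_take hC)
  have hl2 : ∀ C ∈ l.drop (i + 1), OKC G a b C := fun C hC => hl C (List.mem_of_mem_drop hC)
  have hnest' : ∀ x ∈ {v | v ∈ B ∧ f v = (i, s)}, ∀ y ∈ {v | v ∈ B ∧ f v = (i, s)}, G.Adj x y →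
      S x ⊆ S y ∨ S y ⊆ S x := fun x hx y hy => hnest x hx.1 y hy.1
  have hnice' : ∀ x ∈ {v | v ∈ B ∧ f v = (i, s)}, ∀ y ∈ {v | v ∈ B ∧ f v = (i, s)},
      (S x ⊆ S y ∨ S y ⊆ S x) → ∀ a ∈ A, ∀ a' ∈ A, a ≠ a' →
      G.Adj a x → G.Adj a' y → ∀ n, ℓ ≤ n → Odd n →
        ¬ IPin G {v | v ∈ B ∧ f v = (i, s)} a a' n := by
    intro x hx y hy hc z hz z' hz' hne h1 h2 m hm hodd hin
    exact hnice x hx.1 y hy.1 hc z hz z' hz' hne h1 h2 m hm hodd
      (hin.mono (fun v hv => hv.1))
  cases s with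
  | true =>
    refine kill_downL hPath hℓ hab hG hn0 hn hk hCi (l.take i) (l.drop (i + 1)) hl1 hl2 (Q := Q)
      (fun v hv => hBQ hv.1) (by rw [hsplit]; exact hcov) hst S hnest' hnice' ?_ ?_
    · rintro v ⟨hv, hfv⟩
      obtain ⟨x, hx, h | h⟩ := hf v hv
      · rw [hfv] at h
        exact ⟨x, hx, h.2⟩
      · rw [hfv] at h
        exact absurd h.1 (by simp)
    · rw [hsplit]
      exact hX
  | false =>
    refine kill_downL hPath hℓ hab hG hn0 hn hk hCi.op (l.take i) (l.drop (i + 1)) hl1 hl2 (Q := Q)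
      (fun v hv => hBQ hv.1) ?_ hst S hnest' hnice' ?_ ?_
    · intro u hu v hv huv
      obtain ⟨C, hC, hR⟩ := hcov u hu v hv huv
      rw [← hsplit, List.mem_append, List.mem_cons] at hC
      rcases hC with h | h | h
      · exact ⟨C, List.mem_append.2 (Or.inl h), hR⟩
      · rw [h] at hR
        exact ⟨(l.get i).op, List.mem_append.2 (Or.inr (List.mem_cons.2 (Or.inl rfl))), hR.symm⟩
      · exact ⟨C, List.mem_append.2 (Or.inr (List.mem_cons.2 (Or.inr h))), hR⟩
    · rintro v ⟨hv, hfv⟩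
      obtain ⟨x, hx, h | h⟩ := hf v hv
      · rw [hfv] at h
        exact absurd h.1 (by simp)
      · rw [hfv] at h
        exact ⟨x, hx, h.2⟩
    · have h1 : pt (wtL d) (l.take i ++ (l.get i).op :: l.drop (i + 1)) = pt (wtL d) l := by
        conv_rhs => rw [← hsplit]
        rw [pt_append, pt_append, pt_cons, pt_cons, card_op]
      rw [h1]
      exact hX

theorem poly_KL (d ℓ : ℕ) (n : ℕ → ℕ) (hn : BoxSS.Poly n) : BoxSS.Poly (fun k => KL d ℓ (n k) k) := by
  unfold KL
  exact ((((BoxSS.Poly.const _).mul BoxSS.Poly.id).add (BoxSS.Poly.const 1)).pow _).mul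
    (hn.mul (BoxSS.Poly.const _))

end LO
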