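import Pool.Agent.W_ccb602.KillN
import Pool.Agent.W_ccb602.LOIface

/-!
# MP_ccb602_co: labels of arcs for nice pairs, statement of the path lemma
-/

set_option autoImplicit false

namespace LO

open BoxSS Box85 Tree57
open SS80 (IP IPin Wk Cn)

/-- labels: coordinate, side, contact bit, direction of the inclusion of the sets `S` -/
abbrev Lbl (d : ℕ) := (Fin d × Bool) × (Bool × Bool)

/-- the arcs `u R v` of `B` with label `q` -/
def LLab {V : Type*} {d : ℕ} (G : SimpleGraph V) (a b : V → Fin d → ℝ) (R : V → V → Prop) (B : Set V)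
    (p : V → V) (S : V → Set V) (q : Lbl d) (u v : V) : Prop :=
  u ∈ B ∧ v ∈ B ∧ R u v ∧
    ((q.1.2 = true ∧ b (p u) q.1.1 < a (p v) q.1.1) ∨ (q.1.2 = false ∧ b (p v) q.1.1 < a (p u) q.1.1)) ∧
    (q.2.1 = true ↔ G.Adj (p u) v) ∧
    ((q.2.2 = true ∧ S u ⊆ S v) ∨ (q.2.2 = false ∧ S v ⊆ S u))

/-- THE PATH LEMMA: along a directed path with one label the parent of the last vertex is adjacent to all
vertices from the index `(ℓ + 2) k` on. -/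
def PathStmt : Prop :=
  ∀ (V : Type) [Finite V] (d : ℕ) (G : SimpleGraph V) (a b : V → Fin d → ℝ), (∀ i, a i ≤ b i) →
    (∀ i j, G.Adj i j ↔ i ≠ j ∧ Hit a b i j) → ∀ k : ℕ, (∀ s : Finset V, G.IsClique s → s.card ≤ k) →
    ∀ (τ : Fin d → Bool × Bool) (R : V → V → Prop), (∀ u v, R u v → G.Adj u v) →
    (∀ u v, R u v → TS a b τ u v) → ∀ ℓ : ℕ, 5 ≤ ℓ → ∀ A B : Set V,
    (∀ x ∈ A, ∀ y ∈ A, ¬ G.Adj x y) → ∀ p : V → V, (∀ v ∈ B, p v ∈ A ∧ R (p v) v) →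
    ∀ S : V → Set V, (∀ x ∈ B, ∀ y ∈ B, (S x ⊆ S y ∨ S y ⊆ S x) → ∀ a ∈ A, ∀ a' ∈ A, a ≠ a' →
      G.Adj a x → G.Adj a' y → ∀ n, ℓ ≤ n → Odd n → ¬ IPin G B a a' n) →
    ∀ (q : Lbl d) (w : ℕ → V) (j : ℕ), (∀ i < j, LLab G a b R B p S q (w i) (w (i + 1))) →
    ∀ l, (ℓ + 2) * k ≤ l → l ≤ j → G.Adj (p (w j)) (w l)

end LO
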