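import Pool.Agent.W_ccb602.LOIface
import Pool.Agent.W_ccb602.Base

/-!
# MP_ccb602_co: Lemma K for ancestor sets

See table proofs, id 417 (helper43), 1.5.
-/

set_option autoImplicit false

namespace LO

open BoxSS
open SS80 (IP IPin Wk Cn)

variable {V : Type*}

/-- transitive relations whose pairs are edges -/
theorem colour_of_trans {G : SimpleGraph V} {k : ℕ} (hk : G.CliqueFree (k + 1)) (R : V → V → Prop)
    (ht : ∀ x y z, R x y → R y z → R x z) (hR : ∀ x y, R x y → G.Adj x y) :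
    ∃ c : V → ℕ, (∀ v, c v < k) ∧ ∀ x y, R x y → c x ≠ c y := by
  rcases Nat.eq_zero_or_pos k with rfl | hk0
  · have h0 : ∀ v : V, False := by
      intro v
      exact hk {v} (by
        rw [SimpleGraph.isNClique_iff]
        exact ⟨by simp, by simp⟩)
    exact ⟨fun _ => 0, fun v => (h0 v).elim, fun x => (h0 x).elim⟩
  · obtain ⟨K, rfl⟩ : ∃ K, k = K + 1 := ⟨k - 1, by omega⟩
    have hch : ∀ u v, ¬ Box85.Ch R (K + 1) u v := by
      intro u v h
      obtain ⟨w, -, -, hw⟩ := Box85.ch_seq (K + 1) u v h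
      have hlt : ∀ (d i : ℕ), i + d < K + 1 → R (w i) (w (i + d + 1)) := by
        intro d
        induction d with
        | zero => intro i hi; exact hw i (by omega)
        | succ d ih =>
          intro i hi
          have h1 := ih i (by omega)
          have h2 := hw (i + d + 1) (by omega)
          exact ht _ _ _ h1 h2
      have hadj : ∀ i j, i < j → j < K + 2 → G.Adj (w i) (w j) := by
        intro i j hij hj
        obtain ⟨d, rfl⟩ : ∃ d, j = i + d + 1 := ⟨j - i - 1, by omega⟩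
        exact hR _ _ (hlt d i (by omega))
      have hinj : Function.Injective (fun i : Fin (K + 2) => w i) := by
        intro i j hij
        have hij' : w i = w j := hij
        rcases lt_trichotomy i.val j.val with h1 | h1 | h1
        · exact absurd (hadj i j h1 j.isLt) (by rw [hij']; exact G.irrefl)
        · exact Fin.ext h1
        · exact absurd (hadj j i h1 i.isLt) (by rw [hij']; exact G.irrefl)
      classical
      refine hk (Finset.univ.image (fun i : Fin (K + 2) => w i)) ?_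
      rw [SimpleGraph.isNClique_iff, Finset.card_image_of_injective _ hinj, Finset.card_univ,
        Fintype.card_fin]
      refine ⟨?_, rfl⟩
      intro x hx y hy hxy
      simp only [Finset.coe_image, Finset.coe_univ, Set.image_univ, Set.mem_range] at hx hy
      obtain ⟨i, rfl⟩ := hx
      obtain ⟨j, rfl⟩ := hy
      rcases lt_trichotomy i.val j.val with h1 | h1 | h1
      · exact hadj i j h1 j.isLt
      · exact absurd (congrArg (fun t : Fin (K + 2) => w t) (Fin.ext h1)) hxy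
      · exact (hadj j i h1 i.isLt).symm
    obtain ⟨c, hc⟩ := Box85.colour_of_chain R K hch
    exact ⟨fun v => (c v).val, fun v => (c v).isLt, fun x y h h' => hc x y h (Fin.ext h')⟩

/-- Lemma K with ancestor sets `S x` instead of parent sets. -/
theorem lemmaK' [Finite V] {G : SimpleGraph V} {A B : Set V} {J : V → V → Prop}
    {S : V → Finset V} {X w : ℕ} (hs : ∀ a b, J a b → J b a) (h4 : P4Free J A)
    (hw : G.CliqueFree (w + 1)) (hne : ∀ x ∈ B, (S x).Nonempty) (hSA : ∀ x ∈ B, ∀ a ∈ S x, a ∈ A)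
    (p2 : ∀ x ∈ B, ∀ a ∈ S x, ∀ a' ∈ S x, a ≠ a' → ¬ J a a')
    (p3 : ∀ x ∈ B, ∀ y ∈ B, G.Adj x y → ∀ a ∈ S x, a ∉ S y → ∀ a' ∈ S y, a' ∉ S x → J a a')
    (p4 : ∀ x ∈ B, ∀ y ∈ B, ∀ z ∈ B, G.Adj x y → G.Adj y z → x ≠ z → ¬ G.Adj x z →
      ∀ a ∈ S x, a ∉ S y → a ∉ S z → ∀ a' ∈ S z, a' ∉ S x → a' ∉ S y → ¬ J a a')
    (hX : ∀ a ∈ A, ColOn G {x | x ∈ B ∧ a ∈ S x} X) :
    ∃ c : V → ℕ, (∀ x ∈ B, c x < w * (X * X)) ∧
      ∀ x ∈ B, ∀ y ∈ B, G.Adj x y → c x = c y → S x ⊆ S y ∨ S y ⊆ S x := by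
  classical
  have hAfin : A.Finite := Set.toFinite A
  obtain ⟨r, hr0⟩ := exists_ord_fin J hs hAfin.toFinset.card hAfin.toFinset le_rfl
    (by rw [Set.Finite.coe_toFinset]; exact h4)
  have hr : Ord A J r := by rwa [Set.Finite.coe_toFinset] at hr0
  -- first and last element
  have hmin : ∀ x, ∃ m, x ∈ B → m ∈ S x ∧ ∀ a ∈ S x, r m ≤ r a := by
    intro x
    by_cases hx : x ∈ B
    · obtain ⟨m, hm1, hm2⟩ := Finset.exists_min_image (S x) r (hne x hx)
      exact ⟨m, fun _ => ⟨hm1, hm2⟩⟩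
    · exact ⟨x, fun h => absurd h hx⟩
  have hmax : ∀ x, ∃ m, x ∈ B → m ∈ S x ∧ ∀ a ∈ S x, r a ≤ r m := by
    intro x
    by_cases hx : x ∈ B
    · obtain ⟨m, hm1, hm2⟩ := Finset.exists_max_image (S x) r (hne x hx)
      exact ⟨m, fun _ => ⟨hm1, hm2⟩⟩
    · exact ⟨x, fun h => absurd h hx⟩
  choose mn hmn using hmin
  choose mx hmx using hmax
  have hφ : ∀ a, ∃ f : V → ℕ, a ∈ A → (∀ x ∈ B, a ∈ S x → f x < X) ∧
      ∀ x ∈ B, a ∈ S x → ∀ y ∈ B, a ∈ S y → G.Adj x y → f x ≠ f y := by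
    intro a
    by_cases ha : a ∈ A
    · obtain ⟨f, h1, h2⟩ := hX a ha
      exact ⟨f, fun _ => ⟨fun x hx hax => h1 x ⟨hx, hax⟩,
        fun x hx hax y hy hay => h2 x ⟨hx, hax⟩ y ⟨hy, hay⟩⟩⟩
    · exact ⟨fun _ => 0, fun h => absurd h ha⟩
  choose φ hφ using hφ
  -- the relation of edges whose sets are separated by the order
  let R : V → V → Prop := fun x y => x ∈ B ∧ y ∈ B ∧ G.Adj x y ∧
    ∀ a ∈ S x, ∀ a' ∈ S y, r a < r a'
  have hdisj : ∀ x y, R x y → ∀ a ∈ S x, a ∉ S y := by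
    intro x y h a ha ha'
    exact absurd (h.2.2.2 a ha a ha') (lt_irrefl _)
  have hdisj' : ∀ x y, R x y → ∀ a ∈ S y, a ∉ S x := by
    intro x y h a ha ha'
    exact absurd (h.2.2.2 a ha' a ha) (lt_irrefl _)
  have hRt : ∀ x y z, R x y → R y z → R x z := by
    intro x y z hxy hyz
    obtain ⟨hx, hy, axy, lxy⟩ := hxy
    obtain ⟨_, hz, ayz, lyz⟩ := hyz
    obtain ⟨b, hb⟩ := hne y hy
    have lxz : ∀ a ∈ S x, ∀ a' ∈ S z, r a < r a' := fun a ha a' ha' =>
      (lxy a ha b hb).trans (lyz b hb a' ha')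
    refine ⟨hx, hz, ?_, lxz⟩
    by_contra hxz
    obtain ⟨a, ha⟩ := hne x hx
    obtain ⟨a', ha'⟩ := hne z hz
    have hne' : x ≠ z := by
      rintro rfl
      exact absurd (lxz a ha a ha) (lt_irrefl _)
    have d1 := hdisj x y ⟨hx, hy, axy, lxy⟩
    have d1' := hdisj' x y ⟨hx, hy, axy, lxy⟩
    have d2 := hdisj y z ⟨hy, hz, ayz, lyz⟩
    have d2' := hdisj' y z ⟨hy, hz, ayz, lyz⟩
    have d3 : ∀ a ∈ S x, a ∉ S z := fun a ha ha' => absurd (lxz a ha a ha') (lt_irrefl _)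
    have d3' : ∀ a ∈ S z, a ∉ S x := fun a ha ha' => absurd (lxz a ha' a ha) (lt_irrefl _)
    have j1 : J a b := p3 x hx y hy axy a ha (d1 a ha) b hb (d1' b hb)
    have j2 : J b a' := p3 y hy z hz ayz b hb (d2 b hb) a' ha' (d2' a' ha')
    have j3 := hr.one a (hSA x hx a ha) b (hSA y hy b hb) a' (hSA z hz a' ha') (lxy a ha b hb)
      (lyz b hb a' ha') j1 j2
    exact p4 x hx y hy z hz axy ayz hne' hxz a ha (d1 a ha) (d3 a ha) a' ha' (d3' a' ha')
      (d2' a' ha') j3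
  obtain ⟨c1, hc1, hc1'⟩ := colour_of_trans hw R hRt (fun x y h => h.2.2.1)
  refine ⟨fun x => c1 x * (X * X) + (φ (mn x) x * X + φ (mx x) x), ?_, ?_⟩
  · intro x hx
    have e1 := hmn x hx
    have e2 := hmx x hx
    have f1 := (hφ (mn x) (hSA x hx _ e1.1)).1 x hx e1.1
    have f2 := (hφ (mx x) (hSA x hx _ e2.1)).1 x hx e2.1
    exact pair_lt (hc1 x) (pair_lt f1 f2)
  · intro x hx y hy hxy hcol
    have ex := hmn x hx
    have ex' := hmx x hx
    have ey := hmn y hy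
    have ey' := hmx y hy
    have f1 := (hφ (mn x) (hSA x hx _ ex.1)).1 x hx ex.1
    have f2 := (hφ (mx x) (hSA x hx _ ex'.1)).1 x hx ex'.1
    have g1 := (hφ (mn y) (hSA y hy _ ey.1)).1 y hy ey.1
    have g2 := (hφ (mx y) (hSA y hy _ ey'.1)).1 y hy ey'.1
    obtain ⟨k1, k2⟩ := pair_inj (pair_lt f1 f2) (pair_lt g1 g2) hcol
    obtain ⟨k3, k4⟩ := pair_inj f2 g2 k2
    by_contra hcon
    rw [not_or, Finset.not_subset, Finset.not_subset] at hcon
    obtain ⟨⟨a, ha, hay⟩, a', ha', hax'⟩ := hcon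
    -- no common element: separated
    by_cases hcomm : ∃ z, z ∈ S x ∧ z ∈ S y
    · obtain ⟨z, hzx, hzy⟩ := hcomm
      rcases K2 hr hs (S x) (S y) (hSA x hx) (hSA y hy) (p2 x hx) (p2 y hy) z hzx hzy a ha hay
        a' ha' hax' (fun b hb hb' b' hc hc' => p3 x hx y hy hxy b hb hb' b' hc hc')
        (mn x) (mn y) (mx x) (mx y) ex.1 ex.2 ey.1 ey.2 ex'.1 ex'.2 ey'.1 ey'.2 with h | h
      · have := (hφ (mn x) (hSA x hx _ ex.1)).2 x hx ex.1 y hy (by rw [h]; exact ey.1) hxy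
        rw [← h] at k3
        exact this k3
      · have := (hφ (mx x) (hSA x hx _ ex'.1)).2 x hx ex'.1 y hy (by rw [h]; exact ey'.1) hxy
        rw [← h] at k4
        exact this k4
    · have hd : ∀ b ∈ S x, b ∉ S y := fun b hb hb' => hcomm ⟨b, hb, hb'⟩
      have hd' : ∀ b ∈ S y, b ∉ S x := fun b hb hb' => hcomm ⟨b, hb', hb⟩
      have hJ : ∀ b ∈ S x, ∀ b' ∈ S y, J b b' := fun b hb b' hb' =>
        p3 x hx y hy hxy b hb (hd b hb) b' hb' (hd' b' hb')
      have hsep : (∀ b ∈ S x, ∀ b' ∈ S y, r b < r b') ∨ (∀ b ∈ S x, ∀ b' ∈ S y, r b' < r b) := by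
        by_contra hcon
        rw [not_or] at hcon
        push Not at hcon
        obtain ⟨⟨b, hb, b', hb', h1⟩, e, he, e', he', h2⟩ := hcon
        have hne1 : ∀ u ∈ S x, ∀ v ∈ S y, r u ≠ r v := fun u hu v hv h =>
          hd u hu (by rw [hr.inj u (hSA x hx u hu) v (hSA y hy v hv) h]; exact hv)
        have h1' : r b' < r b := lt_of_le_of_ne h1 (fun h => hne1 b hb b' hb' h.symm)
        have h2' : r e < r e' := lt_of_le_of_ne h2 (hne1 e he e' he')
        rcases lt_or_gt_of_ne (hne1 b hb e' he') with h3 | h3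
        · have := hr.one b' (hSA y hy b' hb') b (hSA x hx b hb) e' (hSA y hy e' he') h1' h3
            (hs _ _ (hJ b hb b' hb')) (hJ b hb e' he')
          exact p2 y hy b' hb' e' he' (fun h => by rw [h] at h1'; omega) this
        · have := hr.one e (hSA x hx e he) e' (hSA y hy e' he') b (hSA x hx b hb) h2' h3
            (hJ e he e' he') (hs _ _ (hJ b hb e' he'))
          exact p2 x hx e he b hb (fun h => by rw [h] at h2'; omega) this
      rcases hsep with h | h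
      · exact hc1' x y ⟨hx, hy, hxy, h⟩ k1
      · exact hc1' y x ⟨hy, hx, hxy.symm, fun b' hb' b hb => h b hb b' hb'⟩ k1.symm

end LO
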