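import Pool.Agent.W_ccb602.LOLab

/-!
# MP_ccb602_co: the path lemma for nice pairs in box graphs

Let `u 0 → ... → u j` be a directed path of arcs of one pattern inside `B`, let every `u i` have a parent `p (u i)` in
`A`, and suppose that either every `p (u i)` is adjacent to `u (i + 1)` or none is, and that the sets `S (u i)` are
monotone along the path.  If the pair is nice then `p (u j)` is adjacent to `u l` for all `l` from
`(ℓ + 2) * k` on (`k` bounds the cliques).
-/

set_option autoImplicit false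

namespace LO

open BoxSS Box85
open SS80 (IP IPin Wk Cn)

variable {V : Type*} {d : ℕ}

/-- a box which meets the ends of a monotone triple meets the middle -/
theorem hit_mid {a b : V → Fin d → ℝ} {τ : Fin d → Bool × Bool}
    {x u v w : V} (h1 : Rel a b τ u v) (h2 : Rel a b τ v w) (hu : Hit a b x u)
    (hw : Hit a b x w) : Hit a b x v := by
  intro t
  obtain ⟨p1, p2, p3, p4⟩ := h1 t
  obtain ⟨q1, q2, q3, q4⟩ := h2 t
  obtain ⟨h3, h4⟩ := hu t
  obtain ⟨h5, h6⟩ := hw t
  rcases hτ1 : (τ t).1 with _ | _ <;> rcases hτ2 : (τ t).2 with _ | _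
  · have := p2 hτ1; have := q2 hτ1; have := p4 hτ2; have := q4 hτ2
    constructor <;> linarith
  · have := p2 hτ1; have := q2 hτ1; have := p3 hτ2; have := q3 hτ2
    constructor <;> linarith
  · have := p1 hτ1; have := q1 hτ1; have := p4 hτ2; have := q4 hτ2
    constructor <;> linarith
  · have := p1 hτ1; have := q1 hτ1; have := p3 hτ2; have := q3 hτ2
    constructor <;> linarith

/-- a monotone run whose ends meet is a clique -/
theorem run_clique {G : SimpleGraph V} {a b : V → Fin d → ℝ} (hab : ∀ i, a i ≤ b i)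
    (hG : ∀ i j, G.Adj i j ↔ i ≠ j ∧ Hit a b i j) {k : ℕ}
    (hk : ∀ s : Finset V, G.IsClique s → s.card ≤ k) {τ : Fin d → Bool × Bool} {r s : ℕ}
    {u : ℕ → V} (ht : ∀ i i', r ≤ i → i < i' → i' ≤ s → TS a b τ (u i) (u i'))
    (hh : Hit a b (u r) (u s)) (hrs : r ≤ s) : s + 1 ≤ r + k := by
  classical
  have hrel : ∀ i i', r ≤ i → i ≤ i' → i' ≤ s → Rel a b τ (u i) (u i') := by
    intro i i' h1 h2 h3
    rcases Nat.eq_or_lt_of_le h2 with h | h
    · rw [h]; exact rel_refl _ _ _ _
    · exact (ht i i' h1 h h3).1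
  have hadj : ∀ i i', r ≤ i → i < i' → i' ≤ s → G.Adj (u i) (u i') := by
    intro i i' h1 h2 h3
    have h4 : Hit a b (u i) (u s) :=
      (rel_between hab (hrel r i le_rfl h1 (by omega)) (hrel i s h1 (by omega) le_rfl) hh).2
    have h5 : Hit a b (u i) (u i') :=
      (rel_between hab (hrel i i' h1 h2.le h3) (hrel i' s (by omega) h3 le_rfl) h4).1
    exact (hG _ _).2 ⟨ts_ne (ht i i' h1 h2 h3), h5⟩
  have hinj : Set.InjOn u (Finset.Icc r s : Finset ℕ) := by
    intro i hi i' hi' hii
    rw [Finset.mem_coe, Finset.mem_Icc] at hi hi'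
    rcases lt_trichotomy i i' with h | h | h
    · exact absurd hii (G.ne_of_adj (hadj i i' hi.1 h hi'.2))
    · exact h
    · exact absurd hii.symm (G.ne_of_adj (hadj i' i hi'.1 h hi.2))
  have h1 := hk ((Finset.Icc r s).image u) (by
    intro x hx y hy hxy
    rw [Finset.mem_coe, Finset.mem_image] at hx hy
    obtain ⟨i, hi, rfl⟩ := hx
    obtain ⟨i', hi', rfl⟩ := hy
    rw [Finset.mem_Icc] at hi hi'
    rcases lt_trichotomy i i' with h | h | h
    · exact hadj i i' hi.1 h hi'.2
    · exact absurd (congrArg u h) hxy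
    · exact (hadj i' i hi'.1 h hi.2).symm)
  rw [Finset.card_image_of_injOn hinj, Nat.card_Icc] at h1
  omega

/-! ### walks -/

theorem wk_cons {G : SimpleGraph V} {S : Set V} {t x v : V} {n : ℕ} (h : Wk G S x v n)
    (htx : G.Adj t x) (hx : x ∈ S) : Wk G S t v (n + 1) := by
  obtain ⟨P, h0, h1, h2, h3⟩ := h
  refine ⟨fun i => Nat.casesOn i t P, rfl, h1, ?_, ?_⟩
  · intro i hi
    cases i with
    | zero =>
      change G.Adj t (P 0)
      rw [h0]; exact htx
    | succ i => exact h2 i (by omega)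
  · intro i hi hi'
    obtain ⟨i, rfl⟩ : ∃ i', i = i' + 1 := ⟨i - 1, by omega⟩
    change P i ∈ S
    rcases Nat.eq_zero_or_pos i with h | h
    · subst h; rw [h0]; exact hx
    · exact h3 i h (by omega)

theorem wk_head {G : SimpleGraph V} {S : Set V} {t v : V} {n : ℕ} (h : Wk G S t v (n + 2)) :
    ∃ x ∈ S, G.Adj t x ∧ Wk G S x v (n + 1) := by
  obtain ⟨P, h0, h1, h2, h3⟩ := h
  refine ⟨P 1, h3 1 (by omega) (by omega), ?_, fun i => P (i + 1), rfl, h1, ?_, ?_⟩
  · have := h2 0 (by omega)
    rw [h0] at this; exact this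
  · intro i hi
    exact h2 (i + 1) (by omega)
  · intro i hi hi'
    exact h3 (i + 1) (by omega) (by omega)

theorem wk_zero {G : SimpleGraph V} {S : Set V} {t v : V} (h : Wk G S t v 0) : t = v := by
  obtain ⟨P, h0, h1, -, -⟩ := h
  exact h0.symm.trans h1

theorem wk_one {G : SimpleGraph V} {S : Set V} {t v : V} (h : Wk G S t v 1) : G.Adj t v := by
  obtain ⟨P, h0, h1, h2, -⟩ := h
  have := h2 0 (by omega)
  rwa [h0, h1] at this

theorem wk_mono {G : SimpleGraph V} {S T : Set V} (hST : S ⊆ T) {t v : V} {n : ℕ}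
    (h : Wk G S t v n) : Wk G T t v n := by
  obtain ⟨P, h0, h1, h2, h3⟩ := h
  exact ⟨P, h0, h1, h2, fun i hi hi' => hST (h3 i hi hi')⟩

/-- a shortest walk is an induced path -/
theorem ipin_min {G : SimpleGraph V} {S : Set V} {u v : V} {n : ℕ} (h : Wk G S u v n)
    (hmin : ∀ m, m < n → ¬ Wk G S u v m) : IPin G S u v n := by
  obtain ⟨P, hP0, hP1, hPa, hPS⟩ := h
  refine ⟨P, ?_, hP0, hP1, hPS⟩
  intro i j hij hj
  constructor
  · intro heq
    refine hmin (n - (j - i)) (by omega)
      ⟨fun t => if t ≤ i then P t else P (t + (j - i)), ?_, ?_, ?_, ?_⟩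
    · simp [hP0]
    · by_cases h1 : n - (j - i) ≤ i
      · have h2 : n = j := by omega
        have h3 : n - (j - i) = i := by omega
        simp only [h3, le_refl, if_true]
        rw [heq, ← h2, hP1]
      · simp only [h1, if_false]
        have h3 : n - (j - i) + (j - i) = n := by omega
        rw [h3, hP1]
    · intro t ht
      by_cases h1 : t + 1 ≤ i
      · have h2 : t ≤ i := by omega
        simp only [h1, h2, if_true]
        exact hPa t (by omega)
      · by_cases h2 : t ≤ i
        · have h3 : t = i := by omega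
          subst h3
          simp only [h1, le_refl, if_true, if_false]
          rw [heq]
          have h4 : t + 1 + (j - t) = j + 1 := by omega
          rw [h4]
          exact hPa j (by omega)
        · simp only [h1, h2, if_false]
          have h4 : t + 1 + (j - i) = t + (j - i) + 1 := by omega
          rw [h4]
          exact hPa _ (by omega)
    · intro t h1 h2
      by_cases h3 : t ≤ i
      · simp only [h3, if_true]
        exact hPS t h1 (by omega)
      · simp only [h3, if_false]
        exact hPS _ (by omega) (by omega)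
  · constructor
    · intro hadj
      by_contra hne'
      refine hmin (n - (j - i - 1)) (by omega)
        ⟨fun t => if t ≤ i then P t else P (t + (j - i - 1)), ?_, ?_, ?_, ?_⟩
      · simp [hP0]
      · have h1 : ¬ n - (j - i - 1) ≤ i := by omega
        simp only [h1, if_false]
        have h3 : n - (j - i - 1) + (j - i - 1) = n := by omega
        rw [h3, hP1]
      · intro t ht
        by_cases h1 : t + 1 ≤ i
        · have h2 : t ≤ i := by omega
          simp only [h1, h2, if_true]
          exact hPa t (by omega)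
        · by_cases h2 : t ≤ i
          · have h3 : t = i := by omega
            subst h3
            simp only [h1, le_refl, if_true, if_false]
            have h4 : t + 1 + (j - t - 1) = j := by omega
            rw [h4]
            exact hadj
          · simp only [h1, h2, if_false]
            have h4 : t + 1 + (j - i - 1) = t + (j - i - 1) + 1 := by omega
            rw [h4]
            exact hPa _ (by omega)
      · intro t h1 h2
        by_cases h3 : t ≤ i
        · simp only [h3, if_true]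
          exact hPS t h1 (by omega)
        · simp only [h3, if_false]
          exact hPS _ (by omega) (by omega)
    · intro h
      rw [h]
      exact hPa i (by omega)

/-! ### the path lemma -/

theorem path_lemma {G : SimpleGraph V} {a b : V → Fin d → ℝ} (hab : ∀ i, a i ≤ b i)
    (hG : ∀ i j, G.Adj i j ↔ i ≠ j ∧ Hit a b i j) {k ℓ : ℕ} (hl : 5 ≤ ℓ)
    (hk : ∀ s : Finset V, G.IsClique s → s.card ≤ k) {τ : Fin d → Bool × Bool}
    {A B : Set V} {S : V → Set V} (hst : ∀ x ∈ A, ∀ y ∈ A, ¬ G.Adj x y)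
    (hnice : ∀ x ∈ B, ∀ y ∈ B, (S x ⊆ S y ∨ S y ⊆ S x) → ∀ a ∈ A, ∀ a' ∈ A, a ≠ a' →
      G.Adj a x → G.Adj a' y → ∀ n, ℓ ≤ n → Odd n → ¬ IPin G B a a' n)
    {p : V → V} (hp : ∀ v ∈ B, p v ∈ A ∧ G.Adj (p v) v ∧ TS a b τ (p v) v)
    {j : ℕ} {u : ℕ → V} (huB : ∀ i ≤ j, u i ∈ B)
    (hua : ∀ i < j, G.Adj (u i) (u (i + 1)) ∧ TS a b τ (u i) (u (i + 1)))
    (hbit : (∀ i < j, G.Adj (p (u i)) (u (i + 1))) ∨ (∀ i < j, ¬ G.Adj (p (u i)) (u (i + 1))))
    (hS : (∀ i < j, S (u i) ⊆ S (u (i + 1))) ∨ (∀ i < j, S (u (i + 1)) ⊆ S (u i)))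
    (l : ℕ) (hKl : (ℓ + 2) * k ≤ l) (hlj : l ≤ j) : G.Adj (p (u j)) (u l) := by
  classical
  -- the order
  have hts : ∀ t r, r + (t + 1) ≤ j → TS a b τ (u r) (u (r + (t + 1))) := by
    intro t
    induction t with
    | zero => intro r hr; exact (hua r (by omega)).2
    | succ t ih =>
      intro r hr
      exact ts_trans _ _ _ (ih r (by omega)) (hua (r + (t + 1)) (by omega)).2
  have hts' : ∀ r s, r < s → s ≤ j → TS a b τ (u r) (u s) := by
    intro r s hrs hs
    obtain ⟨t, rfl⟩ : ∃ t, s = r + (t + 1) := ⟨s - r - 1, by omega⟩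
    exact hts t r hs
  have hrel : ∀ r s, r ≤ s → s ≤ j → Rel a b τ (u r) (u s) := by
    intro r s hrs hs
    rcases Nat.eq_or_lt_of_le hrs with h | h
    · rw [h]; exact rel_refl _ _ _ _
    · exact (hts' r s h hs).1
  have hcomp : ∀ r ≤ j, S (u r) ⊆ S (u j) ∨ S (u j) ⊆ S (u r) := by
    intro r hr
    rcases hS with hS | hS
    · left
      have key : ∀ t, r + t ≤ j → S (u r) ⊆ S (u (r + t)) := by
        intro t
        induction t with
        | zero => intro _; exact Set.Subset.refl _
        | succ t ih => intro ht; exact (ih (by omega)).trans (hS (r + t) (by omega))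
      have := key (j - r) (by omega)
      rwa [show r + (j - r) = j by omega] at this
    · right
      have key : ∀ t, r + t ≤ j → S (u (r + t)) ⊆ S (u r) := by
        intro t
        induction t with
        | zero => intro _; exact Set.Subset.refl _
        | succ t ih => intro ht; exact (hS (r + t) (by omega)).trans (ih (by omega))
      have := key (j - r) (by omega)
      rwa [show r + (j - r) = j by omega] at this
  have hfar : ∀ r s, r ≤ s → s ≤ j → Hit a b (u r) (u s) → s + 1 ≤ r + k := by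
    intro r s hrs hs hh
    exact run_clique hab hG hk (fun i i' _ h2 h3 => hts' i i' h2 (by omega)) hh hrs
  -- `A` and `B` are disjoint
  have hAB : ∀ x ∈ B, x ∉ A := fun x hx hxA => hst _ (hp x hx).1 _ hxA (hp x hx).2.1
  obtain ⟨hjA, hja, hjt⟩ := hp (u j) (huB j le_rfl)
  -- the first contact
  have hex : ∃ m, m ≤ j ∧ G.Adj (p (u j)) (u m) := ⟨j, le_rfl, hja⟩
  obtain ⟨hμj, hμa⟩ := Nat.find_spec hex
  have hμmin : ∀ m, m < Nat.find hex → ¬ G.Adj (p (u j)) (u m) := by
    intro m hm h
    exact Nat.find_min hex hm ⟨by omega, h⟩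
  set μ := Nat.find hex with hμ
  by_contra hnadj
  have hlμ : l < μ := by
    by_contra hle
    rw [not_lt] at hle
    apply hnadj
    refine (hG _ _).2 ⟨?_, ?_⟩
    · intro h
      exact hAB _ (huB l hlj) (h ▸ hjA)
    · exact hit_mid (hrel μ l hle hlj) (hrel l j hlj le_rfl) ((hG _ _).1 hμa).2 ((hG _ _).1 hja).2
  have hμK : (ℓ + 2) * k < μ := lt_of_le_of_lt hKl hlμ
  -- the length
  obtain ⟨T, hT1, hT2, hT3⟩ : ∃ T, ℓ ≤ T ∧ T ≤ ℓ + 1 ∧ Odd T := by
    rcases Nat.even_or_odd ℓ with h | h
    · exact ⟨ℓ + 1, by omega, le_rfl, h.add_one⟩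
    · exact ⟨ℓ, le_rfl, by omega, h⟩
  let D : ℕ → Set V := fun i => {v | ∃ s, i ≤ s ∧ s ≤ μ ∧ v = u s}
  have hDm : ∀ i, D (i + 1) ⊆ D i := by
    rintro i v ⟨s, h1, h2, h3⟩
    exact ⟨s, by omega, h2, h3⟩
  have hDB : ∀ i, D i ⊆ B := by
    rintro i v ⟨s, h1, h2, rfl⟩
    exact huB s (by omega)
  have hne : ∀ i, i < μ → p (u i) ≠ p (u j) := by
    intro i hi h
    apply hμmin i hi
    rw [← h]
    exact (hp (u i) (huB i (by omega))).2.1
  -- walks to `p (u j)` are long
  have hlong : ∀ n s, s ≤ μ → Wk G (D 0) (u s) (p (u j)) (n + 1) → μ ≤ s + (n + 1) * k := by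
    intro n
    induction n with
    | zero =>
      intro s hs hw
      have h1 := wk_one hw
      by_contra hcon
      exact hμmin s (by rw [Nat.zero_add, Nat.one_mul] at hcon; omega) h1.symm
    | succ n ih =>
      intro s hs hw
      obtain ⟨x, ⟨s', -, hs', rfl⟩, hadj, hw'⟩ := wk_head hw
      have h1 := ih s' hs' hw'
      have h2 : s' ≤ s + k := by
        rcases Nat.le_total s' s with h | h
        · omega
        · have := hfar s s' h (by omega) ((hG _ _).1 hadj).2
          omega
      calc μ ≤ s' + (n + 1) * k := h1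
        _ ≤ s + k + (n + 1) * k := by omega
        _ = s + (n + 1 + 1) * k := by ring
  have hP0 : ∀ n < T, ¬ Wk G (D 0) (p (u 0)) (p (u j)) n := by
    intro n hn hw
    have hμ0 : 0 < μ := by omega
    obtain ⟨h0A, h0a, h0t⟩ := hp (u 0) (huB 0 (by omega))
    rcases n with _ | _ | n
    · exact hne 0 hμ0 (wk_zero hw)
    · exact hst _ h0A _ hjA (wk_one hw)
    · obtain ⟨x, ⟨s, -, hs, rfl⟩, hadj, hw'⟩ := wk_head hw
      have h1 := hlong n s hs hw'
      have h2 : Hit a b (u 0) (u s) :=
        (rel_between hab h0t.1 (hrel 0 s (Nat.zero_le _) (by omega)) ((hG _ _).1 hadj).2).2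
      have h3 := hfar 0 s (Nat.zero_le _) (by omega) h2
      have h4 : (n + 2) * k ≤ (ℓ + 2) * k := Nat.mul_le_mul_right k (by omega)
      have h5 : (n + 2) * k = (n + 1) * k + k := by ring
      omega
  have hP1 : ¬ ∀ n < T, ¬ Wk G (D (μ - 1)) (p (u (μ - 1))) (p (u j)) n := by
    intro h
    apply h 3 (by omega)
    obtain ⟨h0A, h0a, h0t⟩ := hp (u (μ - 1)) (huB (μ - 1) (by omega))
    have h1 : Wk G (D (μ - 1)) (u μ) (p (u j)) 1 := by
      refine ⟨fun i => Nat.casesOn i (u μ) (fun _ => p (u j)), rfl, rfl, ?_, ?_⟩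
      · intro i hi
        have : i = 0 := by omega
        subst this
        exact hμa.symm
      · intro i hi hi'
        omega
    have h2 : Wk G (D (μ - 1)) (u (μ - 1)) (p (u j)) 2 := by
      refine wk_cons h1 ?_ ⟨μ, by omega, le_rfl, rfl⟩
      have := (hua (μ - 1) (by omega)).1
      rwa [show μ - 1 + 1 = μ by omega] at this
    exact wk_cons h2 h0a ⟨μ - 1, le_rfl, by omega, rfl⟩
  -- the last index with long walks
  obtain ⟨i, hi, hPi, hPi'⟩ : ∃ i, i + 1 ≤ μ - 1 ∧
      (∀ n < T, ¬ Wk G (D i) (p (u i)) (p (u j)) n) ∧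
      ¬ ∀ n < T, ¬ Wk G (D (i + 1)) (p (u (i + 1))) (p (u j)) n := by
    have hex2 : ∃ m, ¬ ∀ n < T, ¬ Wk G (D m) (p (u m)) (p (u j)) n := ⟨μ - 1, hP1⟩
    have h1 := Nat.find_spec hex2
    have h2 : Nat.find hex2 ≤ μ - 1 := Nat.find_min' hex2 hP1
    have h3 : Nat.find hex2 ≠ 0 := by
      intro h
      rw [h] at h1
      exact h1 hP0
    refine ⟨Nat.find hex2 - 1, by omega, ?_, ?_⟩
    · exact not_not.1 (Nat.find_min hex2 (show Nat.find hex2 - 1 < Nat.find hex2 by omega))
    · rwa [show Nat.find hex2 - 1 + 1 = Nat.find hex2 by omega]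
  simp only [not_forall, not_not] at hPi'
  obtain ⟨n, hn, hw⟩ := hPi'
  obtain ⟨hiA, hia, hit⟩ := hp (u i) (huB i (by omega))
  obtain ⟨hiA', hia', hit'⟩ := hp (u (i + 1)) (huB (i + 1) (by omega))
  have hfin : ∀ m, m ≤ T → ¬ Wk G (D i) (p (u i)) (p (u j)) m := by
    intro m hm hwm
    have hmT : m = T := by
      by_contra hne'
      exact hPi m (by omega) hwm
    subst hmT
    exact hnice (u i) (huB i (by omega)) (u j) (huB j le_rfl) (hcomp i (by omega)) _ hiA _ hjA
      (hne i (by omega)) hia hja m hT1 hT3 ((ipin_min hwm hPi).mono (hDB i))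
  rcases n with _ | _ | n
  · exact hne (i + 1) (by omega) (wk_zero hw)
  · exact hst _ hiA' _ hjA (wk_one hw)
  · obtain ⟨x, ⟨s, hs1, hs2, rfl⟩, hadj, hw'⟩ := wk_head hw
    have hw'' : Wk G (D i) (u s) (p (u j)) (n + 1) := wk_mono (hDm i) hw'
    rcases hbit with hbit | hbit
    · -- the parents see the next vertex
      have hb := hbit i (by omega)
      rcases Nat.eq_or_lt_of_le hs1 with h | h
      · subst h
        exact hfin (n + 1 + 1) (by omega) (wk_cons hw'' hb ⟨i + 1, by omega, hs2, rfl⟩)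
      · have h1 : Hit a b (u (i + 1)) (u s) :=
          (rel_between hab hit'.1 (hrel (i + 1) s hs1 (by omega)) ((hG _ _).1 hadj).2).2
        have h2 : G.Adj (u (i + 1)) (u s) := (hG _ _).2 ⟨ts_ne (hts' _ _ h (by omega)), h1⟩
        exact hfin (n + 1 + 1 + 1) (by omega)
          (wk_cons (wk_cons hw'' h2 ⟨s, by omega, hs2, rfl⟩) hb ⟨i + 1, by omega, by omega, rfl⟩)
    · -- the parents do not see the next vertex
      have h1 : s = i + 1 := by
        by_contra hsi
        apply hbit (i + 1) (by omega)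
        refine (hG _ _).2 ⟨?_, ?_⟩
        · intro h
          exact hAB _ (huB (i + 1 + 1) (by omega)) (h ▸ hiA')
        · have h2 : Rel a b τ (p (u (i + 1))) (u (i + 1 + 1)) :=
            rel_trans hit'.1 (hrel (i + 1) (i + 1 + 1) (by omega) (by omega))
          exact (rel_between hab h2 (hrel (i + 1 + 1) s (by omega) (by omega))
            ((hG _ _).1 hadj).2).1
      subst h1
      exact hfin (n + 1 + 1 + 1) (by omega)
        (wk_cons (wk_cons hw'' (hua i (by omega)).1 ⟨i + 1, by omega, hs2, rfl⟩) hia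
          ⟨i, le_rfl, by omega, rfl⟩)

/-- the path lemma in the form of `LOLab` -/
theorem path : PathStmt := by
  intro V _ d G a b hab hG k hk τ R hRa hRt ℓ hl A B hst p hp S hnice q w j hw l hKl hlj
  have hk1 : 1 ≤ k := by
    have h := hk {w 0} (by simp)
    rwa [Finset.card_singleton] at h
  have hpos : 1 ≤ (ℓ + 2) * k := by nlinarith
  have hB : ∀ i ≤ j, w i ∈ B := by
    intro i hi
    rcases Nat.eq_or_lt_of_le hi with h | h
    · have := (hw (i - 1) (by omega)).2.1
      rwa [show i - 1 + 1 = i by omega] at this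
    · exact (hw i h).1
  refine path_lemma hab hG hl hk (τ := τ) hst hnice
    (fun v hv => ⟨(hp v hv).1, hRa _ _ (hp v hv).2, hRt _ _ (hp v hv).2⟩) hB
    (fun i hi => ⟨hRa _ _ (hw i hi).2.2.1, hRt _ _ (hw i hi).2.2.1⟩) ?_ ?_ l hKl hlj
  · rcases hq : q.2.1 with _ | _
    · right
      intro i hi h
      have := (hw i hi).2.2.2.2.1.2 h
      rw [hq] at this
      exact absurd this (by decide)
    · left
      intro i hi
      exact (hw i hi).2.2.2.2.1.1 hq
  · rcases hq : q.2.2 with _ | _
    · right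
      intro i hi
      rcases (hw i hi).2.2.2.2.2 with ⟨h, -⟩ | ⟨-, h⟩
      · rw [hq] at h
        exact absurd h (by decide)
      · exact h
    · left
      intro i hi
      rcases (hw i hi).2.2.2.2.2 with ⟨-, h⟩ | ⟨h, -⟩
      · exact h
      · rw [hq] at h
        exact absurd h (by decide)

end LO
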