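import Pool.Agent.W_ccb602.LOIface
import Pool.Agent.W_ccb602.SSLevel

/-!
# MP_ccb602_co: the pentagon lemma

See table proofs, id 417 (helper43), Lemma F'.  No connected graph contains five vertices such that the induced
paths between them have the parities of a 5-cycle, up to switching (`pent`).
-/

set_option autoImplicit false

namespace LO

open SS80 (IP IPin Wk Cn)

variable {V : Type*}

/-- a side of a cut vertex is joined to it -/
theorem pent_conn_side {G : SimpleGraph V} {H Z : Set V} {v : V} (hZ : ∀ z ∈ Z, z ∈ H ∧ z ≠ v)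
    (hcl : ∀ y ∈ Z, ∀ z ∈ H, z ≠ v → G.Adj y z → z ∈ Z) {y : V} (h : Cn G H y v) (hy : y ∈ Z) :
    ∃ b ∈ Z, Cn G Z y b ∧ G.Adj b v := by
  revert hy
  refine Relation.ReflTransGen.head_induction_on h ?_ ?_
  · intro hv
    exact absurd rfl (hZ v hv).2
  · rintro a c ⟨hac, ha, hc⟩ _ ih haZ
    by_cases hcv : c = v
    · subst hcv
      exact ⟨a, haZ, Relation.ReflTransGen.refl, hac⟩
    · have hcZ : c ∈ Z := hcl a haZ c hc hcv hac
      obtain ⟨b, hb, h1, h2⟩ := ih hcZ
      exact ⟨b, hb, (SS80.Cn.single hac haZ hcZ).trans h1, h2⟩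

/-- a side together with the cut vertex is connected -/
theorem pent_conn_insert {G : SimpleGraph V} {Z : Set V} {v : V}
    (h : ∀ y ∈ Z, ∃ b ∈ Z, Cn G Z y b ∧ G.Adj b v) :
    ∀ x ∈ insert v Z, ∀ y ∈ insert v Z, Cn G (insert v Z) x y := by
  have key : ∀ x ∈ insert v Z, Cn G (insert v Z) x v := by
    rintro x (rfl | hx)
    · exact Relation.ReflTransGen.refl
    · obtain ⟨b, hb, h1, h2⟩ := h x hx
      exact (h1.mono (Set.subset_insert _ _)).trans
        (SS80.Cn.single h2 (Set.mem_insert_of_mem _ hb) (Set.mem_insert _ _))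
  intro x hx y hy
  exact (key x hx).trans (key y hy).symm

/-- an induced path from a vertex of a side to the cut vertex -/
theorem pent_to {G : SimpleGraph V} {Z : Set V} {v y : V}
    (h : ∃ b ∈ Z, Cn G Z y b ∧ G.Adj b v) : ∃ n, IPin G Z y v n := by
  obtain ⟨b, hb, h1, h2⟩ := h
  rcases Relation.ReflTransGen.cases_head h1 with h3 | ⟨c, ⟨h3, h4, h5⟩, h6⟩
  · subst h3
    exact ⟨1, SS80.ipin_one h2⟩
  · exact SS80.Cn.ipin (show Cn G Z c b from h6) h5 h3 h2

/-- concatenation of two induced paths at a cut vertex -/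
theorem pent_concat {G : SimpleGraph V} {H X Y : Set V} {v a b : V} {p q : ℕ} (hv : v ∈ H)
    (hX : X ⊆ H) (hY : Y ⊆ H) (hXY : ∀ x ∈ X, ∀ y ∈ Y, x ≠ y ∧ ¬ G.Adj x y)
    (hP : IPin G X a v p) (hQ : IPin G Y v b q) (ha : 0 < p → a ∈ X) (hb : 0 < q → b ∈ Y) :
    IPin G H a b (p + q) := by
  obtain ⟨P, hP, hP0, hP1, hPS⟩ := hP
  obtain ⟨Q, hQ, hQ0, hQ1, hQS⟩ := hQ
  have hPX : ∀ i, i < p → P i ∈ X := by
    intro i hi
    rcases Nat.eq_zero_or_pos i with h0 | h0
    · subst h0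
      rw [hP0]
      exact ha hi
    · exact hPS i h0 hi
  have hQY : ∀ i, 0 < i → i ≤ q → Q i ∈ Y := by
    intro i hi hi'
    rcases Nat.eq_or_lt_of_le hi' with h0 | h0
    · subst h0
      rw [hQ1]
      exact hb hi
    · exact hQS i hi h0
  refine ⟨fun i => if i ≤ p then P i else Q (i - p), ?_, ?_, ?_, ?_⟩
  · intro i j hij hj
    by_cases hjp : j ≤ p
    · have hip : i ≤ p := by omega
      simp only [hjp, hip, if_true]
      exact hP i j hij hjp
    · by_cases hip : i ≤ p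
      · simp only [hjp, hip, if_true, if_false]
        rcases Nat.eq_or_lt_of_le hip with h0 | h0
        · rw [h0, hP1, ← hQ0]
          obtain ⟨h1, h2⟩ := hQ 0 (j - p) (by omega) (by omega)
          refine ⟨h1, h2.trans ?_⟩
          omega
        · obtain ⟨h1, h2⟩ := hXY _ (hPX i h0) _ (hQY (j - p) (by omega) (by omega))
          refine ⟨h1, ⟨fun h => absurd h h2, fun h => ?_⟩⟩
          omega
      · simp only [hjp, hip, if_false]
        obtain ⟨h1, h2⟩ := hQ (i - p) (j - p) (by omega) (by omega)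
        refine ⟨h1, h2.trans ?_⟩
        omega
  · simp [hP0]
  · by_cases h0 : p + q ≤ p
    · have hq : q = 0 := by omega
      subst hq
      simp only [h0, if_true]
      rw [Nat.add_zero, hP1, ← hQ0, hQ1]
    · simp only [h0, if_false]
      rw [Nat.add_sub_cancel_left, hQ1]
  · intro i hi hi'
    by_cases hip : i ≤ p
    · simp only [hip, if_true]
      rcases Nat.eq_or_lt_of_le hip with h0 | h0
      · rw [h0, hP1]
        exact hv
      · exact hX (hPX i h0)
    · simp only [hip, if_false]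
      exact hY (hQY _ (by omega) (by omega))

theorem c5_symm (i j : Fin 5) : c5 i j = c5 j i := by
  revert i j
  decide

theorem c5_pair : ∀ j l : Fin 5, j ≠ l → ∃ k m : Fin 5, k ≠ j ∧ k ≠ l ∧ m ≠ j ∧ m ≠ l ∧
    (c5 j k + c5 l k) % 2 ≠ (c5 j m + c5 l m) % 2 := by
  decide

/-- every graph in the switching class of the 5-cycle contains an induced path with three edges -/
theorem c5_switch : ∀ a b c d e : Bool, ∃ i j k l : Fin 5, i ≠ j ∧ i ≠ k ∧ i ≠ l ∧ j ≠ k ∧ j ≠ l ∧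
    k ≠ l ∧
    (c5 i j + (![a, b, c, d, e] i).toNat + (![a, b, c, d, e] j).toNat) % 2 = 1 ∧
    (c5 j k + (![a, b, c, d, e] j).toNat + (![a, b, c, d, e] k).toNat) % 2 = 1 ∧
    (c5 k l + (![a, b, c, d, e] k).toNat + (![a, b, c, d, e] l).toNat) % 2 = 1 ∧
    (c5 i k + (![a, b, c, d, e] i).toNat + (![a, b, c, d, e] k).toNat) % 2 = 0 ∧
    (c5 i l + (![a, b, c, d, e] i).toNat + (![a, b, c, d, e] l).toNat) % 2 = 0 ∧
    (c5 j l + (![a, b, c, d, e] j).toNat + (![a, b, c, d, e] l).toNat) % 2 = 0 := by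
  decide +kernel

theorem c5_switch' (x : Fin 5 → ℕ) : ∃ i j k l : Fin 5, i ≠ j ∧ i ≠ k ∧ i ≠ l ∧ j ≠ k ∧ j ≠ l ∧
    k ≠ l ∧ (c5 i j + x i + x j) % 2 = 1 ∧ (c5 j k + x j + x k) % 2 = 1 ∧
    (c5 k l + x k + x l) % 2 = 1 ∧ (c5 i k + x i + x k) % 2 = 0 ∧
    (c5 i l + x i + x l) % 2 = 0 ∧ (c5 j l + x j + x l) % 2 = 0 := by
  have hb : ∀ n : ℕ, (decide (n % 2 = 1)).toNat = n % 2 := by
    intro n
    rcases Nat.mod_two_eq_zero_or_one n with h | h <;> simp [h]
  have hx : ∀ i, (![decide (x 0 % 2 = 1), decide (x 1 % 2 = 1), decide (x 2 % 2 = 1),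
      decide (x 3 % 2 = 1), decide (x 4 % 2 = 1)] i).toNat = x i % 2 := by
    intro i
    fin_cases i
    · exact hb (x 0)
    · exact hb (x 1)
    · exact hb (x 2)
    · exact hb (x 3)
    · exact hb (x 4)
  obtain ⟨i, j, k, l, h1, h2, h3, h4, h5, h6, h7, h8, h9, h10, h11, h12⟩ :=
    c5_switch (decide (x 0 % 2 = 1)) (decide (x 1 % 2 = 1)) (decide (x 2 % 2 = 1))
      (decide (x 3 % 2 = 1)) (decide (x 4 % 2 = 1))
  rw [hx, hx] at h7 h8 h9 h10 h11 h12
  refine ⟨i, j, k, l, h1, h2, h3, h4, h5, h6, ?_, ?_, ?_, ?_, ?_, ?_⟩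
  · omega
  · omega
  · omega
  · omega
  · omega
  · omega

/-- the possible positions of the five vertices with respect to a cut vertex (`0`: first side, `1`: the cut
vertex, `2`: second side) -/
theorem pent_cases : ∀ a b c d e : Fin 3,
    (∀ i j : Fin 5, ![a, b, c, d, e] i = 1 → ![a, b, c, d, e] j = 1 → i = j) →
    (∀ i : Fin 5, ![a, b, c, d, e] i ≠ 0) ∨ (∀ i : Fin 5, ![a, b, c, d, e] i ≠ 2) ∨
    ((∀ i : Fin 5, ![a, b, c, d, e] i ≠ 1) ∧ ∃ i : Fin 5, ![a, b, c, d, e] i = 0 ∧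
      ∀ j : Fin 5, j ≠ i → ![a, b, c, d, e] j = 2) ∨
    ((∀ i : Fin 5, ![a, b, c, d, e] i ≠ 1) ∧ ∃ i : Fin 5, ![a, b, c, d, e] i = 2 ∧
      ∀ j : Fin 5, j ≠ i → ![a, b, c, d, e] j = 0) ∨
    (∃ j l : Fin 5, j ≠ l ∧ ![a, b, c, d, e] j ≠ 2 ∧ ![a, b, c, d, e] l ≠ 2 ∧
      ∀ k : Fin 5, k ≠ j → k ≠ l → ![a, b, c, d, e] k ≠ 0) ∨
    (∃ j l : Fin 5, j ≠ l ∧ ![a, b, c, d, e] j ≠ 0 ∧ ![a, b, c, d, e] l ≠ 0 ∧
      ∀ k : Fin 5, k ≠ j → k ≠ l → ![a, b, c, d, e] k ≠ 2) := by
  decide +kernel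

theorem pent_cases' (s : Fin 5 → Fin 3) (hs : ∀ i j, s i = 1 → s j = 1 → i = j) :
    (∀ i, s i ≠ 0) ∨ (∀ i, s i ≠ 2) ∨
    ((∀ i, s i ≠ 1) ∧ ∃ i, s i = 0 ∧ ∀ j, j ≠ i → s j = 2) ∨
    ((∀ i, s i ≠ 1) ∧ ∃ i, s i = 2 ∧ ∀ j, j ≠ i → s j = 0) ∨
    (∃ j l, j ≠ l ∧ s j ≠ 2 ∧ s l ≠ 2 ∧ ∀ k, k ≠ j → k ≠ l → s k ≠ 0) ∨
    (∃ j l, j ≠ l ∧ s j ≠ 0 ∧ s l ≠ 0 ∧ ∀ k, k ≠ j → k ≠ l → s k ≠ 2) := by
  have h : s = ![s 0, s 1, s 2, s 3, s 4] := by
    funext i
    fin_cases i <;> rfl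
  rw [h] at hs ⊢
  exact pent_cases _ _ _ _ _ hs

/-- the hypotheses of the pentagon lemma -/
def Pent5 (G : SimpleGraph V) (H : Set V) (t : Fin 5 → V) (x : Fin 5 → ℕ) : Prop :=
  (∀ a ∈ H, ∀ b ∈ H, Cn G H a b) ∧ Function.Injective t ∧ (∀ i, t i ∈ H) ∧
  ∀ i j, i ≠ j → ∀ n, IPin G H (t i) (t j) n → n % 2 = (c5 i j + x i + x j) % 2

/-- `v` is a cut vertex of `H` with the sides `X` and `Y` -/
structure PCut (G : SimpleGraph V) (H X Y : Set V) (v : V) : Prop where
  hv : v ∈ H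
  vX : v ∉ X
  vY : v ∉ Y
  cov : ∀ z ∈ H, z = v ∨ z ∈ X ∨ z ∈ Y
  subX : X ⊆ H
  subY : Y ⊆ H
  anti : ∀ x ∈ X, ∀ y ∈ Y, x ≠ y ∧ ¬ G.Adj x y
  cX : ∀ y ∈ X, ∃ b ∈ X, Cn G X y b ∧ G.Adj b v
  cY : ∀ y ∈ Y, ∃ b ∈ Y, Cn G Y y b ∧ G.Adj b v
  neX : X.Nonempty
  neY : Y.Nonempty

theorem PCut.symm {G : SimpleGraph V} {H X Y : Set V} {v : V} (h : PCut G H X Y v) :
    PCut G H Y X v where
  hv := h.hv
  vX := h.vY
  vY := h.vX
  cov := fun z hz => by
    rcases h.cov z hz with h1 | h1 | h1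
    · exact Or.inl h1
    · exact Or.inr (Or.inr h1)
    · exact Or.inr (Or.inl h1)
  subX := h.subY
  subY := h.subX
  anti := fun x hx y hy => ⟨fun h1 => (h.anti y hy x hx).1 h1.symm,
    fun h1 => (h.anti y hy x hx).2 h1.symm⟩
  cX := h.cY
  cY := h.cX
  neX := h.neY
  neY := h.neX

theorem PCut.ncard_lt [Finite V] {G : SimpleGraph V} {H X Y : Set V} {v : V}
    (h : PCut G H X Y v) : (insert v Y).ncard < H.ncard := by
  refine Set.ncard_lt_ncard ?_ (Set.toFinite _)
  obtain ⟨x, hx⟩ := h.neX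
  refine ⟨Set.insert_subset h.hv h.subY, fun h1 => ?_⟩
  rcases h1 (h.subX hx) with h2 | h2
  · subst h2
    exact h.vX hx
  · exact (h.anti x hx x h2).1 rfl

theorem PCut.mk' {G : SimpleGraph V} {H : Set V} (hH : ∀ a ∈ H, ∀ b ∈ H, Cn G H a b) {v a b : V}
    (hv : v ∈ H) (ha : a ∈ H \ {v}) (hb : b ∈ H \ {v}) (hab : ¬ Cn G (H \ {v}) a b) :
    PCut G H {y | y ∈ H \ {v} ∧ Cn G (H \ {v}) a y} {y | y ∈ H \ {v} ∧ ¬ Cn G (H \ {v}) a y} v where
  hv := hv
  vX := fun h => h.1.2 rfl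
  vY := fun h => h.1.2 rfl
  cov := fun z hz => by
    by_cases hzv : z = v
    · exact Or.inl hzv
    · by_cases h1 : Cn G (H \ {v}) a z
      · exact Or.inr (Or.inl ⟨⟨hz, hzv⟩, h1⟩)
      · exact Or.inr (Or.inr ⟨⟨hz, hzv⟩, h1⟩)
  subX := fun z hz => hz.1.1
  subY := fun z hz => hz.1.1
  anti := fun x hx y hy => by
    refine ⟨fun h1 => hy.2 (h1 ▸ hx.2), fun h1 => hy.2 ?_⟩
    exact hx.2.trans (SS80.Cn.single h1 hx.1 hy.1)
  cX := fun y hy => by
    refine pent_conn_side (H := H) (v := v) (fun z hz => ⟨hz.1.1, hz.1.2⟩) ?_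
      (hH y hy.1.1 v hv) hy
    intro y hy z hz hzv hyz
    exact ⟨⟨hz, hzv⟩, hy.2.trans (SS80.Cn.single hyz hy.1 ⟨hz, hzv⟩)⟩
  cY := fun y hy => by
    refine pent_conn_side (H := H) (v := v) (fun z hz => ⟨hz.1.1, hz.1.2⟩) ?_
      (hH y hy.1.1 v hv) hy
    intro y hy z hz hzv hyz
    exact ⟨⟨hz, hzv⟩, fun h1 => hy.2 (h1.trans (SS80.Cn.single hyz.symm ⟨hz, hzv⟩ hy.1))⟩
  neX := ⟨a, ha, Relation.ReflTransGen.refl⟩
  neY := ⟨b, hb, hab⟩

/-- paths from the side or the cut vertex to the cut vertex -/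
theorem PCut.dist {G : SimpleGraph V} {H X Y : Set V} {v : V} (h : PCut G H X Y v) {u : V}
    (hu : u ∈ X ∨ u = v) : ∃ n, IPin G X u v n ∧ (0 < n → u ∈ X) := by
  rcases hu with hu | hu
  · obtain ⟨n, hn⟩ := pent_to (h.cX u hu)
    exact ⟨n, hn, fun _ => hu⟩
  · subst hu
    refine ⟨0, ⟨fun _ => u, ?_, rfl, rfl, ?_⟩, fun h => absurd h (lt_irrefl 0)⟩
    · intro i j h1 h2
      omega
    · intro i h1 h2
      omega

/-- no vertex in one side -/
theorem PCut.stepA {G : SimpleGraph V} {H X Y : Set V} {v : V} (h : PCut G H X Y v)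
    {t : Fin 5 → V} {x : Fin 5 → ℕ} (ht : Pent5 G H t x) (hX : ∀ i, t i ∉ X) :
    Pent5 G (insert v Y) t x := by
  obtain ⟨h1, h2, h3, h4⟩ := ht
  refine ⟨pent_conn_insert h.cY, h2, ?_, ?_⟩
  · intro i
    rcases h.cov _ (h3 i) with h5 | h5 | h5
    · rw [h5]
      exact Set.mem_insert _ _
    · exact absurd h5 (hX i)
    · exact Set.mem_insert_of_mem _ h5
  · intro i j hij n hn
    exact h4 i j hij n (hn.mono (Set.insert_subset h.hv h.subY))

/-- exactly one vertex in one side -/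
theorem PCut.stepB {G : SimpleGraph V} {H X Y : Set V} {v : V} (h : PCut G H X Y v)
    {t : Fin 5 → V} {x : Fin 5 → ℕ} (ht : Pent5 G H t x) {i : Fin 5} (hi : t i ∈ X)
    (hY : ∀ j, j ≠ i → t j ∈ Y) :
    ∃ t' x', Pent5 G (insert v Y) t' x' := by
  obtain ⟨h1, h2, h3, h4⟩ := ht
  obtain ⟨r, hr, -⟩ := h.dist (Or.inl hi)
  have hne : ∀ j, j ≠ i → t j ≠ v := by
    intro j hj h5
    exact h.vY (h5 ▸ hY j hj)
  have key : ∀ j, j ≠ i → ∀ n, IPin G (insert v Y) v (t j) n →
      n % 2 = (c5 i j + (x i + r) + x j) % 2 := by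
    intro j hj n hn
    have h5 : IPin G Y v (t j) n := by
      refine hn.diff.mono ?_
      rintro z ⟨hz | hz, hz'⟩
      · exact absurd (Or.inl hz) hz'
      · exact hz
    have h6 := h4 i j hj.symm _ (pent_concat h.hv h.subX h.subY h.anti hr h5 (fun _ => hi)
      (fun _ => hY j hj))
    omega
  refine ⟨Function.update t i v, Function.update x i (x i + r), pent_conn_insert h.cY, ?_, ?_, ?_⟩
  · intro a b hab
    by_cases ha : a = i
    · by_cases hb : b = i
      · rw [ha, hb]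
      · rw [ha, Function.update_self, Function.update_of_ne hb] at hab
        exact absurd hab.symm (hne b hb)
    · by_cases hb : b = i
      · rw [hb, Function.update_self, Function.update_of_ne ha] at hab
        exact absurd hab (hne a ha)
      · rw [Function.update_of_ne ha, Function.update_of_ne hb] at hab
        exact h2 hab
  · intro a
    by_cases ha : a = i
    · rw [ha, Function.update_self]
      exact Set.mem_insert _ _
    · rw [Function.update_of_ne ha]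
      exact Set.mem_insert_of_mem _ (hY a ha)
  · intro a b hab n hn
    by_cases ha : a = i
    · have hb : b ≠ i := fun h5 => hab (ha.trans h5.symm)
      subst ha
      rw [Function.update_self, Function.update_of_ne hb] at hn ⊢
      exact key b hb n hn
    · by_cases hb : b = i
      · subst hb
        rw [Function.update_self, Function.update_of_ne ha] at hn ⊢
        have h5 := key a ha n hn.symm
        rw [c5_symm a b]
        omega
      · rw [Function.update_of_ne ha, Function.update_of_ne hb] at hn ⊢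
        exact h4 a b hab n (hn.mono (Set.insert_subset h.hv h.subY))

/-- two vertices on one side and three on the other side -/
theorem PCut.stepC {G : SimpleGraph V} {H X Y : Set V} {v : V} (h : PCut G H X Y v)
    {t : Fin 5 → V} {x : Fin 5 → ℕ} (ht : Pent5 G H t x) {j l : Fin 5} (hjl : j ≠ l)
    (hj : t j ∈ X ∨ t j = v) (hl : t l ∈ X ∨ t l = v)
    (hk : ∀ k, k ≠ j → k ≠ l → t k ∈ Y ∨ t k = v) : False := by
  obtain ⟨h1, h2, h3, h4⟩ := ht
  obtain ⟨k, m, h5, h6, h7, h8, h9⟩ := c5_pair j l hjl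
  obtain ⟨rj, hrj, hrj'⟩ := h.dist hj
  obtain ⟨rl, hrl, hrl'⟩ := h.dist hl
  obtain ⟨rk, hrk, hrk'⟩ := h.symm.dist (hk k h5 h6)
  obtain ⟨rm, hrm, hrm'⟩ := h.symm.dist (hk m h7 h8)
  have e1 := h4 j k h5.symm _ (pent_concat h.hv h.subX h.subY h.anti hrj hrk.symm hrj' hrk')
  have e2 := h4 l k h6.symm _ (pent_concat h.hv h.subX h.subY h.anti hrl hrk.symm hrl' hrk')
  have e3 := h4 j m h7.symm _ (pent_concat h.hv h.subX h.subY h.anti hrj hrm.symm hrj' hrm')
  have e4 := h4 l m h8.symm _ (pent_concat h.hv h.subX h.subY h.anti hrl hrm.symm hrl' hrm')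
  omega

/-- the case that `H` consists of the five vertices and has no cut vertex -/
theorem pent_base {G : SimpleGraph V} {H : Set V} {t : Fin 5 → V} {x : Fin 5 → ℕ}
    (ht : Pent5 G H t x) (hH : ∀ v ∈ H, ∃ i, t i = v)
    (hcut : ∀ v ∈ H, ∀ a ∈ H \ {v}, ∀ b ∈ H \ {v}, Cn G (H \ {v}) a b) : False := by
  obtain ⟨h1, h2, h3, h4⟩ := ht
  have F1 : ∀ i j, i ≠ j → ∃ k, k ≠ i ∧ k ≠ j ∧ G.Adj (t i) (t k) := by
    intro i j hij
    obtain ⟨m, hmi, hmj⟩ : ∃ m : Fin 5, m ≠ i ∧ m ≠ j := by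
      revert i j
      decide
    have h5 := hcut (t j) (h3 j) (t i) ⟨h3 i, fun h => hij (h2 h)⟩ (t m)
      ⟨h3 m, fun h => hmj (h2 h)⟩
    rcases Relation.ReflTransGen.cases_head h5 with h6 | ⟨c, ⟨h6, h7, h8⟩, -⟩
    · exact absurd (h2 h6).symm hmi
    · obtain ⟨k, rfl⟩ := hH c h8.1
      refine ⟨k, ?_, ?_, h6⟩
      · rintro rfl
        exact G.irrefl h6
      · rintro rfl
        exact h8.2 rfl
  have F2 : ∀ i j, i ≠ j → ¬ G.Adj (t i) (t j) → ∃ k, G.Adj (t i) (t k) ∧ G.Adj (t k) (t j) := by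
    intro i j hij hna
    by_contra hno
    push_neg at hno
    obtain ⟨a, ha, ha', haA⟩ := F1 i j hij
    obtain ⟨b, hb, hb', hbA⟩ := F1 i a ha.symm
    obtain ⟨c, hc, hc', hcA⟩ := F1 j i hij.symm
    obtain ⟨d, hd, hd', hdA⟩ := F1 j c hc.symm
    have hbj : b ≠ j := by
      rintro rfl
      exact hna hbA
    have hdi : d ≠ i := by
      rintro rfl
      exact hna hdA.symm
    have hac : a ≠ c := by
      rintro rfl
      exact hno a haA hcA.symm
    have had : a ≠ d := by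
      rintro rfl
      exact hno a haA hdA.symm
    have hbc : b ≠ c := by
      rintro rfl
      exact hno b hbA hcA.symm
    have hbd : b ≠ d := by
      rintro rfl
      exact hno b hbA hdA.symm
    omega
  have hadj : ∀ i j, i ≠ j → (G.Adj (t i) (t j) ↔ (c5 i j + x i + x j) % 2 = 1) := by
    intro i j hij
    constructor
    · intro h5
      have h6 := h4 i j hij 1 (SS80.ipin_one h5)
      omega
    · intro h5
      by_contra h6
      obtain ⟨k, h7, h8⟩ := F2 i j hij h6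
      have h9 := h4 i j hij 2 (SS80.ipin_two h7 h8 (fun h => hij (h2 h)) h6 (h3 k))
      omega
  obtain ⟨i, j, k, l, e1, e2, e3, e4, e5, e6, g1, g2, g3, g4, g5, g6⟩ := c5_switch' x
  have k4 : ¬ G.Adj (t i) (t k) := by
    rw [hadj i k e2]
    omega
  have k5 : ¬ G.Adj (t i) (t l) := by
    rw [hadj i l e3]
    omega
  have k6 : ¬ G.Adj (t j) (t l) := by
    rw [hadj j l e5]
    omega
  have h9 := h4 i l e3 3 (SS80.ipin_three ((hadj i j e1).2 g1) ((hadj j k e4).2 g2)
    ((hadj k l e6).2 g3) k4 k6 k5 (fun h => e3 (h2 h)) (fun h => e2 (h2 h))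
    (fun h => e5 (h2 h)) (h3 j) (h3 k))
  omega

/-- the pentagon lemma -/
theorem pent_aux [Finite V] {G : SimpleGraph V} : ∀ (n : ℕ) (H : Set V) (t : Fin 5 → V)
    (x : Fin 5 → ℕ), H.ncard < n → Pent5 G H t x → False := by
  intro n
  induction n with
  | zero =>
    intro H t x hn _
    omega
  | succ n ih =>
    intro H t x hn ht
    by_cases hcut : ∃ v ∈ H, ∃ a ∈ H \ {v}, ∃ b ∈ H \ {v}, ¬ Cn G (H \ {v}) a b
    · obtain ⟨v, hv, a, ha, b, hb, hab⟩ := hcut
      have hc := PCut.mk' ht.1 hv ha hb hab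
      set X : Set V := {y | y ∈ H \ {v} ∧ Cn G (H \ {v}) a y} with hX
      set Y : Set V := {y | y ∈ H \ {v} ∧ ¬ Cn G (H \ {v}) a y} with hY
      have hlt := hc.ncard_lt
      have hlt' := hc.symm.ncard_lt
      classical
      let s : Fin 5 → Fin 3 := fun i => if t i = v then 1 else if t i ∈ X then 0 else 2
      have s1 : ∀ i, s i = 1 → t i = v := by
        intro i hi
        by_contra h1
        simp only [s, h1, if_false] at hi
        split_ifs at hi <;> exact absurd hi (by decide)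
      have s1' : ∀ i, s i ≠ 1 → t i ≠ v := by
        intro i hi h1
        exact hi (if_pos h1)
      have s0 : ∀ i, s i = 0 → t i ∈ X := by
        intro i hi
        by_contra h1
        simp only [s, h1, if_false] at hi
        split_ifs at hi <;> exact absurd hi (by decide)
      have s0' : ∀ i, t i ∈ X → s i = 0 := by
        intro i hi
        have h1 : t i ≠ v := fun h => hc.vX (h ▸ hi)
        simp only [s, h1, hi, if_false, if_true]
      have s2 : ∀ i, s i = 2 → t i ∈ Y := by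
        intro i hi
        have h1 : t i ≠ v := by
          intro h1
          simp only [s, h1, if_true] at hi
          exact absurd hi (by decide)
        rcases hc.cov _ (ht.2.2.1 i) with h2 | h2 | h2
        · exact absurd h2 h1
        · rw [s0' i h2] at hi
          exact absurd hi (by decide)
        · exact h2
      have s2' : ∀ i, t i ∈ Y → s i = 2 := by
        intro i hi
        have h1 : t i ≠ v := fun h => hc.vY (h ▸ hi)
        have h2 : t i ∉ X := fun h => (hc.anti _ h _ hi).1 rfl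
        simp only [s, h1, h2, if_false]
      have tri : ∀ i, s i = 0 ∨ s i = 1 ∨ s i = 2 := by
        intro i
        generalize s i = z
        revert z
        decide
      rcases pent_cases' s (fun i j hi hj => ht.2.1 ((s1 i hi).trans (s1 j hj).symm)) with
        h1 | h1 | ⟨-, i, h1, h2⟩ | ⟨-, i, h1, h2⟩ | ⟨j, l, h1, h2, h3, h4⟩ | ⟨j, l, h1, h2, h3, h4⟩
      · exact ih _ t x (by omega) (hc.stepA ht (fun i hi => h1 i (s0' i hi)))
      · exact ih _ t x (by omega) (hc.symm.stepA ht (fun i hi => h1 i (s2' i hi)))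
      · obtain ⟨t', x', h3⟩ := hc.stepB ht (s0 i h1) (fun j hj => s2 j (h2 j hj))
        exact ih _ t' x' (by omega) h3
      · obtain ⟨t', x', h3⟩ := hc.symm.stepB ht (s2 i h1) (fun j hj => s0 j (h2 j hj))
        exact ih _ t' x' (by omega) h3
      · have u : ∀ i, s i ≠ 2 → t i ∈ X ∨ t i = v := by
          intro i hi
          rcases tri i with h5 | h5 | h5
          · exact Or.inl (s0 i h5)
          · exact Or.inr (s1 i h5)
          · exact absurd h5 hi
        have w : ∀ i, s i ≠ 0 → t i ∈ Y ∨ t i = v := by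
          intro i hi
          rcases tri i with h5 | h5 | h5
          · exact absurd h5 hi
          · exact Or.inr (s1 i h5)
          · exact Or.inl (s2 i h5)
        exact hc.stepC ht h1 (u j h2) (u l h3) (fun k h5 h6 => w k (h4 k h5 h6))
      · have u : ∀ i, s i ≠ 2 → t i ∈ X ∨ t i = v := by
          intro i hi
          rcases tri i with h5 | h5 | h5
          · exact Or.inl (s0 i h5)
          · exact Or.inr (s1 i h5)
          · exact absurd h5 hi
        have w : ∀ i, s i ≠ 0 → t i ∈ Y ∨ t i = v := by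
          intro i hi
          rcases tri i with h5 | h5 | h5
          · exact absurd h5 hi
          · exact Or.inr (s1 i h5)
          · exact Or.inl (s2 i h5)
        exact hc.symm.stepC ht h1 (w j h2) (w l h3) (fun k h5 h6 => u k (h4 k h5 h6))
    · push_neg at hcut
      by_cases hter : ∃ v ∈ H, ∀ i, t i ≠ v
      · obtain ⟨v, hv, hvt⟩ := hter
        obtain ⟨h1, h2, h3, h4⟩ := ht
        refine ih (H \ {v}) t x ?_ ⟨hcut v hv, h2, fun i => ⟨h3 i, hvt i⟩, ?_⟩
        · have h5 : (H \ {v}).ncard < H.ncard := by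
            refine Set.ncard_lt_ncard ?_ (Set.toFinite _)
            exact ⟨Set.diff_subset, fun h6 => (h6 hv).2 rfl⟩
          omega
        · intro i j hij n hn
          exact h4 i j hij n (hn.mono Set.diff_subset)
      · push_neg at hter
        exact pent_base ht hter hcut

theorem pent : PentStmt := by
  intro V _ G H h1 t h2 h3 x h4
  exact pent_aux (H.ncard + 1) H t x (Nat.lt_succ_self _) ⟨h1, h2, h3, h4⟩

end LO
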