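import Pool.Agent.W_ccb602.SSIface

/-!
# MP_ccb602_co: breadth-first levels, components of a level, pruning

Main result `BoxSS.colour_of_levels`: if the last level of every pruned levelling inside `W` can be coloured with
`q` colours then `W` can be coloured with `2 * q` colours.
-/

set_option autoImplicit false

namespace BoxSS

variable {V : Type*}

/-- minimal covers have private children -/
theorem min_cover [Finite V] (G : SimpleGraph V) (M C : Set V)
    (hcov : ∀ v ∈ C, ∃ u ∈ M, G.Adj u v) :
    ∃ X : Set V, X ⊆ M ∧ (∀ v ∈ C, ∃ u ∈ X, G.Adj u v) ∧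
      ∀ u ∈ X, ∃ v ∈ C, G.Adj u v ∧ ∀ w ∈ X, G.Adj w v → w = u := by
  classical
  have hex : ∃ m : ℕ, ∃ X : Set V, X.ncard = m ∧ X ⊆ M ∧ ∀ v ∈ C, ∃ u ∈ X, G.Adj u v :=
    ⟨M.ncard, M, rfl, subset_rfl, hcov⟩
  obtain ⟨X, hXm, hXM, hXc⟩ := Nat.find_spec hex
  have hmin := fun m (hm : m < Nat.find hex) => Nat.find_min hex hm
  refine ⟨X, hXM, hXc, ?_⟩
  intro u hu
  have hlt : (X \ {u}).ncard < Nat.find hex := by
    rw [← hXm]
    exact Set.ncard_sdiff_singleton_lt_of_mem hu (Set.toFinite X)
  have h1 := hmin _ hlt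
  have h2 : ¬ ∀ v ∈ C, ∃ w ∈ X \ {u}, G.Adj w v := by
    intro h3
    exact h1 ⟨X \ {u}, rfl, Set.sdiff_subset.trans hXM, h3⟩
  push Not at h2
  obtain ⟨v, hv, h3⟩ := h2
  obtain ⟨w, hw, hwv⟩ := hXc v hv
  have h4 : ∀ w ∈ X, G.Adj w v → w = u := by
    intro w' hw' hwv'
    by_contra hne
    exact h3 w' ⟨hw', hne⟩ hwv'
  refine ⟨v, hv, ?_, h4⟩
  have := h4 w hw hwv
  rw [← this]
  exact hwv

/-- pruning -/
theorem prune [Finite V] (G : SimpleGraph V) (M : ℕ → Set V) :
    ∀ (k : ℕ), (∀ i, i < k → ∀ v ∈ M (i + 1), ∃ u ∈ M i, G.Adj u v) →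
      ∀ C : Set V, C ⊆ M k → C.Nonempty →
      ∃ L : ℕ → Set V, (∀ i, L i ⊆ M i) ∧ L k = C ∧ (∀ i, k < i → L i = ∅) ∧
        (∀ i, i ≤ k → (L i).Nonempty) ∧
        (∀ i, i < k → ∀ v ∈ L (i + 1), ∃ u ∈ L i, G.Adj u v) ∧
        (∀ i, i < k → ∀ u ∈ L i, ∃ c ∈ L (i + 1), G.Adj u c ∧ ∀ w ∈ L i, G.Adj w c → w = u) := by
  intro k
  induction k with
  | zero =>
    intro _ C hC hCne
    refine ⟨fun i => if i = 0 then C else ∅, ?_, by simp, ?_, ?_, ?_, ?_⟩
    · intro i
      by_cases hi : i = 0
      · subst hi; simpa using hC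
      · simp [hi]
    · intro i hi
      have : i ≠ 0 := by omega
      simp [this]
    · intro i hi
      have : i = 0 := by omega
      subst this; simpa using hCne
    · intro i hi; omega
    · intro i hi; omega
  | succ k ih =>
    intro hM C hC hCne
    obtain ⟨X, hXM, hXc, hXp⟩ := min_cover G (M k) C (fun v hv => hM k (by omega) v (hC hv))
    have hXne : X.Nonempty := by
      obtain ⟨v, hv⟩ := hCne
      obtain ⟨u, hu, _⟩ := hXc v hv
      exact ⟨u, hu⟩
    obtain ⟨L, hL1, hL2, hL3, hL4, hL5, hL6⟩ :=
      ih (fun i hi => hM i (by omega)) X hXM hXne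
    have e1 : ∀ i, i ≠ k + 1 → (if i = k + 1 then C else L i) = L i := fun i hi => if_neg hi
    refine ⟨fun i => if i = k + 1 then C else L i, ?_, by simp, ?_, ?_, ?_, ?_⟩
    · intro i
      by_cases hi : i = k + 1
      · subst hi; simpa using hC
      · simp only [hi, if_false]; exact hL1 i
    · intro i hi
      simp only
      rw [e1 i (by omega)]
      exact hL3 i (by omega)
    · intro i hi
      by_cases hi' : i = k + 1
      · subst hi'; simpa using hCne
      · simp only [hi', if_false]; exact hL4 i (by omega)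
    · intro i hi v hv
      simp only at hv ⊢
      rw [e1 i (by omega)]
      by_cases hi' : i = k
      · subst hi'
        simp only [if_true] at hv
        rw [hL2]
        exact hXc v hv
      · rw [e1 (i + 1) (by omega)] at hv
        exact hL5 i (by omega) v hv
    · intro i hi u hu
      simp only at hu ⊢
      rw [e1 i (by omega)] at hu ⊢
      by_cases hi' : i = k
      · subst hi'
        rw [hL2] at hu ⊢
        simp only [if_true]
        exact hXp u hu
      · rw [e1 (i + 1) (by omega)]
        exact hL6 i (by omega) u hu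

/-- the graph `G` restricted to `W`, with all vertices kept -/
def rest (G : SimpleGraph V) (W : Set V) : SimpleGraph V where
  Adj u v := G.Adj u v ∧ u ∈ W ∧ v ∈ W
  symm := ⟨fun _ _ h => ⟨h.1.symm, h.2.2, h.2.1⟩⟩
  loopless := ⟨fun _ h => G.loopless.irrefl _ h.1⟩

theorem dist_succ (H : SimpleGraph V) {z u v : V} (hr : H.Reachable z u) (huv : H.Adj u v) :
    H.dist z v ≤ H.dist z u + 1 := by
  obtain ⟨q, hq⟩ := hr.exists_walk_length_eq_dist
  have h3 := SimpleGraph.dist_le (q.concat huv)
  rw [SimpleGraph.Walk.length_concat] at h3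
  omega

theorem exists_pred (H : SimpleGraph V) {z v : V} {i : ℕ} (hr : H.Reachable z v)
    (hd : H.dist z v = i + 1) : ∃ u, H.Adj u v ∧ H.Reachable z u ∧ H.dist z u = i := by
  obtain ⟨p, hp⟩ := hr.exists_walk_length_eq_dist
  rw [hd] at hp
  have hnil : ¬ p.Nil := by
    intro h
    have h' := SimpleGraph.Walk.length_eq_zero_iff.2 h
    omega
  have hadj := p.adj_penultimate hnil
  refine ⟨p.penultimate, hadj, ⟨p.dropLast⟩, ?_⟩
  have h1 : H.dist z p.penultimate ≤ i := by
    have h2 := SimpleGraph.dist_le p.dropLast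
    have h3 : p.dropLast.length = i := by
      have h4 : (p.dropLast.concat hadj).length = p.length := by
        rw [p.concat_dropLast hadj]
      rw [SimpleGraph.Walk.length_concat] at h4
      omega
    omega
  have h2 : H.dist z v ≤ H.dist z p.penultimate + 1 := dist_succ H ⟨p.dropLast⟩ hadj
  omega

open Classical in
theorem colour_of_levels [Finite V] (G : SimpleGraph V) (W : Set V) (q : ℕ)
    (h : ∀ (k : ℕ) (L : ℕ → Set V), Lev G k L → (∀ i, L i ⊆ W) → ColOn G (L k) q) :
    ColOn G W (2 * q) := by
  set H := rest G W with hH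
  -- roots and levels
  let z : V → V := fun v => (H.connectedComponentMk v).out
  have hz : ∀ v, H.Reachable (z v) v := by
    intro v
    have h1 : H.connectedComponentMk (z v) = H.connectedComponentMk v :=
      Quot.out_eq (H.connectedComponentMk v)
    exact SimpleGraph.ConnectedComponent.exact h1
  have hzeq : ∀ u v, H.Reachable u v → z u = z v := by
    intro u v huv
    have h1 : H.connectedComponentMk u = H.connectedComponentMk v :=
      SimpleGraph.ConnectedComponent.sound huv
    change (H.connectedComponentMk u).out = (H.connectedComponentMk v).out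
    rw [h1]
  let d : V → ℕ := fun v => H.dist (z v) v
  let R : V → V → Prop := fun a b => H.Adj a b ∧ d a = d b
  have hRsymm : ∀ a b, R a b → R b a := fun a b hab => ⟨hab.1.symm, hab.2.symm⟩
  let C : V → Set V := fun v => {u | Relation.ReflTransGen R v u}
  have hCz : ∀ v u, u ∈ C v → z u = z v ∧ d u = d v := by
    intro v u hu
    have hu' : Relation.ReflTransGen R v u := hu
    induction hu' with
    | refl => exact ⟨rfl, rfl⟩
    | tail h1 hbc ih =>
      obtain ⟨h2, h3⟩ := ih h1
      exact ⟨(hzeq _ _ hbc.1.reachable).symm.trans h2, hbc.2.symm.trans h3⟩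
  have hCW : ∀ v ∈ W, ∀ u ∈ C v, u ∈ W := by
    intro v hv u hu
    have hu' : Relation.ReflTransGen R v u := hu
    cases hu' with
    | refl => exact hv
    | tail h1 hbc => exact hbc.1.2.2
  have hCsymm : ∀ u v, Relation.ReflTransGen R u v → Relation.ReflTransGen R v u := by
    intro u v huv
    induction huv with
    | refl => exact Relation.ReflTransGen.refl
    | tail _ hbc ih => exact Relation.ReflTransGen.head (hRsymm _ _ hbc) ih
  have hCeq : ∀ u v, R u v → C u = C v := by
    intro u v huv
    ext w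
    constructor
    · intro hw
      exact Relation.ReflTransGen.head (hRsymm _ _ huv) hw
    · intro hw
      exact Relation.ReflTransGen.head huv hw
  -- the levels
  have hcol : ∀ v ∈ W, ColOn G (C v) q := by
    intro v hv
    let M : ℕ → Set V := fun i => {u | z u = z v ∧ d u = i ∧ u ∈ W}
    have hpar : ∀ i, i < d v → ∀ w ∈ M (i + 1), ∃ u ∈ M i, G.Adj u w := by
      rintro i _ w ⟨h1, h2, h3⟩
      obtain ⟨u, hu1, hu2, hu3⟩ := exists_pred H (hz w) h2
      have h4 : z u = z w := hzeq _ _ hu1.reachable
      refine ⟨u, ⟨h4.trans h1, ?_, hu1.2.1⟩, hu1.1⟩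
      change H.dist (z u) u = i
      rw [h4]
      exact hu3
    have hCM : C v ⊆ M (d v) := by
      intro u hu
      obtain ⟨h1, h2⟩ := hCz v u hu
      exact ⟨h1, h2, hCW v hv u hu⟩
    obtain ⟨L, hL1, hL2, hL3, hL4, hL5, hL6⟩ :=
      prune G M (d v) hpar (C v) hCM ⟨v, Relation.ReflTransGen.refl⟩
    have hLev : Lev G (d v) L := by
      constructor
      · obtain ⟨w, hw⟩ := hL4 0 (by omega)
        refine ⟨w, ?_⟩
        have key : ∀ u ∈ L 0, u = z v := by
          intro u hu
          obtain ⟨h1, h2, _⟩ := hL1 0 hu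
          have h3 : H.dist (z u) u = 0 := h2
          have h4 := ((hz u).dist_eq_zero_iff).1 h3
          rw [← h4, h1]
        ext u
        rw [Set.mem_singleton_iff]
        constructor
        · intro hu
          rw [key u hu, key w hw]
        · rintro rfl
          exact hw
      · intro i j u w hu hw huw
        obtain ⟨h1, h2, h3⟩ := hL1 i hu
        obtain ⟨h4, h5, h6⟩ := hL1 j hw
        have h7 : H.Adj u w := ⟨huw, h3, h6⟩
        have h8 := dist_succ H (hz u) h7
        have h9 : z u = z w := h1.trans h4.symm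
        have h10 : d w ≤ d u + 1 := by
          change H.dist (z w) w ≤ H.dist (z u) u + 1
          rw [← h9]
          exact h8
        omega
      · intro i j u hu hu'
        obtain ⟨_, h2, _⟩ := hL1 i hu
        obtain ⟨_, h5, _⟩ := hL1 j hu'
        omega
      · exact hL5
      · exact hL6
      · rw [hL2]
        intro u hu w hw
        have h1 : Relation.ReflTransGen R u w :=
          Relation.ReflTransGen.trans (hCsymm v u hu) hw
        clear hw
        have key : w ∈ C v ∧ Relation.ReflTransGen (fun x y => y ∈ C v ∧ G.Adj x y) u w := by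
          induction h1 with
          | refl => exact ⟨hu, Relation.ReflTransGen.refl⟩
          | tail _ hbc ih =>
            obtain ⟨h2, h3⟩ := ih
            have h4 : _ ∈ C v := Relation.ReflTransGen.tail h2 hbc
            exact ⟨h4, Relation.ReflTransGen.tail h3 ⟨h4, hbc.1.1⟩⟩
        exact key.2
    have h1 := h (d v) L hLev (fun i u hu => (hL1 i hu).2.2)
    rw [hL2] at h1
    exact h1
  let col : Set V → V → ℕ := fun S => if hS : ColOn G S q then hS.choose else fun _ => 0
  have hcol1 : ∀ S, ColOn G S q → (∀ v ∈ S, col S v < q) ∧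
      ∀ u ∈ S, ∀ v ∈ S, G.Adj u v → col S u ≠ col S v := by
    intro S hS
    have : col S = hS.choose := dif_pos hS
    rw [this]
    exact hS.choose_spec
  refine ⟨fun v => 2 * col (C v) v + d v % 2, ?_, ?_⟩
  · intro v hv
    have h1 := (hcol1 _ (hcol v hv)).1 v Relation.ReflTransGen.refl
    simp only
    omega
  · intro u hu v hv huv heq
    have h1 : H.Adj u v := ⟨huv, hu, hv⟩
    have h2 : z u = z v := hzeq _ _ h1.reachable
    have h3 : d v ≤ d u + 1 := by
      change H.dist (z v) v ≤ H.dist (z u) u + 1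
      rw [← h2]
      exact dist_succ H (hz u) h1
    have h4 : d u ≤ d v + 1 := by
      change H.dist (z u) u ≤ H.dist (z v) v + 1
      rw [h2]
      exact dist_succ H (hz v) h1.symm
    simp only at heq
    have h5 : d u = d v := by omega
    have h6 : C u = C v := hCeq u v ⟨h1, h5⟩
    have h7 : col (C u) u = col (C u) v := by
      rw [← h6] at heq
      omega
    refine (hcol1 _ (hcol u hu)).2 u Relation.ReflTransGen.refl v ?_ huv h7
    exact Relation.ReflTransGen.single ⟨h1, h5⟩

end BoxSS
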