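import Pool.Agent.W_ccb602.LOBall
import Pool.Agent.W_ccb602.SSPrune

/-!
# MP_ccb602_co: the step for graphs without long odd holes

`LO.step (hT2 : T2Stmt) : StepStmt`.
-/

set_option autoImplicit false

namespace LO

open BoxSS
open SS80 (IP IPin Wk Cn)

/-! ### components -/

section comps

variable {V : Type*}

/-- the component of `v` in `D` -/
def Comp (G : SimpleGraph V) (D : Set V) (v : V) : Set V :=
  {u | Relation.ReflTransGen (fun x y => y ∈ D ∧ G.Adj x y) v u}

theorem comp_sub {G : SimpleGraph V} {D : Set V} {v : V} (hv : v ∈ D) : Comp G D v ⊆ D := by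
  intro u hu
  have hu' : Relation.ReflTransGen (fun x y => y ∈ D ∧ G.Adj x y) v u := hu
  cases hu' with
  | refl => exact hv
  | tail _ h => exact h.1

theorem comp_symm {G : SimpleGraph V} {D : Set V} {u v : V} (hv : v ∈ D)
    (h : Relation.ReflTransGen (fun x y => y ∈ D ∧ G.Adj x y) v u) :
    Relation.ReflTransGen (fun x y => y ∈ D ∧ G.Adj x y) u v := by
  have key : u ∈ D ∧ Relation.ReflTransGen (fun x y => y ∈ D ∧ G.Adj x y) u v := by
    induction h with
    | refl => exact ⟨hv, Relation.ReflTransGen.refl⟩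
    | tail _ hbc ih => exact ⟨hbc.1, Relation.ReflTransGen.head ⟨ih.1, hbc.2.symm⟩ ih.2⟩
  exact key.2

theorem comp_conn {G : SimpleGraph V} {D : Set V} {v : V} (hv : v ∈ D) :
    ∀ u ∈ Comp G D v, ∀ w ∈ Comp G D v,
      Relation.ReflTransGen (fun x y => y ∈ Comp G D v ∧ G.Adj x y) u w := by
  intro u hu w hw
  have h1 : Relation.ReflTransGen (fun x y => y ∈ D ∧ G.Adj x y) u w :=
    Relation.ReflTransGen.trans (comp_symm hv hu) hw
  clear hw
  have key : w ∈ Comp G D v ∧
      Relation.ReflTransGen (fun x y => y ∈ Comp G D v ∧ G.Adj x y) u w := by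
    induction h1 with
    | refl => exact ⟨hu, Relation.ReflTransGen.refl⟩
    | tail _ hbc ih =>
      obtain ⟨h2, h3⟩ := ih
      have h4 : _ ∈ Comp G D v := Relation.ReflTransGen.tail h2 hbc
      exact ⟨h4, Relation.ReflTransGen.tail h3 ⟨h4, hbc.2⟩⟩
  exact key.2

open Classical in
theorem of_comps {G : SimpleGraph V} {D : Set V} {q : ℕ}
    (h : ∀ v ∈ D, ColOn G (Comp G D v) q) : ColOn G D q := by
  let col : Set V → V → ℕ := fun S => if hS : ColOn G S q then hS.choose else fun _ => 0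
  have hcol : ∀ S, ColOn G S q → (∀ v ∈ S, col S v < q) ∧
      ∀ u ∈ S, ∀ v ∈ S, G.Adj u v → col S u ≠ col S v := by
    intro S hS
    have : col S = hS.choose := dif_pos hS
    rw [this]
    exact hS.choose_spec
  refine ⟨fun v => col (Comp G D v) v, ?_, ?_⟩
  · intro v hv
    exact (hcol _ (h v hv)).1 v Relation.ReflTransGen.refl
  · intro u hu v hv huv heq
    have h1 : Comp G D u = Comp G D v := by
      ext w
      constructor
      · intro hw
        exact Relation.ReflTransGen.head ⟨hu, huv.symm⟩ hw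
      · intro hw
        exact Relation.ReflTransGen.head ⟨hv, huv⟩ hw
    simp only at heq
    rw [← h1] at heq
    refine (hcol _ (h u hu)).2 u Relation.ReflTransGen.refl v ?_ huv heq
    exact Relation.ReflTransGen.single ⟨hv, huv⟩

/-- pruning of a levelling -/
theorem lev_prune [Finite V] {G : SimpleGraph V} {k : ℕ} {L : ℕ → Set V} (hL : Lev G k L)
    (k' : ℕ) (M : ℕ → Set V) (hML : ∀ i, i ≤ k' → M i ⊆ L i)
    (hM : ∀ i, i < k' → ∀ v ∈ M (i + 1), ∃ u ∈ M i, G.Adj u v) (C : Set V) (hC : C ⊆ M k')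
    (hne : C.Nonempty)
    (hconn : ∀ u ∈ C, ∀ v ∈ C, Relation.ReflTransGen (fun x y => y ∈ C ∧ G.Adj x y) u v) :
    ∃ L' : ℕ → Set V, (∀ i, L' i ⊆ M i) ∧ (∀ i, k' < i → L' i = ∅) ∧ L' k' = C ∧
      Lev G k' L' := by
  obtain ⟨L', h1, h2, h3, h4, h5, h6⟩ := prune G M k' hM C hC hne
  have hle : ∀ i v, v ∈ L' i → i ≤ k' := by
    intro i v hv
    by_contra hlt
    rw [h3 i (by omega)] at hv
    exact hv
  have hin : ∀ i v, v ∈ L' i → v ∈ L i := fun i v hv => hML i (hle i v hv) (h1 i hv)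
  refine ⟨L', h1, h3, h2, ?_⟩
  constructor
  · obtain ⟨z, hz⟩ := hL.root
    obtain ⟨x, hx⟩ := h4 0 (by omega)
    refine ⟨z, ?_⟩
    have key : ∀ y ∈ L' 0, y = z := by
      intro y hy
      have := hin 0 y hy
      rw [hz] at this
      exact this
    ext y
    constructor
    · intro hy; exact key y hy
    · rintro rfl
      rw [key x hx] at hx
      exact hx
  · intro i j u v hu hv huv
    exact hL.far i j u v (hin i u hu) (hin j v hv) huv
  · intro i j v hv hv'
    exact hL.disj i j v (hin i v hv) (hin j v hv')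
  · exact h5
  · exact h6
  · rw [h2]; exact hconn

theorem lev_ball {G : SimpleGraph V} {W : Set V} {k : ℕ} {L : ℕ → Set V} (hL : Lev G k L)
    (hLW : ∀ i, L i ⊆ W) {z : V} (hz : L 0 = {z}) : ∀ i, i ≤ k → L i ⊆ Ball G W i z := by
  intro i
  induction i with
  | zero =>
    intro _ v hv
    rw [hz] at hv
    have hv' : v = z := hv
    rw [hv']
    refine mem_ball_self (hLW 0 ?_) 0
    rw [hz]; rfl
  | succ i ih =>
    intro hi v hv
    obtain ⟨u, hu, huv⟩ := hL.par i (by omega) v hv
    exact ball_step (ih (by omega) hu) huv (hLW _ hv)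

theorem lev_chain {G : SimpleGraph V} {k : ℕ} {L : ℕ → Set V} (hL : Lev G k L) : ∀ r : ℕ,
    r ≤ k → ∀ v ∈ L r,
    ∃ f : ℕ → V, f r = v ∧ (∀ i ≤ r, f i ∈ L i) ∧ ∀ i < r, G.Adj (f i) (f (i + 1)) := by
  intro r
  induction r with
  | zero =>
    intro _ v hv
    refine ⟨fun _ => v, rfl, ?_, fun i hi => absurd hi (by omega)⟩
    intro i hi
    have : i = 0 := by omega
    subst this; exact hv
  | succ r ih =>
    intro hr v hv
    obtain ⟨u, hu, huv⟩ := hL.par r (by omega) v hv
    obtain ⟨f, hf1, hf2, hf3⟩ := ih (by omega) u hu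
    refine ⟨fun i => if i ≤ r then f i else v, by simp, ?_, ?_⟩
    · intro i hi
      by_cases h : i ≤ r
      · simp only [h, if_true]; exact hf2 i h
      · have : i = r + 1 := by omega
        subst this
        simp only [h, if_false]; exact hv
    · intro i hi
      by_cases h : i + 1 ≤ r
      · have h' : i ≤ r := by omega
        simp only [h, h', if_true]; exact hf3 i (by omega)
      · have h' : i = r := by omega
        subst h'
        simp only [h, le_refl, if_true, if_false]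
        rw [hf1]; exact huv

end comps

/-- (T) the last level if all lower levels have the bound `Θ` -/
theorem topT (hT2 : T2Stmt) {V : Type} [Finite V] {G : SimpleGraph V} {ℓ w Y : ℕ} (hl : 5 ≤ ℓ)
    (hG : NoLOH G ℓ) (hw : G.CliqueFree (w + 1)) {W : Set V}
    (hY : ∀ A B, A ⊆ W → B ⊆ W → Nice G ℓ A B → ColOn G B Y) {Θ k : ℕ} {L : ℕ → Set V}
    (hL : Lev G k L) (hLW : ∀ i, L i ⊆ W) (hΘ : ∀ i, i < k → ColOn G (L i) Θ) :
    ColOn G (L k) (F1B ℓ w Y Θ) := by
  classical
  have hball : ∀ r, ∀ z ∈ W, ColOn G (Ball G W r z) (XB Y r) := ball V G ℓ Y hl hG W hY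
  rcases Nat.lt_or_ge k (2 * ℓ) with hk | hk
  · obtain ⟨z, hz⟩ := hL.root
    have hzW : z ∈ W := hLW 0 (by rw [hz]; rfl)
    refine (hball (2 * ℓ) z hzW).mono ?_ (by unfold F1B; omega)
    exact (lev_ball hL hLW hz k le_rfl).trans (ball_mono hk.le)
  · obtain ⟨p, rfl⟩ : ∃ p, k = p + 2 * ℓ := ⟨k - 2 * ℓ, by omega⟩
    have hch : ∀ v : V, ∃ f : ℕ → V, v ∈ L (p + 2 * ℓ) → (f (p + 2 * ℓ) = v ∧
        (∀ i ≤ p + 2 * ℓ, f i ∈ L i) ∧ ∀ i < p + 2 * ℓ, G.Adj (f i) (f (i + 1))) := by
      intro v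
      by_cases hv : v ∈ L (p + 2 * ℓ)
      · obtain ⟨f, hf⟩ := lev_chain hL (p + 2 * ℓ) le_rfl v hv
        exact ⟨f, fun _ => hf⟩
      · exact ⟨fun _ => v, fun h => absurd h hv⟩
    choose f hf using hch
    have hc' : ∀ i, ∃ c : V → ℕ, i < p + 2 * ℓ → ((∀ v ∈ L i, c v < Θ) ∧
        ∀ u ∈ L i, ∀ v ∈ L i, G.Adj u v → c u ≠ c v) := by
      intro i
      by_cases hi : i < p + 2 * ℓ
      · obtain ⟨c, hc⟩ := hΘ i hi
        exact ⟨c, fun _ => hc⟩
      · exact ⟨fun _ => 0, fun h => absurd h hi⟩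
    choose c hc using hc'
    obtain ⟨e, he1, he2⟩ := vec_code Θ (fun v t => c (p + t) (f v (p + t))) (L (p + 2 * ℓ))
      (2 * ℓ) (fun v hv t ht => (hc (p + t) (by omega)).1 _ ((hf v hv).2.1 _ (by omega)))
    have hmain : ColOn G (L (p + 2 * ℓ)) (Θ ^ (2 * ℓ) * T2B ℓ w Y) := by
      refine ColOn.of_classes e he1 ?_
      intro m _
      refine of_comps ?_
      intro v hv
      set D : Set V := {v | v ∈ L (p + 2 * ℓ) ∧ e v = m} with hD
      have hCD : Comp G D v ⊆ D := comp_sub hv
      let M : ℕ → Set V := fun i => if i < p then L i else {x | ∃ u ∈ Comp G D v, f u i = x}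
      have hM1 : ∀ i, i < p → M i = L i := fun i hi => if_pos hi
      have hM2 : ∀ i, p ≤ i → M i = {x | ∃ u ∈ Comp G D v, f u i = x} :=
        fun i hi => if_neg (by omega)
      have hML : ∀ i, i ≤ p + 2 * ℓ → M i ⊆ L i := by
        intro i hi x hx
        rcases Nat.lt_or_ge i p with h | h
        · rwa [hM1 i h] at hx
        · rw [hM2 i h] at hx
          obtain ⟨u, hu, rfl⟩ := hx
          exact (hf u (hCD hu).1).2.1 i hi
      have hMp : ∀ i, i < p + 2 * ℓ → ∀ x ∈ M (i + 1), ∃ u ∈ M i, G.Adj u x := by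
        intro i hi x hx
        rcases Nat.lt_or_ge i p with h | h
        · obtain ⟨u, hu, hux⟩ := hL.par i hi x (hML (i + 1) (by omega) hx)
          exact ⟨u, by rw [hM1 i h]; exact hu, hux⟩
        · rw [hM2 (i + 1) (by omega)] at hx
          obtain ⟨u, hu, rfl⟩ := hx
          refine ⟨f u i, ?_, (hf u (hCD hu).1).2.2 i hi⟩
          rw [hM2 i h]
          exact ⟨u, hu, rfl⟩
      have hCM : Comp G D v ⊆ M (p + 2 * ℓ) := by
        intro u hu
        rw [hM2 _ (by omega)]
        exact ⟨u, hu, (hf u (hCD hu).1).1⟩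
      obtain ⟨L', h1, h2, h3, h4⟩ := lev_prune hL (p + 2 * ℓ) M hML hMp (Comp G D v) hCM
        ⟨v, Relation.ReflTransGen.refl⟩ (comp_conn hv)
      have hL'W : ∀ i, L' i ⊆ W := by
        intro i
        rcases Nat.lt_or_ge (p + 2 * ℓ) i with h | h
        · rw [h2 i h]; exact Set.empty_subset _
        · exact (h1 i).trans ((hML i h).trans (hLW i))
      have hst : ∀ i, p ≤ i → i < p + 2 * ℓ → ∀ x ∈ L' i, ∀ y ∈ L' i, ¬ G.Adj x y := by
        intro i hi hi' x hx y hy hxy
        have hx' := h1 i hx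
        have hy' := h1 i hy
        have hxL := hML i hi'.le hx'
        have hyL := hML i hi'.le hy'
        rw [hM2 i hi] at hx' hy'
        obtain ⟨a, ha, rfl⟩ := hx'
        obtain ⟨b, hb, rfl⟩ := hy'
        have h5 := he2 a (hCD ha).1 b (hCD hb).1 ((hCD ha).2.trans (hCD hb).2.symm) (i - p)
          (by omega)
        have h6 : p + (i - p) = i := by omega
        simp only [h6] at h5
        exact (hc i hi').2 _ hxL _ hyL hxy h5
      have h7 := hT2 V G ℓ w Y hl hG hw W hY (hball ℓ) p L' h4 hL'W hst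
      rw [h3] at h7
      exact h7
    exact hmain.mono subset_rfl (by unfold F1B; omega)

/-- (Part 1) the step -/
theorem step (hT2 : T2Stmt) : StepStmt := by
  intro V _ G ℓ n w Y hl hG hn hw W hY
  classical
  have hball : ∀ r, ∀ z ∈ W, ColOn G (Ball G W r z) (XB Y r) := ball V G ℓ Y hl hG W hY
  refine colour_of_levels G W _ ?_
  intro k L hL hLW
  have hlow : ∀ i, i + 2 ≤ k → ColOn G (L i) (T0B ℓ n Y) :=
    fun i hi => low V G ℓ n (XB Y ℓ) hl hG hn W (hball ℓ) k L hL hLW i hi
  refine topT hT2 hl hG hw hY hL hLW ?_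
  intro i hi
  rcases Nat.lt_or_ge (i + 1) k with h | h
  · exact (hlow i (by omega)).mono subset_rfl (by omega)
  · have hik : i + 1 = k := by omega
    have h1 : ColOn G (L i) (F1B ℓ w Y (T0B ℓ n Y)) := by
      refine of_comps ?_
      intro v hv
      have hCL : Comp G (L i) v ⊆ L i := comp_sub hv
      let M : ℕ → Set V := fun j => if j = i then Comp G (L i) v else L j
      have hM1 : ∀ j, j ≠ i → M j = L j := fun j hj => if_neg hj
      have hM2 : M i = Comp G (L i) v := if_pos rfl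
      have hML : ∀ j, j ≤ i → M j ⊆ L j := by
        intro j _
        by_cases hji : j = i
        · subst hji; rw [hM2]; exact hCL
        · rw [hM1 j hji]
      have hMp : ∀ j, j < i → ∀ x ∈ M (j + 1), ∃ u ∈ M j, G.Adj u x := by
        intro j hj x hx
        obtain ⟨u, hu, hux⟩ := hL.par j (by omega) x (hML (j + 1) (by omega) hx)
        exact ⟨u, by rw [hM1 j (by omega)]; exact hu, hux⟩
      obtain ⟨L', h1, h2, h3, h4⟩ := lev_prune hL i M hML hMp (Comp G (L i) v)
        (by rw [hM2]) ⟨v, Relation.ReflTransGen.refl⟩ (comp_conn hv)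
      have hL'W : ∀ j, L' j ⊆ W := by
        intro j
        rcases Nat.lt_or_ge i j with h | h
        · rw [h2 j h]; exact Set.empty_subset _
        · exact (h1 j).trans ((hML j h).trans (hLW j))
      have h5 := topT hT2 hl hG hw hY (Θ := T0B ℓ n Y) h4 hL'W
        (fun j hj => (hlow j (by omega)).mono ((h1 j).trans (hML j hj.le)) le_rfl)
      rw [h3] at h5
      exact h5
    exact h1.mono subset_rfl (by omega)

end LO
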