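import Pool.Agent.W_ccb602.LOChain
import Pool.Agent.W_ccb602.LOGlue
import Pool.Agent.W_ccb602.LOLemK

/-!
# MP_ccb602_co: the last level over `2 ℓ` stable levels

See table proofs, id 417 (helper43), 1.5.
-/

set_option autoImplicit false

namespace LO

open BoxSS
open SS80 (IP IPin Wk Cn Le Lt Ge)

section

variable {V : Type*} {G : SimpleGraph V} {L : ℕ → Set V} {k : ℕ}

/-- `b` in level `j` can be reached from `a` in level `i` by a chain -/
def Rch (G : SimpleGraph V) (L : ℕ → Set V) (i j : ℕ) (a b : V) : Prop :=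
  ∃ f, Chain G L i j f ∧ f i = a ∧ f j = b

theorem Chain.sub {i j i' j' : ℕ} {f : ℕ → V} (hf : Chain G L i j f) (hi : i ≤ i') (hj : j' ≤ j) :
    Chain G L i' j' f :=
  ⟨fun t h1 h2 => hf.1 t (by omega) (by omega), fun t h1 h2 => hf.2 t (by omega) (by omega)⟩

theorem splice {i j s : ℕ} {f g : ℕ → V} (his : i ≤ s) (hsj : s < j)
    (hf : Chain G L i s f) (hg : Chain G L (s + 1) j g) (h : G.Adj (f s) (g (s + 1))) :
    Rch G L i j (f i) (g j) := by
  refine ⟨fun t => if t ≤ s then f t else g t, ⟨?_, ?_⟩, ?_, ?_⟩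
  · intro t h1 h2
    by_cases h3 : t ≤ s
    · simp only [h3, if_true]; exact hf.1 t h1 h3
    · simp only [h3, if_false]; exact hg.1 t (by omega) h2
  · intro t h1 h2
    by_cases h3 : t + 1 ≤ s
    · have h4 : t ≤ s := by omega
      simp only [h3, h4, if_true]; exact hf.2 t h1 (by omega)
    · by_cases h4 : t ≤ s
      · have h5 : t = s := by omega
        simp only [h3, h4, if_true, if_false]
        rw [h5]; exact h
      · simp only [h3, h4, if_false]; exact hg.2 t (by omega) h2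
  · simp only [his, if_true]
  · have h3 : ¬ j ≤ s := by omega
    simp only [h3, if_false]

/-- chains with a contact -/
theorem contact_reach {i j : ℕ} {f g : ℕ → V} (hf : Chain G L i j f)
    (hg : Chain G L i j g) (hNC : ¬ NC G i j f g) :
    Rch G L i j (f i) (g j) ∨ Rch G L i j (g i) (f j) := by
  by_contra hcon
  rw [not_or] at hcon
  obtain ⟨c1, c2⟩ := hcon
  refine hNC ⟨?_, ?_⟩
  · intro t h1 h2 h3
    rcases Nat.eq_or_lt_of_le h2 with h4 | h4
    · subst h4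
      exact c1 ⟨f, hf, rfl, h3⟩
    · exact c1 (splice h1 h4 (hf.sub le_rfl (by omega)) (hg.sub (by omega) le_rfl)
        (by rw [h3]; exact hg.2 t h1 h4))
  · intro t h1 h2
    exact ⟨fun h3 => c1 (splice h1 h2 (hf.sub le_rfl (by omega)) (hg.sub (by omega) le_rfl) h3),
      fun h3 => c2 (splice h1 h2 (hg.sub le_rfl (by omega)) (hf.sub (by omega) le_rfl) h3)⟩

/-- a long induced path above the level `m` -/
theorem long_up (h : SS80.Lev G L k) {m ℓ : ℕ} (hℓ : 2 ≤ ℓ) (hk : m + ℓ = k)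
    (hst : ∀ t, m ≤ t → t < k → ∀ x ∈ L t, ∀ y ∈ L t, ¬ G.Adj x y) {u v : V} (hu : u ∈ L m)
    (hv : v ∈ L m) (hne : u ≠ v) :
    ∃ q T, 2 * ℓ ≤ q ∧ IPin G T u v q ∧
      ∀ x ∈ Le L m \ {u, v}, ∀ y ∈ T, x ≠ y ∧ ¬ G.Adj x y := by
  obtain ⟨d, rfl⟩ : ∃ d, ℓ = d + 1 := ⟨ℓ - 1, by omega⟩
  obtain ⟨f, hf, hfu, hfp⟩ := priv_chain h hu d (by omega)
  obtain ⟨g, hg, hgv, hgp⟩ := priv_chain h hv d (by omega)
  have hne' : ∀ e, e ≤ d → f (m + e) ≠ g (m + e) := by
    intro e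
    induction e with
    | zero =>
      intro _
      change f m ≠ g m
      rw [hfu, hgv]; exact hne
    | succ e ih =>
      intro he heq
      refine ih (by omega) (hgp (m + e) (by omega) (by omega) (f (m + e))
        (hf.1 _ (by omega) (by omega)) ?_)
      have h1 := hf.2 (m + e) (by omega) (by omega)
      have heq' : f (m + e + 1) = g (m + e + 1) := heq
      rwa [heq'] at h1
  have hne2 : ∀ t, m ≤ t → t ≤ m + d → f t ≠ g t := by
    intro t h1 h2
    obtain ⟨e, rfl⟩ : ∃ e, t = m + e := ⟨t - m, by omega⟩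
    exact hne' e (by omega)
  have hNC : NC G m (m + d) f g := by
    refine ⟨hne2, fun t h1 h2 => ⟨fun h3 => ?_, fun h3 => ?_⟩⟩
    · exact hne2 t h1 (by omega) (hgp t h1 h2 _ (hf.1 t h1 (by omega)) h3)
    · exact hne2 t h1 (by omega) (hfp t h1 h2 _ (hg.1 t h1 (by omega)) h3).symm
  have lf := hf.1 (m + d) (by omega) le_rfl
  have lg := hg.1 (m + d) (by omega) le_rfl
  obtain ⟨c, hc, hc1, _⟩ := h.priv (m + d) (by omega) _ lf
  obtain ⟨c', hc', hc1', _⟩ := h.priv (m + d) (by omega) _ lg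
  have hkk : m + d + 1 = k := by omega
  rw [hkk] at hc hc'
  obtain ⟨n0, hn0⟩ := (h.conn c hc c' hc').ipin hc hc1 hc1'.symm
  have h2 := hn0.two_le (hne2 _ (by omega) le_rfl) (hst _ (by omega) (by omega) _ lf _ lg)
  have e1 := ladder_down h (j := m + d) (U := L k) d m rfl hf hg hNC
    (fun t h1 h2 => hst t h1 (by omega) _ (hf.1 t h1 (by omega)) _ (hg.1 t h1 (by omega)))
    (by
      intro x hx t h1 h2
      obtain ⟨p1, p2, p3⟩ := far_na h (show t + 2 ≤ k by omega) (hf.1 t h1 (by omega)) hx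
      obtain ⟨q1, q2, q3⟩ := far_na h (show t + 2 ≤ k by omega) (hg.1 t h1 (by omega)) hx
      exact ⟨p1.symm, q1.symm, p2, q2⟩) hn0
  rw [hfu, hgv] at e1
  refine ⟨n0 + 2 * d, _, by omega, e1, ?_⟩
  rintro x ⟨⟨j, hj, hx⟩, hxn⟩ y hy
  rw [Set.mem_insert_iff, Set.mem_singleton_iff, not_or] at hxn
  rcases hy with hy | ⟨t, h1, h3, hy⟩
  · have h4 := far_na h (show j + 2 ≤ k by omega) hx hy
    exact ⟨h4.1, h4.2.1⟩
  · have hyt : y ∈ L t := by
      rcases hy with rfl | rfl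
      · exact hf.1 t (by omega) (by omega)
      · exact hg.1 t (by omega) (by omega)
    refine ⟨far_ne h (by omega) hx hyt, fun hadj => ?_⟩
    rcases Nat.lt_or_ge (j + 1) t with h4 | h4
    · exact (far_na h (show j + 2 ≤ t by omega) hx hyt).2.1 hadj
    · have h5 : t = m + 1 := by omega
      have h6 : j = m := by omega
      subst h5
      subst h6
      rcases hy with rfl | rfl
      · exact hxn.1 ((hfp _ le_rfl (by omega) x hx hadj).trans hfu)
      · exact hxn.2 ((hgp _ le_rfl (by omega) x hx hadj).trans hgv)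

/-- the parity of the level `m` -/
def JJ (G : SimpleGraph V) (L : ℕ → Set V) (m : ℕ) (u v : V) : Prop :=
  ∃ n, Odd n ∧ IPin G (Le L m) u v n

theorem JJ.symm {m : ℕ} {u v : V} (h : JJ G L m u v) : JJ G L m v u := by
  obtain ⟨n, h1, h2⟩ := h
  exact ⟨n, h1, h2.symm⟩

theorem star (h : SS80.Lev G L k) {m ℓ : ℕ} (hℓ : 2 ≤ ℓ) (hk : m + ℓ = k) (hG : NoLOH G ℓ)
    (hst : ∀ t, m ≤ t → t < k → ∀ x ∈ L t, ∀ y ∈ L t, ¬ G.Adj x y) {u v : V} (hu : u ∈ L m)
    (hv : v ∈ L m) (hne : u ≠ v) {n : ℕ} (hn : IPin G (Le L m) u v n) :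
    JJ G L m u v ↔ Odd n := by
  have hna := hst m le_rfl (by omega) u hu v hv
  obtain ⟨q, T, hq, hQ, hT⟩ := long_up h hℓ hk hst hu hv hne
  have key : ∀ n', IPin G (Le L m) u v n' → Even (n' + q) := fun n' hn' =>
    evenL hG hn'.diff hQ (hn'.two_le hne hna) (by omega) hT (by omega)
  constructor
  · rintro ⟨n', h1, h2⟩
    have a := key n hn
    have b := key n' h2
    rw [Nat.even_iff] at a b
    rw [Nat.odd_iff] at h1 ⊢
    omega
  · intro h1
    exact ⟨n, h1, hn⟩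

end

theorem p4free (hPent : PentStmt) {V : Type} [Finite V] {G : SimpleGraph V} {L : ℕ → Set V}
    {k m ℓ : ℕ} (h : SS80.Lev G L k) (hℓ : 2 ≤ ℓ) (hk : m + ℓ = k) (hG : NoLOH G ℓ)
    (hst : ∀ t, m ≤ t → t < k → ∀ x ∈ L t, ∀ y ∈ L t, ¬ G.Adj x y) {s : V} (hs : s ∈ L m)
    (τ : Prop) : P4Free (JJ G L m) {x | x ∈ L m ∧ x ≠ s ∧ (JJ G L m s x ↔ τ)} := by
  classical
  rintro a ⟨ha, as, ja⟩ b ⟨hb, bs, jb⟩ c ⟨hc, cs, jc⟩ d ⟨hd, ds, jd⟩ ab ac ad bc bd cd j1 j2 j3 n1 n2 n3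
  have val : ∀ u ∈ L m, ∀ v ∈ L m, u ≠ v → ∀ n, IPin G (Le L m) u v n → ∀ P : Prop,
      (JJ G L m u v ↔ P) → n % 2 = if P then 1 else 0 := by
    intro u hu v hv huv n hn P hP
    have h1 := (star h hℓ hk hG hst hu hv huv hn).symm.trans hP
    rw [Nat.odd_iff] at h1
    by_cases h2 : P
    · rw [if_pos h2]; exact h1.2 h2
    · rw [if_neg h2]
      have h3 : ¬ n % 2 = 1 := fun h4 => h2 (h1.1 h4)
      omega
  have sym : ∀ u v, JJ G L m u v ↔ JJ G L m v u := fun u v => ⟨JJ.symm, JJ.symm⟩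
  have tt : ∀ {P : Prop}, P → (P ↔ True) := fun h => ⟨fun _ => trivial, fun _ => h⟩
  have ff : ∀ {P : Prop}, ¬ P → (P ↔ False) := fun h => ⟨h, False.elim⟩
  refine hPent V G (Le L m) (le_conn h (by omega)) ![a, c, b, d, s] ?_ ?_
    ![0, 1, 1, 0, if τ then 0 else 1] ?_
  · intro i j hij
    fin_cases i <;> fin_cases j <;> first | rfl | (exfalso; simp at hij; first | exact ab hij | exact ab hij.symm | exact ac hij | exact ac hij.symm | exact ad hij | exact ad hij.symm | exact bc hij | exact bc hij.symm | exact bd hij | exact bd hij.symm | exact cd hij | exact cd hij.symm | exact as hij | exact as hij.symm | exact bs hij | exact bs hij.symm | exact cs hij | exact cs hij.symm | exact ds hij | exact ds hij.symm)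
  · intro i
    fin_cases i
    · exact ⟨m, le_rfl, ha⟩
    · exact ⟨m, le_rfl, hc⟩
    · exact ⟨m, le_rfl, hb⟩
    · exact ⟨m, le_rfl, hd⟩
    · exact ⟨m, le_rfl, hs⟩
  · -- the ten pairs
    have w1 : ∀ n, IPin G (Le L m) a c n → n % 2 = 0 := fun n hn => by
      simpa using val a ha c hc ac n hn False (ff n1)
    have w2 : ∀ n, IPin G (Le L m) a b n → n % 2 = 1 := fun n hn => by
      simpa using val a ha b hb ab n hn True (tt j1)
    have w3 : ∀ n, IPin G (Le L m) a d n → n % 2 = 0 := fun n hn => by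
      simpa using val a ha d hd ad n hn False (ff n2)
    have w4 : ∀ n, IPin G (Le L m) c b n → n % 2 = 1 := fun n hn => by
      simpa using val c hc b hb bc.symm n hn True (tt j2.symm)
    have w5 : ∀ n, IPin G (Le L m) c d n → n % 2 = 1 := fun n hn => by
      simpa using val c hc d hd cd n hn True (tt j3)
    have w6 : ∀ n, IPin G (Le L m) b d n → n % 2 = 0 := fun n hn => by
      simpa using val b hb d hd bd n hn False (ff n3)
    have w7 : ∀ x ∈ L m, x ≠ s → (JJ G L m s x ↔ τ) → ∀ n, IPin G (Le L m) x s n →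
        n % 2 = (1 + if τ then 0 else 1) % 2 := by
      intro x hx hxs hj n hn
      have h1 := val x hx s hs hxs n hn τ ((sym x s).trans hj)
      rw [h1]
      by_cases h2 : τ
      · simp [h2]
      · simp [h2]
    have v1 := w7 a ha as ja
    have v2 := w7 b hb bs jb
    have v3 := w7 c hc cs jc
    have v4 := w7 d hd ds jd
    have e01 : c5 0 1 = 1 := by decide
    have e02 : c5 0 2 = 0 := by decide
    have e03 : c5 0 3 = 0 := by decide
    have e04 : c5 0 4 = 1 := by decide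
    have e12 : c5 1 2 = 1 := by decide
    have e13 : c5 1 3 = 0 := by decide
    have e14 : c5 1 4 = 0 := by decide
    have e23 : c5 2 3 = 1 := by decide
    have e24 : c5 2 4 = 0 := by decide
    have e34 : c5 3 4 = 1 := by decide
    have c5s : ∀ i j : Fin 5, c5 j i = c5 i j := by decide
    have key : ∀ i j : Fin 5, i < j → ∀ n, IPin G (Le L m) (![a, c, b, d, s] i) (![a, c, b, d, s] j) n →
        n % 2 = (c5 i j + (![0, 1, 1, 0, if τ then 0 else 1] : Fin 5 → ℕ) i +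
          (![0, 1, 1, 0, if τ then 0 else 1] : Fin 5 → ℕ) j) % 2 := by
      intro i j hij n hn
      fin_cases i <;> fin_cases j <;> first | exact absurd hij (by decide) | skip
      · have := w1 n hn; rw [this]; change 0 = (c5 0 1 + 0 + 1) % 2; rw [e01]
      · have := w2 n hn; rw [this]; change 1 = (c5 0 2 + 0 + 1) % 2; rw [e02]
      · have := w3 n hn; rw [this]; change 0 = (c5 0 3 + 0 + 0) % 2; rw [e03]
      · have := v1 n hn; rw [this]; change _ = (c5 0 4 + 0 + if τ then 0 else 1) % 2; rw [e04]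
      · have := w4 n hn; rw [this]; change 1 = (c5 1 2 + 1 + 1) % 2; rw [e12]
      · have := w5 n hn; rw [this]; change 1 = (c5 1 3 + 1 + 0) % 2; rw [e13]
      · have := v3 n hn; rw [this]; change _ = (c5 1 4 + 1 + if τ then 0 else 1) % 2; rw [e14]
      · have := w6 n hn; rw [this]; change 0 = (c5 2 3 + 1 + 0) % 2; rw [e23]
      · have := v2 n hn; rw [this]; change _ = (c5 2 4 + 1 + if τ then 0 else 1) % 2; rw [e24]
      · have := v4 n hn; rw [this]; change _ = (c5 3 4 + 0 + if τ then 0 else 1) % 2; rw [e34]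
    intro i j hij n hn
    rcases lt_or_gt_of_ne hij with h1 | h1
    · exact key i j h1 n hn
    · have h2 := key j i h1 n hn.symm
      rw [h2]
      rw [c5s i j]
      congr 1
      omega

/-- the situation of (T2) -/
structure Sit {V : Type*} (G : SimpleGraph V) (L : ℕ → Set V) (ℓ p : ℕ) : Prop where
  lev : SS80.Lev G L (p + 2 * ℓ)
  hl : 5 ≤ ℓ
  noh : NoLOH G ℓ
  st : ∀ t, p ≤ t → t < p + 2 * ℓ → ∀ x ∈ L t, ∀ y ∈ L t, ¬ G.Adj x y

section

variable {V : Type*} {G : SimpleGraph V} {L : ℕ → Set V} {ℓ p : ℕ}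

theorem Sit.star (H : Sit G L ℓ p) {u v : V} (hu : u ∈ L (p + ℓ)) (hv : v ∈ L (p + ℓ))
    (hne : u ≠ v) {n : ℕ} (hn : IPin G (Le L (p + ℓ)) u v n) :
    JJ G L (p + ℓ) u v ↔ Odd n := by
  have hl := H.hl
  exact LO.star H.lev (by omega) (by omega) H.noh (fun t h1 h2 => H.st t (by omega) h2) hu hv hne hn

theorem Sit.lower (H : Sit G L ℓ p) {u v : V} (hu : u ∈ L (p + ℓ)) (hv : v ∈ L (p + ℓ)) :
    ∃ n, IPin G (Lt L (p + ℓ)) u v n := by
  have hl := H.hl
  exact H.lev.lower_exists (by omega) (by omega) hu hv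

theorem Sit.upper (H : Sit G L ℓ p) {a a' : V} (ha : a ∈ L (p + ℓ)) (ha' : a' ∈ L (p + ℓ))
    (hne : a ≠ a') {T : Set V} {q : ℕ} (hT : T ⊆ Ge L (p + ℓ + 1)) (hq : ℓ ≤ q)
    (hQ : IPin G T a a' q) : JJ G L (p + ℓ) a a' ↔ Odd q := by
  have hl := H.hl
  obtain ⟨n, hn⟩ := H.lower ha ha'
  have hna := H.st (p + ℓ) (by omega) (by omega) a ha a' ha'
  have h1 : Even (n + q) := by
    refine evenL H.noh hn hQ (hn.two_le hne hna) (by omega) ?_ (by omega)
    rintro x ⟨j, hj, hx⟩ y hy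
    exact H.lev.anti (i := j) (j := p + ℓ + 1) (by omega) (SS80.mem_le hx) (hT hy)
  rw [H.star ha ha' hne (hn.mono SS80.lt_le)]
  rw [Nat.even_iff] at h1
  rw [Nat.odd_iff, Nat.odd_iff]
  omega

/-- a connected part of a chain -/
theorem chain_cn2 {i j i' : ℕ} {f g : ℕ → V} (hf : Chain G L i j f) (hi : i ≤ i') {s : ℕ}
    (hs : i' ≤ s) : ∀ d, s + d ≤ j → Cn G (Rg f g i' (j + 1)) (f s) (f (s + d)) := by
  intro d
  induction d with
  | zero => intro _; exact Relation.ReflTransGen.refl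
  | succ d ih =>
    intro hd
    refine (ih (by omega)).trans (Cn.single (hf.2 (s + d) (by omega) (by omega)) ?_ ?_)
    · exact ⟨s + d, by omega, by omega, Or.inl rfl⟩
    · exact ⟨s + d + 1, by omega, by omega, Or.inl rfl⟩

/-- (P2) -/
theorem Sit.p2 (H : Sit G L ℓ p) {a a' c : V} (hne : a ≠ a')
    (h1 : Rch G L (p + ℓ) (p + 2 * ℓ) a c) (h2 : Rch G L (p + ℓ) (p + 2 * ℓ) a' c) :
    ¬ JJ G L (p + ℓ) a a' := by
  have hl := H.hl
  have h := H.lev
  obtain ⟨f, hf, hfa, hfc⟩ := h1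
  obtain ⟨g, hg, hga, hgc⟩ := h2
  have ha : a ∈ L (p + ℓ) := hfa ▸ hf.1 _ le_rfl (by omega)
  have ha' : a' ∈ L (p + ℓ) := hga ▸ hg.1 _ le_rfl (by omega)
  have hna := H.st (p + ℓ) (by omega) (by omega) a ha a' ha'
  -- the upper path
  obtain ⟨q, hq0⟩ : ∃ q, IPin G (Rg f g (p + ℓ + 1) (p + 2 * ℓ + 1)) a a' q := by
    have c1 := chain_cn2 (g := g) hf (show p + ℓ ≤ p + ℓ + 1 by omega) (le_refl (p + ℓ + 1))
      (ℓ - 1) (by omega)
    have c2 := chain_cn2 (g := f) hg (show p + ℓ ≤ p + ℓ + 1 by omega) (le_refl (p + ℓ + 1))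
      (ℓ - 1) (by omega)
    have e1 : p + ℓ + 1 + (ℓ - 1) = p + 2 * ℓ := by omega
    rw [e1, hfc] at c1
    rw [e1, hgc, rg_symm] at c2
    have a1 := hf.2 (p + ℓ) le_rfl (by omega)
    have a2 := hg.2 (p + ℓ) le_rfl (by omega)
    rw [hfa] at a1
    rw [hga] at a2
    exact (c1.trans c2.symm).ipin ⟨p + ℓ + 1, le_rfl, by omega, Or.inl rfl⟩ a1 a2.symm
  have hU : ∀ x ∈ Rg f g (p + ℓ + 1) (p + 2 * ℓ + 1), ∃ t, p + ℓ + 1 ≤ t ∧ t ≤ p + 2 * ℓ ∧ x ∈ L t := by
    rintro x ⟨t, h3, h4, rfl | rfl⟩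
    · exact ⟨t, h3, by omega, hf.1 t (by omega) (by omega)⟩
    · exact ⟨t, h3, by omega, hg.1 t (by omega) (by omega)⟩
  have hqe : q % 2 = 0 := by
    have m1 : Rg f g (p + ℓ + 1) (p + 2 * ℓ + 1) ⊆ Rg f g (p + ℓ) (p + 2 * ℓ + 1) := by
      rintro x ⟨t, h3, h4, h5⟩
      exact ⟨t, by omega, h4, h5⟩
    have hlev : ∀ x ∈ Rg f g (p + ℓ) (p + 2 * ℓ + 1), ∃ t, p + ℓ ≤ t ∧ t ≤ p + 2 * ℓ ∧ x ∈ L t ∧
        (t = p + 2 * ℓ → x = c) := by
      rintro x ⟨t, h3, h4, rfl | rfl⟩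
      · exact ⟨t, h3, by omega, hf.1 t (by omega) (by omega), fun h5 => by rw [h5]; exact hfc⟩
      · exact ⟨t, h3, by omega, hg.1 t (by omega) (by omega), fun h5 => by rw [h5]; exact hgc⟩
    have m2 := graded_lev h (T := Rg f g (p + ℓ) (p + 2 * ℓ + 1))
      (fun x hx => by obtain ⟨t, _, _, h5, _⟩ := hlev x hx; exact ⟨t, h5⟩) (by
        intro x hx y hy t hxt hyt
        obtain ⟨t1, h3, h4, h5, h6⟩ := hlev x hx
        obtain ⟨t2, h3', h4', h5', h6'⟩ := hlev y hy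
        have e1 : t1 = t := by by_contra hne'; exact h.disj t1 t hne' x h5 hxt
        have e2 : t2 = t := by by_contra hne'; exact h.disj t2 t hne' y h5' hyt
        subst e1
        rcases Nat.eq_or_lt_of_le h4 with h7 | h7
        · rw [h6 h7, h6' (by omega)]
          exact G.irrefl
        · exact H.st t1 (by omega) h7 x hxt y hyt)
    have m3 : a ∈ Rg f g (p + ℓ) (p + 2 * ℓ + 1) := ⟨p + ℓ, le_rfl, by omega, Or.inl hfa.symm⟩
    have m4 : a' ∈ Rg f g (p + ℓ) (p + 2 * ℓ + 1) := ⟨p + ℓ, le_rfl, by omega, Or.inr hga.symm⟩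
    have m5 := graded m1 m2 m3 m4 hq0
    rw [lv_eq h ha, lv_eq h ha'] at m5
    omega
  have hq2 := hq0.two_le hne hna
  -- descend
  obtain ⟨f', hf', hfa'⟩ := desc_chain h (i := p) ℓ (by omega) a ha
  obtain ⟨g', hg', hga'⟩ := desc_chain h (i := p) ℓ (by omega) a' ha'
  by_cases hNC : NC G p (p + ℓ) f' g'
  · have l1 := hf'.1 p le_rfl (by omega)
    have l2 := hg'.1 p le_rfl (by omega)
    have hne2 := hNC.1 p le_rfl (by omega)
    have hna2 := H.st p le_rfl (by omega) _ l1 _ l2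
    have hp : 1 ≤ p := by
      rcases Nat.eq_zero_or_pos p with h0 | h0
      · exfalso
        rw [h0] at l1 l2 hne2
        exact hne2 (h.root _ l1 _ l2)
      · exact h0
    obtain ⟨n1, hn1⟩ := h.lower_exists hp (by omega) l1 l2
    have e1 := ladder_up h (U := Lt L p) (fun x hx => hx) ℓ hf' hg' hNC
      (fun t h3 h4 => H.st t h3 (by omega) _ (hf'.1 t h3 h4) _ (hg'.1 t h3 h4)) hn1
    rw [hfa', hga'] at e1
    have e2 : IPin G (Le L (p + ℓ)) a a' (n1 + 2 * ℓ) := by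
      refine e1.mono ?_
      rintro x (⟨t, h3, h4⟩ | ⟨t, h3, h4, rfl | rfl⟩)
      · exact ⟨t, by omega, h4⟩
      · exact ⟨t, by omega, hf'.1 t h3 (by omega)⟩
      · exact ⟨t, by omega, hg'.1 t h3 (by omega)⟩
    have hq1 : IPin G (Rg f g (p + ℓ + 1) (p + 2 * ℓ + 1)) (f' (p + ℓ)) (g' (p + ℓ)) q := by
      rw [hfa', hga']; exact hq0
    have e3 := ladder_down h ℓ p rfl hf' hg' hNC
      (fun t h3 h4 => H.st t h3 (by omega) _ (hf'.1 t h3 (by omega)) _ (hg'.1 t h3 (by omega)))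
      (by
        intro x hx t h3 h4
        obtain ⟨t', h5, h6, h7⟩ := hU x hx
        obtain ⟨p1, p2, p3⟩ := far_na h (show t + 2 ≤ t' by omega) (hf'.1 t h3 (by omega)) h7
        obtain ⟨q1, q2, q3⟩ := far_na h (show t + 2 ≤ t' by omega) (hg'.1 t h3 (by omega)) h7
        exact ⟨p1.symm, q1.symm, p2, q2⟩) hq1
    have e4 : Even (n1 + (q + 2 * ℓ)) := by
      refine evenL H.noh hn1 e3 (hn1.two_le hne2 hna2) (by omega) ?_ (by omega)
      rintro x ⟨j, hj, hx⟩ y hy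
      have hy' : y ∈ Ge L (p + 1) := by
        rcases hy with hy | ⟨t, h3, h4, rfl | rfl⟩
        · obtain ⟨t', h5, h6, h7⟩ := hU y hy
          exact ⟨t', by omega, h7⟩
        · exact ⟨t, h3, hf'.1 t (by omega) (by omega)⟩
        · exact ⟨t, h3, hg'.1 t (by omega) (by omega)⟩
      exact h.anti (i := j) (j := p + 1) (by omega) (SS80.mem_le hx) hy'
    rw [H.star ha ha' hne e2, Nat.odd_iff]
    rw [Nat.even_iff] at e4
    omega
  · have hne3 : f' (p + ℓ) ≠ g' (p + ℓ) := by rw [hfa', hga']; exact hne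
    obtain ⟨n, hn, hn'⟩ := contact_even h (by omega) hf' hg'
      (fun t h3 h4 => H.st t h3 (by omega)) hne3 hNC
    rw [hfa', hga'] at hn'
    have e2 : IPin G (Le L (p + ℓ)) a a' n := by
      refine hn'.mono ?_
      rintro x ⟨t, h3, h4, rfl | rfl⟩
      · exact ⟨t, by omega, hf'.1 t h3 (by omega)⟩
      · exact ⟨t, by omega, hg'.1 t h3 (by omega)⟩
    rw [H.star ha ha' hne e2, Nat.not_odd_iff_even]
    exact hn

/-- (P3) and (P4) together: chains without contact from `a`, `a'` to the ends of an induced path -/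
theorem Sit.p34 (H : Sit G L ℓ p) {f g : ℕ → V} (hf : Chain G L (p + ℓ) (p + 2 * ℓ) f)
    (hg : Chain G L (p + ℓ) (p + 2 * ℓ) g) (hNC : NC G (p + ℓ) (p + 2 * ℓ) f g) {U : Set V}
    (hU : U ⊆ L (p + 2 * ℓ)) (hU' : ∀ y ∈ U, ¬ G.Adj (f (p + 2 * ℓ - 1)) y ∧
      ¬ G.Adj (g (p + 2 * ℓ - 1)) y) {n : ℕ}
    (hn : IPin G U (f (p + 2 * ℓ)) (g (p + 2 * ℓ)) n) :
    JJ G L (p + ℓ) (f (p + ℓ)) (g (p + ℓ)) ↔ Odd n := by
  have hl := H.hl
  have h := H.lev
  have e1 := ladder_down h (j := p + 2 * ℓ) ℓ (p + ℓ) (by omega) hf hg hNC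
    (fun t h3 h4 => H.st t (by omega) h4 _ (hf.1 t h3 (by omega)) _ (hg.1 t h3 (by omega)))
    (by
      intro x hx t h3 h4
      have hxk := hU hx
      refine ⟨(far_ne h (by omega) (hf.1 t h3 (by omega)) hxk).symm,
        (far_ne h (by omega) (hg.1 t h3 (by omega)) hxk).symm, ?_⟩
      rcases Nat.lt_or_ge (t + 1) (p + 2 * ℓ) with h5 | h5
      · exact ⟨(far_na h (show t + 2 ≤ p + 2 * ℓ by omega) (hf.1 t h3 (by omega)) hxk).2.1,
          (far_na h (show t + 2 ≤ p + 2 * ℓ by omega) (hg.1 t h3 (by omega)) hxk).2.1⟩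
      · have h6 : t = p + 2 * ℓ - 1 := by omega
        rw [h6]
        exact hU' x hx) hn
  have e2 := H.upper (hf.1 _ le_rfl (by omega)) (hg.1 _ le_rfl (by omega))
    (hNC.1 _ le_rfl (by omega)) (T := U ∪ Rg f g (p + ℓ + 1) (p + 2 * ℓ + 1)) (by
      rintro y (hy | ⟨t, h3, h4, rfl | rfl⟩)
      · exact ⟨p + 2 * ℓ, by omega, hU hy⟩
      · exact ⟨t, h3, hf.1 t (by omega) (by omega)⟩
      · exact ⟨t, h3, hg.1 t (by omega) (by omega)⟩) (by omega) e1
  rw [e2, Nat.odd_iff, Nat.odd_iff]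
  omega

/-- the last step of a chain -/
theorem Rch.snoc {i j : ℕ} {a b c : V} (hij : i ≤ j) (h : Rch G L i j a b) (hc : c ∈ L (j + 1))
    (hbc : G.Adj b c) : Rch G L i (j + 1) a c := by
  obtain ⟨f, hf, rfl, rfl⟩ := h
  refine splice (g := fun _ => c) hij (Nat.lt_succ_self j) hf ⟨?_, ?_⟩ hbc
  · intro t h1 h2
    have : t = j + 1 := by omega
    rw [this]; exact hc
  · intro t h1 h2; omega

/-- (A', B) is nice -/
theorem Sit.nice (H : Sit G L ℓ p) {A B : Set V} (hB : B ⊆ L (p + 2 * ℓ)) {S : V → Set V}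
    (hS : ∀ x a, a ∈ S x ↔ a ∈ A ∧ Rch G L (p + ℓ) (p + 2 * ℓ) a x)
    (hne : ∀ x ∈ B, (S x).Nonempty)
    (hnest : ∀ x ∈ B, ∀ y ∈ B, G.Adj x y → S x ⊆ S y ∨ S y ⊆ S x) :
    Nice G ℓ {b | ∃ a ∈ A, Rch G L (p + ℓ) (p + 2 * ℓ - 1) a b} B := by
  have hl := H.hl
  have h := H.lev
  have hk : p + 2 * ℓ - 1 + 1 = p + 2 * ℓ := by omega
  have hAL : ∀ b ∈ {b | ∃ a ∈ A, Rch G L (p + ℓ) (p + 2 * ℓ - 1) a b}, b ∈ L (p + 2 * ℓ - 1) := by
    rintro b ⟨a, _, f, hf, _, rfl⟩
    exact hf.1 _ (by omega) le_rfl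
  refine ⟨?_, ?_, S, hnest, ?_⟩
  · intro b hb b' hb'
    exact H.st _ (by omega) (by omega) b (hAL b hb) b' (hAL b' hb')
  · intro c hc
    obtain ⟨a, ha⟩ := hne c hc
    rw [hS] at ha
    obtain ⟨haA, f, hf, hfa, hfc⟩ := ha
    refine ⟨f (p + 2 * ℓ - 1), ⟨a, haA, f, hf.sub le_rfl (by omega), hfa, rfl⟩, ?_⟩
    have h1 := hf.2 (p + 2 * ℓ - 1) (by omega) (by omega)
    rw [hk, hfc] at h1
    exact h1
  · rintro x hx y hy hcomp b hb b' hb' hbb hbx hby n hn hodd hP
    have lb := hAL b hb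
    have lb' := hAL b' hb'
    obtain ⟨a, haA, hab⟩ := hb
    obtain ⟨a', haA', hab'⟩ := hb'
    have r1 : Rch G L (p + ℓ) (p + 2 * ℓ) a x := by
      have := hab.snoc (by omega) (by rw [hk]; exact hB hx) hbx
      rwa [hk] at this
    have r2 : Rch G L (p + ℓ) (p + 2 * ℓ) a' y := by
      have := hab'.snoc (by omega) (by rw [hk]; exact hB hy) hby
      rwa [hk] at this
    obtain ⟨f, hf, hfa, hfb⟩ := hab
    obtain ⟨g, hg, hga, hgb⟩ := hab'
    have hna := H.st _ (by omega) (by omega) b lb b' lb'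
    have key : ∃ n', Even n' ∧ IPin G (Lt L (p + 2 * ℓ - 1)) b b' n' := by
      by_cases hNC : NC G (p + ℓ) (p + 2 * ℓ - 1) f g
      · have la := hf.1 (p + ℓ) le_rfl (by omega)
        have la' := hg.1 (p + ℓ) le_rfl (by omega)
        have hne2 := hNC.1 (p + ℓ) le_rfl (by omega)
        have hJ : ¬ JJ G L (p + ℓ) (f (p + ℓ)) (g (p + ℓ)) := by
          rw [hfa, hga]
          rw [hfa, hga] at hne2
          rcases hcomp with hc | hc
          · have h1 := hc ((hS x a).2 ⟨haA, r1⟩)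
            rw [hS] at h1
            exact H.p2 hne2 h1.2 r2
          · have h1 := hc ((hS y a').2 ⟨haA', r2⟩)
            rw [hS] at h1
            exact H.p2 hne2 r1 h1.2
        obtain ⟨n1, hn1⟩ := H.lower la la'
        rw [H.star la la' hne2 (hn1.mono SS80.lt_le), Nat.not_odd_iff_even] at hJ
        have e1 : p + ℓ + (ℓ - 1) = p + 2 * ℓ - 1 := by omega
        have e2 := ladder_up h (i := p + ℓ) (f := f) (g := g) (U := Lt L (p + ℓ)) (fun x hx => hx)
          (ℓ - 1) (by rw [e1]; exact hf) (by rw [e1]; exact hg) (by rw [e1]; exact hNC)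
          (fun t h3 h4 => H.st t (by omega) (by omega) _ (hf.1 t h3 (by omega)) _
            (hg.1 t h3 (by omega))) hn1
        rw [e1, hfb, hgb] at e2
        refine ⟨n1 + 2 * (ℓ - 1), ?_, e2.mono ?_⟩
        · rw [Nat.even_iff] at hJ ⊢
          omega
        · rintro z (⟨t, h3, h4⟩ | ⟨t, h3, h4, rfl | rfl⟩)
          · exact ⟨t, by omega, h4⟩
          · exact ⟨t, h4, hf.1 t h3 (by omega)⟩
          · exact ⟨t, h4, hg.1 t h3 (by omega)⟩
      · have hne3 : f (p + 2 * ℓ - 1) ≠ g (p + 2 * ℓ - 1) := by rw [hfb, hgb]; exact hbb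
        obtain ⟨n', hn', hQ⟩ := contact_even h (by omega) hf hg
          (fun t h3 h4 => H.st t (by omega) (by omega)) hne3 hNC
        rw [hfb, hgb] at hQ
        refine ⟨n', hn', hQ.mono ?_⟩
        rintro z ⟨t, h3, h4, rfl | rfl⟩
        · exact ⟨t, h4, hf.1 t h3 (by omega)⟩
        · exact ⟨t, h4, hg.1 t h3 (by omega)⟩
    obtain ⟨n', hn', hQ⟩ := key
    have e5 : Even (n' + n) := by
      refine evenL H.noh hQ hP (hQ.two_le hbb hna) (by omega) ?_ (by omega)
      rintro z ⟨j, hj, hz⟩ w hw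
      have := far_na h (show j + 2 ≤ p + 2 * ℓ by omega) hz (hB hw)
      exact ⟨this.1, this.2.1⟩
    rw [Nat.even_iff] at e5 hn'
    rw [Nat.odd_iff] at hodd
    omega

end

/-- (T2) -/
theorem t2 (hPent : PentStmt) : T2Stmt := by
  classical
  intro V _ G ℓ w Y hl hG hw W hY hX p L hL hLW hst
  have H : Sit G L ℓ p := ⟨hL.to80, hl, hG, hst⟩
  have h := H.lev
  rcases Set.eq_empty_or_nonempty (L (p + 2 * ℓ)) with hemp | ⟨c0, hc0⟩
  · refine ⟨fun _ => 0, ?_, ?_⟩
    · intro v hv; rw [hemp] at hv; exact hv.elim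
    · intro u hu; rw [hemp] at hu; exact hu.elim
  -- a class
  have main : ∀ A B : Set V, A ⊆ L (p + ℓ) → B ⊆ L (p + 2 * ℓ) → P4Free (JJ G L (p + ℓ)) A →
      (∀ x ∈ B, ∃ a ∈ A, Rch G L (p + ℓ) (p + 2 * ℓ) a x) →
      ColOn G B (w * (XB Y ℓ * XB Y ℓ) * Y) := by
    intro A B hA hB h4 hcov
    let S : V → Finset V := fun x =>
      (Set.toFinite {a | a ∈ A ∧ Rch G L (p + ℓ) (p + 2 * ℓ) a x}).toFinset
    have hS : ∀ x a, a ∈ S x ↔ a ∈ A ∧ Rch G L (p + ℓ) (p + 2 * ℓ) a x := by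
      intro x a
      simp only [S, Set.Finite.mem_toFinset, Set.mem_setOf_eq]
    have hne : ∀ x ∈ B, (S x).Nonempty := by
      intro x hx
      obtain ⟨a, ha, har⟩ := hcov x hx
      exact ⟨a, (hS x a).2 ⟨ha, har⟩⟩
    -- no contact
    have hnc : ∀ x y a a' f g, a ∈ S x → a ∉ S y → a' ∈ S y → a' ∉ S x →
        Chain G L (p + ℓ) (p + 2 * ℓ) f → Chain G L (p + ℓ) (p + 2 * ℓ) g → f (p + ℓ) = a →
        g (p + ℓ) = a' → f (p + 2 * ℓ) = x → g (p + 2 * ℓ) = y →
        NC G (p + ℓ) (p + 2 * ℓ) f g := by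
      intro x y a a' f g h1 h2 h3 h4 hf hg e1 e2 e3 e4
      by_contra hNC
      rw [hS] at h1 h2 h3 h4
      rcases contact_reach hf hg hNC with h5 | h5
      · rw [e1, e4] at h5
        exact h2 ⟨h1.1, h5⟩
      · rw [e2, e3] at h5
        exact h4 ⟨h3.1, h5⟩
    obtain ⟨col, hcol1, hcol2⟩ := lemmaK' (G := G) (A := A) (B := B) (J := JJ G L (p + ℓ)) (S := S)
      (X := XB Y ℓ) (w := w) (fun a b hab => hab.symm) h4 hw hne
      (fun x _ a ha => ((hS x a).1 ha).1)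
      (by
        intro x _ a ha a' ha' haa
        rw [hS] at ha ha'
        exact H.p2 haa ha.2 ha'.2)
      (by
        intro x hx y hy hxy a ha hay a' ha' hax'
        obtain ⟨_, f, hf, hfa, hfx⟩ := (hS x a).1 ha
        obtain ⟨_, g, hg, hga, hgy⟩ := (hS y a').1 ha'
        have hNC := hnc x y a a' f g ha hay ha' hax' hf hg hfa hga hfx hgy
        have h1 := H.p34 hf hg hNC (U := ∅) (Set.empty_subset _) (fun y hy => hy.elim) (n := 1)
          (by rw [hfx, hgy]; exact SS80.ipin_one hxy)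
        rw [hfa, hga] at h1
        exact h1.2 (by decide))
      (by
        intro x hx y hy z hz hxy hyz hxz hnxz a ha hay haz a' ha' hax' hay'
        obtain ⟨haA, f, hf, hfa, hfx⟩ := (hS x a).1 ha
        obtain ⟨haA', g, hg, hga, hgz⟩ := (hS z a').1 ha'
        have hNC := hnc x z a a' f g ha haz ha' hax' hf hg hfa hga hfx hgz
        have hk : p + 2 * ℓ - 1 + 1 = p + 2 * ℓ := by omega
        have h1 := H.p34 hf hg hNC (U := {y}) (by rintro v rfl; exact hB hy) (by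
          rintro v rfl
          refine ⟨fun hadj => hay ?_, fun hadj => hay' ?_⟩
          · rw [hS]
            refine ⟨haA, ?_⟩
            have h2 : Rch G L (p + ℓ) (p + 2 * ℓ - 1) a (f (p + 2 * ℓ - 1)) :=
              ⟨f, hf.sub le_rfl (by omega), hfa, rfl⟩
            have h3 := h2.snoc (by omega) (by rw [hk]; exact hB hy) hadj
            rwa [hk] at h3
          · rw [hS]
            refine ⟨haA', ?_⟩
            have h2 : Rch G L (p + ℓ) (p + 2 * ℓ - 1) a' (g (p + 2 * ℓ - 1)) :=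
              ⟨g, hg.sub le_rfl (by omega), hga, rfl⟩
            have h3 := h2.snoc (by omega) (by rw [hk]; exact hB hy) hadj
            rwa [hk] at h3) (n := 2)
          (by rw [hfx, hgz]; exact SS80.ipin_two hxy hyz hxz hnxz rfl)
        rw [hfa, hga] at h1
        rw [h1]
        decide)
      (by
        intro a ha
        refine (hX a (hLW _ (hA ha))).mono ?_ le_rfl
        rintro x ⟨hx, hax⟩
        obtain ⟨_, f, hf, hfa, hfx⟩ := (hS x a).1 hax
        refine ⟨ℓ, le_rfl, fun i => f (p + ℓ + i), hfa, ?_, ?_, ?_⟩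
        · change f (p + ℓ + ℓ) = x
          rw [← hfx]
          congr 1
          omega
        · intro i hi
          exact hf.2 (p + ℓ + i) (by omega) (by omega)
        · intro i hi
          exact hLW _ (hf.1 (p + ℓ + i) (by omega) (by omega)))
    refine ColOn.of_classes col hcol1 ?_
    intro i _
    refine hY {b | ∃ a ∈ A, Rch G L (p + ℓ) (p + 2 * ℓ - 1) a b} _ ?_ ?_ ?_
    · rintro b ⟨a, _, f, hf, _, rfl⟩
      exact hLW _ (hf.1 (p + 2 * ℓ - 1) (by omega) le_rfl)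
    · rintro b ⟨hb, _⟩
      exact hLW _ (hB hb)
    · refine H.nice (A := A) (B := {v | v ∈ B ∧ col v = i}) (S := fun x => (S x : Set V))
        (fun v hv => hB hv.1) (fun x a => by rw [Finset.mem_coe]; exact hS x a)
        (fun x hx => by
          obtain ⟨a, ha⟩ := hne x hx.1
          exact ⟨a, ha⟩) ?_
      rintro x ⟨hx, hxi⟩ y ⟨hy, hyi⟩ hxy
      rcases hcol2 x hx y hy hxy (hxi.trans hyi.symm) with h1 | h1
      · exact Or.inl (Finset.coe_subset.2 h1)
      · exact Or.inr (Finset.coe_subset.2 h1)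
  -- the three classes
  have hbot : ∀ c, ∃ a, c ∈ L (p + 2 * ℓ) → a ∈ L (p + ℓ) ∧ Rch G L (p + ℓ) (p + 2 * ℓ) a c := by
    intro c
    by_cases hc : c ∈ L (p + 2 * ℓ)
    · have e1 : p + ℓ + ℓ = p + 2 * ℓ := by omega
      obtain ⟨f, hf, hfc⟩ := desc_chain h (i := p + ℓ) ℓ (by omega) c (by rw [e1]; exact hc)
      rw [e1] at hf hfc
      exact ⟨f (p + ℓ), fun _ => ⟨hf.1 _ le_rfl (by omega), f, hf, rfl, hfc⟩⟩
    · exact ⟨c, fun h => absurd h hc⟩
  choose bot hbot using hbot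
  obtain ⟨hs, _⟩ := hbot c0 hc0
  let s := bot c0
  have hs' : s ∈ L (p + ℓ) := hs
  unfold T2B
  have hre : 3 * (w * (XB Y ℓ * XB Y ℓ) * Y) = 3 * (w * (XB Y ℓ * XB Y ℓ) * Y) := rfl
  refine ColOn.of_classes (fun c => if bot c = s then 0 else if JJ G L (p + ℓ) s (bot c) then 1 else 2)
    ?_ ?_
  · intro v _
    by_cases h1 : bot v = s
    · simp [h1]
    · by_cases h2 : JJ G L (p + ℓ) s (bot v)
      · simp [h1, h2]
      · simp [h1, h2]
  · intro i hi
    have hi3 : i = 0 ∨ i = 1 ∨ i = 2 := by omega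
    rcases hi3 with rfl | rfl | rfl
    · refine main {s} _ (by rintro v rfl; exact hs') (fun v hv => hv.1) ?_ ?_
      · intro a ha b hb c _ d _ hab
        exact absurd (ha.trans hb.symm) hab
      · rintro x ⟨hx, hxi⟩
        by_cases h1 : bot x = s
        · refine ⟨s, rfl, ?_⟩
          have := (hbot x hx).2
          rwa [h1] at this
        · exfalso
          by_cases h2 : JJ G L (p + ℓ) s (bot x)
          · simp [h1, h2] at hxi
          · simp [h1, h2] at hxi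
    · refine main {x | x ∈ L (p + ℓ) ∧ x ≠ s ∧ (JJ G L (p + ℓ) s x ↔ True)} _ (fun v hv => hv.1)
        (fun v hv => hv.1) ?_ ?_
      · exact p4free hPent h (by omega) (by omega) hG (fun t h1 h2 => hst t (by omega) h2) hs' True
      · rintro x ⟨hx, hxi⟩
        by_cases h1 : bot x = s
        · simp [h1] at hxi
        · by_cases h2 : JJ G L (p + ℓ) s (bot x)
          · exact ⟨bot x, ⟨(hbot x hx).1, h1, ⟨fun _ => trivial, fun _ => h2⟩⟩, (hbot x hx).2⟩
          · simp [h1, h2] at hxi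
    · refine main {x | x ∈ L (p + ℓ) ∧ x ≠ s ∧ (JJ G L (p + ℓ) s x ↔ False)} _ (fun v hv => hv.1)
        (fun v hv => hv.1) ?_ ?_
      · exact p4free hPent h (by omega) (by omega) hG (fun t h1 h2 => hst t (by omega) h2) hs' False
      · rintro x ⟨hx, hxi⟩
        by_cases h1 : bot x = s
        · simp [h1] at hxi
        · by_cases h2 : JJ G L (p + ℓ) s (bot x)
          · simp [h1, h2] at hxi
          · exact ⟨bot x, ⟨(hbot x hx).1, h1, ⟨h2, False.elim⟩⟩, (hbot x hx).2⟩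

end LO
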