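import Pool.Agent.W_ccb602.LOKill
import Pool.Agent.W_ccb602.LOPath
import Pool.Agent.W_ccb602.LOStep
import Pool.Agent.W_ccb602.LOPent
import Pool.Agent.W_ccb602.LOTop

/-!
# MP_ccb602_co: box graphs without long odd holes are polynomially chi-bounded
-/

set_option autoImplicit false

namespace LO

open BoxSS Box85 Tree57

theorem main (d ℓ : ℕ) : ∃ c e : ℕ, ∀ (n : ℕ) (G : SimpleGraph (Fin n))
    (a b : Fin n → Fin d → ℝ), (∀ i, a i ≤ b i) → (∀ i j, G.Adj i j ↔ i ≠ j ∧ Hit a b i j) →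
    (∀ m : ℕ, ℓ ≤ 2 * m + 3 → IsEmpty (SimpleGraph.cycleGraph (2 * m + 3) ↪g G)) →
      G.chromaticNumber ≤ ((c * (G.cliqueNum + 1) ^ e : ℕ) : ℕ∞) := by
  obtain ⟨c, e, h⟩ := long_boxes (d := d) (ℓ := ℓ + 5) (step (t2 pent)) (by omega)
    (wt := wtL d) (wtL_pos d) (killL path (by omega)) (poly_KL d (ℓ + 5))
  refine ⟨c, e, fun n G a b hab hG hodd => h n G a b hab hG ?_⟩
  intro m hm hm2
  obtain ⟨r, hr⟩ := hm2
  obtain ⟨s, rfl⟩ : ∃ s, m = 2 * s + 3 := ⟨r - 1, by omega⟩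
  exact hodd s (by omega)

end LO
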