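import Pool.Agent.W_ccb602.KillN

/-!
# MP_ccb602_co: odd-hole-free box graphs are polynomially chi-bounded (relative to the Scott-Seymour step)

`SSHyp F`: the Scott-Seymour step with the bound `F n k Y`.  `XX`: the iteration.  `Bnd d s f`: the bound `f`
for odd-hole-free graphs of boxes with at most `s` non-trivial coordinates.
-/

set_option autoImplicit false

namespace BoxSS

open Box85 Tree57

variable {V : Type*} {d : ℕ}

/-- the Scott-Seymour step: if all nested pairs inside `W` have the bound `Y`, then `W` has the bound `F n k Y` -/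
def SSHyp (F : ℕ → ℕ → ℕ → ℕ) : Prop :=
  ∀ (V : Type) [Finite V] (G : SimpleGraph V), NoOddHole G → ∀ n k Y : ℕ, 0 < n →
    (∀ x, ColOn G {v | G.Adj x v} n) → (∀ s : Finset V, G.IsClique s → s.card ≤ k) →
    ∀ W : Set V, (∀ A B, A ⊆ W → B ⊆ W → NestedPair G A B → ColOn G B Y) → ColOn G W (F n k Y)

/-- the iterated bound -/
def XX (F : ℕ → ℕ → ℕ → ℕ) (d k n : ℕ) : ℕ → ℕ
  | 0 => 1
  | m + 1 => F n k (((m + 1) * 2) * ((k + 1) * (n * 2 ^ (d * 2)) * XX F d k n m)) + 1

theorem sys_colour {F : ℕ → ℕ → ℕ → ℕ} (hF : SSHyp F) {V : Type} [Finite V] {G : SimpleGraph V}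
    {a b : V → Fin d → ℝ} (hab : ∀ i, a i ≤ b i)
    (hG : ∀ i j, G.Adj i j ↔ i ≠ j ∧ Hit a b i j) (hodd : NoOddHole G) {k n : ℕ} (hn0 : 0 < n)
    (hn : ∀ x, ColOn G {v | G.Adj x v} n)
    (hk : ∀ s : Finset V, G.IsClique s → s.card ≤ k) :
    ∀ (m : ℕ) (l : List (Cls V d)), (∀ C ∈ l, OKC G a b C) → pot l ≤ m →
      ∀ Q : Set V, Cov G Q l → ColOn G Q (XX F d k n m)
  | 0, l, _, hm, Q, hQ => by
    have h1 := length_le_pot l
    have h2 : l = [] := List.length_eq_zero_iff.1 (by omega)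
    subst h2
    refine ⟨fun _ => 0, fun _ _ => Nat.one_pos, ?_⟩
    intro u hu v hv huv
    obtain ⟨C, hC, -⟩ := hQ u hu v hv huv
    exact absurd hC List.not_mem_nil
  | m + 1, l, hl, hm, Q, hQ => by
    have ih := sys_colour hF hab hG hodd hn0 hn hk m
    have h1 := hF V G hodd n k (((m + 1) * 2) * ((k + 1) * (n * 2 ^ (d * 2)) * XX F d k n m)) hn0 hn hk
      Q (by
        intro A B hA hB hnp
        refine (kill hab hG hn0 hn hk l hl hA hB hQ hnp (X := XX F d k n m) ?_).mono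
          (Set.Subset.refl _) ?_
        · intro l' hl' hpot Q' hQ'
          exact ih l' hl' (by omega) Q' hQ'
        · exact Nat.mul_le_mul_right _ (Nat.mul_le_mul_right _ ((length_le_pot l).trans hm)))
    exact h1.mono (Set.Subset.refl _) (Nat.le_succ _)

/-! ### generalities -/

theorem base_gen {V : Type*} [Finite V] {k : ℕ} (G : SimpleGraph V) (a b : V → Fin d → ℝ)
    (hab : ∀ i, a i ≤ b i) (hG : ∀ i j, G.Adj i j ↔ i ≠ j ∧ Hit a b i j)
    (hk : ∀ s : Finset V, G.IsClique s → s.card ≤ k) :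
    ∃ c : V → Fin (2 * (2 ^ d * k) + 1) × ((Fin d → Bool) → Fin (k + 1)),
      ∀ u v, G.Adj u v → c u = c v → Bad a b u v := by
  classical
  obtain ⟨n, ⟨e⟩⟩ := Finite.exists_equiv_fin V
  obtain ⟨c, hc⟩ := base (G.comap e.symm) (fun i => a (e.symm i)) (fun i => b (e.symm i))
    (fun i => hab _) (by
      intro i j
      rw [SimpleGraph.comap_adj, hG]
      constructor
      · rintro ⟨h1, h2⟩
        exact ⟨fun h => h1 (congrArg e.symm h), h2⟩
      · rintro ⟨h1, h2⟩
        exact ⟨fun h => h1 (e.symm.injective h), h2⟩) (k := k) (by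
      intro s hs
      have h1 := hk (s.map e.symm.toEmbedding) (by
        intro x hx y hy hxy
        rw [Finset.mem_coe, Finset.mem_map] at hx hy
        obtain ⟨i, hi, rfl⟩ := hx
        obtain ⟨j, hj, rfl⟩ := hy
        exact hs hi hj (fun h => hxy (congrArg _ h)))
      rwa [Finset.card_map] at h1)
  refine ⟨fun v => c (e v), ?_⟩
  intro u v huv hcuv
  have h1 := hc (e u) (e v) (by
    rw [SimpleGraph.comap_adj, Equiv.symm_apply_apply, Equiv.symm_apply_apply]
    exact huv) hcuv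
  unfold Bad Hit at h1
  simp only [Equiv.symm_apply_apply] at h1
  exact h1

theorem NoOddHole.ind {V : Type*} {G : SimpleGraph V} (h : NoOddHole G) (S : Set V) :
    NoOddHole (G.induce S) := by
  intro m
  refine ⟨fun f => (h m).false ?_⟩
  exact (SimpleGraph.Embedding.induce (G := G) S).comp f

theorem ColOn.of_ind {V : Type*} {G : SimpleGraph V} {S : Set V} {n : ℕ}
    (h : ColOn (G.induce S) Set.univ n) : ColOn G S n := by
  classical
  obtain ⟨c, h1, h2⟩ := h
  refine ⟨fun v => if hv : v ∈ S then c ⟨v, hv⟩ else 0, ?_, ?_⟩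
  · intro v hv
    show (if hv : v ∈ S then c ⟨v, hv⟩ else 0) < n
    rw [dif_pos hv]
    exact h1 _ (Set.mem_univ _)
  · intro u hu v hv huv
    show (if hv : u ∈ S then c ⟨u, hv⟩ else 0) ≠ (if hv : v ∈ S then c ⟨v, hv⟩ else 0)
    rw [dif_pos hu, dif_pos hv]
    exact h2 _ (Set.mem_univ _) _ (Set.mem_univ _) huv

theorem clique_ind {V : Type*} {G : SimpleGraph V} {k : ℕ}
    (hk : ∀ s : Finset V, G.IsClique s → s.card ≤ k) (S : Set V) :
    ∀ s : Finset S, (G.induce S).IsClique s → s.card ≤ k := by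
  classical
  intro s hs
  have h1 := hk (s.map ⟨Subtype.val, Subtype.val_injective⟩) (by
    intro x hx y hy hxy
    rw [Finset.mem_coe, Finset.mem_map] at hx hy
    obtain ⟨i, hi, rfl⟩ := hx
    obtain ⟨j, hj, rfl⟩ := hy
    exact hs hi hj (fun h => hxy (congrArg _ h)))
  rwa [Finset.card_map] at h1

/-- the bound `f` for odd-hole-free graphs of boxes with at most `s` non-trivial coordinates -/
def Bnd (d s : ℕ) (f : ℕ → ℕ) : Prop :=
  ∀ (V : Type) [Finite V] (G : SimpleGraph V) (a b : V → Fin d → ℝ) (T : Finset (Fin d)),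
    T.card ≤ s → (∀ i, a i ≤ b i) → (∀ i j, G.Adj i j ↔ i ≠ j ∧ Hit a b i j) →
    (∀ i t, t ∉ T → a i t = 0 ∧ b i t = 0) → NoOddHole G → ∀ k : ℕ,
    (∀ s : Finset V, G.IsClique s → s.card ≤ k) → ColOn G Set.univ (f k)

/-- the number of parts of the base colouring -/
def P0 (d k : ℕ) : ℕ := (2 * (2 ^ d * k) + 1) * (k + 1) ^ (2 ^ d)

theorem card_P0 (d k : ℕ) :
    Fintype.card (Fin (2 * (2 ^ d * k) + 1) × ((Fin d → Bool) → Fin (k + 1))) = P0 d k := by
  unfold P0
  simp only [Fintype.card_prod, Fintype.card_fun, Fintype.card_fin, Fintype.card_bool]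

theorem bnd_zero (d : ℕ) : Bnd d 0 (P0 d) := by
  intro V _ G a b T hT hab hG htriv _ k hk
  obtain ⟨c, hc⟩ := base_gen G a b hab hG hk
  rw [← card_P0 d k, ← mul_one (Fintype.card _)]
  apply ColOn.of_fin c
  intro φ
  refine ⟨fun _ => 0, fun _ _ => Nat.one_pos, ?_⟩
  rintro u ⟨-, hu⟩ v ⟨-, hv⟩ huv
  obtain ⟨-, ⟨t, ht, -⟩, -, -⟩ := hc u v huv (hu.trans hv.symm)
  have hTe : T = ∅ := Finset.card_eq_zero.1 (Nat.le_zero.1 hT)
  have h1 := htriv u t (by rw [hTe]; exact Finset.notMem_empty t)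
  have h2 := htriv v t (by rw [hTe]; exact Finset.notMem_empty t)
  rw [h1.1, h2.1] at ht
  exact absurd ht (lt_irrefl _)

/-- THE LOCAL BOUND. -/
theorem local_bound {s : ℕ} {f : ℕ → ℕ} (hf : Bnd d s f) {V : Type} [Finite V] {G : SimpleGraph V}
    {a b : V → Fin d → ℝ} {T : Finset (Fin d)} (hT : T.card ≤ s + 1) (hab : ∀ i, a i ≤ b i)
    (hG : ∀ i j, G.Adj i j ↔ i ≠ j ∧ Hit a b i j) (hbad : ∀ i j, G.Adj i j → Bad a b i j)
    (htriv : ∀ i t, t ∉ T → a i t = 0 ∧ b i t = 0) (hodd : NoOddHole G) {k : ℕ}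
    (hk : ∀ s : Finset V, G.IsClique s → s.card ≤ k) (x : V) :
    ColOn G {v | G.Adj x v} ((2 * 2) ^ d * f k) := by
  classical
  have hex : ∀ v, G.Adj x v → ∃ τ, TS a b τ v x := fun v hv => exists_type (hbad v x hv.symm)
  choose! τ hτ using hex
  have hcard : Fintype.card (Fin d → Bool × Bool) = (2 * 2) ^ d := by
    simp only [Fintype.card_prod, Fintype.card_fun, Fintype.card_fin, Fintype.card_bool]
  rw [← hcard]
  apply ColOn.of_fin τ
  intro τ0
  rcases Set.eq_empty_or_nonempty {v | v ∈ {v | G.Adj x v} ∧ τ v = τ0} with hS | ⟨v0, hv0, hτ0⟩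
  · rw [hS]
    exact ⟨fun _ => 0, fun v hv => absurd hv (Set.notMem_empty v),
      fun u hu => absurd hu (Set.notMem_empty u)⟩
  have hsub : (T.filter (fun t => τ0 t = (false, true))).card ≤ s := by
    have hlt : (T.filter (fun t => τ0 t = (false, true))).card < T.card := by
      apply Finset.card_lt_card
      rw [Finset.filter_ssubset]
      obtain ⟨-, -, ⟨t, ht1, ht2⟩, -⟩ := hbad v0 x (SimpleGraph.Adj.symm hv0)
      refine ⟨t, ?_, ?_⟩
      · by_contra htT
        have h1 := htriv v0 t htT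
        have h2 := htriv x t htT
        rw [h1.1, h2.1] at ht1
        exact absurd ht1 (lt_irrefl _)
      · intro htt
        have h3 := hτ v0 hv0
        rw [hτ0] at h3
        have h4 := (h3.1 t).2.1 (by rw [htt])
        exact absurd ht1 (not_lt.2 h4)
    omega
  apply ColOn.of_ind
  have hmem : ∀ u : {v | v ∈ {v | G.Adj x v} ∧ τ v = τ0}, TS a b τ0 u x ∧ Hit a b u x := by
    rintro ⟨u, hu, hu2⟩
    refine ⟨?_, ((hG _ _).1 (SimpleGraph.Adj.symm hu)).2⟩
    have h3 := hτ u hu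
    rw [hu2] at h3
    exact h3
  refine hf _ (G.induce {v | v ∈ {v | G.Adj x v} ∧ τ v = τ0})
    (fun u t => if τ0 t = (false, true) then a u t else 0)
    (fun u t => if τ0 t = (false, true) then b u t else 0)
    (T.filter (fun t => τ0 t = (false, true))) hsub ?_ ?_ ?_ (hodd.ind _) k (clique_ind hk _)
  · intro u t
    show (if τ0 t = (false, true) then a u t else 0) ≤ (if τ0 t = (false, true) then b u t else 0)
    split_ifs
    · exact hab _ t
    · exact le_rfl
  · intro u v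
    rw [SimpleGraph.comap_adj]
    show G.Adj (u : V) (v : V) ↔ _
    rw [hG]
    constructor
    · rintro ⟨h1, h2⟩
      refine ⟨fun h => h1 (congrArg _ h), ?_⟩
      intro t
      show (if τ0 t = (false, true) then a u t else 0) ≤ (if τ0 t = (false, true) then b v t else 0)
        ∧ (if τ0 t = (false, true) then a v t else 0) ≤ (if τ0 t = (false, true) then b u t else 0)
      split_ifs
      · exact h2 t
      · exact ⟨le_rfl, le_rfl⟩
    · rintro ⟨h1, h2⟩
      refine ⟨fun h => h1 (Subtype.ext h), ?_⟩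
      intro t
      have h3 : (if τ0 t = (false, true) then a u t else 0) ≤
          (if τ0 t = (false, true) then b v t else 0)
          ∧ (if τ0 t = (false, true) then a v t else 0) ≤
          (if τ0 t = (false, true) then b u t else 0) := h2 t
      obtain ⟨⟨r1, -⟩, q1⟩ := hmem u
      obtain ⟨⟨r2, -⟩, q2⟩ := hmem v
      obtain ⟨p1, p2, p3, p4⟩ := r1 t
      obtain ⟨o1, o2, o3, o4⟩ := r2 t
      have g1 := hab u t
      have g2 := hab v t
      have g3 := hab x t
      have g4 := q1 t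
      have g5 := q2 t
      rcases h8 : τ0 t with ⟨_ | _, _ | _⟩
      · have := p2 (by rw [h8]); have := p4 (by rw [h8])
        have := o2 (by rw [h8]); have := o4 (by rw [h8])
        constructor <;> linarith [g4.1, g4.2, g5.1, g5.2]
      · rw [if_pos h8, if_pos h8, if_pos h8, if_pos h8] at h3
        exact h3
      · have := p1 (by rw [h8]); have := p4 (by rw [h8])
        have := o1 (by rw [h8]); have := o4 (by rw [h8])
        constructor <;> linarith [g4.1, g4.2, g5.1, g5.2]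
      · have := p1 (by rw [h8]); have := p3 (by rw [h8])
        have := o1 (by rw [h8]); have := o3 (by rw [h8])
        constructor <;> linarith [g4.1, g4.2, g5.1, g5.2]
  · intro u t ht
    show (if τ0 t = (false, true) then a u t else 0) = 0 ∧
      (if τ0 t = (false, true) then b u t else 0) = 0
    split_ifs with h
    · have htT : t ∉ T := fun h9 => ht (Finset.mem_filter.2 ⟨h9, h⟩)
      exact htriv u t htT
    · exact ⟨rfl, rfl⟩

/-- the class of all arcs of a pattern -/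
def full (G : SimpleGraph V) (a b : V → Fin d → ℝ) (τ : Fin d → Bool × Bool) : Cls V d where
  R := fun u v => G.Adj u v ∧ TS a b τ u v
  τ := τ
  O := Finset.univ

theorem full_ok (G : SimpleGraph V) (a b : V → Fin d → ℝ) (τ : Fin d → Bool × Bool) :
    OKC G a b (full G a b τ) :=
  ⟨fun _ _ h => h.1, fun _ _ h => h.2, fun _ hc => absurd (Finset.mem_univ _) hc,
    fun _ hc => absurd (Finset.mem_univ _) hc⟩

/-- the total potential -/
def Lam (d : ℕ) : ℕ := (2 * 2) ^ d * (2 * d + 1) ^ (d * 2)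

theorem bnd_succ {F : ℕ → ℕ → ℕ → ℕ} (hF : SSHyp F) {s : ℕ} {f : ℕ → ℕ} (hf : Bnd d s f) :
    Bnd d (s + 1) (fun k => P0 d k * XX F d k ((2 * 2) ^ d * f k + 1) (Lam d)) := by
  classical
  intro V _ G a b T hT hab hG htriv hodd k hk
  obtain ⟨c, hc⟩ := base_gen G a b hab hG hk
  show ColOn G Set.univ (P0 d k * XX F d k ((2 * 2) ^ d * f k + 1) (Lam d))
  rw [← card_P0 d k]
  apply ColOn.of_fin c
  intro φ
  apply ColOn.of_ind
  have hG' : ∀ i j : {v | v ∈ Set.univ ∧ c v = φ},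
      (G.induce {v | v ∈ Set.univ ∧ c v = φ}).Adj i j ↔
        i ≠ j ∧ Hit (fun i : {v | v ∈ Set.univ ∧ c v = φ} => a i)
          (fun i : {v | v ∈ Set.univ ∧ c v = φ} => b i) i j := by
    intro i j
    rw [SimpleGraph.comap_adj]
    show G.Adj (i : V) (j : V) ↔ _
    rw [hG]
    constructor
    · rintro ⟨h1, h2⟩
      exact ⟨fun h => h1 (congrArg _ h), h2⟩
    · rintro ⟨h1, h2⟩
      exact ⟨fun h => h1 (Subtype.ext h), h2⟩
  have hbad : ∀ i j : {v | v ∈ Set.univ ∧ c v = φ},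
      (G.induce {v | v ∈ Set.univ ∧ c v = φ}).Adj i j →
        Bad (fun i : {v | v ∈ Set.univ ∧ c v = φ} => a i)
          (fun i : {v | v ∈ Set.univ ∧ c v = φ} => b i) i j :=
    fun i j hij => hc i j hij (i.2.2.trans j.2.2.symm)
  have hn : ∀ x, ColOn (G.induce {v | v ∈ Set.univ ∧ c v = φ})
      {v | (G.induce {v | v ∈ Set.univ ∧ c v = φ}).Adj x v} ((2 * 2) ^ d * f k + 1) :=
    fun x => (local_bound hf (a := fun i : {v | v ∈ Set.univ ∧ c v = φ} => a i)
      (b := fun i : {v | v ∈ Set.univ ∧ c v = φ} => b i) hT (fun i => hab i) hG' hbad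
      (fun i t ht => htriv i t ht) (hodd.ind _) (clique_ind hk _) x).mono
      (Set.Subset.refl _) (Nat.le_succ _)
  refine sys_colour hF (a := fun i : {v | v ∈ Set.univ ∧ c v = φ} => a i)
    (b := fun i : {v | v ∈ Set.univ ∧ c v = φ} => b i) (fun i => hab i) hG' (hodd.ind _)
    (Nat.succ_pos _) hn (clique_ind hk _) (Lam d)
    ((Finset.univ : Finset (Fin d → Bool × Bool)).toList.map
      (full (G.induce {v | v ∈ Set.univ ∧ c v = φ})
        (fun i : {v | v ∈ Set.univ ∧ c v = φ} => a i)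
        (fun i : {v | v ∈ Set.univ ∧ c v = φ} => b i))) ?_ ?_ Set.univ ?_
  · intro C hC
    obtain ⟨τ, -, rfl⟩ := List.mem_map.1 hC
    exact full_ok _ _ _ τ
  · unfold pot Lam
    rw [List.map_map]
    have h1 := List.sum_le_card_nsmul
      ((Finset.univ : Finset (Fin d → Bool × Bool)).toList.map
        (Cls.w ∘ full (G.induce {v | v ∈ Set.univ ∧ c v = φ})
        (fun i : {v | v ∈ Set.univ ∧ c v = φ} => a i)
        (fun i : {v | v ∈ Set.univ ∧ c v = φ} => b i))) ((2 * d + 1) ^ (d * 2)) (by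
        intro x hx
        obtain ⟨τ, -, rfl⟩ := List.mem_map.1 hx
        show (2 * d + 1) ^ (Finset.univ : Finset (Fin d × Bool)).card ≤ _
        rw [Finset.card_univ, Fintype.card_prod, Fintype.card_fin, Fintype.card_bool])
    rw [List.length_map, Finset.length_toList, Finset.card_univ, Fintype.card_fun,
      Fintype.card_prod, Fintype.card_bool, Fintype.card_fin, smul_eq_mul] at h1
    exact h1
  · intro u _ v _ huv
    obtain ⟨τ, hτ⟩ := exists_type (hbad u v huv)
    exact ⟨full _ _ _ τ, List.mem_map.2 ⟨τ, Finset.mem_toList.2 (Finset.mem_univ _), rfl⟩,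
      Or.inl ⟨huv, hτ⟩⟩

/-! ### polynomial bounds -/

/-- `f` is polynomially bounded -/
def Poly (f : ℕ → ℕ) : Prop := ∃ c e : ℕ, ∀ k, f k ≤ c * (k + 1) ^ e

theorem Poly.const (c : ℕ) : Poly (fun _ => c) := ⟨c, 0, fun k => by simp⟩

theorem Poly.id : Poly (fun k => k) := ⟨1, 1, fun k => by simp⟩

theorem Poly.add {f g : ℕ → ℕ} (hf : Poly f) (hg : Poly g) : Poly (fun k => f k + g k) := by
  obtain ⟨c, e, h⟩ := hf
  obtain ⟨c', e', h'⟩ := hg
  refine ⟨c + c', e + e', fun k => ?_⟩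
  have h1 := h k
  have h2 := h' k
  have h3 : (k + 1) ^ e ≤ (k + 1) ^ (e + e') := Nat.pow_le_pow_right (by omega) (by omega)
  have h4 : (k + 1) ^ e' ≤ (k + 1) ^ (e + e') := Nat.pow_le_pow_right (by omega) (by omega)
  calc f k + g k ≤ c * (k + 1) ^ e + c' * (k + 1) ^ e' := by omega
    _ ≤ c * (k + 1) ^ (e + e') + c' * (k + 1) ^ (e + e') :=
        Nat.add_le_add (Nat.mul_le_mul_left _ h3) (Nat.mul_le_mul_left _ h4)
    _ = (c + c') * (k + 1) ^ (e + e') := by ring

theorem Poly.mul {f g : ℕ → ℕ} (hf : Poly f) (hg : Poly g) : Poly (fun k => f k * g k) := by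
  obtain ⟨c, e, h⟩ := hf
  obtain ⟨c', e', h'⟩ := hg
  refine ⟨c * c', e + e', fun k => ?_⟩
  calc f k * g k ≤ (c * (k + 1) ^ e) * (c' * (k + 1) ^ e') := Nat.mul_le_mul (h k) (h' k)
    _ = c * c' * (k + 1) ^ (e + e') := by ring

theorem Poly.pow {f : ℕ → ℕ} (hf : Poly f) : ∀ m : ℕ, Poly (fun k => f k ^ m)
  | 0 => by simpa using Poly.const 1
  | m + 1 => by
    have h := (Poly.pow hf m).mul hf
    simpa only [pow_succ] using h

theorem poly_XX {F : ℕ → ℕ → ℕ → ℕ}
    (hFp : ∀ n Y : ℕ → ℕ, Poly n → Poly Y → Poly (fun k => F (n k) k (Y k))) (d : ℕ)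
    {n : ℕ → ℕ} (hn : Poly n) : ∀ m, Poly (fun k => XX F d k (n k) m)
  | 0 => by
    show Poly (fun _ => 1)
    exact Poly.const 1
  | m + 1 => by
    have ih := poly_XX hFp d hn m
    show Poly (fun k => F (n k) k (((m + 1) * 2) *
      ((k + 1) * (n k * 2 ^ (d * 2)) * XX F d k (n k) m)) + 1)
    refine (hFp n _ hn ?_).add (Poly.const 1)
    exact (Poly.const _).mul (((Poly.id.add (Poly.const 1)).mul (hn.mul (Poly.const _))).mul ih)

theorem exists_bnd {F : ℕ → ℕ → ℕ → ℕ} (hF : SSHyp F)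
    (hFp : ∀ n Y : ℕ → ℕ, Poly n → Poly Y → Poly (fun k => F (n k) k (Y k))) (d : ℕ) :
    ∀ s, ∃ f, Poly f ∧ Bnd d s f := by
  have hP0 : Poly (P0 d) := by
    unfold P0
    exact (((Poly.const 2).mul ((Poly.const _).mul Poly.id)).add (Poly.const 1)).mul
      ((Poly.id.add (Poly.const 1)).pow _)
  intro s
  induction s with
  | zero => exact ⟨P0 d, hP0, bnd_zero d⟩
  | succ s ih =>
    obtain ⟨f, hf1, hf2⟩ := ih
    refine ⟨_, ?_, bnd_succ hF hf2⟩
    exact hP0.mul (poly_XX hFp d (((Poly.const _).mul hf1).add (Poly.const 1)) _)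

/-- THE THEOREM, relative to the Scott-Seymour step. -/
theorem odd_boxes {F : ℕ → ℕ → ℕ → ℕ} (hF : SSHyp F)
    (hFp : ∀ n Y : ℕ → ℕ, Poly n → Poly Y → Poly (fun k => F (n k) k (Y k))) (d : ℕ) :
    ∃ c e : ℕ, ∀ (n : ℕ) (G : SimpleGraph (Fin n)) (a b : Fin n → Fin d → ℝ),
      (∀ i, a i ≤ b i) → (∀ i j, G.Adj i j ↔ i ≠ j ∧ Hit a b i j) → NoOddHole G →
        G.chromaticNumber ≤ ((c * (G.cliqueNum + 1) ^ e : ℕ) : ℕ∞) := by
  obtain ⟨f, ⟨c, e, hce⟩, hf⟩ := exists_bnd hF hFp d d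
  refine ⟨c, e, fun n G a b hab hG hodd => ?_⟩
  obtain ⟨col, h1, h2⟩ := hf (Fin n) G a b Finset.univ (by simp) hab hG
    (fun i t ht => absurd (Finset.mem_univ t) ht) hodd G.cliqueNum
    (fun s hs => hs.card_le_cliqueNum)
  have hcol : G.Colorable (f G.cliqueNum) := by
    refine ⟨SimpleGraph.Coloring.mk (fun v => ⟨col v, h1 v (Set.mem_univ _)⟩) ?_⟩
    intro u v huv heq
    exact h2 u (Set.mem_univ _) v (Set.mem_univ _) huv (congrArg Fin.val heq)
  refine le_trans hcol.chromaticNumber_le ?_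
  rw [Nat.cast_le]
  exact hce _

end BoxSS
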