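import Pool.Agent.W_ccb602.SSFive
import Pool.Agent.W_ccb602.LemmaK
import Pool.Agent.W_ccb602.SSFacts
import Pool.Agent.W_ccb602.SSPrune

/-!
# MP_ccb602_co: assembly of the Scott-Seymour step with polynomial loss

`lev_col`: the top level of a pruned levelling; `ss`: the step relative to a set `W`.
See table proofs, id 412 (helper43).
-/

set_option autoImplicit false

namespace BoxSS

/-- the bound of the step -/
def ssf (n w Y : ℕ) : ℕ := 2 * ((n + 1) + (4 * n + 1) * ((w * (n * n) * Y) * (w * (n * n) * Y)))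

section

variable {V : Type*}

theorem lev_col [Finite V] {G : SimpleGraph V} {n w Y k : ℕ} {L : ℕ → Set V}
    {J : ℕ → V → V → Prop} (hn : ∀ a, ColOn G {v | G.Adj a v} n) (hw : G.CliqueFree (w + 1))
    (hY : ∀ A B, NestedPair G A B → ColOn G B Y) (hL : Lev G k L) (hJ : JFacts G n k L J)
    (hk : 2 ≤ k) :
    ColOn G (L k) ((4 * n + 1) * ((w * (n * n) * Y) * (w * (n * n) * Y))) := by
  classical
  obtain ⟨k, rfl⟩ : ∃ k', k = k' + 2 := ⟨k - 2, by omega⟩
  rcases Set.eq_empty_or_nonempty (L (k + 2)) with h0 | ⟨v0, hv0⟩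
  · refine ⟨fun _ => 0, ?_, ?_⟩
    · intro v hv
      rw [h0] at hv
      exact hv.elim
    · intro v hv
      rw [h0] at hv
      exact hv.elim
  · obtain ⟨b0, hb0, -⟩ := hL.par (k + 1) (by omega) v0 hv0
    obtain ⟨s, hs, -⟩ := hL.par k (by omega) b0 hb0
    obtain ⟨c, hc1, hc2⟩ := hJ.cls k (by omega) s hs
    have hbad := no_bad5 hL hJ k (by omega)
    -- the index of a vertex of level `k`
    let idx : V → ℕ := fun a => if a = s then 4 * n else c a
    have hidx : ∀ a ∈ L k, idx a < 4 * n + 1 := by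
      intro a ha
      by_cases h : a = s
      · simp only [idx, h, if_true]; omega
      · simp only [idx, h, if_false]
        have := hc1 a ha
        omega
    have hpar : ∀ v : V, ∃ a, v ∈ L (k + 2) → a ∈ L k ∧ ∃ b ∈ L (k + 1), G.Adj a b ∧ G.Adj b v := by
      intro v
      by_cases hv : v ∈ L (k + 2)
      · obtain ⟨b, hb, hbv⟩ := hL.par (k + 1) (by omega) v hv
        obtain ⟨a, ha, hab⟩ := hL.par k (by omega) b hb
        exact ⟨a, fun _ => ⟨ha, b, hb, hab, hbv⟩⟩
      · exact ⟨v, fun h => absurd h hv⟩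
    choose g hg using hpar
    refine ColOn.of_classes (fun v => idx (g v)) (fun v hv => hidx _ (hg v hv).1) ?_
    intro i _
    -- the class of level `k`
    have hA1 : ∀ a ∈ {a | a ∈ L k ∧ idx a = i}, ∀ a' ∈ {a | a ∈ L k ∧ idx a = i},
        ¬ G.Adj a a' := by
      rintro a ⟨ha, hai⟩ a' ⟨ha', hai'⟩ hadj
      by_cases h1 : a = s
      · by_cases h2 : a' = s
        · rw [h1, h2] at hadj
          exact G.irrefl hadj
        · have e1 : 4 * n = i := by simpa only [idx, h1, if_true] using hai
          have e2 : c a' = i := by simpa only [idx, h2, if_false] using hai'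
          have := hc1 a' ha'
          omega
      · have e1 : c a = i := by simpa only [idx, h1, if_false] using hai
        by_cases h2 : a' = s
        · have e2 : 4 * n = i := by simpa only [idx, h2, if_true] using hai'
          have := hc1 a ha
          omega
        · have e2 : c a' = i := by simpa only [idx, h2, if_false] using hai'
          exact (hc2 a ha a' ha' h1 h2 (e1.trans e2.symm)).1 hadj
    have hA2 : P4Free (J k) {a | a ∈ L k ∧ idx a = i} := by
      rintro a ⟨ha, hai⟩ b ⟨hb, hbi⟩ x ⟨hx, hxi⟩ d ⟨hd, hdi⟩ ab ax ad bx bd xd j1 j2 j3 j4 j6 j5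
      -- at most one of them is `s`, hence none
      have key : ∀ y z, y ∈ L k → z ∈ L k → idx y = i → idx z = i → y ≠ z → y ≠ s := by
        rintro y z hy hz hyi hzi hyz rfl
        have e1 : 4 * n = i := by simpa only [idx, if_true] using hyi
        have e2 : c z = i := by simpa only [idx, hyz.symm, if_false] using hzi
        have := hc1 z hz
        omega
      have na := key a b ha hb hai hbi ab
      have nb := key b a hb ha hbi hai ab.symm
      have nx := key x a hx ha hxi hai ax.symm
      have nd := key d a hd ha hdi hai ad.symm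
      have ca : c a = i := by simpa only [idx, na, if_false] using hai
      have cb : c b = i := by simpa only [idx, nb, if_false] using hbi
      have cx : c x = i := by simpa only [idx, nx, if_false] using hxi
      have cd : c d = i := by simpa only [idx, nd, if_false] using hdi
      have eb := (hc2 a ha b hb na nb (ca.trans cb.symm)).2
      have ex := (hc2 a ha x hx na nx (ca.trans cx.symm)).2
      have ed := (hc2 a ha d hd na nd (ca.trans cd.symm)).2
      refine hbad ⟨a, b, x, d, s, ?_⟩
      exact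
        { ha := ha
          hb := hb
          hc := hx
          hd := hd
          hs := hs
          ab := ab
          ac := ax
          ad := ad
          bc := bx
          bd := bd
          cd := xd
          sa := na.symm
          sb := nb.symm
          sc := nx.symm
          sd := nd.symm
          jab := j1
          jbc := j2
          jcd := j3
          jac := j4
          jbd := j5
          jad := j6
          js := by
            by_cases h : J k s a
            · exact Or.inl ⟨h, eb.1 h, ex.1 h, ed.1 h⟩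
            · exact Or.inr ⟨h, fun h' => h (eb.2 h'), fun h' => h (ex.2 h'),
                fun h' => h (ed.2 h')⟩ }
    have hBsub : {b | b ∈ L (k + 1) ∧ ∃ a ∈ {a | a ∈ L k ∧ idx a = i}, G.Adj a b} ⊆ L (k + 1) :=
      fun b hb => hb.1
    have hdisj : ∀ (i j : ℕ) (S T : Set V), i ≠ j → S ⊆ L i → T ⊆ L j → Disjoint S T := by
      intro i j S T hij hS hT
      rw [Set.disjoint_left]
      intro v hv hv'
      exact hij (hL.disj i j v (hS hv) (hT hv'))
    refine two_step G {a | a ∈ L k ∧ idx a = i}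
      {b | b ∈ L (k + 1) ∧ ∃ a ∈ {a | a ∈ L k ∧ idx a = i}, G.Adj a b}
      {v | v ∈ L (k + 2) ∧ idx (g v) = i} (J k) (J (k + 1)) n w Y
      (hJ.up k (by omega) _ _ (fun a ha => ha.1) hBsub hA1 (fun b hb => hb.2)) hA2 ?_ ?_ ?_
      (hdisj k (k + 1) _ _ (by omega) (fun a ha => ha.1) hBsub)
      (hdisj (k + 1) (k + 2) _ _ (by omega) hBsub (fun a ha => ha.1)) hn hw
      (fun B' _ h => hY _ _ h) (fun B' C' _ _ h => hY _ _ h)
    · rintro v ⟨hv, hvi⟩
      obtain ⟨h1, b, hb, h2, h3⟩ := hg v hv
      exact ⟨b, ⟨hb, g v, ⟨h1, hvi⟩, h2⟩, h3⟩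
    · intro B' hB' hst
      exact hJ.low k (by omega) _ B' (fun a ha => ha.1) (fun b hb => hBsub (hB' hb)) hA1 hst
    · intro B' C' hB' hC' hst hcov
      exact hJ.up (k + 1) (by omega) B' C' (fun b hb => hBsub (hB' hb)) (fun v hv => (hC' hv).1)
        hst hcov

/-- the top level, any height -/
theorem lev_col' [Finite V] {G : SimpleGraph V} (hG : NoOddHole G) {n w Y k : ℕ} {L : ℕ → Set V}
    (hn : ∀ a, ColOn G {v | G.Adj a v} n) (hw : G.CliqueFree (w + 1))
    (hY : ∀ A B, NestedPair G A B → ColOn G B Y) (hL : Lev G k L) :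
    ColOn G (L k) ((n + 1) + (4 * n + 1) * ((w * (n * n) * Y) * (w * (n * n) * Y))) := by
  rcases Nat.lt_or_ge k 2 with h | h
  · obtain ⟨z, hz⟩ := hL.root
    rcases Nat.eq_zero_or_pos k with rfl | h1
    · refine ⟨fun _ => 0, fun v _ => by show 0 < _; omega, ?_⟩
      intro u hu v hv huv
      rw [hz, Set.mem_singleton_iff] at hu hv
      rw [hu, hv] at huv
      exact (G.irrefl huv).elim
    · obtain rfl : k = 1 := by omega
      refine (hn z).mono ?_ (by omega)
      intro v hv
      obtain ⟨u, hu, huv⟩ := hL.par 0 (by omega) v hv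
      rw [hz, Set.mem_singleton_iff] at hu
      rw [hu] at huv
      exact huv
  · obtain ⟨J, hJ⟩ := exists_J hG hn hL
    exact (lev_col hn hw hY hL hJ h).mono (fun _ hv => hv) (by omega)

/-- transfer of colourings from the induced subgraph -/
theorem colOn_of_induce {G : SimpleGraph V} {W : Set V} {m : ℕ}
    (h : ColOn (G.induce W) Set.univ m) : ColOn G W m := by
  classical
  obtain ⟨c, h1, h2⟩ := h
  refine ⟨fun v => if hv : v ∈ W then c ⟨v, hv⟩ else 0, ?_, ?_⟩
  · intro v hv
    simp only [hv, dif_pos]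
    exact h1 ⟨v, hv⟩ (Set.mem_univ _)
  · intro u hu v hv huv
    simp only [hu, hv, dif_pos]
    exact h2 ⟨u, hu⟩ (Set.mem_univ _) ⟨v, hv⟩ (Set.mem_univ _) huv

theorem colOn_induce {G : SimpleGraph V} {W : Set V} {S : Set W} {m : ℕ}
    (h : ColOn G (Subtype.val '' S) m) : ColOn (G.induce W) S m := by
  obtain ⟨c, h1, h2⟩ := h
  exact ⟨fun v => c v.val, fun v hv => h1 v.val ⟨v, hv, rfl⟩,
    fun u hu v hv huv => h2 u.val ⟨u, hu, rfl⟩ v.val ⟨v, hv, rfl⟩ huv⟩

theorem noOddHole_induce {G : SimpleGraph V} (hG : NoOddHole G) (W : Set V) :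
    NoOddHole (G.induce W) := by
  intro m
  exact ⟨fun f => (hG m).elim (f.trans (SimpleGraph.Embedding.induce W))⟩

theorem nestedPair_image {G : SimpleGraph V} {W : Set V} {A B : Set W}
    (h : NestedPair (G.induce W) A B) : NestedPair G (Subtype.val '' A) (Subtype.val '' B) := by
  obtain ⟨h1, h2, h3, h4⟩ := h
  refine ⟨?_, ?_, ?_, ?_⟩
  · rintro _ ⟨a, ha, rfl⟩ _ ⟨a', ha', rfl⟩ hadj
    exact h1 a ha a' ha' hadj
  · rw [Set.disjoint_left]
    rintro _ ⟨a, ha, rfl⟩ ⟨b, hb, hab⟩
    have : b = a := Subtype.ext hab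
    rw [this] at hb
    exact (Set.disjoint_left.1 h2) ha hb
  · rintro _ ⟨b, hb, rfl⟩
    obtain ⟨a, ha, hab⟩ := h3 b hb
    exact ⟨a.val, ⟨a, ha, rfl⟩, hab⟩
  · rintro _ ⟨x, hx, rfl⟩ _ ⟨y, hy, rfl⟩ hxy
    rcases h4 x hx y hy hxy with h5 | h5
    · left
      rintro _ ⟨⟨a, ha, rfl⟩, hax⟩
      have := h5 (show a ∈ NA (G.induce W) A x from ⟨ha, hax⟩)
      exact ⟨⟨a, ha, rfl⟩, this.2⟩
    · right
      rintro _ ⟨⟨a, ha, rfl⟩, hax⟩
      have := h5 (show a ∈ NA (G.induce W) A y from ⟨ha, hax⟩)
      exact ⟨⟨a, ha, rfl⟩, this.2⟩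

/-- The Scott-Seymour step with polynomial loss: in a graph without odd holes whose neighbourhoods are
`n`-colourable and whose cliques have at most `w` vertices, a set `W` is `ssf n w Y`-colourable as soon as
the second member of every nested pair inside `W` is `Y`-colourable. -/
theorem ss [Finite V] {G : SimpleGraph V} (hG : NoOddHole G) {n w Y : ℕ}
    (hn : ∀ a, ColOn G {v | G.Adj a v} n) (hw : G.CliqueFree (w + 1)) (W : Set V)
    (hY : ∀ A B, A ⊆ W → B ⊆ W → NestedPair G A B → ColOn G B Y) : ColOn G W (ssf n w Y) := by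
  refine colOn_of_induce (colour_of_levels (G.induce W) Set.univ _ fun k L hL _ => ?_)
  refine lev_col' (noOddHole_induce hG W) (Y := Y) (w := w) (n := n) ?_ ?_ ?_ hL
  · intro a
    refine colOn_induce ((hn a.val).mono ?_ le_rfl)
    rintro _ ⟨v, hv, rfl⟩
    exact hv
  · exact hw.comap ⟨(SimpleGraph.Embedding.induce W).toCopy⟩
  · intro A B hAB
    refine colOn_induce (hY _ _ ?_ ?_ (nestedPair_image hAB))
    · rintro _ ⟨v, -, rfl⟩; exact v.2
    · rintro _ ⟨v, -, rfl⟩; exact v.2

end

end BoxSS
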