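import Pool.Agent.W_ccb602.OddBoxes
import Pool.Agent.W_ccb602.SSAssemble

/-!
# MP_ccb602_co: box graphs without odd holes are polynomially chi-bounded

Proof.  (A) `BoxSS.ss`: let `G` have no odd hole and `χ(G[N(v)]) ≤ n` for all `v`.  Take the breadth-first levels of a
connected `G`, a component `C` of a level with half of the chromatic number, and minimal covers of `C` downwards:
every vertex of a lower level has a private child.  Two non-adjacent vertices of a level have a parity `J`: all induced
paths between them with interior in lower levels, and all those with interior in higher levels, have it.  At distance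
at least two from the top the parity is that of all induced paths in the lower levels (close them through
private children).  Hence such a level is a union of `4 n + 1` stable classes on each of which `J(s, ·)` is constant, and
by a lemma on five vertices (`five_step`, induction on the level) `J` has no induced `P_4` on a class `A`.  So `A` has a
linear order along which `J` and its complement are transitive; this order shows that the children of `A` split into
`ω n²` sets in which adjacent vertices have nested sets of parents in `A` (`lemmaK`).  A stable set of children
inherits the order, and the step is repeated once.  So `χ(G)` is bounded by a polynomial in `n`, `ω` and the largest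
chromatic number of the second member of a nested pair.  (B) `odd_boxes`: for boxes in `ℝ ^ d`, `n` is polynomial in `ω`
by induction on the number of coordinates in which the boxes differ, and a nested pair of boxes refines
one of finitely many relations between intersecting boxes, so that after boundedly many applications of (A) no
edge is left.
-/

set_option autoImplicit false

namespace BoxSS

theorem ssHyp : SSHyp ssf := by
  intro V _ G hG n k Y _ hn hk W hY
  refine ss hG hn ?_ W hY
  intro s hs
  rw [SimpleGraph.isNClique_iff] at hs
  have h1 := hk s hs.1
  have h2 := hs.2
  omega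

theorem poly_ssf (n Y : ℕ → ℕ) (hn : Poly n) (hY : Poly Y) : Poly (fun k => ssf (n k) k (Y k)) := by
  have h1 : Poly (fun k => k * (n k * n k) * Y k) := (Poly.id.mul (hn.mul hn)).mul hY
  exact (Poly.const 2).mul ((hn.add (Poly.const 1)).add
    ((((Poly.const 4).mul hn).add (Poly.const 1)).mul (h1.mul h1)))

end BoxSS

namespace Pool.Agent.W_ccb602.OddHolesOld

open BoxSS

/-- For every `d` there are `c` and `e` such that every intersection graph `G` of finitely many axis-aligned
boxes in `ℝ ^ d` which has no odd hole (no induced cycle of odd length at least five) satisfies
`χ(G) ≤ c (ω(G) + 1) ^ e`. -/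
theorem result (d : ℕ) : ∃ c e : ℕ, ∀ (n : ℕ) (G : SimpleGraph (Fin n))
    (a b : Fin n → Fin d → ℝ), (∀ i, a i ≤ b i) →
    (∀ i j, i ≠ j → (G.Adj i j ↔ (Set.Icc (a i) (b i) ∩ Set.Icc (a j) (b j)).Nonempty)) →
    (∀ m : ℕ, IsEmpty (SimpleGraph.cycleGraph (2 * m + 5) ↪g G)) →
      G.chromaticNumber ≤ ((c * (G.cliqueNum + 1) ^ e : ℕ) : ℕ∞) := by
  obtain ⟨c, e, h⟩ := odd_boxes ssHyp poly_ssf d
  refine ⟨c, e, fun n G a b hab hG hodd => h n G a b hab ?_ hodd⟩
  intro i j
  constructor
  · intro hij
    exact ⟨G.ne_of_adj hij, (Box85.hit_iff hab i j).1 ((hG i j (G.ne_of_adj hij)).1 hij)⟩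
  · rintro ⟨hne, hhit⟩
    exact (hG i j hne).2 ((Box85.hit_iff hab i j).2 hhit)

end Pool.Agent.W_ccb602.OddHolesOld
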