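import Pool.Agent.W_ccb602.SSIface

/-!
# MP_ccb602_co: the five vertex lemma (Lemma F)

`Bad5 X J`: five vertices of `X` on which `J` is `P_4 + K_1` or the gem.  `five_step`: such a configuration
on a level gives one on the level below.  See table proofs, id 412 (helper43).
-/

set_option autoImplicit false

namespace BoxSS

variable {V : Type*}

/-- `a b c d` is an induced `P_4` of `J` and `s` is joined to all or to none of its vertices -/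
structure Five (X : Set V) (J : V → V → Prop) (a b c d s : V) : Prop where
  ha : a ∈ X
  hb : b ∈ X
  hc : c ∈ X
  hd : d ∈ X
  hs : s ∈ X
  ab : a ≠ b
  ac : a ≠ c
  ad : a ≠ d
  bc : b ≠ c
  bd : b ≠ d
  cd : c ≠ d
  sa : s ≠ a
  sb : s ≠ b
  sc : s ≠ c
  sd : s ≠ d
  jab : J a b
  jbc : J b c
  jcd : J c d
  jac : ¬ J a c
  jbd : ¬ J b d
  jad : ¬ J a d
  js : (J s a ∧ J s b ∧ J s c ∧ J s d) ∨ (¬ J s a ∧ ¬ J s b ∧ ¬ J s c ∧ ¬ J s d)

/-- some five vertices of `X` induce `P_4 + K_1` or the gem in `J` -/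
def Bad5 (X : Set V) (J : V → V → Prop) : Prop := ∃ a b c d s, Five X J a b c d s

section

variable {G : SimpleGraph V} {X Y : Set V} {JX JY : V → V → Prop}

theorem Five.rev (hsym : ∀ x ∈ X, ∀ y ∈ X, JX x y → JX y x) {a b c d s : V}
    (h : Five X JX a b c d s) : Five X JX d c b a s where
  ha := h.hd
  hb := h.hc
  hc := h.hb
  hd := h.ha
  hs := h.hs
  ab := h.cd.symm
  ac := h.bd.symm
  ad := h.ad.symm
  bc := h.bc.symm
  bd := h.ac.symm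
  cd := h.ab.symm
  sa := h.sd
  sb := h.sc
  sc := h.sb
  sd := h.sa
  jab := hsym _ h.hc _ h.hd h.jcd
  jbc := hsym _ h.hb _ h.hc h.jbc
  jcd := hsym _ h.ha _ h.hb h.jab
  jac := fun h' => h.jbd (hsym _ h.hd _ h.hb h')
  jbd := fun h' => h.jac (hsym _ h.hc _ h.ha h')
  jad := fun h' => h.jad (hsym _ h.hd _ h.ha h')
  js := by
    rcases h.js with ⟨h1, h2, h3, h4⟩ | ⟨h1, h2, h3, h4⟩
    · exact Or.inl ⟨h4, h3, h2, h1⟩
    · exact Or.inr ⟨h4, h3, h2, h1⟩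

/-- no common parent -/
theorem Step.nocommon (h : Step G X Y JX JY) {x y : V} (hx : x ∈ X) (hy : y ∈ X) (hne : x ≠ y)
    (hJ : JX x y) (hn : ¬ G.Adj x y) {p : V} (hp : p ∈ Y) (h1 : G.Adj p x) (h2 : G.Adj p y) :
    False :=
  hn (h.f1 x hx y hy hne p hp h1 h2 hJ)

/-- rule F2 used for two pairs with the same private parents -/
theorem Step.two (h : Step G X Y JX JY) {x y x' y' : V} (hx : x ∈ X) (hy : y ∈ X) (hx' : x' ∈ X)
    (hy' : y' ∈ X) (hne : x ≠ y) (hne' : x' ≠ y') {p r : V} (hp : p ∈ Y) (hr : r ∈ Y)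
    (h1 : G.Adj p x) (h2 : ¬ G.Adj p y) (h3 : G.Adj r y) (h4 : ¬ G.Adj r x)
    (h1' : G.Adj p x') (h2' : ¬ G.Adj p y') (h3' : G.Adj r y') (h4' : ¬ G.Adj r x')
    (hJ : JX x y) (hJ' : ¬ JX x' y') : False :=
  hJ' ((h.f2 x' hx' y' hy' hne' p hp r hr h1' h2' h3' h4').1
    ((h.f2 x hx y hy hne p hp r hr h1 h2 h3 h4).2 hJ))

/-- the first part of the non-stable case -/
theorem Step.part2 (h : Step G X Y JX JY) {x y z w s : V} (hx : x ∈ X) (hy : y ∈ X) (hz : z ∈ X)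
    (hw : w ∈ X) (hs : s ∈ X) (xy : x ≠ y) (xz : x ≠ z) (yz : y ≠ z) (wx : w ≠ x) (wy : w ≠ y)
    (wz : w ≠ z) (sx : s ≠ x) (sy : s ≠ y) (sz : s ≠ z) (sw : s ≠ w)
    (jyz : JX y z) (jxz : ¬ JX x z) (jwy : ¬ JX w y)
    (axy : G.Adj x y) (nyz : ¬ G.Adj y z)
    (js : (JX s x ∧ JX s y ∧ JX s z ∧ JX s w) ∨ (¬ JX s x ∧ ¬ JX s y ∧ ¬ JX s z ∧ ¬ JX s w)) :
    (JX s x ∧ JX s y ∧ JX s z ∧ JX s w) ∧ G.Adj s x ∧ G.Adj s y ∧ ¬ G.Adj s z ∧
      (∀ p ∈ Y, G.Adj p y ↔ G.Adj p s) ∧ (∀ p ∈ Y, G.Adj p y → ¬ G.Adj p z) ∧ G.Adj w s ∧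
      ∃ p ∈ Y, G.Adj p w ∧ G.Adj p y := by
  have c1 : ∀ p ∈ Y, G.Adj p y → ¬ G.Adj p z := fun p hp h1 h2 =>
    h.nocommon hy hz yz jyz nyz hp h1 h2
  obtain ⟨r, hr, hrz⟩ := h.par z hz
  obtain ⟨p, hp, hpy⟩ := h.par y hy
  have hry : ¬ G.Adj r y := fun h1 => c1 r hr h1 hrz
  have c2 : ¬ ∀ p ∈ Y, (G.Adj p x ↔ G.Adj p y) := by
    intro heq
    exact h.two hy hz hx hz yz xz hp hr hpy (c1 p hp hpy) hrz hry ((heq p hp).2 hpy)
      (c1 p hp hpy) hrz (fun h1 => hry ((heq r hr).1 h1)) jyz jxz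
  rcases js with ⟨jsx, jsy, jsz, jsw⟩ | ⟨jsx, jsy, jsz, jsw⟩
  · refine ⟨⟨jsx, jsy, jsz, jsw⟩, ?_⟩
    have e1 : G.Adj s x ∨ G.Adj s y := by
      by_contra hcon
      rw [not_or] at hcon
      rcases h.f4 x hx y hy s hs axy sx sy hcon.1 hcon.2 (iff_of_true jsx jsy) with h1 | h1
      · exact c2 h1
      · obtain ⟨q, hq, hqs⟩ := h.par s hs
        exact h.nocommon hs hx sx jsx hcon.1 hq hqs (h1 q hq hqs).1
    have e2 : G.Adj s x → G.Adj s y := by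
      intro h1
      by_contra h2
      exact h.q2 s hs x hx y hy h1 axy sy h2 jsy
    have e3 : G.Adj s y → G.Adj s x := by
      intro h1
      by_contra h2
      exact h.q2 s hs y hy x hx h1 axy.symm sx h2 jsx
    have asy : G.Adj s y := e1.elim e2 id
    have asx : G.Adj s x := e3 asy
    have nsz : ¬ G.Adj s z := by
      intro h1
      exact h.q2 y hy s hs z hz asy.symm h1 yz nyz jyz
    have hPar : ∀ p ∈ Y, G.Adj p y ↔ G.Adj p s := by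
      rcases h.f4 y hy s hs z hz asy.symm yz.symm sz.symm (fun h1 => nyz h1.symm)
        (fun h1 => nsz h1.symm)
        (iff_of_true (h.symX _ hy _ hz jyz) (h.symX _ hs _ hz jsz)) with h1 | h1
      · exact h1
      · exact absurd (h1 r hr hrz).1 hry
    have hcom : ∃ p ∈ Y, G.Adj p w ∧ G.Adj p y := by
      by_contra hcon
      have hcon' : ∀ q ∈ Y, G.Adj q w → ¬ G.Adj q y := fun q hq h1 h2 => hcon ⟨q, hq, h1, h2⟩
      obtain ⟨q, hq, hqw⟩ := h.par w hw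
      exact h.two hw hs hw hy sw.symm wy hq hp hqw (fun h1 => hcon' q hq hqw ((hPar q hq).2 h1))
        ((hPar p hp).1 hpy) (fun h1 => hcon' p hp h1 hpy) hqw (hcon' q hq hqw) hpy
        (fun h1 => hcon' p hp h1 hpy) (h.symX _ hs _ hw jsw) jwy
    obtain ⟨p0, hp0, hp0w, hp0y⟩ := hcom
    have aws : G.Adj w s := h.f1 w hw s hs sw.symm p0 hp0 hp0w ((hPar p0 hp0).1 hp0y)
      (h.symX _ hs _ hw jsw)
    exact ⟨asx, asy, nsz, hPar, c1, aws, p0, hp0, hp0w, hp0y⟩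
  · exfalso
    rcases h.f4 x hx y hy s hs axy sx sy (fun h1 => jsx (h.adjX _ hs _ hx h1))
      (fun h1 => jsy (h.adjX _ hs _ hy h1)) (iff_of_false jsx jsy) with h1 | h1
    · exact c2 h1
    · obtain ⟨q, hq, hqs⟩ := h.par s hs
      have hqy := (h1 q hq hqs).2
      exact h.two hy hz hs hz yz sz hq hr hqy (c1 q hq hqy) hrz hry hqs (c1 q hq hqy) hrz
        (fun h2 => hry (h1 r hr h2).2) jyz jsz

/-- order `w x y z`, `x ~ y`, `y` and `z` not adjacent -/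
theorem Step.part2b (h : Step G X Y JX JY) {x y z w s : V} (hF : Five X JX w x y z s)
    (axy : G.Adj x y) (nyz : ¬ G.Adj y z) : False := by
  have js : (JX s x ∧ JX s y ∧ JX s z ∧ JX s w) ∨
      (¬ JX s x ∧ ¬ JX s y ∧ ¬ JX s z ∧ ¬ JX s w) := by
    rcases hF.js with ⟨h1, h2, h3, h4⟩ | ⟨h1, h2, h3, h4⟩
    · exact Or.inl ⟨h2, h3, h4, h1⟩
    · exact Or.inr ⟨h2, h3, h4, h1⟩
  obtain ⟨⟨jsx, jsy, jsz, jsw⟩, asx, asy, nsz, hPar, c1, aws, p0, hp0, hp0w, hp0y⟩ :=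
    h.part2 hF.hb hF.hc hF.hd hF.ha hF.hs hF.bc hF.bd hF.cd hF.ab hF.ac hF.ad hF.sb hF.sc hF.sd
      hF.sa hF.jcd hF.jbd hF.jac axy nyz js
  obtain ⟨r, hr, hrz⟩ := h.par z hF.hd
  have hry : ¬ G.Adj r y := fun h1 => c1 r hr h1 hrz
  have hrs : ¬ G.Adj r s := fun h1 => hry ((hPar r hr).2 h1)
  have nwy : ¬ G.Adj w y := fun h1 => hF.jac (h.adjX _ hF.ha _ hF.hc h1)
  have nwz : ¬ G.Adj w z := fun h1 => hF.jad (h.adjX _ hF.ha _ hF.hd h1)
  by_cases hrw : G.Adj r w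
  · exact h.q4 y hF.hc s hF.hs w hF.ha r hr z hF.hd asy.symm aws.symm hrw.symm hrz hF.ac.symm
      (fun h1 => nwy h1.symm) (fun h1 => hry h1.symm) hF.cd nyz (fun h1 => hrs h1.symm) hF.sd nsz
      hF.ad nwz hF.jcd
  · exact h.two hF.hc hF.hd hF.ha hF.hd hF.cd hF.ad hp0 hr hp0y (c1 p0 hp0 hp0y) hrz hry hp0w
      (c1 p0 hp0 hp0y) hrz hrw hF.jcd hF.jad

/-- order `x y z w`, `x ~ y`, `y` and `z` not adjacent -/
theorem Step.part2a (h : Step G X Y JX JY) {x y z w s : V} (hF : Five X JX x y z w s)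
    (axy : G.Adj x y) (nyz : ¬ G.Adj y z) : False := by
  obtain ⟨⟨jsx, jsy, jsz, jsw⟩, asx, asy, nsz, hPar, c1, aws, p0, hp0, hp0w, hp0y⟩ :=
    h.part2 hF.ha hF.hb hF.hc hF.hd hF.hs hF.ab hF.ac hF.bc hF.ad.symm hF.bd.symm hF.cd.symm
      hF.sa hF.sb hF.sc hF.sd hF.jbc hF.jac (fun h1 => hF.jbd (h.symX _ hF.hd _ hF.hb h1)) axy nyz
      hF.js
  obtain ⟨r, hr, hrz⟩ := h.par z hF.hc
  have hry : ¬ G.Adj r y := fun h1 => c1 r hr h1 hrz
  have hrs : ¬ G.Adj r s := fun h1 => hry ((hPar r hr).2 h1)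
  have nwz : ¬ G.Adj w z := by
    intro h1
    exact h.q2 s hF.hs w hF.hd z hF.hc aws.symm h1 hF.sc nsz jsz
  have hPar' : ∀ p ∈ Y, G.Adj p w ↔ G.Adj p s := by
    rcases h.f4 w hF.hd s hF.hs z hF.hc aws hF.cd hF.sc.symm (fun h1 => nwz h1.symm)
      (fun h1 => nsz h1.symm) (iff_of_true hF.jcd (h.symX _ hF.hs _ hF.hc jsz)) with h1 | h1
    · exact h1
    · exact absurd (h1 r hr hrz).2 hrs
  have hrw : ¬ G.Adj r w := fun h1 => hrs ((hPar' r hr).1 h1)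
  have hcom : ∃ p ∈ Y, G.Adj p x ∧ G.Adj p s := by
    by_contra hcon
    have hcon' : ∀ q ∈ Y, G.Adj q x → ¬ G.Adj q s := fun q hq h1 h2 => hcon ⟨q, hq, h1, h2⟩
    obtain ⟨q, hq, hqx⟩ := h.par x hF.ha
    obtain ⟨t, ht, hts⟩ := h.par s hF.hs
    exact h.two hF.ha hF.hs hF.ha hF.hd hF.sa.symm hF.ad hq ht hqx (hcon' q hq hqx) hts
      (fun h1 => hcon' t ht h1 hts) hqx (fun h1 => hcon' q hq hqx ((hPar' q hq).1 h1))
      ((hPar' t ht).2 hts) (fun h1 => hcon' t ht h1 hts) (h.symX _ hF.hs _ hF.ha jsx) hF.jad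
  obtain ⟨p1, hp1, hp1x, hp1s⟩ := hcom
  have hp1y : G.Adj p1 y := (hPar p1 hp1).2 hp1s
  have nxw : ¬ G.Adj x w := fun h1 => hF.jad (h.adjX _ hF.ha _ hF.hd h1)
  have nxz : ¬ G.Adj x z := fun h1 => hF.jac (h.adjX _ hF.ha _ hF.hc h1)
  by_cases hrx : G.Adj r x
  · exact h.q4 w hF.hd s hF.hs x hF.ha r hr z hF.hc aws asx hrx.symm hrz hF.ad.symm
      (fun h1 => nxw h1.symm) (fun h1 => hrw h1.symm) hF.cd.symm nwz (fun h1 => hrs h1.symm) hF.sc
      nsz hF.ac nxz (h.symX _ hF.hc _ hF.hd hF.jcd)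
  · exact h.two hF.hb hF.hc hF.ha hF.hc hF.bc hF.ac hp1 hr hp1y (c1 p1 hp1 hp1y) hrz hry hp1x
      (c1 p1 hp1 hp1y) hrz hrx hF.jbc hF.jac

/-! ### the stable case -/

theorem Step.dj13 (h : Step G X Y JX JY) {a b c d s : V} (hF : Five X JX a b c d s)
    (nab : ¬ G.Adj a b) (nbc : ¬ G.Adj b c) (ncd : ¬ G.Adj c d) {p : V} (hp : p ∈ Y)
    (hpa : G.Adj p a) (hpc : G.Adj p c) : False := by
  have dab : ∀ q ∈ Y, G.Adj q a → ¬ G.Adj q b := fun q hq h1 h2 =>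
    h.nocommon hF.ha hF.hb hF.ab hF.jab nab hq h1 h2
  have dcd : ∀ q ∈ Y, G.Adj q c → ¬ G.Adj q d := fun q hq h1 h2 =>
    h.nocommon hF.hc hF.hd hF.cd hF.jcd ncd hq h1 h2
  have hpd := dcd p hp hpc
  have key : ∀ r ∈ Y, G.Adj r d → G.Adj r a := by
    intro r hr hrd
    by_contra hra
    exact h.two hF.hc hF.hd hF.ha hF.hd hF.cd hF.ad hp hr hpc hpd hrd (fun h1 => dcd r hr h1 hrd)
      hpa hpd hrd hra hF.jcd hF.jad
  obtain ⟨r, hr, hrd⟩ := h.par d hF.hd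
  obtain ⟨q, hq, hqb⟩ := h.par b hF.hb
  have hra := key r hr hrd
  have hrb := dab r hr hra
  have hqa : ¬ G.Adj q a := fun h1 => dab q hq h1 hqb
  have hqd : ¬ G.Adj q d := fun h1 => hqa (key q hq h1)
  exact h.two hF.hb hF.ha hF.hb hF.hd hF.ab.symm hF.bd hq hr hqb hqa hra hrb hqb hqd hrd hrb
    (h.symX _ hF.ha _ hF.hb hF.jab) hF.jbd

theorem Step.dj14 (h : Step G X Y JX JY) {a b c d s : V} (hF : Five X JX a b c d s)
    (nab : ¬ G.Adj a b) (nbc : ¬ G.Adj b c) (ncd : ¬ G.Adj c d) {p : V} (hp : p ∈ Y)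
    (hpa : G.Adj p a) (hpd : G.Adj p d) : False := by
  obtain ⟨q, hq, hqb⟩ := h.par b hF.hb
  have hqa : ¬ G.Adj q a := fun h1 => h.nocommon hF.ha hF.hb hF.ab hF.jab nab hq h1 hqb
  have hpb : ¬ G.Adj p b := fun h1 => h.nocommon hF.ha hF.hb hF.ab hF.jab nab hp hpa h1
  have hqd : ¬ G.Adj q d := fun h1 => h.dj13 (hF.rev h.symX) (fun h => ncd h.symm)
    (fun h => nbc h.symm) (fun h => nab h.symm) hq h1 hqb
  exact h.two hF.ha hF.hb hF.hd hF.hb hF.ab hF.bd.symm hp hq hpa hpb hqb hqa hpd hpb hqb hqd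
    hF.jab (fun h1 => hF.jbd (h.symX _ hF.hd _ hF.hb h1))

/-- the step of the five vertex lemma -/
theorem five_step (h : Step G X Y JX JY) (hY : ¬ Bad5 Y JY) : ¬ Bad5 X JX := by
  rintro ⟨a, b, c, d, s, hF⟩
  have hR := hF.rev h.symX
  have nac : ¬ G.Adj a c := fun h1 => hF.jac (h.adjX _ hF.ha _ hF.hc h1)
  have nbd : ¬ G.Adj b d := fun h1 => hF.jbd (h.adjX _ hF.hb _ hF.hd h1)
  have nad : ¬ G.Adj a d := fun h1 => hF.jad (h.adjX _ hF.ha _ hF.hd h1)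
  by_cases aab : G.Adj a b
  · by_cases abc : G.Adj b c
    · by_cases acd : G.Adj c d
      · exact hF.jad (h.q3 a hF.ha b hF.hb c hF.hc d hF.hd aab abc acd hF.ac nac hF.bd nbd hF.ad nad)
      · exact h.part2b hF abc acd
    · exact h.part2a hF aab abc
  by_cases abc : G.Adj b c
  · exact h.part2b hR abc.symm (fun h1 => aab h1.symm)
  by_cases acd : G.Adj c d
  · exact h.part2a hR acd.symm (fun h1 => abc h1.symm)
  -- the stable case
  have dab : ∀ q ∈ Y, G.Adj q a → ¬ G.Adj q b := fun q hq h1 h2 =>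
    h.nocommon hF.ha hF.hb hF.ab hF.jab aab hq h1 h2
  have dbc : ∀ q ∈ Y, G.Adj q b → ¬ G.Adj q c := fun q hq h1 h2 =>
    h.nocommon hF.hb hF.hc hF.bc hF.jbc abc hq h1 h2
  have dcd : ∀ q ∈ Y, G.Adj q c → ¬ G.Adj q d := fun q hq h1 h2 =>
    h.nocommon hF.hc hF.hd hF.cd hF.jcd acd hq h1 h2
  have dac : ∀ q ∈ Y, G.Adj q a → ¬ G.Adj q c := fun q hq h1 h2 =>
    h.dj13 hF aab abc acd hq h1 h2
  have dbd : ∀ q ∈ Y, G.Adj q b → ¬ G.Adj q d := fun q hq h1 h2 =>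
    h.dj13 hR (fun h => acd h.symm) (fun h => abc h.symm) (fun h => aab h.symm) hq h2 h1
  have dad : ∀ q ∈ Y, G.Adj q a → ¬ G.Adj q d := fun q hq h1 h2 =>
    h.dj14 hF aab abc acd hq h1 h2
  -- opposite pairs
  have opp : ∀ x ∈ X, ∀ y ∈ X, x ≠ y → s ≠ y → (∀ q ∈ Y, G.Adj q x → ¬ G.Adj q y) →
      ¬ (JX x y ↔ JX s y) → (∃ p ∈ Y, G.Adj p s ∧ G.Adj p x) → ∀ r ∈ Y, G.Adj r y → G.Adj r s := by
    rintro x hx y hy hxy hsy hd hJ ⟨p, hp, hps, hpx⟩ r hr hry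
    by_contra hrs
    have hpy := hd p hp hpx
    have hrx : ¬ G.Adj r x := fun h1 => hd r hr h1 hry
    exact hJ ((h.f2 x hx y hy hxy p hp r hr hpx hpy hry hrx).symm.trans
      (h.f2 s hF.hs y hy hsy p hp r hr hps hpy hry hrs))
  have sub_com : ∀ x ∈ X, (∀ r ∈ Y, G.Adj r x → G.Adj r s) → ∃ p ∈ Y, G.Adj p s ∧ G.Adj p x := by
    intro x hx h1
    obtain ⟨r, hr, hrx⟩ := h.par x hx
    exact ⟨r, hr, h1 r hr hrx, hrx⟩
  obtain ⟨pa, hpa, ha⟩ := h.par a hF.ha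
  obtain ⟨pb, hpb, hb⟩ := h.par b hF.hb
  obtain ⟨pc, hpc, hc⟩ := h.par c hF.hc
  obtain ⟨pd, hpd, hd⟩ := h.par d hF.hd
  obtain ⟨ps, hps, hs⟩ := h.par s hF.hs
  have ij : ∀ {x y p q : V}, (∀ q ∈ Y, G.Adj q x → ¬ G.Adj q y) → p ∈ Y → G.Adj p x →
      G.Adj q y → p ≠ q := by
    rintro x y p q h1 h2 h3 h4 rfl
    exact h1 p h2 h3 h4
  have jab := h.f2 a hF.ha b hF.hb hF.ab pa hpa pb hpb ha (dab pa hpa ha) hb
    (fun h1 => dab pb hpb h1 hb)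
  have jac := h.f2 a hF.ha c hF.hc hF.ac pa hpa pc hpc ha (dac pa hpa ha) hc
    (fun h1 => dac pc hpc h1 hc)
  have jad := h.f2 a hF.ha d hF.hd hF.ad pa hpa pd hpd ha (dad pa hpa ha) hd
    (fun h1 => dad pd hpd h1 hd)
  have jbc := h.f2 b hF.hb c hF.hc hF.bc pb hpb pc hpc hb (dbc pb hpb hb) hc
    (fun h1 => dbc pc hpc h1 hc)
  have jbd := h.f2 b hF.hb d hF.hd hF.bd pb hpb pd hpd hb (dbd pb hpb hb) hd
    (fun h1 => dbd pd hpd h1 hd)
  have jcd := h.f2 c hF.hc d hF.hd hF.cd pc hpc pd hpd hc (dcd pc hpc hc) hd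
    (fun h1 => dcd pd hpd h1 hd)
  -- all four parent sets cannot lie in the parent set of `s`
  have all4 : (∀ r ∈ Y, G.Adj r a → G.Adj r s) → (∀ r ∈ Y, G.Adj r b → G.Adj r s) →
      (∀ r ∈ Y, G.Adj r c → G.Adj r s) → (∀ r ∈ Y, G.Adj r d → G.Adj r s) → False := by
    intro sa sb sc sd
    have e1 := h.f3 s hF.hs pa hpa pb hpb (ij dab hpa ha hb) (sa pa hpa ha) (sb pb hpb hb)
      (jab.2 hF.jab)
    have e2 := h.f3 s hF.hs pb hpb pc hpc (ij dbc hpb hb hc) (sb pb hpb hb) (sc pc hpc hc)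
      (jbc.2 hF.jbc)
    have e3 := h.f3 s hF.hs pc hpc pd hpd (ij dcd hpc hc hd) (sc pc hpc hc) (sd pd hpd hd)
      (jcd.2 hF.jcd)
    have n1 : ¬ G.Adj pa pc := fun h1 => hF.jac (jac.1 (h.adjY _ hpa _ hpc h1))
    have n2 : ¬ G.Adj pb pd := fun h1 => hF.jbd (jbd.1 (h.adjY _ hpb _ hpd h1))
    have n3 : ¬ G.Adj pa pd := fun h1 => hF.jad (jad.1 (h.adjY _ hpa _ hpd h1))
    exact hF.jad (jad.1 (h.q3Y pa hpa pb hpb pc hpc pd hpd e1 e2 e3 (ij dac hpa ha hc) n1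
      (ij dbd hpb hb hd) n2 (ij dad hpa ha hd) n3))
  have sy : ∀ {x y : V}, (∀ q ∈ Y, G.Adj q x → ¬ G.Adj q y) →
      ∀ q ∈ Y, G.Adj q y → ¬ G.Adj q x := fun h1 q hq h2 h3 => h1 q hq h3 h2
  have sJ : ∀ {x y : V}, x ∈ X → y ∈ X → (JX x y ↔ JX y x) := fun hx hy =>
    ⟨h.symX _ hx _ hy, h.symX _ hy _ hx⟩
  -- no common parent with `s`
  have noc : ∀ x, (x = a ∨ x = b ∨ x = c ∨ x = d) → ∀ p ∈ Y, G.Adj p s → ¬ G.Adj p x := by
    intro x hx p hp h1 h2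
    have hC : ∃ p ∈ Y, G.Adj p s ∧ G.Adj p x := ⟨p, hp, h1, h2⟩
    rcases hF.js with ⟨s1, s2, s3, s4⟩ | ⟨s1, s2, s3, s4⟩
    · -- opposite: a-c, a-d, b-d
      have oac := opp a hF.ha c hF.hc hF.ac hF.sc dac (fun h => hF.jac (h.2 s3))
      have oca := opp c hF.hc a hF.ha hF.ac.symm hF.sa (sy dac)
        (fun h => hF.jac ((sJ hF.hc hF.ha).1 (h.2 s1)))
      have oad := opp a hF.ha d hF.hd hF.ad hF.sd dad (fun h => hF.jad (h.2 s4))
      have oda := opp d hF.hd a hF.ha hF.ad.symm hF.sa (sy dad)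
        (fun h => hF.jad ((sJ hF.hd hF.ha).1 (h.2 s1)))
      have obd := opp b hF.hb d hF.hd hF.bd hF.sd dbd (fun h => hF.jbd (h.2 s4))
      have odb := opp d hF.hd b hF.hb hF.bd.symm hF.sb (sy dbd)
        (fun h => hF.jbd ((sJ hF.hd hF.hb).1 (h.2 s2)))
      have ca := sub_com a hF.ha
      have cb := sub_com b hF.hb
      have cc := sub_com c hF.hc
      have cd := sub_com d hF.hd
      rcases hx with rfl | rfl | rfl | rfl
      · have kc := oac hC; have kd := oad hC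
        exact all4 (oca (cc kc)) (odb (cd kd)) kc kd
      · have kd := obd hC
        have ka := oda (cd kd)
        exact all4 ka (odb (cd kd)) (oac (ca ka)) kd
      · have ka := oca hC
        have kd := oad (ca ka)
        exact all4 ka (odb (cd kd)) (oac (ca ka)) kd
      · have ka := oda hC; have kb := odb hC
        exact all4 ka kb (oac (ca ka)) (oad (ca ka))
    · have oab := opp a hF.ha b hF.hb hF.ab hF.sb dab (fun h => s2 (h.1 hF.jab))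
      have oba := opp b hF.hb a hF.ha hF.ab.symm hF.sa (sy dab)
        (fun h => s1 (h.1 ((sJ hF.ha hF.hb).1 hF.jab)))
      have obc := opp b hF.hb c hF.hc hF.bc hF.sc dbc (fun h => s3 (h.1 hF.jbc))
      have ocb := opp c hF.hc b hF.hb hF.bc.symm hF.sb (sy dbc)
        (fun h => s2 (h.1 ((sJ hF.hb hF.hc).1 hF.jbc)))
      have ocd := opp c hF.hc d hF.hd hF.cd hF.sd dcd (fun h => s4 (h.1 hF.jcd))
      have odc := opp d hF.hd c hF.hc hF.cd.symm hF.sc (sy dcd)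
        (fun h => s3 (h.1 ((sJ hF.hc hF.hd).1 hF.jcd)))
      have ca := sub_com a hF.ha
      have cb := sub_com b hF.hb
      have cc := sub_com c hF.hc
      have cd := sub_com d hF.hd
      rcases hx with rfl | rfl | rfl | rfl
      · have kb := oab hC
        have kc := obc (cb kb)
        exact all4 (oba (cb kb)) kb kc (ocd (cc kc))
      · have ka := oba hC; have kc := obc hC
        exact all4 ka (oab (ca ka)) kc (ocd (cc kc))
      · have kb := ocb hC; have kd := ocd hC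
        exact all4 (oba (cb kb)) kb (obc (cb kb)) kd
      · have kc := odc hC
        have kb := ocb (cc kc)
        exact all4 (oba (cb kb)) kb kc (ocd (cc kc))
  have dsa := noc a (Or.inl rfl)
  have dsb := noc b (Or.inr (Or.inl rfl))
  have dsc := noc c (Or.inr (Or.inr (Or.inl rfl)))
  have dsd := noc d (Or.inr (Or.inr (Or.inr rfl)))
  have jsa := h.f2 s hF.hs a hF.ha hF.sa ps hps pa hpa hs (dsa ps hps hs) ha
    (fun h1 => dsa pa hpa h1 ha)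
  have jsb := h.f2 s hF.hs b hF.hb hF.sb ps hps pb hpb hs (dsb ps hps hs) hb
    (fun h1 => dsb pb hpb h1 hb)
  have jsc := h.f2 s hF.hs c hF.hc hF.sc ps hps pc hpc hs (dsc ps hps hs) hc
    (fun h1 => dsc pc hpc h1 hc)
  have jsd := h.f2 s hF.hs d hF.hd hF.sd ps hps pd hpd hs (dsd ps hps hs) hd
    (fun h1 => dsd pd hpd h1 hd)
  refine hY ⟨pa, pb, pc, pd, ps, ?_⟩
  exact
    { ha := hpa
      hb := hpb
      hc := hpc
      hd := hpd
      hs := hps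
      ab := ij dab hpa ha hb
      ac := ij dac hpa ha hc
      ad := ij dad hpa ha hd
      bc := ij dbc hpb hb hc
      bd := ij dbd hpb hb hd
      cd := ij dcd hpc hc hd
      sa := ij dsa hps hs ha
      sb := ij dsb hps hs hb
      sc := ij dsc hps hs hc
      sd := ij dsd hps hs hd
      jab := jab.2 hF.jab
      jbc := jbc.2 hF.jbc
      jcd := jcd.2 hF.jcd
      jac := fun h1 => hF.jac (jac.1 h1)
      jbd := fun h1 => hF.jbd (jbd.1 h1)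
      jad := fun h1 => hF.jad (jad.1 h1)
      js := by
        rcases hF.js with ⟨h1, h2, h3, h4⟩ | ⟨h1, h2, h3, h4⟩
        · exact Or.inl ⟨jsa.2 h1, jsb.2 h2, jsc.2 h3, jsd.2 h4⟩
        · exact Or.inr ⟨fun h => h1 (jsa.1 h), fun h => h2 (jsb.1 h), fun h => h3 (jsc.1 h),
            fun h => h4 (jsd.1 h)⟩ }

/-- no bad configuration on the low levels -/
theorem no_bad5 {n k : ℕ} {L : ℕ → Set V} {J : ℕ → V → V → Prop} (hL : Lev G k L)
    (hJ : JFacts G n k L J) : ∀ i, i + 2 ≤ k → ¬ Bad5 (L i) (J i)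
  | 0, _ => by
    obtain ⟨z, hz⟩ := hL.root
    rintro ⟨a, b, c, d, s, hF⟩
    have h1 := hF.ha
    have h2 := hF.hb
    rw [hz, Set.mem_singleton_iff] at h1 h2
    exact hF.ab (h1.trans h2.symm)
  | i + 1, hi => five_step (hJ.step i (by omega)) (no_bad5 hL hJ i (by omega))

end

end BoxSS
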