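import Mathlib

/-!
# MP_ccb602_co: induced paths as functions on `ℕ`

`IP G P n`: `P 0, ..., P n` is an induced path of `G`.  `IPin G S u v n`: there is an induced path of length `n`
from `u` to `v` all of whose interior vertices lie in `S`.  Main results: `IPin.even` (two induced paths with
the same ends and anticomplete interiors have lengths of the same parity if there is no odd hole), `Wk.ipin`
(a shortest path is induced), `IPin.cons`, `IPin.symm`.
-/

set_option autoImplicit false

namespace SS80

variable {V : Type*}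

/-- no induced cycle of odd length at least five -/
def NoOddHole (G : SimpleGraph V) : Prop :=
  ∀ m : ℕ, IsEmpty (SimpleGraph.cycleGraph (2 * m + 5) ↪g G)

/-- the set `S` can be coloured with `n` colours -/
def ColOn (G : SimpleGraph V) (S : Set V) (n : ℕ) : Prop :=
  ∃ c : V → ℕ, (∀ v ∈ S, c v < n) ∧ ∀ u ∈ S, ∀ v ∈ S, G.Adj u v → c u ≠ c v

/-- `P 0, ..., P n` is an induced path -/
def IP (G : SimpleGraph V) (P : ℕ → V) (n : ℕ) : Prop :=
  ∀ i j, i < j → j ≤ n → P i ≠ P j ∧ (G.Adj (P i) (P j) ↔ j = i + 1)

/-- an induced path of length `n` from `u` to `v` with interior in `S` -/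
def IPin (G : SimpleGraph V) (S : Set V) (u v : V) (n : ℕ) : Prop :=
  ∃ P : ℕ → V, IP G P n ∧ P 0 = u ∧ P n = v ∧ ∀ i, 0 < i → i < n → P i ∈ S

/-- a walk of length `n` from `u` to `v` with interior in `S` -/
def Wk (G : SimpleGraph V) (S : Set V) (u v : V) (n : ℕ) : Prop :=
  ∃ P : ℕ → V, P 0 = u ∧ P n = v ∧ (∀ i < n, G.Adj (P i) (P (i + 1))) ∧
    ∀ i, 0 < i → i < n → P i ∈ S

theorem adj_cycle {N : ℕ} (hN : 3 ≤ N) (u v : Fin N) :
    (SimpleGraph.cycleGraph N).Adj u v ↔
      (u.val + 1 = v.val ∨ v.val + 1 = u.val ∨ (u.val = 0 ∧ v.val + 1 = N) ∨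
        (v.val = 0 ∧ u.val + 1 = N)) := by
  rw [SimpleGraph.cycleGraph_adj']
  have hu := u.isLt
  have hv := v.isLt
  rw [Fin.sub_def, Fin.sub_def]
  simp only
  constructor
  · rintro (h | h)
    · rcases Nat.lt_or_ge (N - v.val + u.val) N with h1 | h1
      · rw [Nat.mod_eq_of_lt h1] at h
        right; right; left; omega
      · rw [Nat.mod_eq_sub_mod h1, Nat.mod_eq_of_lt (by omega)] at h
        right; left; omega
    · rcases Nat.lt_or_ge (N - u.val + v.val) N with h1 | h1
      · rw [Nat.mod_eq_of_lt h1] at h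
        right; right; right; omega
      · rw [Nat.mod_eq_sub_mod h1, Nat.mod_eq_of_lt (by omega)] at h
        left; omega
  · rintro (h | h | ⟨h, h'⟩ | ⟨h, h'⟩)
    · right
      rw [Nat.mod_eq_sub_mod (by omega), Nat.mod_eq_of_lt (by omega)]; omega
    · left
      rw [Nat.mod_eq_sub_mod (by omega), Nat.mod_eq_of_lt (by omega)]; omega
    · left
      rw [Nat.mod_eq_of_lt (by omega)]; omega
    · right
      rw [Nat.mod_eq_of_lt (by omega)]; omega

/-- Two induced paths with the same ends and anticomplete interiors. -/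
theorem glue {G : SimpleGraph V} (hG : NoOddHole G) {P Q : ℕ → V} {p q : ℕ}
    (hP : IP G P p) (hQ : IP G Q q) (h0 : P 0 = Q 0) (h1 : P p = Q q) (hp : 2 ≤ p) (hq : 2 ≤ q)
    (hpq : ∀ i j, 0 < i → i < p → 0 < j → j < q → P i ≠ Q j ∧ ¬ G.Adj (P i) (Q j)) :
    Even (p + q) := by
  by_contra hodd
  rw [Nat.not_even_iff_odd] at hodd
  obtain ⟨m, hm⟩ : ∃ m, p + q = 2 * m + 5 := by
    obtain ⟨t, ht⟩ := hodd
    exact ⟨t - 2, by omega⟩
  let f : Fin (2 * m + 5) → V := fun x => if x.val ≤ p then P x.val else Q (p + q - x.val)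
  -- facts on pairs of indices
  have key : ∀ x y : Fin (2 * m + 5), x.val < y.val →
      f x ≠ f y ∧ (G.Adj (f x) (f y) ↔ (y.val = x.val + 1 ∨ (x.val = 0 ∧ y.val + 1 = 2 * m + 5))) := by
    intro x y hxy
    have hx := x.isLt
    have hy := y.isLt
    by_cases hyp : y.val ≤ p
    · have hxp : x.val ≤ p := by omega
      have hfx : f x = P x.val := if_pos hxp
      have hfy : f y = P y.val := if_pos hyp
      rw [hfx, hfy]
      obtain ⟨h2, h3⟩ := hP x.val y.val hxy hyp
      refine ⟨h2, h3.trans ⟨fun h => Or.inl h, fun h => ?_⟩⟩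
      rcases h with h | h
      · exact h
      · omega
    · have hfy : f y = Q (p + q - y.val) := if_neg hyp
      by_cases hxp : x.val ≤ p
      · have hfx : f x = P x.val := if_pos hxp
        rw [hfx, hfy]
        rcases Nat.eq_zero_or_pos x.val with h4 | h4
        · rw [h4, h0]
          obtain ⟨h2, h3⟩ := hQ 0 (p + q - y.val) (by omega) (by omega)
          refine ⟨h2, h3.trans ⟨fun h => Or.inr ⟨rfl, by omega⟩, fun h => ?_⟩⟩
          rcases h with h | h
          · omega
          · omega
        · rcases Nat.eq_or_lt_of_le hxp with h5 | h5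
          · rw [h5, h1]
            obtain ⟨h2, h3⟩ := hQ (p + q - y.val) q (by omega) (by omega)
            refine ⟨fun h => h2 h.symm, ?_⟩
            rw [G.adj_comm, h3]
            constructor
            · intro h; left; omega
            · rintro (h | h)
              · omega
              · omega
          · obtain ⟨h2, h3⟩ := hpq x.val (p + q - y.val) h4 h5 (by omega) (by omega)
            refine ⟨h2, ⟨fun h => absurd h h3, fun h => ?_⟩⟩
            rcases h with h | h
            · omega
            · omega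
      · have hfx : f x = Q (p + q - x.val) := if_neg hxp
        rw [hfx, hfy]
        obtain ⟨h2, h3⟩ := hQ (p + q - y.val) (p + q - x.val) (by omega) (by omega)
        refine ⟨fun h => h2 h.symm, ?_⟩
        rw [G.adj_comm, h3]
        constructor
        · intro h; left; omega
        · rintro (h | h)
          · omega
          · omega
  have hinj : Function.Injective f := by
    intro x y hxy
    by_contra hne
    rcases Nat.lt_or_ge x.val y.val with h | h
    · exact (key x y h).1 hxy
    · have : y.val < x.val := by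
        rcases Nat.eq_or_lt_of_le h with h' | h'
        · exact absurd (Fin.ext h'.symm) hne
        · exact h'
      exact (key y x this).1 hxy.symm
  refine (hG m).false ⟨⟨f, hinj⟩, ?_⟩
  intro x y
  simp only [Function.Embedding.coeFn_mk]
  rw [adj_cycle (by omega)]
  rcases Nat.lt_trichotomy x.val y.val with h | h | h
  · rw [(key x y h).2]
    omega
  · have : x = y := Fin.ext h
    subst this
    constructor
    · intro h'; exact absurd h' (G.loopless.irrefl _)
    · intro h'; omega
  · rw [G.adj_comm, (key y x h).2]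
    omega

theorem IPin.even {G : SimpleGraph V} (hG : NoOddHole G) {S T : Set V} {u v : V} {p q : ℕ}
    (hP : IPin G S u v p) (hQ : IPin G T u v q) (hp : 2 ≤ p) (hq : 2 ≤ q)
    (hST : ∀ x ∈ S, ∀ y ∈ T, x ≠ y ∧ ¬ G.Adj x y) : Even (p + q) := by
  obtain ⟨P, hP, hP0, hP1, hPS⟩ := hP
  obtain ⟨Q, hQ, hQ0, hQ1, hQT⟩ := hQ
  refine glue hG hP hQ (hP0.trans hQ0.symm) (hP1.trans hQ1.symm) hp hq ?_
  intro i j hi hi' hj hj'
  exact hST _ (hPS i hi hi') _ (hQT j hj hj')

theorem IPin.mono {G : SimpleGraph V} {S T : Set V} (hST : S ⊆ T) {u v : V} {p : ℕ}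
    (hP : IPin G S u v p) : IPin G T u v p := by
  obtain ⟨P, hP, hP0, hP1, hPS⟩ := hP
  exact ⟨P, hP, hP0, hP1, fun i h1 h2 => hST (hPS i h1 h2)⟩

theorem IPin.symm {G : SimpleGraph V} {S : Set V} {u v : V} {p : ℕ}
    (hP : IPin G S u v p) : IPin G S v u p := by
  obtain ⟨P, hP, hP0, hP1, hPS⟩ := hP
  refine ⟨fun i => P (p - i), ?_, by simpa using hP1, by simpa using hP0, ?_⟩
  · intro i j hij hj
    obtain ⟨h1, h2⟩ := hP (p - j) (p - i) (by omega) (by omega)
    refine ⟨fun h => h1 h.symm, ?_⟩
    rw [G.adj_comm, h2]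
    omega
  · intro i h1 h2
    exact hPS _ (by omega) (by omega)

theorem IPin.two_le {G : SimpleGraph V} {S : Set V} {u v : V} {p : ℕ}
    (hP : IPin G S u v p) (hne : u ≠ v) (hna : ¬ G.Adj u v) : 2 ≤ p := by
  obtain ⟨P, hP, hP0, hP1, hPS⟩ := hP
  rcases Nat.lt_or_ge p 2 with h | h
  · exfalso
    rcases Nat.eq_zero_or_pos p with h0 | h0
    · subst h0
      exact hne (hP0.symm.trans hP1)
    · have h1 : p = 1 := by omega
      subst h1
      have := ((hP 0 1 (by omega) (by omega)).2).2 rfl
      rw [hP0, hP1] at this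
      exact hna this
  · exact h

theorem IPin.diff {G : SimpleGraph V} {S : Set V} {u v : V} {p : ℕ}
    (hP : IPin G S u v p) : IPin G (S \ {u, v}) u v p := by
  obtain ⟨P, hP, hP0, hP1, hPS⟩ := hP
  refine ⟨P, hP, hP0, hP1, fun i h1 h2 => ⟨hPS i h1 h2, ?_⟩⟩
  rintro (h | h)
  · rw [← hP0] at h
    exact (hP 0 i h1 (by omega)).1 h.symm
  · rw [Set.mem_singleton_iff, ← hP1] at h
    exact (hP i p h2 le_rfl).1 h

theorem ipin_one {G : SimpleGraph V} {S : Set V} {u v : V} (h : G.Adj u v) : IPin G S u v 1 := by
  refine ⟨fun i => Nat.casesOn i u (fun _ => v), ?_, rfl, rfl, ?_⟩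
  · intro i j hij hj
    have hi0 : i = 0 := by omega
    have hj0 : j = 1 := by omega
    subst hi0; subst hj0
    exact ⟨G.ne_of_adj h, fun _ => rfl, fun _ => h⟩
  · intro i h1 h2
    omega

/-- prolong an induced path at its first vertex -/
theorem IPin.cons {G : SimpleGraph V} {S : Set V} {t u v : V} {p : ℕ}
    (hP : IPin G S u v p) (htu : G.Adj t u) (htv : t ≠ v) (huS : u ∈ S)
    (hS : ∀ x ∈ S, x ≠ u → (x ≠ t ∧ ¬ G.Adj t x)) (hnv : u ≠ v → ¬ G.Adj t v) :
    IPin G S t v (p + 1) := by
  obtain ⟨P, hP, hP0, hP1, hPS⟩ := hP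
  refine ⟨fun i => Nat.casesOn i t P, ?_, rfl, hP1, ?_⟩
  · intro i j hij hj
    obtain ⟨j, rfl⟩ : ∃ j', j = j' + 1 := ⟨j - 1, by omega⟩
    cases i with
    | succ i =>
      obtain ⟨h1, h2⟩ := hP i j (by omega) (by omega)
      refine ⟨h1, h2.trans ?_⟩
      omega
    | zero =>
      change t ≠ P j ∧ (G.Adj t (P j) ↔ j + 1 = 0 + 1)
      rcases Nat.eq_zero_or_pos j with hj0 | hj0
      · subst hj0
        rw [hP0]
        exact ⟨G.ne_of_adj htu, fun _ => rfl, fun _ => htu⟩
      · have hu : P j ≠ u := by
          rw [← hP0]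
          exact fun h => (hP 0 j hj0 (by omega)).1 h.symm
        rcases Nat.eq_or_lt_of_le (show j ≤ p by omega) with hjp | hjp
        · subst hjp
          rw [hP1]
          rw [hP1] at hu
          exact ⟨htv, fun h => absurd h (hnv hu.symm), fun h => by omega⟩
        · obtain ⟨h3, h4⟩ := hS _ (hPS j hj0 hjp) hu
          exact ⟨h3.symm, fun h => absurd h h4, fun h => by omega⟩
  · intro i hi hi'
    obtain ⟨i, rfl⟩ : ∃ i', i = i' + 1 := ⟨i - 1, by omega⟩
    change P i ∈ S
    rcases Nat.eq_zero_or_pos i with h | h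
    · subst h; rw [hP0]; exact huS
    · exact hPS i h (by omega)

theorem Wk.ipin {G : SimpleGraph V} {S : Set V} {u v : V} {m : ℕ} (h : Wk G S u v m) :
    ∃ n, IPin G S u v n := by
  classical
  have hex : ∃ n, Wk G S u v n := ⟨m, h⟩
  obtain ⟨P, hP0, hP1, hPa, hPS⟩ := Nat.find_spec hex
  have hmin : ∀ n, n < Nat.find hex → ¬ Wk G S u v n := fun n hn => Nat.find_min hex hn
  set n := Nat.find hex with hn
  refine ⟨n, P, ?_, hP0, hP1, hPS⟩
  intro i j hij hj
  constructor
  · intro heq
    -- shortcut
    refine hmin (n - (j - i)) (by omega)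
      ⟨fun t => if t ≤ i then P t else P (t + (j - i)), ?_, ?_, ?_, ?_⟩
    · simp [hP0]
    · by_cases h1 : n - (j - i) ≤ i
      · have h2 : n = j := by omega
        have h3 : n - (j - i) = i := by omega
        simp only [h3, le_refl, if_true]
        rw [heq, ← h2, hP1]
      · simp only [h1, if_false]
        have h3 : n - (j - i) + (j - i) = n := by omega
        rw [h3, hP1]
    · intro t ht
      by_cases h1 : t + 1 ≤ i
      · have h2 : t ≤ i := by omega
        simp only [h1, h2, if_true]
        exact hPa t (by omega)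
      · by_cases h2 : t ≤ i
        · have h3 : t = i := by omega
          subst h3
          simp only [h1, le_refl, if_true, if_false]
          rw [heq]
          have h4 : t + 1 + (j - t) = j + 1 := by omega
          rw [h4]
          exact hPa j (by omega)
        · simp only [h1, h2, if_false]
          have h4 : t + 1 + (j - i) = t + (j - i) + 1 := by omega
          rw [h4]
          exact hPa _ (by omega)
    · intro t h1 h2
      by_cases h3 : t ≤ i
      · simp only [h3, if_true]
        exact hPS t h1 (by omega)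
      · simp only [h3, if_false]
        exact hPS _ (by omega) (by omega)
  · constructor
    · intro hadj
      by_contra hne'
      refine hmin (n - (j - i - 1)) (by omega)
        ⟨fun t => if t ≤ i then P t else P (t + (j - i - 1)), ?_, ?_, ?_, ?_⟩
      · simp [hP0]
      · have h1 : ¬ n - (j - i - 1) ≤ i := by omega
        simp only [h1, if_false]
        have h3 : n - (j - i - 1) + (j - i - 1) = n := by omega
        rw [h3, hP1]
      · intro t ht
        by_cases h1 : t + 1 ≤ i
        · have h2 : t ≤ i := by omega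
          simp only [h1, h2, if_true]
          exact hPa t (by omega)
        · by_cases h2 : t ≤ i
          · have h3 : t = i := by omega
            subst h3
            simp only [h1, le_refl, if_true, if_false]
            have h4 : t + 1 + (j - t - 1) = j := by omega
            rw [h4]
            exact hadj
          · simp only [h1, h2, if_false]
            have h4 : t + 1 + (j - i - 1) = t + (j - i - 1) + 1 := by omega
            rw [h4]
            exact hPa _ (by omega)
      · intro t h1 h2
        by_cases h3 : t ≤ i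
        · simp only [h3, if_true]
          exact hPS t h1 (by omega)
        · simp only [h3, if_false]
          exact hPS _ (by omega) (by omega)
    · intro h
      rw [h]
      exact hPa i (by omega)

/-- `x` and `y` are joined inside `S` -/
def Cn (G : SimpleGraph V) (S : Set V) (x y : V) : Prop :=
  Relation.ReflTransGen (fun a b => G.Adj a b ∧ a ∈ S ∧ b ∈ S) x y

theorem Cn.symm {G : SimpleGraph V} {S : Set V} {x y : V} (h : Cn G S x y) : Cn G S y x := by
  induction h with
  | refl => exact Relation.ReflTransGen.refl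
  | tail _ hbc ih =>
    obtain ⟨h1, h2, h3⟩ := hbc
    exact Relation.ReflTransGen.head ⟨h1.symm, h3, h2⟩ ih

theorem Cn.trans {G : SimpleGraph V} {S : Set V} {x y z : V} (h : Cn G S x y) (h' : Cn G S y z) :
    Cn G S x z := Relation.ReflTransGen.trans h h'

theorem Cn.mono {G : SimpleGraph V} {S T : Set V} (hST : S ⊆ T) {x y : V} (h : Cn G S x y) :
    Cn G T x y := by
  induction h with
  | refl => exact Relation.ReflTransGen.refl
  | tail _ hbc ih =>
    obtain ⟨h1, h2, h3⟩ := hbc
    exact Relation.ReflTransGen.tail ih ⟨h1, hST h2, hST h3⟩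

theorem Cn.single {G : SimpleGraph V} {S : Set V} {x y : V} (h : G.Adj x y) (hx : x ∈ S)
    (hy : y ∈ S) : Cn G S x y := Relation.ReflTransGen.single ⟨h, hx, hy⟩

theorem Cn.wk {G : SimpleGraph V} {S : Set V} {u x y v : V} (h : Cn G S x y) (hx : x ∈ S)
    (hux : G.Adj u x) (hyv : G.Adj y v) : ∃ m, Wk G S u v m := by
  have key : ∃ n : ℕ, ∃ P : ℕ → V, P 0 = u ∧ P (n + 1) = y ∧
      (∀ i < n + 1, G.Adj (P i) (P (i + 1))) ∧ ∀ i, 0 < i → i ≤ n + 1 → P i ∈ S := by
    clear hyv
    induction h with
    | refl =>
      refine ⟨0, fun i => Nat.casesOn i u (fun _ => x), rfl, rfl, ?_, ?_⟩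
      · intro i hi
        have : i = 0 := by omega
        subst this; exact hux
      · intro i h1 h2
        have : i = 1 := by omega
        subst this; exact hx
    | @tail b c _ hbc ih =>
      obtain ⟨n, P, h0, h1, h2, h3⟩ := ih
      obtain ⟨hbc, hb, hc⟩ := hbc
      refine ⟨n + 1, fun i => if i ≤ n + 1 then P i else c, by simp [h0], by simp, ?_, ?_⟩
      · intro i hi
        by_cases h4 : i + 1 ≤ n + 1
        · have h5 : i ≤ n + 1 := by omega
          simp only [h4, h5, if_true]
          exact h2 i (by omega)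
        · have h5 : i = n + 1 := by omega
          subst h5
          simp only [le_refl, if_true, h4, if_false]
          rw [h1]; exact hbc
      · intro i hi hi'
        by_cases h4 : i ≤ n + 1
        · simp only [h4, if_true]
          exact h3 i hi h4
        · simp only [h4, if_false]
          exact hc
  obtain ⟨n, P, h0, h1, h2, h3⟩ := key
  refine ⟨n + 2, fun i => if i ≤ n + 1 then P i else v, by simp [h0], by simp, ?_, ?_⟩
  · intro i hi
    by_cases h4 : i + 1 ≤ n + 1
    · have h5 : i ≤ n + 1 := by omega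
      simp only [h4, h5, if_true]
      exact h2 i (by omega)
    · have h5 : i = n + 1 := by omega
      subst h5
      simp only [le_refl, if_true, h4, if_false]
      rw [h1]; exact hyv
  · intro i hi hi'
    have h4 : i ≤ n + 1 := by omega
    simp only [h4, if_true]
    exact h3 i hi h4

theorem Cn.ipin {G : SimpleGraph V} {S : Set V} {u x y v : V} (h : Cn G S x y) (hx : x ∈ S)
    (hux : G.Adj u x) (hyv : G.Adj y v) : ∃ m, IPin G S u v m := by
  obtain ⟨m, hm⟩ := h.wk hx hux hyv
  exact hm.ipin

end SS80
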