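import Pool.Agent.W_ccb602.Boxes

/-!
# MP_ccb602_co: box graphs without induced monotone arborescences

First-Fit (mex) colouring of the arcs of one pattern; if it uses many colours, then there is an induced complete
`N`-ary in-arborescence of height `h` all of whose arcs are bad pairs of this pattern.
-/

set_option autoImplicit false

namespace Tree57

open Finset Box85

variable {n d : ℕ}

/-- the reversed pattern -/
def rev (τ : Fin d → Bool × Bool) : Fin d → Bool × Bool := fun t => (!(τ t).1, !(τ t).2)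

theorem rel_rev (a b : Fin n → Fin d → ℝ) (τ : Fin d → Bool × Bool) (u v : Fin n) :
    Rel a b (rev τ) u v ↔ Rel a b τ v u := by
  constructor
  · intro h t
    obtain ⟨h1, h2, h3, h4⟩ := h t
    refine ⟨fun p => h2 ?_, fun p => h1 ?_, fun p => h4 ?_, fun p => h3 ?_⟩ <;> simp [rev, p]
  · intro h t
    obtain ⟨h1, h2, h3, h4⟩ := h t
    refine ⟨fun p => h2 ?_, fun p => h1 ?_, fun p => h4 ?_, fun p => h3 ?_⟩ <;>
      simpa [rev] using p

theorem ts_rev (a b : Fin n → Fin d → ℝ) (τ : Fin d → Bool × Bool) (u v : Fin n) :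
    TS a b (rev τ) u v ↔ TS a b τ v u := by
  unfold TS
  rw [rel_rev, rel_rev]

/-- `f` is an induced copy of the complete `N`-ary tree of height `h` (the vertices are the lists of length at
most `h` with entries in `Fin N`, the children of `l` are the lists `l ++ [j]`), and every pair
(child, parent) is a bad pair of pattern `τ` -/
def IsTree (G : SimpleGraph (Fin n)) (a b : Fin n → Fin d → ℝ) (h N : ℕ)
    (τ : Fin d → Bool × Bool) (f : List (Fin N) → Fin n) : Prop :=
  (∀ l : List (Fin N), l.length < h → ∀ j : Fin N,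
    Bad a b (f (l ++ [j])) (f l) ∧ TS a b τ (f (l ++ [j])) (f l)) ∧
  ∀ s t : List (Fin N), s.length ≤ h → t.length ≤ h → (f s = f t → s = t) ∧
    (G.Adj (f s) (f t) → (∃ j, s = t ++ [j]) ∨ ∃ j, t = s ++ [j])

/-! ### the mex colouring -/

open Classical in
theorem grundy {V : Type*} [Finite V] (r : V → V → Prop) (wf : WellFounded r) :
    ∃ c : V → ℕ, (∀ u v, r u v → c u ≠ c v) ∧ ∀ v i, i < c v → ∃ u, r u v ∧ c u = i := by
  let F : (v : V) → ((u : V) → r u v → ℕ) → ℕ := fun v ih => sInf {i | ∀ u (h : r u v), ih u h ≠ i}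
  let c : V → ℕ := wf.fix F
  have hc : ∀ v, c v = sInf {i | ∀ u, r u v → c u ≠ i} := fun v => wf.fix_eq F v
  have hne : ∀ v, {i | ∀ u, r u v → c u ≠ i}.Nonempty := by
    intro v
    have h1 : (Set.range c)ᶜ.Nonempty := (Set.finite_range c).infinite_compl.nonempty
    obtain ⟨i, hi⟩ := h1
    exact ⟨i, fun u _ h => hi ⟨u, h⟩⟩
  refine ⟨c, ?_, ?_⟩
  · intro u v huv
    have h1 := Nat.sInf_mem (hne v)
    rw [← hc v] at h1
    exact h1 u huv
  · intro v i hi
    rw [hc v] at hi
    have h1 := Nat.notMem_of_lt_sInf hi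
    simp only [Set.mem_setOf_eq, not_forall, not_not] at h1
    obtain ⟨u, hu, h2⟩ := h1
    exact ⟨u, hu, h2⟩

/-! ### many boxes contain many pairwise disjoint ones -/

theorem few (G : SimpleGraph (Fin n)) (a b : Fin n → Fin d → ℝ) (hab : ∀ i, a i ≤ b i)
    (hG : ∀ i j, G.Adj i j ↔ i ≠ j ∧ Hit a b i j) (k N : ℕ)
    (hk : ∀ s : Finset (Fin n), G.IsClique s → s.card ≤ k) (X : Finset (Fin n))
    (hX : (N + 1) ^ d * k < X.card) :
    ∃ v : Fin N → Fin n, (∀ i, v i ∈ X) ∧ ∀ i j, i ≠ j → ¬ Hit a b (v i) (v j) := by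
  classical
  by_contra hcon
  have htr : ∀ t : Fin d, ∀ x y z : Fin n, (x ∈ X ∧ y ∈ X ∧ b x t < a y t) →
      (y ∈ X ∧ z ∈ X ∧ b y t < a z t) → (x ∈ X ∧ z ∈ X ∧ b x t < a z t) := by
    intro t x y z h1 h2
    have := hab y t
    exact ⟨h1.1, h2.2.1, by linarith [h1.2.2, h2.2.2]⟩
  have hch : ∀ t : Fin d, ∀ u v : Fin n,
      ¬ Ch (fun x y => x ∈ X ∧ y ∈ X ∧ b x t < a y t) (N + 1) u v := by
    intro t u v h
    apply hcon
    obtain ⟨w, -, -, hw⟩ := ch_seq (N + 1) u v h
    have hlt : ∀ i j, i < j → j ≤ N + 1 → b (w i) t < a (w j) t := by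
      intro i j hij hj
      obtain ⟨s, rfl⟩ : ∃ s, j = i + (s + 1) := ⟨j - i - 1, by omega⟩
      exact (ch_rel (htr t) s _ _ (ch_of_seq w (s + 1) i (fun m _ hm => hw m (by omega)))).2.2
    refine ⟨fun i => w i, fun i => (hw i (by have := i.2; omega)).1, ?_⟩
    intro i j hij hhit
    have hi := i.2
    have hj := j.2
    rcases lt_or_gt_of_ne (fun h : (i : ℕ) = j => hij (Fin.ext h)) with h1 | h1
    · have h2 := hlt i j h1 (by omega)
      have h3 := (hhit t).2
      linarith
    · have h2 := hlt j i h1 (by omega)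
      have h3 := (hhit t).1
      linarith
  have hcol : ∀ t : Fin d, ∃ c : Fin n → Fin (N + 1), ∀ u v,
      (u ∈ X ∧ v ∈ X ∧ b u t < a v t) → c u ≠ c v := fun t => colour_of_chain _ N (hch t)
  choose c hc using hcol
  have h1 := Finset.card_le_mul_card_image_of_maps_to (s := X)
    (t := (Finset.univ : Finset (Fin d → Fin (N + 1)))) (f := fun u t => c t u)
    (fun u _ => Finset.mem_univ _) k (by
      intro φ _
      apply hk
      intro x hx y hy hxy
      rw [Finset.mem_coe, Finset.mem_filter] at hx hy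
      rw [hG]
      refine ⟨hxy, fun t => ⟨?_, ?_⟩⟩
      · by_contra h
        rw [not_le] at h
        exact hc t y x ⟨hy.1, hx.1, h⟩ ((congrFun hy.2 t).trans (congrFun hx.2 t).symm)
      · by_contra h
        rw [not_le] at h
        exact hc t x y ⟨hx.1, hy.1, h⟩ ((congrFun hx.2 t).trans (congrFun hy.2 t).symm))
  rw [Finset.card_univ, Fintype.card_fun, Fintype.card_fin, Fintype.card_fin, mul_comm] at h1
  omega

/-! ### one pattern -/

/-- arcs of pattern `τ` inside the set `H` -/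
def R (G : SimpleGraph (Fin n)) (a b : Fin n → Fin d → ℝ) (H : Fin n → Prop)
    (τ : Fin d → Bool × Bool) (u v : Fin n) : Prop :=
  H u ∧ H v ∧ G.Adj u v ∧ TS a b τ u v

theorem ts_rel {a b : Fin n → Fin d → ℝ} {τ : Fin d → Bool × Bool} {x y z : Fin n}
    (h1 : TS a b τ x y) (h2 : Rel a b τ y z) : TS a b τ x z :=
  ⟨rel_trans h1.1 h2, fun h => h1.2 (rel_trans h2 h)⟩

/-- Everything below two disjoint in-neighbours is disjoint. -/
theorem sep {a b : Fin n → Fin d → ℝ} (hab : ∀ i, a i ≤ b i) {τ : Fin d → Bool × Bool}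
    {x x' u u' w : Fin n} (h1 : Rel a b τ x u) (h2 : Rel a b τ x' u') (h3 : Rel a b τ u w)
    (h4 : Rel a b τ u' w) (h5 : Hit a b u w) (h6 : Hit a b u' w) (h7 : Hit a b x x') :
    Hit a b u u' := by
  intro t
  obtain ⟨p1, p2, p3, p4⟩ := h1 t
  obtain ⟨q1, q2, q3, q4⟩ := h2 t
  obtain ⟨r1, r2, r3, r4⟩ := h3 t
  obtain ⟨s1, s2, s3, s4⟩ := h4 t
  obtain ⟨e1, e2⟩ := h5 t
  obtain ⟨g1, g2⟩ := h6 t
  obtain ⟨k1, k2⟩ := h7 t
  have hw := hab w t
  rcases hτ1 : (τ t).1 with _ | _ <;> rcases hτ2 : (τ t).2 with _ | _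
  · have := r2 hτ1; have := s2 hτ1; have := r4 hτ2; have := s4 hτ2
    constructor <;> linarith
  · have := p2 hτ1; have := q2 hτ1; have := p3 hτ2; have := q3 hτ2
    constructor <;> linarith
  · have := r1 hτ1; have := s1 hτ1; have := r4 hτ2; have := s4 hτ2
    constructor <;> linarith
  · have := r1 hτ1; have := s1 hτ1; have := r3 hτ2; have := s3 hτ2
    constructor <;> linarith

/-- The descent. -/
theorem descend {G : SimpleGraph (Fin n)} {a b : Fin n → Fin d → ℝ} {H : Fin n → Prop}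
    {τ : Fin d → Bool × Bool} (c : Fin n → ℕ)
    (hc2 : ∀ v i, i < c v → ∃ u, R G a b H τ u v ∧ c u = i) (w : Fin n)
    (D B E : Finset (Fin n)) (hBD : B ⊆ D) (hBE : ∀ v ∈ D, v ∈ B ∨ v ∈ E)
    (hcl : ∀ v ∈ D, ∀ u, R G a b H τ u v → G.Adj u w → u ∈ D) (Q g : ℕ) (hg : E.card ≤ g)
    (hQ : ∀ v ∈ B, ∀ s : Finset ℕ, (∀ i ∈ s, ∃ u, R G a b H τ u v ∧ ¬ G.Adj u w ∧ c u = i) →
      s.card ≤ Q) :
    ∀ j : ℕ, ∀ X ⊆ B, j * (Q + g + 1) + 1 ≤ (X.image c).card →
      ∃ u ∈ X, ∃ x ∈ D, Ch (TS a b τ) j x u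
  | 0, X, hX, hcard => by
    have h1 : X.Nonempty := by
      rw [← Finset.image_nonempty (f := c), ← Finset.card_pos]
      omega
    obtain ⟨u, hu⟩ := h1
    exact ⟨u, hu, u, hBD (hX hu), rfl⟩
  | j + 1, X, hX, hcard => by
    classical
    have h1 : (X.image c).Nonempty := by
      rw [← Finset.card_pos]
      omega
    obtain ⟨u, hu, hum⟩ := Finset.mem_image.1 (Finset.max'_mem _ h1)
    have hmax : ∀ i ∈ X.image c, i ≤ c u := by
      intro i hi
      rw [hum]
      exact Finset.le_max' _ i hi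
    set X' := B.filter (fun u' => R G a b H τ u' u) with hX'
    have hsub : (X.image c).erase (c u) ⊆ (X'.image c ∪
        ((X.image c).erase (c u)).filter
          (fun i => ∃ u', R G a b H τ u' u ∧ ¬ G.Adj u' w ∧ c u' = i)) ∪ E.image c := by
      intro i hi
      have hi1 := Finset.mem_of_mem_erase hi
      have hi2 := Finset.ne_of_mem_erase hi
      have hi3 : i < c u := lt_of_le_of_ne (hmax i hi1) hi2
      obtain ⟨u', hu', hcu'⟩ := hc2 u i hi3
      by_cases hadj : G.Adj u' w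
      · have hu'D : u' ∈ D := hcl u (hBD (hX hu)) u' hu' hadj
        rcases hBE u' hu'D with h2 | h2
        · exact Finset.mem_union_left _ (Finset.mem_union_left _
            (Finset.mem_image.2 ⟨u', Finset.mem_filter.2 ⟨h2, hu'⟩, hcu'⟩))
        · exact Finset.mem_union_right _ (Finset.mem_image.2 ⟨u', h2, hcu'⟩)
      · exact Finset.mem_union_left _ (Finset.mem_union_right _
          (Finset.mem_filter.2 ⟨hi, u', hu', hadj, hcu'⟩))
    have h2 := Finset.card_le_card hsub
    rw [Finset.card_erase_of_mem (Finset.mem_image_of_mem c hu)] at h2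
    have h3 := Finset.card_union_le (X'.image c ∪
        ((X.image c).erase (c u)).filter
          (fun i => ∃ u', R G a b H τ u' u ∧ ¬ G.Adj u' w ∧ c u' = i)) (E.image c)
    have h4 := Finset.card_union_le (X'.image c) (((X.image c).erase (c u)).filter
          (fun i => ∃ u', R G a b H τ u' u ∧ ¬ G.Adj u' w ∧ c u' = i))
    have h5 : (E.image c).card ≤ g := le_trans Finset.card_image_le hg
    have h6 : (((X.image c).erase (c u)).filter
          (fun i => ∃ u', R G a b H τ u' u ∧ ¬ G.Adj u' w ∧ c u' = i)).card ≤ Q :=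
      hQ u (hX hu) _ (fun i hi => (Finset.mem_filter.1 hi).2)
    have h7 : j * (Q + g + 1) + 1 ≤ (X'.image c).card := by
      have h8 : (j + 1) * (Q + g + 1) = j * (Q + g + 1) + (Q + g + 1) := by ring
      omega
    obtain ⟨u', hu', x, hx, hch⟩ := descend c hc2 w D B E hBD hBE hcl Q g hg hQ j X'
      (Finset.filter_subset _ _) h7
    exact ⟨u, hu, x, hx, ch_add j 1 x u' u hch (ch_one (Finset.mem_filter.1 hu').2.2.2.2)⟩

/-- the number of colours which forces the tree of height `h` -/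
def Qn (k g : ℕ) : ℕ → ℕ
  | 0 => 0
  | h + 1 => k * (Qn k g h + g + 1) + g + 1

/-- the internal version of `IsTree` -/
def Tr (G : SimpleGraph (Fin n)) (a b : Fin n → Fin d → ℝ) (H : Fin n → Prop) (h N : ℕ)
    (τ : Fin d → Bool × Bool) (f : List (Fin N) → Fin n) : Prop :=
  (∀ l : List (Fin N), l.length < h → ∀ j : Fin N, R G a b H τ (f (l ++ [j])) (f l)) ∧
  ∀ s t : List (Fin N), s.length ≤ h → t.length ≤ h → (f s = f t → s = t) ∧
    (G.Adj (f s) (f t) → (∃ j, s = t ++ [j]) ∨ ∃ j, t = s ++ [j])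

theorem tr_rel {G : SimpleGraph (Fin n)} {a b : Fin n → Fin d → ℝ} {H : Fin n → Prop} {h N : ℕ}
    {τ : Fin d → Bool × Bool} {f : List (Fin N) → Fin n} (hf : Tr G a b H h N τ f)
    (l m : List (Fin N)) : (l ++ m).length ≤ h → Rel a b τ (f (l ++ m)) (f l) := by
  induction m using List.reverseRecOn with
  | nil => intro _; rw [List.append_nil]; exact rel_refl a b τ _
  | append_singleton m j ih =>
    intro hlen
    rw [← List.append_assoc] at hlen ⊢
    rw [List.length_append, List.length_singleton] at hlen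
    exact rel_trans (hf.1 (l ++ m) (by omega) j).2.2.2.1 (ih (by omega))

theorem build {G : SimpleGraph (Fin n)} {a b : Fin n → Fin d → ℝ} (hab : ∀ i, a i ≤ b i)
    (hG : ∀ i j, G.Adj i j ↔ i ≠ j ∧ Hit a b i j) (k N : ℕ)
    (hk : ∀ s : Finset (Fin n), G.IsClique s → s.card ≤ k) {H : Fin n → Prop}
    {τ : Fin d → Bool × Bool} (c : Fin n → ℕ)
    (hc2 : ∀ v i, i < c v → ∃ u, R G a b H τ u v ∧ c u = i) :
    ∀ (h : ℕ) (w : Fin n) (D : Finset (Fin n)), (∀ v ∈ D, R G a b H τ v w) →
      (∀ v ∈ D, ∀ u, R G a b H τ u v → G.Adj u w → u ∈ D) →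
      Qn k ((N + 1) ^ d * k) h ≤ (D.image c).card →
      ∃ f : List (Fin N) → Fin n, f [] = w ∧ (0 < h → ∀ i, f [i] ∈ D) ∧ Tr G a b H h N τ f
  | 0, w, D, hD, hcl, hcard => by
    refine ⟨fun _ => w, rfl, fun h => absurd h (Nat.lt_irrefl 0), fun l hl => absurd hl
      (Nat.not_lt_zero _), ?_⟩
    intro s t hs ht
    have h1 : s = [] := List.length_eq_zero_iff.1 (Nat.le_zero.1 hs)
    have h2 : t = [] := List.length_eq_zero_iff.1 (Nat.le_zero.1 ht)
    exact ⟨fun _ => h1.trans h2.symm, fun h => absurd h (G.loopless.irrefl _)⟩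
  | h + 1, w, D, hD, hcl, hcard => by
    classical
    set g := (N + 1) ^ d * k with hg
    set Dv : Fin n → Finset (Fin n) := fun v =>
      Finset.univ.filter (fun u => R G a b H τ u v ∧ ¬ G.Adj u w) with hDv
    set E := D.filter (fun v => Qn k g h ≤ ((Dv v).image c).card) with hE
    set B := D.filter (fun v => ¬ Qn k g h ≤ ((Dv v).image c).card) with hB
    have hbtw : ∀ x y z, Rel a b τ x y → Rel a b τ y z → Hit a b x z → Hit a b x y ∧ Hit a b y z :=
      fun x y z h1 h2 h3 => rel_between hab h1 h2 h3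
    have hbig : g < E.card := by
      by_contra hle
      rw [not_lt] at hle
      have h1 : D.image c ⊆ B.image c ∪ E.image c := by
        intro i hi
        obtain ⟨v, hv, rfl⟩ := Finset.mem_image.1 hi
        by_cases h2 : Qn k g h ≤ ((Dv v).image c).card
        · exact Finset.mem_union_right _ (Finset.mem_image_of_mem c (Finset.mem_filter.2 ⟨hv, h2⟩))
        · exact Finset.mem_union_left _ (Finset.mem_image_of_mem c (Finset.mem_filter.2 ⟨hv, h2⟩))
      have h2 := Finset.card_le_card h1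
      have h3 := Finset.card_union_le (B.image c) (E.image c)
      have h4 : (E.image c).card ≤ g := le_trans Finset.card_image_le hle
      have h5 : k * (Qn k g h + g + 1) + 1 ≤ (B.image c).card := by
        have h6 : Qn k g (h + 1) = k * (Qn k g h + g + 1) + g + 1 := rfl
        rw [h6] at hcard
        omega
      obtain ⟨u, hu, x, hx, hch⟩ := descend c hc2 w D B E (Finset.filter_subset _ _) (by
        intro v hv
        by_cases h2 : Qn k g h ≤ ((Dv v).image c).card
        · exact Or.inr (Finset.mem_filter.2 ⟨hv, h2⟩)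
        · exact Or.inl (Finset.mem_filter.2 ⟨hv, h2⟩)) hcl (Qn k g h) g hle (by
        intro v hv s hs
        have h7 := (Finset.mem_filter.1 hv).2
        rw [not_le] at h7
        refine le_trans (Finset.card_le_card ?_) h7.le
        intro i hi
        obtain ⟨u, hu1, hu2, hu3⟩ := hs i hi
        exact Finset.mem_image.2 ⟨u, Finset.mem_filter.2 ⟨Finset.mem_univ _, hu1, hu2⟩, hu3⟩)
        k B (Finset.Subset.refl B) h5
      have h8 : R G a b H τ u w := hD u ((Finset.filter_subset _ _) hu)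
      have h9 : R G a b H τ x w := hD x hx
      have h10 : Ch (TS a b τ) (k + 1) x w := ch_add k 1 x u w hch (ch_one h8.2.2.2)
      obtain ⟨s, hs, -, -⟩ := clique_of_ch G (TS a b τ) ts_trans (by
        intro x y z h1 h2 h3
        have h4 := rel_between hab h1.1 h2.1 ((hG x z).1 h3).2
        exact ⟨(hG x y).2 ⟨ts_ne h1, h4.1⟩, (hG y z).2 ⟨ts_ne h2, h4.2⟩⟩) k x w h10 h9.2.2.1
      have h11 := hk s hs.isClique
      rw [hs.card_eq] at h11
      omega
    obtain ⟨v, hvE, hvdis⟩ := few G a b hab hG k N hk E hbig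
    have hvD : ∀ i, v i ∈ D := fun i => (Finset.mem_filter.1 (hvE i)).1
    have hvR : ∀ i, R G a b H τ (v i) w := fun i => hD _ (hvD i)
    have hrec : ∀ i : Fin N, ∃ f : List (Fin N) → Fin n, f [] = v i ∧
        (0 < h → ∀ j, f [j] ∈ Dv (v i)) ∧ Tr G a b H h N τ f := by
      intro i
      apply build hab hG k N hk c hc2 h (v i) (Dv (v i))
      · intro u hu
        exact (Finset.mem_filter.1 hu).2.1
      · intro u hu u' hu' hadj
        have h1 := (Finset.mem_filter.1 hu).2
        refine Finset.mem_filter.2 ⟨Finset.mem_univ _, ⟨hu'.1, (hvR i).1, hadj,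
          ts_trans _ _ _ hu'.2.2.2 h1.1.2.2.2⟩, ?_⟩
        intro h2
        apply h1.2
        have h3 : Rel a b τ u w := rel_trans h1.1.2.2.2.1 (hvR i).2.2.2.1
        have h4 := hbtw u' u w hu'.2.2.2.1 h3 ((hG _ _).1 h2).2
        exact (hG _ _).2 ⟨ts_ne (ts_trans _ _ _ h1.1.2.2.2 (hvR i).2.2.2), h4.2⟩
      · exact (Finset.mem_filter.1 (hvE i)).2
    choose fi hfi0 hfi1 hfi2 using hrec
    have hrelv : ∀ i (l : List (Fin N)), l.length ≤ h → Rel a b τ (fi i l) (v i) := by
      intro i l hl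
      have := tr_rel (hfi2 i) [] l (by simpa using hl)
      rw [hfi0 i] at this
      simpa using this
    have htsw : ∀ i (l : List (Fin N)), l.length ≤ h → TS a b τ (fi i l) w := by
      intro i l hl
      have h1 := hrelv i l hl
      have h2 := (hvR i).2.2.2
      exact ⟨rel_trans h1 h2.1, fun h3 => h2.2 (rel_trans h3 h1)⟩
    have hnw : ∀ i (x : Fin N) (l : List (Fin N)), (x :: l).length ≤ h →
        ¬ G.Adj (fi i (x :: l)) w := by
      intro i x l hl hadj
      have hpos : 0 < h := by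
        rw [List.length_cons] at hl
        omega
      have h1 := (Finset.mem_filter.1 (hfi1 i hpos x)).2
      have h2 := tr_rel (hfi2 i) [x] l (by simpa using hl)
      have h3 : Rel a b τ (fi i [x]) w := rel_trans h1.1.2.2.2.1 (hvR i).2.2.2.1
      have h4 := hbtw (fi i ([x] ++ l)) (fi i [x]) w h2 h3 ((hG _ _).1 hadj).2
      exact h1.2 ((hG _ _).2 ⟨ts_ne (ts_trans _ _ _ h1.1.2.2.2 (hvR i).2.2.2), h4.2⟩)
    refine ⟨fun l => List.casesOn l w (fun i l => fi i l), rfl, ?_, ?_, ?_⟩
    · intro _ i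
      show fi i [] ∈ D
      rw [hfi0]
      exact hvD i
    · intro l hl j
      cases l with
      | nil =>
        show R G a b H τ (fi j []) w
        rw [hfi0]
        exact hvR j
      | cons i l =>
        show R G a b H τ (fi i (l ++ [j])) (fi i l)
        rw [List.length_cons] at hl
        exact (hfi2 i).1 l (by omega) j
    · intro s t hs ht
      cases s with
      | nil =>
        cases t with
        | nil => exact ⟨fun _ => rfl, fun h => absurd h (G.loopless.irrefl _)⟩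
        | cons i t =>
          rw [List.length_cons] at ht
          constructor
          · intro heq
            exact absurd (show fi i t = w from heq.symm) (ts_ne (htsw i t (by omega)))
          · intro hadj
            have hadj1 : G.Adj w (fi i t) := hadj
            have hadj' : G.Adj (fi i t) w := hadj1.symm
            cases t with
            | nil => exact Or.inr ⟨i, rfl⟩
            | cons x t => exact absurd hadj' (hnw i x t (by omega))
      | cons i s =>
        rw [List.length_cons] at hs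
        cases t with
        | nil =>
          constructor
          · intro heq
            exact absurd (show fi i s = w from heq) (ts_ne (htsw i s (by omega)))
          · intro hadj
            have hadj' : G.Adj (fi i s) w := hadj
            cases s with
            | nil => exact Or.inl ⟨i, rfl⟩
            | cons x s => exact absurd hadj' (hnw i x s (by omega))
        | cons j t =>
          rw [List.length_cons] at ht
          by_cases hij : i = j
          · subst hij
            obtain ⟨h1, h2⟩ := (hfi2 i).2 s t (by omega) (by omega)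
            constructor
            · intro heq
              rw [h1 heq]
            · intro hadj
              rcases h2 hadj with ⟨x, hx⟩ | ⟨x, hx⟩
              · left; exact ⟨x, by rw [hx]; rfl⟩
              · right; exact ⟨x, by rw [hx]; rfl⟩
          · have hno : ¬ Hit a b (fi i s) (fi j t) := by
              intro hhit
              exact hvdis i j hij (sep hab (hrelv i s (by omega)) (hrelv j t (by omega))
                (hvR i).2.2.2.1 (hvR j).2.2.2.1 ((hG _ _).1 (hvR i).2.2.1).2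
                ((hG _ _).1 (hvR j).2.2.1).2 hhit)
            constructor
            · intro heq
              exfalso
              apply hno
              have h3 : fi i s = fi j t := heq
              rw [h3]
              intro t'
              exact ⟨hab _ t', hab _ t'⟩
            · intro hadj
              exact absurd ((hG _ _).1 hadj).2 hno

/-- One pattern without trees. -/
theorem colour_pattern {G : SimpleGraph (Fin n)} {a b : Fin n → Fin d → ℝ} (hab : ∀ i, a i ≤ b i)
    (hG : ∀ i j, G.Adj i j ↔ i ≠ j ∧ Hit a b i j) (k h N : ℕ)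
    (hk : ∀ s : Finset (Fin n), G.IsClique s → s.card ≤ k) {H : Fin n → Prop}
    (hbad : ∀ u v, H u → H v → G.Adj u v → Bad a b u v) {τ : Fin d → Bool × Bool}
    (hfree : ∀ f : List (Fin N) → Fin n, ¬ IsTree G a b h N τ f) :
    ∃ c : Fin n → Fin (Qn k ((N + 1) ^ d * k) h + 1), ∀ u v, R G a b H τ u v → c u ≠ c v := by
  classical
  have wf : WellFounded (TS a b τ) := by
    have : IsTrans (Fin n) (TS a b τ) := ⟨ts_trans⟩
    have : Std.Irrefl (TS a b τ) := ⟨fun x h => ts_ne h rfl⟩
    exact Finite.wellFounded_of_trans_of_irrefl _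
  obtain ⟨c, hc1, hc2⟩ := grundy (R G a b H τ) (Subrelation.wf (fun h => h.2.2.2) wf)
  have hlt : ∀ w, c w < Qn k ((N + 1) ^ d * k) h + 1 := by
    intro w
    by_contra hcon
    rw [not_lt] at hcon
    have hcard : Qn k ((N + 1) ^ d * k) h ≤
        ((Finset.univ.filter (fun u => R G a b H τ u w)).image c).card := by
      have h1 : Finset.range (c w) ⊆ (Finset.univ.filter (fun u => R G a b H τ u w)).image c := by
        intro i hi
        obtain ⟨u, hu, hcu⟩ := hc2 w i (Finset.mem_range.1 hi)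
        exact Finset.mem_image.2 ⟨u, Finset.mem_filter.2 ⟨Finset.mem_univ _, hu⟩, hcu⟩
      have h2 := Finset.card_le_card h1
      rw [Finset.card_range] at h2
      omega
    obtain ⟨f, -, -, hf⟩ := build hab hG k N hk c hc2 h w
      (Finset.univ.filter (fun u => R G a b H τ u w))
      (fun v hv => (Finset.mem_filter.1 hv).2)
      (by
        intro v hv u hu hadj
        have h1 := (Finset.mem_filter.1 hv).2
        exact Finset.mem_filter.2 ⟨Finset.mem_univ _, hu.1, h1.2.1, hadj,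
          ts_trans _ _ _ hu.2.2.2 h1.2.2.2⟩) hcard
    exact hfree f ⟨fun l hl j => ⟨hbad _ _ (hf.1 l hl j).1 (hf.1 l hl j).2.1 (hf.1 l hl j).2.2.1,
      (hf.1 l hl j).2.2.2⟩, hf.2⟩
  refine ⟨fun u => ⟨c u, hlt u⟩, ?_⟩
  intro u v huv heq
  exact hc1 u v huv (congrArg Fin.val heq)

/-- THE BOUND: all constants explicit. -/
theorem bound (d h N : ℕ) {n : ℕ} (G : SimpleGraph (Fin n)) (a b : Fin n → Fin d → ℝ)
    (hab : ∀ i, a i ≤ b i) (hG : ∀ i j, G.Adj i j ↔ i ≠ j ∧ Hit a b i j)
    (hfree : ∀ τ : Fin d → Bool × Bool, (∀ f : List (Fin N) → Fin n, ¬ IsTree G a b h N τ f) ∨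
      ∀ f : List (Fin N) → Fin n, ¬ IsTree G a b h N (rev τ) f) (k : ℕ)
    (hk : ∀ s : Finset (Fin n), G.IsClique s → s.card ≤ k) :
    G.Colorable ((2 * (2 ^ d * k) + 1) * (k + 1) ^ (2 ^ d) *
      (Qn k ((N + 1) ^ d * k) h + 1) ^ (4 ^ d)) := by
  classical
  obtain ⟨c0, hc0⟩ := base G a b hab hG hk
  have hparts : ∀ (φ : Fin (2 * (2 ^ d * k) + 1) × ((Fin d → Bool) → Fin (k + 1)))
      (τ : Fin d → Bool × Bool), ∃ c : Fin n → Fin (Qn k ((N + 1) ^ d * k) h + 1),
        ∀ u v, c0 u = φ → c0 v = φ → G.Adj u v → TS a b τ u v → c u ≠ c v := by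
    intro φ τ
    have hbad : ∀ u v, c0 u = φ → c0 v = φ → G.Adj u v → Bad a b u v :=
      fun u v hu hv huv => hc0 u v huv (hu.trans hv.symm)
    rcases hfree τ with h1 | h1
    · obtain ⟨c, hc⟩ := colour_pattern hab hG k h N hk (H := fun u => c0 u = φ) hbad h1
      exact ⟨c, fun u v hu hv huv hts => hc u v ⟨hu, hv, huv, hts⟩⟩
    · obtain ⟨c, hc⟩ := colour_pattern hab hG k h N hk (H := fun u => c0 u = φ) hbad h1
      exact ⟨c, fun u v hu hv huv hts => (hc v u ⟨hv, hu, huv.symm, (ts_rev a b τ v u).2 hts⟩).symm⟩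
  choose c hc using hparts
  have hcol : G.Coloring ((Fin (2 * (2 ^ d * k) + 1) × ((Fin d → Bool) → Fin (k + 1))) ×
      ((Fin d → Bool × Bool) → Fin (Qn k ((N + 1) ^ d * k) h + 1))) :=
    SimpleGraph.Coloring.mk (fun u => (c0 u, fun τ => c (c0 u) τ u)) (by
      intro u v huv heq
      have h1 : c0 u = c0 v := congrArg Prod.fst heq
      have h2 : (fun τ => c (c0 u) τ u) = (fun τ => c (c0 v) τ v) := congrArg Prod.snd heq
      obtain ⟨τ, hτ⟩ := exists_type (hc0 u v huv h1)
      have h3 := congrFun h2 τ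
      simp only [h1] at h3
      exact hc (c0 v) τ u v h1 rfl huv hτ h3)
  have hcard := hcol.colorable
  have hcard2 : Fintype.card ((Fin (2 * (2 ^ d * k) + 1) × ((Fin d → Bool) → Fin (k + 1))) ×
      ((Fin d → Bool × Bool) → Fin (Qn k ((N + 1) ^ d * k) h + 1))) =
      (2 * (2 ^ d * k) + 1) * (k + 1) ^ (2 ^ d) *
      (Qn k ((N + 1) ^ d * k) h + 1) ^ (4 ^ d) := by
    simp only [Fintype.card_prod, Fintype.card_fun, Fintype.card_fin, Fintype.card_bool]
  rw [hcard2] at hcard
  exact hcard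

theorem qn_le (k M : ℕ) : ∀ h : ℕ, Qn k (M * k) h + 1 ≤ (h + 1) * (M + 1) * (k + 1) ^ (h + 1)
  | 0 => by
    show 0 + 1 ≤ (0 + 1) * (M + 1) * (k + 1) ^ (0 + 1)
    have h1 : 0 < (0 + 1) * (M + 1) * (k + 1) ^ (0 + 1) := by positivity
    omega
  | h + 1 => by
    have ih := qn_le k M h
    have h1 : Qn k (M * k) (h + 1) = k * (Qn k (M * k) h + M * k + 1) + M * k + 1 := rfl
    rw [h1]
    have h2 : (k + 1) ^ 2 ≤ (k + 1) ^ (h + 1 + 1) := Nat.pow_le_pow_right (by omega) (by omega)
    have h3 : (h + 1 + 1) * (M + 1) * (k + 1) ^ (h + 1 + 1) =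
        (k + 1) * ((h + 1) * (M + 1) * (k + 1) ^ (h + 1)) + (M + 1) * (k + 1) ^ (h + 1 + 1) := by
      ring
    rw [h3]
    have h4 : (M + 1) * (k + 1) ^ 2 ≤ (M + 1) * (k + 1) ^ (h + 1 + 1) := Nat.mul_le_mul_left _ h2
    have h5 : (k + 1) * (Qn k (M * k) h + 1) ≤ (k + 1) * ((h + 1) * (M + 1) * (k + 1) ^ (h + 1)) :=
      Nat.mul_le_mul_left _ ih
    nlinarith [Nat.zero_le (Qn k (M * k) h)]

/-- THE POLYNOMIAL BOUND. -/
theorem poly (d h N : ℕ) : ∃ c e : ℕ, ∀ (n : ℕ) (G : SimpleGraph (Fin n)) (a b : Fin n → Fin d → ℝ),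
    (∀ i, a i ≤ b i) → (∀ i j, G.Adj i j ↔ i ≠ j ∧ Hit a b i j) →
    (∀ τ : Fin d → Bool × Bool, (∀ f : List (Fin N) → Fin n, ¬ IsTree G a b h N τ f) ∨
      ∀ f : List (Fin N) → Fin n, ¬ IsTree G a b h N (rev τ) f) →
      G.chromaticNumber ≤ ((c * (G.cliqueNum + 1) ^ e : ℕ) : ℕ∞) := by
  refine ⟨2 ^ (d + 2) * ((h + 1) * ((N + 1) ^ d + 1)) ^ (4 ^ d), 1 + 2 ^ d + (h + 1) * 4 ^ d, ?_⟩
  intro n G a b hab hG hfree
  set k := G.cliqueNum with hk
  have hclique : ∀ s : Finset (Fin n), G.IsClique s → s.card ≤ k := fun s hs =>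
    hs.card_le_cliqueNum
  have hcol := bound d h N G a b hab hG hfree k hclique
  refine le_trans hcol.chromaticNumber_le ?_
  rw [Nat.cast_le]
  have e2 : 2 * (2 ^ d * k) + 1 ≤ 2 ^ (d + 2) * (k + 1) := by
    have h1 : 1 ≤ 2 ^ d := Nat.one_le_two_pow
    have h2 : 2 ^ (d + 2) = 4 * 2 ^ d := by ring
    rw [h2]
    nlinarith
  have e1 : (Qn k ((N + 1) ^ d * k) h + 1) ^ (4 ^ d) ≤
      ((h + 1) * ((N + 1) ^ d + 1)) ^ (4 ^ d) * (k + 1) ^ ((h + 1) * 4 ^ d) := by
    calc (Qn k ((N + 1) ^ d * k) h + 1) ^ (4 ^ d)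
        ≤ ((h + 1) * ((N + 1) ^ d + 1) * (k + 1) ^ (h + 1)) ^ (4 ^ d) :=
          Nat.pow_le_pow_left (qn_le k ((N + 1) ^ d) h) _
      _ = ((h + 1) * ((N + 1) ^ d + 1)) ^ (4 ^ d) * (k + 1) ^ ((h + 1) * 4 ^ d) := by
          rw [mul_pow, ← pow_mul]
  calc (2 * (2 ^ d * k) + 1) * (k + 1) ^ (2 ^ d) * (Qn k ((N + 1) ^ d * k) h + 1) ^ (4 ^ d)
      ≤ (2 ^ (d + 2) * (k + 1)) * (k + 1) ^ (2 ^ d) *
        (((h + 1) * ((N + 1) ^ d + 1)) ^ (4 ^ d) * (k + 1) ^ ((h + 1) * 4 ^ d)) :=
        Nat.mul_le_mul (Nat.mul_le_mul_right _ e2) e1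
    _ = 2 ^ (d + 2) * ((h + 1) * ((N + 1) ^ d + 1)) ^ (4 ^ d) *
        (k + 1) ^ (1 + 2 ^ d + (h + 1) * 4 ^ d) := by
        rw [pow_add (k + 1) (1 + 2 ^ d) ((h + 1) * 4 ^ d), pow_add (k + 1) 1 (2 ^ d), pow_one]; ring

end Tree57
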